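import Pool.Agent.Lib.MP_f23696_ag.R.Ctx
import Pool.Agent.Lib.MP_f23696_ag.Hahn

/-!
Project LSC-ARR (MP_f23696_ag), module ALG: Euler derivations of the algebraic closure of `K`.
-/

namespace Pool.Agent.MLD.R

open scoped Classical
noncomputable section

universe u v w

theorem euler_ders {k : Type u} [Field k] [CharZero k] {K : Type v} [Field K] [Algebra k K]
    {c m : ℕ} (R : RF k K (m + c)) (hne : ∀ i, R.y i ≠ 0) :
    ∃ (U : Fin c → AlgebraicClosure K)
      (δ : Fin c → Derivation k (AlgebraicClosure K) (AlgebraicClosure K)),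
      (∀ a, U a = algebraMap K (AlgebraicClosure K) (R.y (Fin.natAdd m a))) ∧
      (∀ a, U a ≠ 0) ∧ (∀ a b, δ a (U b) = if a = b then U b else 0) ∧
      AlgebraicIndependent k U := by
  have hK : CharZero K := charZero_of_injective_algebraMap (algebraMap k K).injective
  choose δ hδ using fun a : Fin c => dext (k := k) (R.y (Fin.natAdd m a) • R.D (Fin.natAdd m a))
  refine ⟨fun a => algebraMap K (AlgebraicClosure K) (R.y (Fin.natAdd m a)), δ, fun a => rfl,
    fun a => ?_, fun a b => ?_, ?_⟩
  · rw [Ne, map_eq_zero]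
    exact hne _
  · rw [hδ, Derivation.smul_apply, R.dual, smul_eq_mul]
    by_cases h : a = b
    · rw [if_pos h, if_pos (by rw [h]), h, mul_one]
    · rw [if_neg h, if_neg (fun h' => h (Fin.natAdd_injective _ _ h')), mul_zero, map_zero]
  · have h1 : AlgebraicIndependent k (fun a : Fin c => R.y (Fin.natAdd m a)) :=
      R.ind.comp _ (Fin.natAdd_injective _ _)
    exact h1.map' (f := IsScalarTower.toAlgHom k K (AlgebraicClosure K))
      (algebraMap K (AlgebraicClosure K)).injective

end

end Pool.Agent.MLD.R
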