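import Pool.Agent.Lib.MP_f23696_ag.R.Vec

/-!
Project LSC-ARR (MP_f23696_ag), module FR0: frames (linear algebra).
-/

set_option autoImplicit false

namespace Pool.Agent.MLD.R

open scoped Classical
noncomputable section

universe u v w

variable {c r m : ℕ}

variable {k : Type u} [Field k] {K : Type v} [Field K] [Algebra k K] (C : RA k K c m r)

theorem frame0 (I : Finset (Fin r)) (hI : I.card ≤ c) (hc : c < r) :
    ∃ f : Fin (c + 1) → Fin r, Function.Injective f ∧ f 0 ∉ I ∧ ∀ Q ∈ I, Q ∈ Set.range f := by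
  obtain ⟨Q₀, hQ₀⟩ : ∃ Q₀ : Fin r, Q₀ ∉ I := by
    by_contra hcon
    push Not at hcon
    have h1 : I = Finset.univ := Finset.eq_univ_iff_forall.2 hcon
    rw [h1, Finset.card_univ, Fintype.card_fin] at hI
    omega
  obtain ⟨J, hJ, hJc⟩ : ∃ J : Finset (Fin r), insert Q₀ I ⊆ J ∧ J.card = c + 1 := by
    apply Finset.exists_superset_card_eq
    · rw [Finset.card_insert_of_notMem hQ₀]
      omega
    · rw [Fintype.card_fin]
      omega
  set e : J ≃ Fin (c + 1) := J.equivFinOfCardEq hJc with he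
  have hQJ : Q₀ ∈ J := hJ (Finset.mem_insert_self _ _)
  refine ⟨fun i => (e.symm (Equiv.swap 0 (e ⟨Q₀, hQJ⟩) i) : Fin r), ?_, ?_, ?_⟩
  · intro i j hij
    exact (Equiv.swap _ _).injective (e.symm.injective (Subtype.ext hij))
  · show ((e.symm (Equiv.swap 0 (e ⟨Q₀, hQJ⟩) 0) : J) : Fin r) ∉ I
    rw [Equiv.swap_apply_left, Equiv.symm_apply_apply]
    exact hQ₀
  · intro Q hQ
    have hQ' : Q ∈ J := hJ (Finset.mem_insert_of_mem hQ)
    refine ⟨Equiv.swap 0 (e ⟨Q₀, hQJ⟩) (e ⟨Q, hQ'⟩), ?_⟩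
    show ((e.symm (Equiv.swap 0 (e ⟨Q₀, hQJ⟩) (Equiv.swap 0 (e ⟨Q₀, hQJ⟩) (e ⟨Q, hQ'⟩))) : J) :
      Fin r) = Q
    rw [Equiv.swap_apply_self, Equiv.symm_apply_apply]

include C in
theorem Fr0.indep (I : Finset (Fin r)) (hI : I.card ≤ c) (hc : c < r) :
    LinearIndependent k fun Q : I => C.L Q := by
  obtain ⟨f, hf, -, hfI⟩ := frame0 I hI hc
  have h1 := C.gp f hf
  have h2 : LinearIndependent k (Matrix.of fun i j => C.L (f i) j).row :=
    Matrix.linearIndependent_rows_iff_isUnit.2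
      ((Matrix.isUnit_iff_isUnit_det _).2 (isUnit_iff_ne_zero.2 h1))
  have h3 : LinearIndependent k fun i => C.L (f i) := h2
  choose! t ht using hfI
  have h4 : Function.Injective fun Q : I => t Q := by
    intro Q Q' hQQ
    have h5 : t Q = t Q' := hQQ
    apply Subtype.ext
    rw [← ht Q Q.2, ← ht Q' Q'.2, h5]
  have h6 := h3.comp _ h4
  have h7 : (fun Q : I => C.L Q) = (fun i => C.L (f i)) ∘ fun Q : I => t Q := by
    funext Q
    show C.L Q = C.L (f (t Q))
    rw [ht Q Q.2]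
  rw [h7]
  exact h6

theorem framex (h1c : 1 ≤ c) (hc : c < r) (Q₀ : Fin r) (ζ : (Fin (c + 1) → k) →ₗ[k] k)
    (h1 : ζ (C.L Q₀) = 1) (I : Finset (Fin r)) (hI : I.card ≤ c)
    (hI0 : ∀ Q ∈ I, ζ (C.L Q) = 0) :
    ∃ (g : Fin (c + 1) → Fin (c + 1) → k) (s : Fin r → Fin c), (Matrix.of g).det ≠ 0 ∧
      g 0 = C.L Q₀ ∧ (∀ i : Fin c, ζ (g i.succ) = 0) ∧
      (∀ Q ∈ I, ∀ Q' ∈ I, s Q = s Q' → Q = Q') ∧ ∀ Q ∈ I, g (s Q).succ = C.L Q := by
  have hζ : ζ ≠ 0 := by
    intro h0
    rw [h0, LinearMap.zero_apply] at h1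
    exact zero_ne_one h1
  have hfin : Module.finrank k (LinearMap.ker ζ) = c := by
    have h2 := Module.Dual.finrank_ker_add_one_of_ne_zero (f := ζ) hζ
    rw [Module.finrank_fin_fun] at h2
    omega
  -- the vectors in the kernel
  set w : I → LinearMap.ker ζ := fun Q => ⟨C.L Q, LinearMap.mem_ker.2 (hI0 Q Q.2)⟩ with hw
  have hwi : LinearIndependent k w := by
    have h2 := Fr0.indep C I hI hc
    have h3 : (fun Q : I => C.L Q) = (LinearMap.ker ζ).subtype ∘ w := rfl
    rw [h3] at h2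
    exact LinearIndependent.of_comp _ h2
  have hwr : LinearIndepOn k id (Set.range w) := hwi.linearIndepOn_id
  set b := Module.Basis.extend hwr with hb
  have : Fintype (hwr.extend (Set.subset_univ _)) := FiniteDimensional.fintypeBasisIndex b
  have hcard : Fintype.card (hwr.extend (Set.subset_univ _)) = c := by
    rw [← Module.finrank_eq_card_basis b, hfin]
  set e : hwr.extend (Set.subset_univ _) ≃ Fin c := Fintype.equivFinOfCardEq hcard with he
  have hmem : ∀ Q : I, w Q ∈ hwr.extend (Set.subset_univ _) := fun Q =>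
    hwr.subset_extend _ ⟨Q, rfl⟩
  have hbw : ∀ x : hwr.extend (Set.subset_univ _), b x = x := fun x =>
    Module.Basis.extend_apply_self hwr x
  set g : Fin (c + 1) → Fin (c + 1) → k :=
    Fin.cons (C.L Q₀) fun i => ((b (e.symm i) : LinearMap.ker ζ) : Fin (c + 1) → k) with hg
  have hg0 : g 0 = C.L Q₀ := by rw [hg, Fin.cons_zero]
  have hgs : ∀ i : Fin c, g i.succ = ((b (e.symm i) : LinearMap.ker ζ) : Fin (c + 1) → k) := by
    intro i
    rw [hg, Fin.cons_succ]
  refine ⟨g, fun Q => if hQ : Q ∈ I then e ⟨w ⟨Q, hQ⟩, hmem _⟩ else ⟨0, h1c⟩, ?_, hg0, ?_, ?_, ?_⟩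
  · have h2 : LinearIndependent k g := by
      rw [hg, linearIndependent_finCons]
      constructor
      · have h3 : LinearIndependent k fun i => b (e.symm i) :=
          b.linearIndependent.comp _ e.symm.injective
        exact h3.map' (LinearMap.ker ζ).subtype (Submodule.ker_subtype _)
      · intro hmem'
        have h3 : Submodule.span k (Set.range fun i : Fin c =>
            ((b (e.symm i) : LinearMap.ker ζ) : Fin (c + 1) → k)) ≤ LinearMap.ker ζ := by
          rw [Submodule.span_le]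
          rintro x ⟨i, rfl⟩
          exact (b (e.symm i)).2
        have h4 := LinearMap.mem_ker.1 (h3 hmem')
        rw [h1] at h4
        exact one_ne_zero h4
    have h5 : IsUnit (Matrix.of g) := Matrix.linearIndependent_rows_iff_isUnit.1 h2
    exact ((Matrix.isUnit_iff_isUnit_det _).1 h5).ne_zero
  · intro i
    rw [hgs]
    exact LinearMap.mem_ker.1 (b (e.symm i)).2
  · intro Q hQ Q' hQ' hs
    simp only [dif_pos hQ, dif_pos hQ'] at hs
    have h2 := e.injective hs
    have h3 : w ⟨Q, hQ⟩ = w ⟨Q', hQ'⟩ := congrArg Subtype.val h2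
    exact congrArg Subtype.val (hwi.injective h3)
  · intro Q hQ
    simp only [dif_pos hQ]
    rw [hgs, Equiv.symm_apply_apply, hbw]

end

end Pool.Agent.MLD.R
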