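import Pool.Agent.Lib.MP_f23696_ag.R.Rfb

/-!
Project LSC-ARR (MP_f23696_ag), module FRM: frames of linear forms.
-/

set_option autoImplicit false
set_option linter.unusedSectionVars false

namespace Pool.Agent.MLD.R

open scoped Classical
noncomputable section

universe u v w

variable {c r m : ℕ}

section FRM
variable {k : Type u} [Field k] [CharZero k] {K : Type v} [Field K] [Algebra k K]
  (C : RA k K c m r)

theorem lin_add (l l' : Fin (c + 1) → k) : C.lin (l + l') = C.lin l + C.lin l' := by
  unfold RA.lin linForm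
  simp only [Pi.add_apply, map_add, add_mul, Finset.sum_add_distrib]
  ring

theorem lin_smul (a : k) (l : Fin (c + 1) → k) : C.lin (a • l) = algebraMap k K a * C.lin l := by
  unfold RA.lin linForm
  simp only [Pi.smul_apply, smul_eq_mul, map_mul, mul_add, Finset.mul_sum, mul_assoc]

theorem Frm.lin_zero : C.lin 0 = 0 := by
  unfold RA.lin linForm
  simp

theorem lin_sum {ι : Type w} (s : Finset ι) (a : ι → k) (l : ι → Fin (c + 1) → k) :
    C.lin (∑ i ∈ s, a i • l i) = ∑ i ∈ s, algebraMap k K (a i) * C.lin (l i) := by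
  induction s using Finset.induction_on with
  | empty => rw [Finset.sum_empty, Finset.sum_empty, Frm.lin_zero]
  | insert i s hi ih => rw [Finset.sum_insert hi, Finset.sum_insert hi, lin_add, lin_smul, ih]

namespace Frm

theorem D_z (i : Fin (m + c)) (j : Fin c) :
    C.D i (C.z j) = if i = Fin.natAdd m j then 1 else 0 := by
  have h := C.dual i (Fin.natAdd m j)
  rwa [Fin.append_right] at h

theorem D_x (i : Fin (m + c)) (j : Fin m) :
    C.D i (C.x j) = if i = Fin.castAdd c j then 1 else 0 := by
  have h := C.dual i (Fin.castAdd c j)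
  rwa [Fin.append_left] at h

theorem D_lin_z (i : Fin c) (l : Fin (c + 1) → k) :
    C.D (Fin.natAdd m i) (C.lin l) = algebraMap k K (l i.succ) := by
  unfold RA.lin linForm
  rw [map_add, Derivation.map_algebraMap, zero_add, map_sum]
  rw [Finset.sum_eq_single i]
  · rw [Derivation.leibniz, Derivation.map_algebraMap, smul_zero, add_zero, D_z, if_pos rfl,
      smul_eq_mul, mul_one]
  · intro j _ hj
    rw [Derivation.leibniz, Derivation.map_algebraMap, smul_zero, add_zero, D_z, if_neg,
      smul_zero]
    intro h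
    exact hj (Fin.natAdd_injective _ _ h).symm
  · intro h
    exact absurd (Finset.mem_univ i) h

theorem D_lin_x (i : Fin m) (l : Fin (c + 1) → k) :
    C.D (Fin.castAdd c i) (C.lin l) = 0 := by
  unfold RA.lin linForm
  rw [map_add, Derivation.map_algebraMap, zero_add, map_sum]
  refine Finset.sum_eq_zero fun j _ => ?_
  rw [Derivation.leibniz, Derivation.map_algebraMap, smul_zero, add_zero, D_z, if_neg, smul_zero]
  intro h
  have h1 := congrArg Fin.val h
  have h2 := i.2
  rw [Fin.val_castAdd, Fin.val_natAdd] at h1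
  omega

theorem lin_single_zero : C.lin (Pi.single 0 1) = 1 := by
  unfold RA.lin linForm
  rw [Pi.single_eq_same, map_one, Finset.sum_eq_zero, add_zero]
  intro j _
  rw [Pi.single_eq_of_ne (Fin.succ_ne_zero j), map_zero, zero_mul]

theorem lin_single_succ (i : Fin c) : C.lin (Pi.single i.succ 1) = C.z i := by
  unfold RA.lin linForm
  rw [Pi.single_eq_of_ne (Fin.succ_ne_zero i).symm, map_zero, zero_add, Finset.sum_eq_single i]
  · rw [Pi.single_eq_same, map_one, one_mul]
  · intro j _ hj
    rw [Pi.single_eq_of_ne (fun h => hj (Fin.succ_injective _ h)), map_zero, zero_mul]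
  · intro h
    exact absurd (Finset.mem_univ i) h

end Frm

theorem lin_ne (l : Fin (c + 1) → k) (hl : l ≠ 0) : C.lin l ≠ 0 := by
  intro h
  apply hl
  have h1 : ∀ i : Fin c, l i.succ = 0 := by
    intro i
    have h2 := Frm.D_lin_z C i l
    rw [h, map_zero] at h2
    exact (map_eq_zero (algebraMap k K)).1 h2.symm
  have h0 : l 0 = 0 := by
    have h2 := h
    unfold RA.lin linForm at h2
    rw [Finset.sum_eq_zero fun i _ => by rw [h1 i, map_zero, zero_mul], add_zero] at h2
    exact (map_eq_zero (algebraMap k K)).1 h2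
  funext i
  refine Fin.cases ?_ (fun j => ?_) i
  · exact h0
  · exact h1 j

theorem ell_ne (hc : c < r) (Q : Fin r) : C.ell Q ≠ 0 := by
  apply lin_ne
  intro hL
  have hcr : c + 1 ≤ r := hc
  let f : Fin (c + 1) → Fin r := fun i => Equiv.swap (Fin.castLE hcr 0) Q (Fin.castLE hcr i)
  have hf : Function.Injective f := by
    intro i j hij
    exact Fin.castLE_injective hcr ((Equiv.swap _ _).injective hij)
  have h0 : f 0 = Q := Equiv.swap_apply_left _ _
  apply C.gp f hf
  refine Matrix.det_eq_zero_of_row_eq_zero 0 fun j => ?_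
  rw [Matrix.of_apply, h0, hL, Pi.zero_apply]

theorem x_ne (i : Fin m) : C.x i ≠ 0 := by
  have h := C.ind.ne_zero (Fin.castAdd c i)
  rwa [Fin.append_left] at h

theorem expand (g : Fin (c + 1) → Fin (c + 1) → k) (hg : (Matrix.of g).det ≠ 0)
    (l : Fin (c + 1) → k) : ∃ a : Fin (c + 1) → k, l = ∑ j, a j • g j := by
  have hu : IsUnit (Matrix.of g).det := isUnit_iff_ne_zero.2 hg
  refine ⟨Matrix.vecMul l (Matrix.of g)⁻¹, ?_⟩
  have h1 : Matrix.vecMul (Matrix.vecMul l (Matrix.of g)⁻¹) (Matrix.of g) = l := by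
    rw [Matrix.vecMul_vecMul, Matrix.nonsing_inv_mul _ hu, Matrix.vecMul_one]
  conv_lhs => rw [← h1]
  funext i
  rw [Finset.sum_apply]
  rfl

/-- in the frame of `c + 1` forms of the arrangement all coefficients of another form are nonzero -/
theorem expand_gp (f : Fin (c + 1) → Fin r) (hf : Function.Injective f) (Q : Fin r)
    (hQ : Q ∉ Set.range f) : ∃ a : Fin (c + 1) → k, C.L Q = ∑ j, a j • C.L (f j) ∧
      ∀ j, a j ≠ 0 := by
  obtain ⟨a, ha⟩ := expand (fun i => C.L (f i)) (C.gp f hf) (C.L Q)
  refine ⟨a, ha, fun j₀ h0 => ?_⟩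
  have hinj : Function.Injective (Function.update f j₀ Q) := by
    intro i j hij
    by_cases hi : i = j₀
    · by_cases hj : j = j₀
      · rw [hi, hj]
      · rw [hi, Function.update_self, Function.update_of_ne hj] at hij
        exact absurd ⟨j, hij.symm⟩ hQ
    · by_cases hj : j = j₀
      · rw [hj, Function.update_self, Function.update_of_ne hi] at hij
        exact absurd ⟨i, hij⟩ hQ
      · rw [Function.update_of_ne hi, Function.update_of_ne hj] at hij
        exact hf hij
  apply C.gp _ hinj
  rw [← Matrix.exists_vecMul_eq_zero_iff]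
  refine ⟨Function.update a j₀ (-1), ?_, ?_⟩
  · intro h
    have h1 := congrFun h j₀
    rw [Function.update_self, Pi.zero_apply] at h1
    exact neg_ne_zero.2 one_ne_zero h1
  · funext i
    show ∑ j, Function.update a j₀ (-1) j * C.L (Function.update f j₀ Q j) i = 0
    rw [← Finset.add_sum_erase _ _ (Finset.mem_univ j₀), Function.update_self,
      Function.update_self, ha, Finset.sum_apply, ← Finset.add_sum_erase _ _ (Finset.mem_univ j₀)]
    have h1 : ∑ j ∈ Finset.univ.erase j₀, Function.update a j₀ (-1) j *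
        C.L (Function.update f j₀ Q j) i = ∑ j ∈ Finset.univ.erase j₀, (a j • C.L (f j)) i := by
      refine Finset.sum_congr rfl fun j hj => ?_
      rw [Function.update_of_ne (Finset.ne_of_mem_erase hj),
        Function.update_of_ne (Finset.ne_of_mem_erase hj)]
      rfl
    rw [h1, h0, zero_smul, Pi.zero_apply]
    ring

namespace Frm

theorem g_ne (g : Fin (c + 1) → Fin (c + 1) → k) (hg : (Matrix.of g).det ≠ 0) (j : Fin (c + 1)) :
    g j ≠ 0 := by
  intro h
  apply hg
  refine Matrix.det_eq_zero_of_row_eq_zero j fun i => ?_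
  rw [Matrix.of_apply, h, Pi.zero_apply]

/-- the new coordinates -/
def nz (g : Fin (c + 1) → Fin (c + 1) → k) (i : Fin c) : K := C.lin (g i.succ) / C.lin (g 0)

/-- the Jacobian matrix of the new coordinates -/
def B (g : Fin (c + 1) → Fin (c + 1) → k) : Matrix (Fin c) (Fin c) K :=
  Matrix.of fun i j => C.D (Fin.natAdd m i) (nz C g j)

theorem D_nz_x (g : Fin (c + 1) → Fin (c + 1) → k) (i : Fin m) (j : Fin c) :
    C.D (Fin.castAdd c i) (nz C g j) = 0 := by
  unfold nz
  rw [div_eq_mul_inv, Derivation.leibniz, Derivation.leibniz_inv, D_lin_x, D_lin_x]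
  simp

theorem D_nz_z (g : Fin (c + 1) → Fin (c + 1) → k) (hg : (Matrix.of g).det ≠ 0) (i j : Fin c) :
    C.lin (g 0) * C.D (Fin.natAdd m i) (nz C g j) =
      algebraMap k K (g j.succ i.succ) - C.lin (g j.succ) / C.lin (g 0) *
        algebraMap k K (g 0 i.succ) := by
  have h0 := lin_ne C (g 0) (g_ne g hg 0)
  unfold nz
  rw [div_eq_mul_inv, Derivation.leibniz, Derivation.leibniz_inv, D_lin_z, D_lin_z]
  simp only [smul_eq_mul]
  field_simp
  ring

theorem jac_eq_det_B (g : Fin (c + 1) → Fin (c + 1) → k) :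
    jac C.D (Fin.append C.x (nz C g)) = (B C g).det := by
  unfold jac
  rw [← Matrix.det_reindex_self finSumFinEquiv.symm]
  have h : Matrix.reindex (finSumFinEquiv (m := m) (n := c)).symm finSumFinEquiv.symm
      (Matrix.of fun i j => C.D i (Fin.append C.x (nz C g) j)) =
      Matrix.fromBlocks 1 0 0 (B C g) := by
    ext i j
    rw [Matrix.reindex_apply, Matrix.submatrix_apply, Matrix.of_apply, Equiv.symm_symm]
    rcases i with i | i <;> rcases j with j | j
    · rw [finSumFinEquiv_apply_left, finSumFinEquiv_apply_left, Fin.append_left, D_x,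
        Matrix.fromBlocks_apply₁₁, Matrix.one_apply]
      by_cases hij : i = j
      · rw [if_pos hij, if_pos (by rw [hij])]
      · rw [if_neg hij, if_neg (fun h => hij (Fin.castAdd_injective _ _ h))]
    · rw [finSumFinEquiv_apply_left, finSumFinEquiv_apply_right, Fin.append_right, D_nz_x,
        Matrix.fromBlocks_apply₁₂, Matrix.zero_apply]
    · rw [finSumFinEquiv_apply_right, finSumFinEquiv_apply_left, Fin.append_left, D_x,
        Matrix.fromBlocks_apply₂₁, Matrix.zero_apply, if_neg]
      intro h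
      have h1 := congrArg Fin.val h
      have h2 := j.2
      rw [Fin.val_castAdd, Fin.val_natAdd] at h1
      omega
    · rw [finSumFinEquiv_apply_right, finSumFinEquiv_apply_right, Fin.append_right,
        Matrix.fromBlocks_apply₂₂]
      rfl
  rw [h, Matrix.det_fromBlocks_zero₂₁, Matrix.det_one, one_mul]

/-- `1, z_1, …, z_c` -/
def Z (j : Fin (c + 1)) : K := C.lin (Pi.single j 1)

theorem lin_eq_sum (l : Fin (c + 1) → k) : C.lin l = ∑ j, algebraMap k K (l j) * Z C j := by
  have h : l = ∑ j, l j • (Pi.single j 1 : Fin (c + 1) → k) := by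
    funext i
    rw [Finset.sum_apply, Finset.sum_eq_single i]
    · rw [Pi.smul_apply, Pi.single_eq_same, smul_eq_mul, mul_one]
    · intro j _ hj
      rw [Pi.smul_apply, Pi.single_eq_of_ne hj.symm, smul_zero]
    · intro h
      exact absurd (Finset.mem_univ i) h
  conv_lhs => rw [h, lin_sum]
  rfl

/-- the matrix `g` with the column `0` replaced by the values -/
def H (g : Fin (c + 1) → Fin (c + 1) → k) : Matrix (Fin (c + 1)) (Fin (c + 1)) K :=
  Matrix.of fun i j => if j = 0 then C.lin (g i) else algebraMap k K (g i j)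

theorem H_zero (g : Fin (c + 1) → Fin (c + 1) → k) (i : Fin (c + 1)) :
    H C g i 0 = C.lin (g i) := by
  unfold H
  rw [Matrix.of_apply, if_pos rfl]

theorem H_ne (g : Fin (c + 1) → Fin (c + 1) → k) (i : Fin (c + 1)) {j : Fin (c + 1)}
    (hj : j ≠ 0) : H C g i j = algebraMap k K (g i j) := by
  unfold H
  rw [Matrix.of_apply, if_neg hj]

theorem det_H (g : Fin (c + 1) → Fin (c + 1) → k) :
    (H C g).det = algebraMap k K (Matrix.of g).det := by
  have h1 : H C g = (Matrix.of g).map (algebraMap k K) *
      (1 : Matrix (Fin (c + 1)) (Fin (c + 1)) K).updateCol 0 (Z C) := by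
    ext i j
    rw [Matrix.mul_apply]
    by_cases hj : j = 0
    · subst hj
      rw [H_zero, lin_eq_sum]
      refine Finset.sum_congr rfl fun l _ => ?_
      rw [Matrix.updateCol_self]
      rfl
    · rw [H_ne C g i hj, Finset.sum_eq_single j]
      · rw [Matrix.updateCol_ne hj, Matrix.one_apply_eq, mul_one]
        rfl
      · intro l _ hl
        rw [Matrix.updateCol_ne hj, Matrix.one_apply_ne hl, mul_zero]
      · intro h
        exact absurd (Finset.mem_univ j) h
  have h2 : ((1 : Matrix (Fin (c + 1)) (Fin (c + 1)) K).updateCol 0 (Z C)).det = 1 := by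
    have h3 := Matrix.cramer_apply (1 : Matrix (Fin (c + 1)) (Fin (c + 1)) K) (Z C) 0
    rw [← h3, Matrix.cramer_one]
    show Z C 0 = 1
    exact lin_single_zero C
  rw [h1, Matrix.det_mul, h2, mul_one]
  exact ((algebraMap k K).map_det _).symm

theorem det_B (g : Fin (c + 1) → Fin (c + 1) → k) (hg : (Matrix.of g).det ≠ 0) :
    algebraMap k K (Matrix.of g).det = C.lin (g 0) ^ (c + 1) * (B C g).det := by
  have h0 := lin_ne C (g 0) (g_ne g hg 0)
  set u := C.lin (g 0) with hu
  -- the row reduced matrix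
  set q : Fin (c + 1) → K := fun i => if i = 0 then 0 else C.lin (g i) / u with hq
  set A : Matrix (Fin (c + 1)) (Fin (c + 1)) K :=
    Matrix.of fun i j => H C g i j - q i * H C g 0 j with hA
  have hA0 : ∀ j, A 0 j = H C g 0 j := by
    intro j
    show H C g 0 j - q 0 * H C g 0 j = _
    rw [hq]
    simp
  have h1 : (H C g).det = A.det := by
    refine Matrix.det_eq_of_forall_row_eq_smul_add_const q 0 (by rw [hq]; simp) fun i j => ?_
    rw [hA0]
    show H C g i j = (H C g i j - q i * H C g 0 j) + q i * H C g 0 j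
    ring
  have h2 : A.det = u * (A.submatrix Fin.succ Fin.succ).det := by
    rw [Matrix.det_succ_column_zero, Fin.sum_univ_succ]
    have h3 : ∀ i : Fin c, A i.succ 0 = 0 := by
      intro i
      show H C g i.succ 0 - q i.succ * H C g 0 0 = 0
      have e1 : H C g i.succ 0 = C.lin (g i.succ) := H_zero C g _
      have e2 : H C g 0 0 = u := H_zero C g _
      have e3 : q i.succ = C.lin (g i.succ) / u := if_neg (Fin.succ_ne_zero i)
      rw [e1, e2, e3, div_mul_cancel₀ _ h0, sub_self]
    rw [Finset.sum_eq_zero fun i _ => by rw [h3, mul_zero, zero_mul], add_zero]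
    have e2 : A 0 0 = u := by
      rw [hA0]
      exact H_zero C g _
    rw [e2]
    simp [Fin.succAbove_zero]
  have h4 : A.submatrix Fin.succ Fin.succ = u • (B C g).transpose := by
    ext i j
    rw [Matrix.submatrix_apply, Matrix.smul_apply, Matrix.transpose_apply, smul_eq_mul]
    show H C g i.succ j.succ - q i.succ * H C g 0 j.succ =
      u * C.D (Fin.natAdd m j) (nz C g i)
    rw [hu, D_nz_z C g hg j i]
    have e1 : H C g i.succ j.succ = algebraMap k K (g i.succ j.succ) :=
      H_ne C g _ (Fin.succ_ne_zero j)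
    have e2 : H C g 0 j.succ = algebraMap k K (g 0 j.succ) := H_ne C g _ (Fin.succ_ne_zero j)
    have e3 : q i.succ = C.lin (g i.succ) / u := if_neg (Fin.succ_ne_zero i)
    rw [e1, e2, e3]
  rw [← det_H C g, h1, h2, h4, Matrix.det_smul, Matrix.det_transpose, Fintype.card_fin]
  ring

theorem gen (g : Fin (c + 1) → Fin (c + 1) → k) (hg : (Matrix.of g).det ≠ 0) :
    IntermediateField.adjoin k (Set.range (Fin.append C.x (nz C g))) = ⊤ := by
  set F := IntermediateField.adjoin k (Set.range (Fin.append C.x (nz C g))) with hF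
  have h0 := lin_ne C (g 0) (g_ne g hg 0)
  have hx : ∀ i, C.x i ∈ F := by
    intro i
    apply IntermediateField.subset_adjoin
    exact ⟨Fin.castAdd c i, Fin.append_left _ _ _⟩
  have hz : ∀ i, nz C g i ∈ F := by
    intro i
    apply IntermediateField.subset_adjoin
    exact ⟨Fin.natAdd m i, Fin.append_right _ _ _⟩
  have hr : ∀ j, C.lin (g j) / C.lin (g 0) ∈ F := by
    intro j
    refine Fin.cases ?_ (fun i => ?_) j
    · rw [div_self h0]
      exact F.one_mem
    · exact hz i
  have hq : ∀ l : Fin (c + 1) → k, C.lin l / C.lin (g 0) ∈ F := by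
    intro l
    obtain ⟨a, ha⟩ := expand g hg l
    rw [ha, lin_sum, Finset.sum_div]
    refine F.sum_mem fun j _ => ?_
    rw [mul_div_assoc]
    exact F.mul_mem (F.algebraMap_mem _) (hr j)
  have h1 : C.lin (g 0) ∈ F := by
    have h2 := hq (Pi.single 0 1)
    rw [lin_single_zero, one_div] at h2
    have h3 := F.inv_mem h2
    rwa [inv_inv] at h3
  have h4 : ∀ i, C.z i ∈ F := by
    intro i
    have h2 := F.mul_mem (hq (Pi.single i.succ 1)) h1
    rwa [div_mul_cancel₀ _ h0, lin_single_succ] at h2
  rw [eq_top_iff, ← C.gen, IntermediateField.adjoin_le_iff]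
  rintro _ ⟨i, rfl⟩
  refine Fin.addCases (fun i => ?_) (fun i => ?_) i
  · rw [Fin.append_left]
    exact hx i
  · rw [Fin.append_right]
    exact h4 i

end Frm

theorem frame (g : Fin (c + 1) → Fin (c + 1) → k) (hg : (Matrix.of g).det ≠ 0) :
    ∃ R : RF k K (m + c), R.y = Fin.append C.x (fun i => C.lin (g i.succ) / C.lin (g 0)) ∧
      jac C.D R.y = algebraMap k K (Matrix.of g).det * C.lin (g 0) ^ (-((c : ℤ) + 1)) := by
  have h0 := lin_ne C (g 0) (Frm.g_ne g hg 0)
  have hJ : jac C.D (Fin.append C.x (Frm.nz C g)) =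
      algebraMap k K (Matrix.of g).det * C.lin (g 0) ^ (-((c : ℤ) + 1)) := by
    rw [Frm.jac_eq_det_B, Frm.det_B C g hg, zpow_neg]
    have h1 : C.lin (g 0) ^ ((c : ℤ) + 1) = C.lin (g 0) ^ (c + 1) := by
      rw [← zpow_natCast]
      push_cast
      rfl
    rw [h1]
    field_simp
  have hne : jac C.rf.D (Fin.append C.x (Frm.nz C g)) ≠ 0 := by
    show jac C.D _ ≠ 0
    rw [hJ]
    exact mul_ne_zero (by rwa [Ne, map_eq_zero]) (zpow_ne_zero _ h0)
  obtain ⟨R, hR⟩ := rf_mk C.rf _ hne (Frm.gen C g hg)
  refine ⟨R, hR, ?_⟩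
  rw [hR]
  exact hJ

end FRM

end

end Pool.Agent.MLD.R
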