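import Pool.Agent.Lib.MP_f23696_ag.R.Vec
import Pool.Agent.Lib.MP_f23696_ag.R.Frm
import Pool.Agent.Lib.MP_f23696_ag.JacLog

/-!
Project LSC-ARR (MP_f23696_ag), module TRP: the tropical valuation of a valuation.
-/

namespace Pool.Agent.MLD.R

open scoped Classical
noncomputable section

universe u v w

variable {c r m : ℕ}

section TRP
variable {k : Type u} [Field k] [CharZero k] {K : Type v} [Field K] [Algebra k K]
  (C : RA k K c m r)

namespace Trp

theorem ell_o0 : C.ell (C.o 0) = 1 := by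
  unfold RA.ell RA.lin linForm
  rw [C.hL 0]
  simp

theorem ord_mon (hc : c < r) (v : DVal k K) (M : Vec r m) :
    v.ord (C.mon M) = ∑ Q, M.1 Q * v.ord (C.ell Q) + ∑ i, M.2 i * v.ord (C.x i) := by
  have h1 : ∀ Q ∈ (Finset.univ : Finset (Fin r)), C.ell Q ^ M.1 Q ≠ 0 :=
    fun Q _ => zpow_ne_zero _ (ell_ne C hc Q)
  have h2 : ∀ i ∈ (Finset.univ : Finset (Fin m)), C.x i ^ M.2 i ≠ 0 :=
    fun i _ => zpow_ne_zero _ (x_ne C i)
  unfold RA.mon
  rw [v.ord_mul _ _ (Finset.prod_ne_zero_iff.2 h1) (Finset.prod_ne_zero_iff.2 h2),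
    Jac.ord_prod v _ _ h1, Jac.ord_prod v _ _ h2]
  congr 1
  · exact Finset.sum_congr rfl fun Q _ => Jac.ord_zpow v _ (ell_ne C hc Q) _
  · exact Finset.sum_congr rfl fun i _ => Jac.ord_zpow v _ (x_ne C i) _

theorem mon_dd (Q : Fin r) :
    C.mon (ee Q - ee (C.o 0)) = C.ell Q := by
  unfold RA.mon
  have h2 : ∏ i, C.x i ^ (ee Q - ee (C.o 0) : Vec r m).2 i = 1 := by
    simp [ee]
  rw [h2, mul_one]
  by_cases h : Q = C.o 0
  · subst h
    simp [ell_o0]
  · rw [Finset.prod_eq_single Q]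
    · simp [ee, h]
    · intro b _ hb
      by_cases hb0 : b = C.o 0
      · subst hb0
        rw [ell_o0, one_zpow]
      · simp [ee, hb, hb0]
    · simp

theorem pair_dd (V : Vec r m) (Q Q' : Fin r) :
    pair V (ee Q - ee Q') = V.1 Q - V.1 Q' := by
  rw [pair_sub, pair_ee, pair_ee]

theorem mon_x (i : Fin m) : C.mon (0, Pi.single i 1) = C.x i := by
  unfold RA.mon
  rw [Finset.prod_eq_one (fun Q _ => by simp), one_mul, Finset.prod_eq_single i]
  · simp
  · intro b _ hb
    simp [hb]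
  · simp

theorem pair_x (V : Vec r m) (i : Fin m) : pair V (0, Pi.single i 1) = V.2 i := by
  unfold pair
  rw [Finset.sum_eq_zero (fun Q _ => by simp), zero_add, Finset.sum_eq_single i]
  · simp
  · intro b _ hb
    simp [hb]
  · simp

end Trp

theorem trop_exists (hc : c < r) (v : DVal k K) : ∃ V : Vec r m, Trop c V ∧ HasTrop C V v := by
  have hr : Nonempty (Fin r) := ⟨⟨0, by omega⟩⟩
  obtain ⟨Q₀, -, hQ₀⟩ := Finset.exists_min_image (Finset.univ : Finset (Fin r))
    (fun Q => v.ord (C.ell Q)) Finset.univ_nonempty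
  refine ⟨(fun Q => v.ord (C.ell Q) - v.ord (C.ell Q₀), fun i => v.ord (C.x i)), ⟨?_, ?_⟩, ?_⟩
  · intro Q
    have := hQ₀ Q (Finset.mem_univ _)
    simp only
    omega
  · by_contra hcard
    push Not at hcard
    obtain ⟨s, hs, hs2⟩ := Finset.exists_subset_card_eq (n := c + 1) hcard
    let f : Fin (c + 1) → Fin r := fun i => s.orderEmbOfFin hs2 i
    have hf : Function.Injective f := (s.orderEmbOfFin hs2).injective
    have hfs : ∀ i, f i ∈ s := fun i => s.orderEmbOfFin_mem hs2 i
    obtain ⟨a, ha⟩ := expand (fun j => C.L (f j)) (C.gp f hf) (C.L Q₀)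
    have h1 : C.ell Q₀ = ∑ j, algebraMap k K (a j) * C.ell (f j) := by
      have := lin_sum C Finset.univ a (fun j => C.L (f j))
      rw [← ha] at this
      exact this
    have h2 : Jac.LB v (v.ord (C.ell Q₀) + 1) (C.ell Q₀) := by
      rw [h1]
      apply Jac.LB.sum
      intro j _
      rw [← h1]
      have h3 : Jac.LB v 0 (algebraMap k K (a j)) := by
        intro h0
        have : a j ≠ 0 := by
          intro h; rw [h, map_zero] at h0; exact h0 rfl
        rw [v.ord_algebraMap _ this]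
      have h4 : Jac.LB v (v.ord (C.ell Q₀) + 1) (C.ell (f j)) := by
        intro _
        have h5 := hs (hfs j)
        have h6 := hQ₀ (f j) (Finset.mem_univ _)
        simp only [supp, Finset.mem_filter, Finset.mem_univ, true_and, ne_eq] at h5
        omega
      have h7 := h3.mul h4
      rwa [zero_add] at h7
    have h3 := h2 (ell_ne C hc Q₀)
    omega
  · intro M hM
    rw [Trp.ord_mon C hc v M]
    unfold pair
    simp only
    have h1 : ∑ Q, (v.ord (C.ell Q) - v.ord (C.ell Q₀)) * M.1 Q =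
        ∑ Q, M.1 Q * v.ord (C.ell Q) - v.ord (C.ell Q₀) * deg M := by
      unfold deg
      rw [Finset.mul_sum, ← Finset.sum_sub_distrib]
      exact Finset.sum_congr rfl fun Q _ => by ring
    rw [h1, hM, mul_zero, sub_zero]
    congr 1
    exact Finset.sum_congr rfl fun i _ => by ring

theorem ord_ell (hc : c < r) (v : DVal k K) (V : Vec r m) (hV : HasTrop C V v) (Q : Fin r) :
    v.ord (C.ell Q) = V.1 Q - V.1 (C.o 0) := by
  have h := hV (ee Q - ee (C.o 0)) (by rw [deg_sub, deg_ee, deg_ee, sub_self])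
  rwa [Trp.mon_dd, Trp.pair_dd] at h

theorem ord_x (hc : c < r) (v : DVal k K) (V : Vec r m) (hV : HasTrop C V v) (i : Fin m) :
    v.ord (C.x i) = V.2 i := by
  have h := hV (0, Pi.single i 1) (by simp [deg])
  rwa [Trp.mon_x, Trp.pair_x] at h

end TRP

end

end Pool.Agent.MLD.R
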