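import Pool.Agent.Lib.MP_f23696_ag.R.Vec
import Pool.Agent.Lib.MP_f23696_ag.R.Frm
import Pool.Agent.Lib.MP_f23696_ag.R.Fr0
import Pool.Agent.Lib.MP_f23696_ag.R.Trp
import Pool.Agent.Lib.MP_f23696_ag.JacLog
import Pool.Agent.Lib.MP_f23696_ag.T.Val

/-!
Project LSC-ARR (MP_f23696_ag), module GEF: the inequality for the order of the form in a frame.
-/

set_option autoImplicit false

namespace Pool.Agent.MLD.R

open scoped Classical
open Pool.Agent.MLD.Jac (ord_prod ord_inv ord_zpow)
noncomputable section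

universe u v w

variable {c r m : ℕ}

section GEF
variable {k : Type u} [Field k] [CharZero k] {K : Type v} [Field K] [Algebra k K]
  (C : RA k K c m r)

namespace Gef

omit [CharZero k] in
theorem Dx_x (s i : Fin m) : C.D (Fin.castAdd c s) (C.x i) = if s = i then 1 else 0 := by
  have h := C.dual (Fin.castAdd c s) (Fin.castAdd c i)
  rw [Fin.append_left] at h
  rw [h]
  simp only [Fin.castAdd_inj]

omit [CharZero k] in
theorem Dx_z (s : Fin m) (i : Fin c) : C.D (Fin.castAdd c s) (C.z i) = 0 := by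
  have h := C.dual (Fin.castAdd c s) (Fin.natAdd m i)
  rw [Fin.append_right, if_neg] at h
  · exact h
  · intro h'
    have := congrArg Fin.val h'
    simp only [Fin.val_castAdd, Fin.val_natAdd] at this
    omega

omit [CharZero k] in
theorem Dx_lin (s : Fin m) (l : Fin (c + 1) → k) : C.D (Fin.castAdd c s) (C.lin l) = 0 := by
  unfold RA.lin linForm
  rw [map_add, Derivation.map_algebraMap, zero_add, map_sum]
  refine Finset.sum_eq_zero fun i _ => ?_
  rw [Derivation.leibniz, Dx_z, Derivation.map_algebraMap, smul_zero, smul_zero, add_zero]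

omit [CharZero k] in
theorem Dx_div (s : Fin m) (l l' : Fin (c + 1) → k) :
    C.D (Fin.castAdd c s) (C.lin l / C.lin l') = 0 := by
  rw [Derivation.leibniz_div, Dx_lin, Dx_lin]
  simp

omit [CharZero k] in
theorem Dx_prod_ell (s : Fin m) (S : Finset (Fin r)) (a : Fin r → ℤ) :
    C.D (Fin.castAdd c s) (∏ Q ∈ S, C.ell Q ^ a Q) = 0 := by
  induction S using Finset.induction_on with
  | empty => simp
  | insert Q S hQ ih =>
    have h : C.D (Fin.castAdd c s) (C.ell Q) = 0 := Dx_lin C s (C.L Q)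
    rw [Finset.prod_insert hQ, Derivation.leibniz, ih, Derivation.leibniz_zpow, h]
    simp

theorem Dx_prod_x (s : Fin m) (S : Finset (Fin m)) (u : Fin m → ℤ) :
    C.D (Fin.castAdd c s) (∏ i ∈ S, C.x i ^ u i) =
      (if s ∈ S then (u s : K) else 0) * (∏ i ∈ S, C.x i ^ u i) * (C.x s)⁻¹ := by
  induction S using Finset.induction_on with
  | empty => simp
  | insert a S ha ih =>
    rw [Finset.prod_insert ha, Derivation.leibniz, ih, Derivation.leibniz_zpow, Dx_x]
    simp only [smul_eq_mul, zsmul_eq_mul]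
    rcases eq_or_ne s a with rfl | har
    · rw [if_neg ha, if_pos (Finset.mem_insert_self _ _), if_pos rfl, zpow_sub_one₀ (x_ne C s)]
      ring
    · rw [if_neg har]
      by_cases hr : s ∈ S
      · rw [if_pos hr, if_pos (Finset.mem_insert_of_mem hr)]
        ring
      · rw [if_neg hr, if_neg (by
          rw [Finset.mem_insert, not_or]
          exact ⟨har, hr⟩)]
        ring

theorem Dx_mon (s : Fin m) (M : Vec r m) :
    C.D (Fin.castAdd c s) (C.mon M) = (M.2 s : K) * C.mon M * (C.x s)⁻¹ := by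
  unfold RA.mon
  rw [Derivation.leibniz, Dx_prod_ell, Dx_prod_x, if_pos (Finset.mem_univ s)]
  simp only [smul_eq_mul, mul_zero, add_zero]
  ring

omit [CharZero k] in
/-- the Jacobian is block triangular -/
theorem jac_append (T : Fin m → K) (z' : Fin c → K)
    (hz : ∀ s b, C.D (Fin.castAdd c s) (z' b) = 0) :
    jac C.D (Fin.append T z') =
      (Matrix.of fun s l => C.D (Fin.castAdd c s) (T l)).det *
        (Matrix.of fun a b => C.D (Fin.natAdd m a) (z' b)).det := by
  unfold jac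
  rw [← Matrix.det_submatrix_equiv_self (finSumFinEquiv : Fin m ⊕ Fin c ≃ Fin (m + c))]
  have h : (Matrix.of fun i j => C.D i (Fin.append T z' j)).submatrix
      (finSumFinEquiv : Fin m ⊕ Fin c ≃ Fin (m + c)) finSumFinEquiv =
      Matrix.fromBlocks (Matrix.of fun s l => C.D (Fin.castAdd c s) (T l)) 0
        (Matrix.of fun a l => C.D (Fin.natAdd m a) (T l))
        (Matrix.of fun a b => C.D (Fin.natAdd m a) (z' b)) := by
    ext i j
    rcases i with i | i <;> rcases j with j | j
    · simp [Fin.append_left]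
    · simp [Fin.append_right, hz]
    · simp [Fin.append_left]
    · simp [Fin.append_right]
  rw [h, Matrix.det_fromBlocks_zero₁₂]

theorem mon_ne (hc : c < r) (M : Vec r m) : C.mon M ≠ 0 :=
  mul_ne_zero (Finset.prod_ne_zero_iff.2 fun Q _ => zpow_ne_zero _ (ell_ne C hc Q))
    (Finset.prod_ne_zero_iff.2 fun i _ => zpow_ne_zero _ (x_ne C i))

end Gef

open Gef

theorem ge_frame (hc : c < r) (v : DVal k K) (j : ℤ) (hj : v.FormOrd C.D j)
    (g : Fin (c + 1) → Fin (c + 1) → k) (hg : (Matrix.of g).det ≠ 0) (Z : Set (Vec r m))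
    (hZ : ∀ M ∈ Z, ∃ κ : k, κ ≠ 0 ∧ v.Small (C.mon M - algebraMap k K κ)) :
    ∑ i : Fin c, v.ord (C.lin (g i.succ) / C.lin (g 0)) + ∑ i, v.ord (C.x i) + (rk Z : ℤ) +
      (c + 1) * v.ord (C.lin (g 0)) ≤ j + 1 := by
  have : CharZero K := charZero_of_injective_algebraMap (algebraMap k K).injective
  set z' : Fin c → K := fun i => C.lin (g i.succ) / C.lin (g 0) with hz'
  obtain ⟨R, hR, hRJ⟩ := frame C g hg
  -- rows of `g` are nonzero
  have hrow : ∀ i, g i ≠ 0 := by
    intro i h
    apply hg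
    exact Matrix.det_eq_zero_of_row_eq_zero i fun l => by
      rw [Matrix.of_apply, h]
      rfl
  have hl0 : C.lin (g 0) ≠ 0 := lin_ne C _ (hrow 0)
  have hz0 : ∀ i, z' i ≠ 0 := fun i => div_ne_zero (lin_ne C _ (hrow _)) hl0
  have hzD : ∀ s b, C.D (Fin.castAdd c s) (z' b) = 0 := fun s b => Dx_div C s _ _
  -- the block of the derivatives with respect to `z`
  set B : K := (Matrix.of fun a b => C.D (Fin.natAdd m a) (z' b)).det with hB
  have hBv : B = algebraMap k K (Matrix.of g).det * C.lin (g 0) ^ (-((c : ℤ) + 1)) := by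
    rw [← hRJ, hR, jac_append C C.x z' hzD]
    have h1 : (Matrix.of fun s l => C.D (Fin.castAdd c s) (C.x l)) = 1 := by
      ext s l
      rw [Matrix.of_apply, Dx_x, Matrix.one_apply]
    rw [h1, Matrix.det_one, one_mul]
  have hgk : algebraMap k K (Matrix.of g).det ≠ 0 := fun h => hg ((map_eq_zero _).1 h)
  have hB0 : B ≠ 0 := by
    rw [hBv]
    exact mul_ne_zero hgk (zpow_ne_zero _ hl0)
  have hBo : v.ord B = -((c : ℤ) + 1) * v.ord (C.lin (g 0)) := by
    rw [hBv, v.ord_mul _ _ hgk (zpow_ne_zero _ hl0), v.ord_algebraMap _ hg, zero_add,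
      ord_zpow v _ hl0]
  -- the elements of the frame
  set S : Set (Fin m → ℚ) := (fun M : Vec r m => fun i => (M.2 i : ℚ)) '' Z with hS
  obtain ⟨s0, hs0S, hs0c, -, hs0⟩ := Submodule.exists_finset_span_eq_linearIndepOn ℚ S
  have hrk : rk Z = s0.card := hs0c.symm
  set E : Set (Fin m → ℚ) := Set.range fun i : Fin m => (Pi.single i (1 : ℚ) : Fin m → ℚ) with hE
  obtain ⟨b, hbt, hsb, htb, hb⟩ := exists_linearIndepOn_id_extension hs0
    (Set.subset_union_left : (s0 : Set (Fin m → ℚ)) ⊆ (s0 : Set (Fin m → ℚ)) ∪ E)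
  have hspan : ⊤ ≤ Submodule.span ℚ b := by
    rw [← (Pi.basisFun ℚ (Fin m)).span_eq, Submodule.span_le]
    rintro _ ⟨i, rfl⟩
    rw [Pi.basisFun_apply]
    exact htb (Or.inr ⟨i, rfl⟩)
  have hb' : LinearIndependent ℚ ((↑) : b → (Fin m → ℚ)) := hb
  have hfinb : b.Finite := hb'.setFinite
  have : Fintype b := hfinb.fintype
  have hcard : Fintype.card b = m := by
    have B : Module.Basis b ℚ (Fin m → ℚ) := Module.Basis.mk hb' (by simpa using hspan)
    have h1 := Module.finrank_eq_card_basis B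
    rw [Module.finrank_fin_fun] at h1
    exact h1.symm
  let e : Fin m ≃ b := (Fintype.equivFinOfCardEq hcard).symm
  have hel : ∀ β : b, ∃ (U : Fin m → ℤ) (M T : K), (fun i => (U i : ℚ)) = (β : Fin m → ℚ) ∧
      M ≠ 0 ∧ T ≠ 0 ∧
      (∀ s, C.D (Fin.castAdd c s) T = (U s : K) * M * (C.x s)⁻¹) ∧
      v.ord M + (if (β : Fin m → ℚ) ∈ s0 then 1 else 0) ≤ v.ord T := by
    intro β
    by_cases hβ : (β : Fin m → ℚ) ∈ s0
    · obtain ⟨t, htZ, hβt⟩ := hs0S hβ
      obtain ⟨κ, hκ, hsm⟩ := hZ t htZ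
      have hck : algebraMap k K κ ≠ 0 := fun h => hκ ((map_eq_zero (algebraMap k K)).1 h)
      have hm0 : C.mon t ≠ 0 := mon_ne C hc t
      have hT0 : C.mon t - algebraMap k K κ ≠ 0 := by
        intro h
        refine hb'.ne_zero β ?_
        rw [← hβt]
        ext s
        have h1 := Dx_mon C s t
        rw [sub_eq_zero.1 h, Derivation.map_algebraMap, ← sub_eq_zero.1 h] at h1
        have h2 : ((t.2 s : ℤ) : K) = 0 := by
          rcases mul_eq_zero.1 h1.symm with h3 | h3
          · rcases mul_eq_zero.1 h3 with h4 | h4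
            · exact h4
            · exact absurd h4 hm0
          · exact absurd h3 (inv_ne_zero (x_ne C s))
        have h3 : t.2 s = 0 := by exact_mod_cast h2
        simp [h3]
      have ho : v.ord (C.mon t) = 0 := by
        have h1 : C.mon t = algebraMap k K κ + (C.mon t - algebraMap k K κ) := by ring
        rw [h1, (Ten.ord_add_eq v hck (b := C.mon t - algebraMap k K κ) (by
          rw [v.ord_algebraMap κ hκ, zero_add]
          exact hsm)).2, v.ord_algebraMap κ hκ]
      refine ⟨t.2, C.mon t, C.mon t - algebraMap k K κ, hβt, hm0, hT0, ?_, ?_⟩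
      · intro s
        rw [map_sub, Derivation.map_algebraMap, sub_zero, Dx_mon]
      · rw [if_pos hβ, ho, zero_add]
        exact hsm hT0
    · rcases hbt β.2 with h1 | ⟨i, hi⟩
      · exact absurd h1 hβ
      · refine ⟨Pi.single i 1, C.x i, C.x i, ?_, x_ne C i, x_ne C i, ?_, ?_⟩
        · rw [← hi]
          ext s
          rcases eq_or_ne s i with rfl | hs
          · simp
          · simp [Pi.single_eq_of_ne hs]
        · intro s
          rw [Dx_x]
          rcases eq_or_ne s i with rfl | hs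
          · rw [if_pos rfl, Pi.single_eq_same, Int.cast_one, one_mul,
              mul_inv_cancel₀ (x_ne C s)]
          · rw [if_neg hs, Pi.single_eq_of_ne hs, Int.cast_zero, zero_mul, zero_mul]
        · rw [if_neg hβ, add_zero]
  choose U M T hU hM0 hT0 hTd hTo using hel
  have hdet : (Matrix.of fun s l => ((U (e l) s : ℤ) : K)).det ≠ 0 := by
    have h1 : IsUnit (Matrix.of fun s l => ((U (e l) s : ℤ) : ℚ)) := by
      rw [← Matrix.linearIndependent_cols_iff_isUnit]
      have h2 : (Matrix.of fun s l => ((U (e l) s : ℤ) : ℚ)).col =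
          fun l => ((e l : b) : Fin m → ℚ) := by
        ext l s
        rw [← hU (e l)]
        rfl
      rw [h2]
      exact hb'.comp e e.injective
    have h2 : (Matrix.of fun s l => (U (e l) s : ℤ)).det ≠ 0 := by
      intro h
      rw [Matrix.isUnit_iff_isUnit_det] at h1
      refine h1.ne_zero ?_
      have h3 := Int.cast_det (R := ℚ) (Matrix.of fun s l => (U (e l) s : ℤ))
      rw [h, Int.cast_zero] at h3
      exact h3.symm
    have h3 := Int.cast_det (R := K) (Matrix.of fun s l => (U (e l) s : ℤ))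
    have h4 : (Matrix.of fun s l => ((U (e l) s : ℤ) : K)) =
        (Matrix.of fun s l => (U (e l) s : ℤ)).map (fun a : ℤ => (a : K)) := rfl
    rw [h4, ← h3]
    exact Int.cast_ne_zero.2 h2
  have hdeto : v.ord (Matrix.of fun s l => ((U (e l) s : ℤ) : K)).det = 0 := by
    have h3 := Int.cast_det (R := K) (Matrix.of fun s l => (U (e l) s : ℤ))
    have h4 : (Matrix.of fun s l => ((U (e l) s : ℤ) : K)) =
        (Matrix.of fun s l => (U (e l) s : ℤ)).map (fun a : ℤ => (a : K)) := rfl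
    rw [h4, ← h3] at hdet ⊢
    have h5 : (((Matrix.of fun s l => (U (e l) s : ℤ)).det : ℤ) : K) =
        algebraMap k K ((Matrix.of fun s l => (U (e l) s : ℤ)).det : k) := by simp
    rw [h5] at hdet ⊢
    exact v.ord_algebraMap _ fun h => hdet (by rw [h, map_zero])
  have hblk : (Matrix.of fun s l => C.D (Fin.castAdd c s) (T (e l))).det =
      (∏ s, (C.x s)⁻¹) * ((∏ l, M (e l)) *
        (Matrix.of fun s l => ((U (e l) s : ℤ) : K)).det) := by
    have h1 : (Matrix.of fun s l => C.D (Fin.castAdd c s) (T (e l))) = Matrix.of fun s l =>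
        (C.x s)⁻¹ * (M (e l) * ((U (e l) s : ℤ) : K)) := by
      ext s l
      rw [Matrix.of_apply, Matrix.of_apply, hTd (e l) s]
      ring
    rw [h1, Matrix.det_mul_column]
    congr 1
    rw [← Matrix.det_mul_row]
    rfl
  have hx0 : (∏ s, (C.x s)⁻¹) ≠ 0 := Finset.prod_ne_zero_iff.2 fun s _ => inv_ne_zero (x_ne C s)
  have hMp : (∏ l, M (e l)) ≠ 0 := Finset.prod_ne_zero_iff.2 fun l _ => hM0 (e l)
  have hfr : jac C.D (Fin.append (fun l => T (e l)) z') = ((∏ s, (C.x s)⁻¹) * ((∏ l, M (e l)) *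
      (Matrix.of fun s l => ((U (e l) s : ℤ) : K)).det)) * B := by
    rw [jac_append C _ z' hzD, hblk]
  have hJne : jac C.D (Fin.append (fun l => T (e l)) z') ≠ 0 := by
    rw [hfr]
    exact mul_ne_zero (mul_ne_zero hx0 (mul_ne_zero hMp hdet)) hB0
  have hJo : v.ord (jac C.D (Fin.append (fun l => T (e l)) z')) =
      -(∑ s, v.ord (C.x s)) + ∑ l, v.ord (M (e l)) + -((c : ℤ) + 1) * v.ord (C.lin (g 0)) := by
    rw [hfr, v.ord_mul _ _ (mul_ne_zero hx0 (mul_ne_zero hMp hdet)) hB0,
      v.ord_mul _ _ hx0 (mul_ne_zero hMp hdet), v.ord_mul _ _ hMp hdet, hdeto, hBo,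
      ord_prod v _ _ fun s _ => inv_ne_zero (x_ne C s), ord_prod v _ _ fun l _ => hM0 (e l)]
    have h1 : ∑ s, v.ord (C.x s)⁻¹ = -∑ s, v.ord (C.x s) := by
      rw [← Finset.sum_neg_distrib]
      exact Finset.sum_congr rfl fun s _ => ord_inv v _ (x_ne C s)
    rw [h1]
    ring
  have hlog := log_ineq v C.D j hj (Fin.append (fun l => T (e l)) z')
    (fun i => by
      refine Fin.addCases (fun l => ?_) (fun l => ?_) i
      · rw [Fin.append_left]
        exact hT0 (e l)
      · rw [Fin.append_right]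
        exact hz0 l) hJne
  rw [hJo, Fin.sum_univ_add] at hlog
  simp only [Fin.append_left, Fin.append_right] at hlog
  have hsum : ∑ l, v.ord (M (e l)) + (s0.card : ℤ) ≤ ∑ l, v.ord (T (e l)) := by
    have h1 : ∑ l, (v.ord (M (e l)) + (if ((e l : b) : Fin m → ℚ) ∈ s0 then (1 : ℤ) else 0)) ≤
        ∑ l, v.ord (T (e l)) := Finset.sum_le_sum fun l _ => hTo (e l)
    rw [Finset.sum_add_distrib] at h1
    have h2 : ∑ l, (if ((e l : b) : Fin m → ℚ) ∈ s0 then (1 : ℤ) else 0) = s0.card := by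
      rw [Equiv.sum_comp e (fun β : b => if (β : Fin m → ℚ) ∈ s0 then (1 : ℤ) else 0)]
      rw [Finset.sum_boole]
      congr 1
      refine Finset.card_bij (fun β _ => (β : Fin m → ℚ)) ?_ ?_ ?_
      · intro β hβ
        exact (Finset.mem_filter.1 hβ).2
      · intro β _ β' _ h
        exact Subtype.ext h
      · intro β hβ
        exact ⟨⟨β, hsb hβ⟩, Finset.mem_filter.2 ⟨Finset.mem_univ _, hβ⟩, rfl⟩
    rw [h2] at h1
    exact h1
  rw [hrk]
  linarith

theorem disc_le (hc : c < r) (v : DVal k K) (j : ℤ) (hj : v.FormOrd C.D j) (V : Vec r m)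
    (hV : Trop c V) (hVv : HasTrop C V v) : disc c (C.o 0) V ≤ j + 1 := by
  obtain ⟨f, hf, hf0, hfr⟩ := frame0 (supp V) hV.card hc
  have h := ge_frame C hc v j hj (fun i => C.L (f i)) (C.gp f hf) ∅
    (fun M hM => absurd hM (Set.notMem_empty M))
  have h0 : V.1 (f 0) = 0 := by
    by_contra hne
    exact hf0 (Finset.mem_filter.2 ⟨Finset.mem_univ _, hne⟩)
  have h1 : ∀ i : Fin c, v.ord (C.lin (C.L (f i.succ)) / C.lin (C.L (f 0))) = V.1 (f i.succ) := by
    intro i
    have e1 : C.lin (C.L (f i.succ)) = C.ell (f i.succ) := rfl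
    have e2 : C.lin (C.L (f 0)) = C.ell (f 0) := rfl
    rw [e1, e2, Ten.ord_div v _ _ (ell_ne C hc _) (ell_ne C hc _), ord_ell C hc v V hVv,
      ord_ell C hc v V hVv, h0]
    ring
  have h2 : v.ord (C.lin (C.L (f 0))) = -V.1 (C.o 0) := by
    have e2 : C.lin (C.L (f 0)) = C.ell (f 0) := rfl
    rw [e2, ord_ell C hc v V hVv, h0]
    ring
  have h3 : ∑ Q, V.1 Q = ∑ i : Fin c, V.1 (f i.succ) := by
    have e1 : ∑ Q ∈ Finset.univ.map ⟨f, hf⟩, V.1 Q = ∑ i, V.1 (f i) := by
      rw [Finset.sum_map]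
      rfl
    rw [Fin.sum_univ_succ, h0, zero_add] at e1
    rw [← e1]
    symm
    refine Finset.sum_subset (Finset.subset_univ _) fun Q _ hQ => ?_
    by_contra hne
    obtain ⟨i, hi⟩ := hfr Q (Finset.mem_filter.2 ⟨Finset.mem_univ _, hne⟩)
    exact hQ (Finset.mem_map.2 ⟨i, Finset.mem_univ _, hi⟩)
  have h4 : ∑ i, v.ord (C.x i) = ∑ i, V.2 i :=
    Finset.sum_congr rfl fun i _ => ord_x C hc v V hVv i
  have h5 : (0 : ℤ) ≤ (rk (∅ : Set (Vec r m)) : ℤ) := Int.natCast_nonneg _
  rw [Finset.sum_congr rfl fun i _ => h1 i, h4, h2] at h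
  unfold disc
  rw [h3]
  linarith

end GEF

end

end Pool.Agent.MLD.R
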