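import Pool.Agent.Lib.MP_f23696_ag.R.Vec
import Pool.Agent.Lib.MP_f23696_ag.T.Pts

/-!
Project LSC-ARR (MP_f23696_ag), module MNB: elementary properties of monomials.
-/

namespace Pool.Agent.MLD.R

open scoped Classical
noncomputable section

set_option linter.unusedSectionVars false

universe u v w

variable {c r m : ℕ}

namespace Mon

section
variable {k : Type u} [Field k] {K : Type v} [Field K] [Algebra k K] (C : RA k K c m r)

theorem x_ne (i : Fin m) : C.x i ≠ 0 := by
  have h := C.ind.ne_zero (Fin.castAdd c i)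
  rwa [Fin.append_left] at h

theorem z_ind : AlgebraicIndependent k C.z := by
  have h := C.ind.comp (Fin.natAdd m) (Fin.natAdd_injective c m)
  have h1 : Fin.append C.x C.z ∘ Fin.natAdd m = C.z := by
    funext i
    simp
  rwa [h1] at h

theorem lin_ne (l : Fin (c + 1) → k) (hl : l ≠ 0) : C.lin l ≠ 0 := by
  intro h0
  apply hl
  have hz := z_ind C
  rw [algebraicIndependent_iff] at hz
  have h1 := hz (MvPolynomial.C (l 0) + ∑ i, MvPolynomial.C (l i.succ) * MvPolynomial.X i) (by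
    rw [map_add, map_sum, MvPolynomial.aeval_C]
    unfold RA.lin linForm at h0
    rw [← h0]
    congr 1
    refine Finset.sum_congr rfl fun i _ => ?_
    rw [map_mul, MvPolynomial.aeval_C, MvPolynomial.aeval_X])
  funext j
  refine Fin.cases ?_ (fun i => ?_) j
  · have h2 := congrArg (MvPolynomial.coeff 0) h1
    simpa [MvPolynomial.coeff_add, MvPolynomial.coeff_sum, MvPolynomial.coeff_C_mul] using h2
  · have h2 := congrArg (MvPolynomial.coeff (Finsupp.single i 1)) h1
    rw [MvPolynomial.coeff_add, MvPolynomial.coeff_sum, MvPolynomial.coeff_zero,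
      MvPolynomial.coeff_C, if_neg (by
        intro h
        have := congrArg (fun f => f i) h
        simp at this), zero_add, Finset.sum_eq_single i] at h2
    · rw [MvPolynomial.coeff_C_mul, MvPolynomial.coeff_X', if_pos rfl, mul_one] at h2
      exact h2
    · intro j _ hj
      rw [MvPolynomial.coeff_C_mul, MvPolynomial.coeff_X', if_neg, mul_zero]
      intro h
      exact hj (Finsupp.single_left_injective one_ne_zero h)
    · intro h
      exact absurd (Finset.mem_univ i) h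

theorem ell_ne (hc : c < r) (Q : Fin r) : C.ell Q ≠ 0 := by
  refine lin_ne C _ fun h0 => ?_
  let g : Fin (c + 1) → Fin r := Fin.castLE hc
  have hg : Function.Injective g := Fin.castLE_injective hc
  have h1 := C.gp (fun i => Equiv.swap (g 0) Q (g i)) ((Equiv.injective _).comp hg)
  apply h1
  apply Matrix.det_eq_zero_of_row_eq_zero 0
  intro j
  rw [Matrix.of_apply]
  simp only [Equiv.swap_apply_left]
  rw [h0]
  rfl

end

end Mon

section MON
variable {k : Type u} [Field k] [IsAlgClosed k] [CharZero k] {K : Type v} [Field K] [Algebra k K]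
  {C : RA k K c m r}

theorem mon_add (hc : c < r) (M N : Vec r m) : C.mon (M + N) = C.mon M * C.mon N := by
  unfold RA.mon
  have h1 : ∏ Q, C.ell Q ^ (M + N).1 Q = (∏ Q, C.ell Q ^ M.1 Q) * ∏ Q, C.ell Q ^ N.1 Q := by
    rw [← Finset.prod_mul_distrib]
    exact Finset.prod_congr rfl fun Q _ => zpow_add₀ (Mon.ell_ne C hc Q) _ _
  have h2 : ∏ i, C.x i ^ (M + N).2 i = (∏ i, C.x i ^ M.2 i) * ∏ i, C.x i ^ N.2 i := by
    rw [← Finset.prod_mul_distrib]
    exact Finset.prod_congr rfl fun i _ => zpow_add₀ (Mon.x_ne C i) _ _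
  rw [h1, h2]
  ring

theorem mon_zero : C.mon 0 = 1 := by
  simp [RA.mon]

theorem mon_ne (hc : c < r) (M : Vec r m) : C.mon M ≠ 0 :=
  mul_ne_zero (Finset.prod_ne_zero_iff.2 fun Q _ => zpow_ne_zero _ (Mon.ell_ne C hc Q))
    (Finset.prod_ne_zero_iff.2 fun i _ => zpow_ne_zero _ (Mon.x_ne C i))

theorem mon_neg (hc : c < r) (M : Vec r m) : C.mon (-M) = (C.mon M)⁻¹ := by
  apply eq_inv_of_mul_eq_one_left
  rw [← mon_add hc, neg_add_cancel, mon_zero]

theorem mon_ee (Q : Fin r) : C.mon (ee Q) = C.ell Q := by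
  unfold RA.mon ee
  simp only [Pi.zero_apply, zpow_zero, Finset.prod_const_one, mul_one]
  rw [Finset.prod_eq_single Q]
  · rw [Pi.single_eq_same, zpow_one]
  · intro Q' _ h
    rw [Pi.single_eq_of_ne h, zpow_zero]
  · intro h
    exact absurd (Finset.mem_univ Q) h

theorem ell_o : C.ell (C.o 0) = 1 := by
  unfold RA.ell RA.lin linForm
  rw [C.hL 0]
  simp

theorem ell_o_succ (i : Fin c) : C.ell (C.o i.succ) = C.z i := by
  unfold RA.ell RA.lin linForm
  rw [C.hL i.succ, Pi.single_eq_of_ne (Fin.succ_ne_zero i).symm, map_zero, zero_add,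
    Finset.sum_eq_single i]
  · rw [Pi.single_eq_same, map_one, one_mul]
  · intro j _ hj
    rw [Pi.single_eq_of_ne (fun h => hj (Fin.succ_injective _ h)), map_zero, zero_mul]
  · intro h
    exact absurd (Finset.mem_univ i) h

theorem Mon.fg (X : AV C) : X.A.FG := by
  rw [Subalgebra.fg_def]
  exact ⟨C.mon '' (X.gens : Set (Vec r m)), X.gens.finite_toSet.image _, X.adj⟩

theorem good (X : AV C) : Ten.IsGood X.A := ⟨Mon.fg X, X.frac, X.normal⟩

theorem Mon.ft (X : AV C) : Algebra.FiniteType k X.A := Subalgebra.fg_iff_finiteType _ |>.1 (Mon.fg X)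

theorem noeth (X : AV C) : IsNoetherianRing X.A := by
  have := Mon.ft X
  exact Algebra.FiniteType.isNoetherianRing k X.A

theorem MX_add (hc : c < r) (X : AV C) {M N : Vec r m} (hM : M ∈ X.MX) (hN : N ∈ X.MX) :
    M + N ∈ X.MX := by
  refine ⟨by rw [deg_add, hM.1, hN.1, add_zero], ?_⟩
  rw [mon_add hc]
  exact mul_mem hM.2 hN.2

theorem MX_zero (X : AV C) : (0 : Vec r m) ∈ X.MX :=
  ⟨deg_zero, by rw [mon_zero]; exact one_mem _⟩

/-- the coordinate ring is spanned by its monomials -/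
theorem mem_span (hc : c < r) (X : AV C) (a : X.A) :
    (a : K) ∈ Submodule.span k (C.mon '' X.MX) := by
  have h1 : (a : K) ∈ Subalgebra.toSubmodule
      (Algebra.adjoin k (C.mon '' (X.gens : Set (Vec r m)))) := by
    rw [X.adj]
    exact a.2
  rw [Algebra.adjoin_eq_span] at h1
  refine Submodule.span_mono ?_ h1
  intro y hy
  induction hy using Submonoid.closure_induction with
  | mem y hy =>
    obtain ⟨M, hM, rfl⟩ := hy
    refine ⟨M, ⟨X.gens0 M hM, ?_⟩, rfl⟩
    rw [← X.adj]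
    exact Algebra.subset_adjoin ⟨M, hM, rfl⟩
  | one => exact ⟨0, MX_zero X, mon_zero⟩
  | mul y z _ _ hy hz =>
    obtain ⟨M, hM, rfl⟩ := hy
    obtain ⟨N, hN, rfl⟩ := hz
    exact ⟨M + N, MX_add hc X hM hN, mon_add hc M N⟩

theorem eval (X : AV C) (x : MaximalSpectrum X.A) :
    ∃ ε : X.A →ₐ[k] k, ∀ a, a ∈ x.asIdeal ↔ ε a = 0 := by
  have := Mon.ft X
  obtain ⟨ε, hε⟩ := Ten.PTS.exists_pt (k := k) x
  refine ⟨ε, fun a => ?_⟩
  rw [hε]
  exact Ten.PTS.mem_pt ε a

theorem S_sub (X : AV C) (p : Ideal X.A) : X.S p ⊆ X.MX := fun _ hM => ⟨hM.1, hM.2.choose⟩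

/-- for a valuation with centre `p`, the monomials of the ring not in `p` are those of value zero -/
theorem S_iff (hc : c < r) (X : AV C) (p : Ideal X.A) (v : DVal k K) (hv : v.HasCenter X.A p)
    (V : Vec r m) (hV : HasTrop C V v) (M : Vec r m) (hM : M ∈ X.MX) :
    0 ≤ pair V M ∧ (M ∈ X.S p ↔ pair V M = 0) := by
  have h1 := hV M hM.1
  have hne := mon_ne (C := C) hc M
  have h2 : 0 ≤ v.ord (C.mon M) := hv.1 ⟨C.mon M, hM.2⟩ hne
  have h3 := hv.2 ⟨C.mon M, hM.2⟩
  rw [h1] at h2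
  refine ⟨h2, ?_, ?_⟩
  · rintro ⟨_, h, hp⟩
    rw [h3] at hp
    by_contra h0
    apply hp
    intro _
    change 0 < v.ord (C.mon M)
    rw [h1]
    omega
  · intro h0
    refine ⟨hM.1, hM.2, fun hp => ?_⟩
    have h4 : 0 < v.ord (C.mon M) := (h3.1 hp) hne
    omega

theorem toEq_val (hc : c < r) (γ : Vec r m →₀ ℝ) (hγ : ∀ M ∈ γ.support, deg M = 0) (V : Vec r m)
    (v : DVal k K) (N : ℝ) (h : ∀ M, deg M = 0 → (N : ℝ) * v.ord (C.mon M) = pair V M) :
    N * v.val (C.toEq γ) = pairR V γ := by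
  unfold DVal.val RA.toEq pairR
  rw [Finsupp.sum_mapDomain_index (fun _ => zero_mul _) (fun _ _ _ => add_mul _ _ _)]
  unfold Finsupp.sum
  rw [Finset.mul_sum]
  refine Finset.sum_congr rfl fun x hx => ?_
  have h1 : ((C.monU x : Kˣ) : K) = C.mon x := by
    unfold RA.monU
    rw [dif_pos (mon_ne hc x)]
    rfl
  show N * (γ x * (v.ord ((C.monU x : Kˣ) : K) : ℝ)) = γ x * (pair V x : ℝ)
  rw [h1, ← h x (hγ x hx)]
  ring

end MON

end

end Pool.Agent.MLD.R
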