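import Pool.Agent.Lib.MP_f23696_ag.R.Tfr

/-!
Project LSC-ARR (MP_f23696_ag), module SPN: the span lemma.
-/

set_option autoImplicit false
set_option linter.unusedSectionVars false

namespace Pool.Agent.MLD.R

open scoped Classical
noncomputable section

universe u v w

variable {c r m : ℕ}

section SPN
variable {k : Type u} [Field k] [CharZero k] {K : Type v} [Field K] [Algebra k K]
  (C : RA k K c m r)

namespace Spn

open Tfr

/-- The homogeneous components have at least the value of the sum. -/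
theorem comp_ord (hc : c < r) {V : Vec r m} {v : DVal k K} (hv : MonVal C V v)
    (κ : Vec r m →₀ k) (hκ : ∀ M ∈ κ.support, deg M = 0) (h0 : C.esum κ ≠ 0) (u : Fin m → ℤ)
    (hu : C.esum (κ.filter fun M => M.2 = u) ≠ 0) :
    v.ord (C.esum κ) ≤ v.ord (C.esum (κ.filter fun M => M.2 = u)) := by
  obtain ⟨f, hf, -, -, hmin⟩ := hv.min
  obtain ⟨N, hN, -, hNT⟩ := to_frame C hc f hf κ.support hκ
  have h1 : ∀ M : Vec r m, ∃ η : Vec r m →₀ k,
      (∀ M' ∈ η.support, M' ∈ FM f ∧ M'.2 = M.2) ∧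
        (M ∈ κ.support → C.esum η = C.mon N * C.mon M) := by
    intro M
    by_cases hM : M ∈ κ.support
    · obtain ⟨η, h2, h3⟩ := (mem_span_iff C _ _).1 (hNT M hM)
      exact ⟨η, h2, fun _ => h3⟩
    · exact ⟨0, by simp, fun h => absurd h hM⟩
  choose η hη1 hη2 using h1
  -- the transformed combination
  let E : (Vec r m →₀ k) → (Vec r m →₀ k) := fun κ' => κ'.sum fun M a => a • η M
  have hE : ∀ κ' : Vec r m →₀ k, κ'.support ⊆ κ.support →
      C.esum (E κ') = C.mon N * C.esum κ' := by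
    intro κ' hκ'
    rw [esum_eq]
    change Finsupp.linearCombination k C.mon (κ'.sum fun M a => a • η M) = _
    rw [Finsupp.sum, map_sum, RA.esum, Finsupp.sum, Finset.mul_sum]
    refine Finset.sum_congr rfl fun M hM => ?_
    rw [map_smul, ← esum_eq, hη2 M (hκ' hM), Algebra.smul_def]
    ring
  have hsupp : (κ.filter fun M => M.2 = u).support ⊆ κ.support := by
    rw [Finsupp.support_filter]
    exact Finset.filter_subset _ _
  have hfil : E (κ.filter fun M => M.2 = u) = (E κ).filter fun M => M.2 = u := by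
    have h2 : ∀ M, (η M).filter (fun M' => M'.2 = u) = if M.2 = u then η M else 0 := by
      intro M
      split_ifs with h
      · refine Finsupp.filter_eq_self_iff _ _ |>.2 fun M' hM' => ?_
        rw [(hη1 M M' (Finsupp.mem_support_iff.2 hM')).2, h]
      · refine Finsupp.filter_eq_zero_iff _ _ |>.2 fun M' hM' => ?_
        by_contra hne
        apply h
        rw [← (hη1 M M' (Finsupp.mem_support_iff.2 hne)).2, hM']
    have h3 : (E κ).filter (fun M => M.2 = u) =
        κ.sum fun M a => a • (η M).filter (fun M' => M'.2 = u) := by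
      change Finsupp.filterAddHom (fun M : Vec r m => M.2 = u) (κ.sum fun M a => a • η M) = _
      rw [Finsupp.sum, map_sum]
      refine Finset.sum_congr rfl fun M _ => ?_
      exact Finsupp.filter_smul
    rw [h3]
    change (κ.filter fun M => M.2 = u).sum (fun M a => a • η M) = _
    rw [Finsupp.sum, Finsupp.sum, Finsupp.support_filter, Finset.sum_filter]
    refine Finset.sum_congr rfl fun M _ => ?_
    rw [h2]
    split_ifs with h
    · rw [Finsupp.filter_apply_pos (fun M : Vec r m => M.2 = u) κ h]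
    · rw [smul_zero]
  have hFM : ∀ M' ∈ (E κ).support, M' ∈ FM f := by
    intro M' hM'
    have h2 : M' ∈ κ.support.biUnion fun M => (κ M • η M).support := by
      exact Finsupp.support_finsetSum hM'
    obtain ⟨M, -, h3⟩ := Finset.mem_biUnion.1 h2
    exact (hη1 M M' (Finsupp.support_smul h3)).1
  have hmon : C.mon N ≠ 0 := Tfr.mon_ne C hc N
  have hE1 := hE κ (Finset.Subset.refl _)
  have hE2 := hE _ hsupp
  have h4 : ∀ M' ∈ (E (κ.filter fun M => M.2 = u)).support,
      v.ord (C.esum (E κ)) ≤ v.ord (C.mon M') := by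
    intro M' hM'
    rw [hfil] at hM'
    have h5 : M' ∈ (E κ).support := by
      rw [Finsupp.support_filter] at hM'
      exact (Finset.mem_filter.1 hM').1
    rw [hv.ord M' (hFM M' h5).1]
    exact (hmin (E κ) hFM M' h5).2
  have h5 := esum_ord C hc v _ _ h4 (by rw [hE2]; exact mul_ne_zero hmon hu)
  rw [hE1, hE2, v.ord_mul _ _ hmon h0, v.ord_mul _ _ hmon hu] at h5
  linarith

/-- the monomials of degree `A.2` above `A` -/
def Up (A : Vec r m) : Set (Vec r m) := {M | M.2 = A.2 ∧ deg M = 0 ∧ ∀ Q, A.1 Q ≤ M.1 Q}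

theorem deg_le (A : Vec r m) {M : Vec r m} (h : M ∈ Up A) : deg A ≤ 0 := by
  rw [← h.2.1]
  exact Finset.sum_le_sum fun Q _ => h.2.2 Q

/-- The exponents in a frame of a valuation. -/
theorem frame_le (hc : c < r) {V : Vec r m} {v : DVal k K} (hv : MonVal C V v) (A : Vec r m)
    (f : K) (hs : f ∈ Submodule.span k (C.mon '' Up A)) :
    ∃ κ : Vec r m →₀ k, (∀ M ∈ κ.support, M ∈ Up A ∧ v.ord f ≤ pair V M) ∧
      C.esum κ = f := by
  obtain ⟨φ, hφ, h0, hsupp, hmin⟩ := hv.min
  obtain ⟨κ, h1, h2⟩ := (mem_span_iff C _ _).1 (poly_frame C hc φ hφ A f hs)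
  refine ⟨κ, fun M hM => ⟨⟨(h1 M hM).1, (h1 M hM).2.1, (h1 M hM).2.2.1⟩, ?_⟩, h2⟩
  let D : Vec r m := A + (-deg A) • ee (φ 0)
  have hD : deg D = 0 := by
    rw [deg_add, deg_zsmul, deg_ee]
    ring
  have hD2 : D.2 = A.2 := by simp [D, ee]
  have hD1 : ∀ Q, Q ∉ Set.range φ → D.1 Q = A.1 Q := by
    intro Q hQ
    have h3 : Q ≠ φ 0 := fun h => hQ ⟨0, h.symm⟩
    simp [D, ee, h3]
  -- the shifted combination
  let τ : Vec r m ↪ Vec r m := ⟨fun M => M - D, fun a b h => by simpa using h⟩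
  let κ' : Vec r m →₀ k := κ.embDomain τ
  have h3 : C.mon D * C.esum κ' = f := by
    rw [← h2, RA.esum, RA.esum]
    change C.mon D * (Finsupp.embDomain τ κ).sum (fun M a => algebraMap k K a * C.mon M) = _
    rw [Finsupp.sum_embDomain, Finsupp.sum, Finsupp.sum, Finset.mul_sum]
    refine Finset.sum_congr rfl fun M _ => ?_
    change C.mon D * (algebraMap k K (κ M) * C.mon (M - D)) = _
    have h4 : C.mon M = C.mon D * C.mon (M - D) := by
      rw [← Tfr.mon_add C hc]
      congr 1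
      abel
    rw [h4]
    ring
  have h4 : ∀ M' ∈ κ'.support, M' ∈ FM φ := by
    intro M' hM'
    rw [Finsupp.support_embDomain] at hM'
    obtain ⟨M, hM, rfl⟩ := Finset.mem_map.1 hM'
    have h5 := h1 M hM
    change M - D ∈ FM φ
    refine ⟨by rw [deg_sub, hD, h5.2.1, sub_zero], fun Q hQ => ?_⟩
    rw [Prod.fst_sub, Pi.sub_apply, hD1 Q hQ, h5.2.2.2 Q hQ, sub_self]
  have h5 : M - D ∈ κ'.support := by
    rw [Finsupp.support_embDomain]
    exact Finset.mem_map.2 ⟨M, hM, rfl⟩
  have h6 := hmin κ' h4 (M - D) h5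
  rw [← h3, v.ord_mul _ _ (Tfr.mon_ne C hc D) h6.1, hv.ord D hD]
  have h7 := h6.2
  rw [pair_sub] at h7
  linarith

/-- The homogeneous case. -/
theorem hom (hc : c < r) {ι : Type w} (s : Finset ι) (V : ι → Vec r m)
    (v : ι → DVal k K) (hv : ∀ i ∈ s, MonVal C (V i) (v i))
    (hcard : ∀ i ∈ s, (supp (V i)).card ≤ 1) (f : K) (hf : f ≠ 0) (u : Fin m → ℤ)
    (hs : f ∈ Submodule.span k (C.mon '' {M | M.2 = u ∧ deg M = 0})) :
    f ∈ Submodule.span k (C.mon '' {M | deg M = 0 ∧ ∀ i ∈ s, (v i).ord f ≤ pair (V i) M}) := by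
  -- the possible lower bounds
  have hex : ∃ d : ℕ, ∃ A : Vec r m, A.2 = u ∧ deg A = -(d : ℤ) ∧
      f ∈ Submodule.span k (C.mon '' Up A) := by
    obtain ⟨κ, h1, h2⟩ := (mem_span_iff C _ _).1 hs
    have hne : κ.support.Nonempty := by
      rw [Finset.nonempty_iff_ne_empty]
      intro h
      apply hf
      rw [← h2, Finsupp.support_eq_empty.1 h, esum_zero]
    let A : Vec r m := (fun Q => -∑ M ∈ κ.support, |M.1 Q|, u)
    have h3 : ∀ M ∈ κ.support, M ∈ Up A := by
      intro M hM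
      refine ⟨(h1 M hM).1, (h1 M hM).2, fun Q => ?_⟩
      have h4 : |M.1 Q| ≤ ∑ M ∈ κ.support, |M.1 Q| :=
        Finset.single_le_sum (f := fun M : Vec r m => |M.1 Q|) (fun _ _ => abs_nonneg _) hM
      have h5 := neg_abs_le (M.1 Q)
      change -∑ M ∈ κ.support, |M.1 Q| ≤ M.1 Q
      linarith
    obtain ⟨M, hM⟩ := hne
    have h4 := deg_le A (h3 M hM)
    refine ⟨(-deg A).toNat, A, rfl, ?_, (mem_span_iff C _ _).2 ⟨κ, h3, h2⟩⟩
    rw [Int.toNat_of_nonneg (by linarith)]
    ring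
  obtain ⟨A, hA, hdA, hfA⟩ := Nat.find_spec hex
  have hmin : ∀ d : ℕ, d < Nat.find hex → ∀ A : Vec r m, A.2 = u → deg A = -(d : ℤ) →
      f ∉ Submodule.span k (C.mon '' Up A) := by
    intro d hd A h1 h2 h3
    exact Nat.find_min hex hd ⟨A, h1, h2, h3⟩
  have key : ∀ i ∈ s, (v i).ord f ≤ pair (V i) A := by
    intro i hi
    obtain ⟨κ, h1, h2⟩ := frame_le C hc (hv i hi) A f hfA
    have htr := (hv i hi).trop
    have hne : κ.support.Nonempty := by
      rw [Finset.nonempty_iff_ne_empty]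
      intro h
      apply hf
      rw [← h2, Finsupp.support_eq_empty.1 h, esum_zero]
    obtain ⟨M₀, hM₀⟩ := hne
    by_contra hcon
    push Not at hcon
    haveI : Nonempty (Fin r) := ⟨⟨0, by omega⟩⟩
    rcases Finset.card_le_one_iff_subset_singleton.1 (hcard i hi) with ⟨Q, hQ⟩
    have hz : ∀ Q' ≠ Q, (V i).1 Q' = 0 := by
      intro Q' h
      by_contra hne
      exact h (Finset.mem_singleton.1 (hQ ((mem_supp _ _).2 hne)))
    have hpos : ∀ M ∈ κ.support, A.1 Q + 1 ≤ M.1 Q := by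
      intro M hM
      have h3 := lt_of_lt_of_le hcon (h1 M hM).2
      rw [pair_eq_of_ext0 hz, pair_eq_of_ext0 hz, (h1 M hM).1.1] at h3
      have h4 : (V i).1 Q * A.1 Q < (V i).1 Q * M.1 Q := by linarith
      have h5 := htr.nonneg Q
      have h6 : A.1 Q < M.1 Q := lt_of_mul_lt_mul_left h4 h5
      omega
    -- a better lower bound
    have hd0 : deg A < 0 := by
      have h3 := (h1 M₀ hM₀).1
      rw [← h3.2.1]
      refine Finset.sum_lt_sum (fun Q' _ => h3.2.2 Q') ⟨Q, Finset.mem_univ _, ?_⟩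
      have := hpos M₀ hM₀
      omega
    have hd1 : 0 < Nat.find hex := by
      rw [hdA] at hd0
      omega
    refine hmin (Nat.find hex - 1) (by omega) (A + ee Q) ?_ ?_ ?_
    · rw [← hA]
      simp [ee]
    · rw [deg_add, deg_ee, hdA]
      omega
    · refine (mem_span_iff C _ _).2 ⟨κ, fun M hM => ?_, h2⟩
      have h3 := (h1 M hM).1
      refine ⟨?_, h3.2.1, fun Q' => ?_⟩
      · rw [h3.1]
        simp [ee]
      · rw [Prod.fst_add, Pi.add_apply]
        by_cases hq : Q' = Q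
        · subst hq
          have := hpos M hM
          simp only [ee, Pi.single_eq_same]
          omega
        · have := h3.2.2 Q'
          simp only [ee, Pi.single_eq_of_ne hq]
          omega
  refine Submodule.span_mono ?_ hfA
  rintro _ ⟨M, ⟨h1, h2, h3⟩, rfl⟩
  refine ⟨M, ⟨h2, fun i hi => (key i hi).trans ?_⟩, rfl⟩
  unfold pair
  rw [h1]
  have h4 : ∑ Q, (V i).1 Q * A.1 Q ≤ ∑ Q, (V i).1 Q * M.1 Q :=
    Finset.sum_le_sum fun Q _ => mul_le_mul_of_nonneg_left (h3 Q) ((hv i hi).trop.nonneg Q)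
  linarith

end Spn

theorem spn (h1 : 1 ≤ c) (hc : c < r) {ι : Type w} (s : Finset ι) (V : ι → Vec r m)
    (v : ι → DVal k K) (hv : ∀ i ∈ s, MonVal C (V i) (v i))
    (hcard : ∀ i ∈ s, (supp (V i)).card ≤ 1) (f : K) (hf : f ≠ 0)
    (hs : f ∈ Submodule.span k (C.mon '' {M | deg M = 0})) :
    f ∈ Submodule.span k (C.mon '' {M | deg M = 0 ∧ ∀ i ∈ s, (v i).ord f ≤ pair (V i) M}) := by
  obtain ⟨κ, hκ, rfl⟩ := (mem_span_iff C _ _).1 hs
  have hdec : C.esum κ = ∑ u ∈ κ.support.image Prod.snd,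
      C.esum (κ.filter fun M => M.2 = u) := by
    have h2 : ∀ u : Fin m → ℤ, C.esum (κ.filter fun M => M.2 = u) =
        ∑ M ∈ κ.support with M.2 = u, algebraMap k K (κ M) * C.mon M := by
      intro u
      rw [RA.esum, Finsupp.sum, Finsupp.support_filter]
      refine Finset.sum_congr rfl fun M hM => ?_
      rw [Finsupp.filter_apply_pos (fun M : Vec r m => M.2 = u) κ (Finset.mem_filter.1 hM).2]
    simp only [h2]
    rw [RA.esum, Finsupp.sum]
    exact (Finset.sum_fiberwise_of_maps_to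
      (fun M hM => Finset.mem_image_of_mem Prod.snd hM) _).symm
  rw [hdec]
  refine Submodule.sum_mem _ fun u _ => ?_
  rw [← hdec]
  by_cases hu : C.esum (κ.filter fun M => M.2 = u) = 0
  · rw [hu]
    exact Submodule.zero_mem _
  have h2 := Spn.hom C hc s V v hv hcard _ hu u ((mem_span_iff C _ _).2
    ⟨κ.filter fun M => M.2 = u, fun M hM => ?_, rfl⟩)
  · refine Submodule.span_mono ?_ h2
    rintro _ ⟨M, ⟨h3, h4⟩, rfl⟩
    exact ⟨M, ⟨h3, fun i hi =>
      (Spn.comp_ord C hc (hv i hi) κ hκ hf u hu).trans (h4 i hi)⟩, rfl⟩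
  · rw [Finsupp.support_filter] at hM
    exact ⟨(Finset.mem_filter.1 hM).2, hκ M (Finset.mem_filter.1 hM).1⟩

end SPN

end

end Pool.Agent.MLD.R
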