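import Pool.Agent.Lib.MP_f23696_ag.R.Mon
import Pool.Agent.Lib.MP_f23696_ag.R.Spn

/-!
Project LSC-ARR (MP_f23696_ag), module PRI: the prime divisors containing monomials.
-/

namespace Pool.Agent.MLD.R

open scoped Classical
noncomputable section

universe u v w

variable {c r m : ℕ}

section PRI
variable {k : Type u} [Field k] [IsAlgClosed k] [CharZero k] {K : Type v} [Field K] [Algebra k K]
  {C : RA k K c m r}

/-- the elements of a prime divisor containing monomials are sums of monomials in it -/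
theorem qq_span (h1 : 1 ≤ c) (hc : c < r) (X : AV C) (W : EData X) (V : Vec r m) (hV : V ∈ W.E)
    (a : X.A) (ha : a ∈ W.qq V) :
    (a : K) ∈ Submodule.span k (C.mon '' {M | M ∈ X.MX ∧ 0 < pair V M}) := by
  by_cases h0 : (a : K) = 0
  · rw [h0]
    exact Submodule.zero_mem _
  have hs : (a : K) ∈ Submodule.span k (C.mon '' {M | deg M = 0}) := by
    refine Submodule.span_mono (Set.image_mono ?_) (mem_span hc X a)
    intro M hM
    exact hM.1
  have h2 := spn C h1 hc W.E id W.vv (fun V hV => W.mv V hV) (fun V hV => W.card V hV) (a : K) h0 hs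
  refine Submodule.span_mono (Set.image_mono ?_) h2
  rintro M ⟨hM, hM'⟩
  refine ⟨?_, ?_⟩
  · rw [W.mem]
    refine ⟨hM, fun V' hV' => ?_⟩
    have h3 := (W.cen V' hV').1 a h0
    have h4 := hM' V' hV'
    simp only [id] at h4
    omega
  · have h3 := ((W.cen V hV).2 a).1 ha h0
    have h4 := hM' V hV
    simp only [id] at h4
    omega

theorem qq_le_iff (h1 : 1 ≤ c) (hc : c < r) (X : AV C) (W : EData X) (V : Vec r m)
    (hV : V ∈ W.E) (p : Ideal X.A) (hp : p.IsPrime) :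
    W.qq V ≤ p ↔ ∀ M ∈ X.S p, pair V M = 0 := by
  constructor
  · rintro hle M ⟨hM, hA, hMp⟩
    have h2 : (⟨C.mon M, hA⟩ : X.A) ∉ W.qq V := fun h => hMp (hle h)
    rw [(W.cen V hV).2] at h2
    have h3 := (W.mv V hV).ord M hM
    have h4 := (W.cen V hV).1 ⟨C.mon M, hA⟩ (mon_ne hc M)
    have h5 : ¬ 0 < (W.vv V).ord (C.mon M) := fun h => h2 fun _ => h
    rw [h3] at h5
    have h6 : 0 ≤ (W.vv V).ord (C.mon M) := h4
    rw [h3] at h6
    omega
  · intro h a ha
    set P : Submodule k K := (p.restrictScalars k).map X.A.val.toLinearMap with hP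
    have h2 : Submodule.span k (C.mon '' {M | M ∈ X.MX ∧ 0 < pair V M}) ≤ P := by
      rw [Submodule.span_le]
      rintro _ ⟨M, ⟨hM, hpos⟩, rfl⟩
      have h3 : (⟨C.mon M, hM.2⟩ : X.A) ∈ p := by
        by_contra hMp
        have := h M ⟨hM.1, hM.2, hMp⟩
        omega
      exact ⟨⟨C.mon M, hM.2⟩, h3, rfl⟩
    obtain ⟨b, hb, hba⟩ := h2 (qq_span h1 hc X W V hV a ha)
    have h3 : b = a := Subtype.ext hba
    rw [← h3]
    exact hb

theorem S_face (h1 : 1 ≤ c) (hc : c < r) (X : AV C) (W : EData X) (p : Ideal X.A)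
    (hp : p.IsPrime) : IsFace W.E (X.S p) where
  sub := by
    rw [← W.mem]
    exact S_sub X p
  zero := by
    have h2 : C.mon 0 = 1 := mon_zero
    refine ⟨deg_zero, by rw [h2]; exact X.A.one_mem, fun h => hp.ne_top ?_⟩
    rw [Ideal.eq_top_iff_one]
    have h3 : (⟨C.mon 0, by rw [h2]; exact X.A.one_mem⟩ : X.A) = 1 := Subtype.ext h2
    rw [← h3]
    exact h
  add := by
    rintro M ⟨hM, hA, hMp⟩ M' ⟨hM', hA', hMp'⟩
    have h2 := mon_add (C := C) hc M M'
    have h3 : C.mon (M + M') ∈ X.A := by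
      rw [h2]
      exact X.A.mul_mem hA hA'
    refine ⟨by rw [deg_add, hM, hM', add_zero], h3, fun h => ?_⟩
    have h4 : (⟨C.mon (M + M'), h3⟩ : X.A) = ⟨C.mon M, hA⟩ * ⟨C.mon M', hA'⟩ := Subtype.ext h2
    rw [h4] at h
    rcases hp.mem_or_mem h with h5 | h5
    · exact hMp h5
    · exact hMp' h5
  face := by
    intro M hM M' hM' h
    rw [← W.mem] at hM hM'
    obtain ⟨hd, hA, hMp⟩ := h
    refine ⟨hM.1, hM.2, fun h => hMp ?_⟩
    have h4 : (⟨C.mon (M + M'), hA⟩ : X.A) = ⟨C.mon M, hM.2⟩ * ⟨C.mon M', hM'.2⟩ :=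
      Subtype.ext (mon_add (C := C) hc M M')
    rw [h4]
    exact Ideal.mul_mem_right _ _ h

/-- a monomial nonnegative at the prime divisors inside `p` is in the local ring of `p` -/
theorem mon_in (h1 : 1 ≤ c) (hc : c < r) (X : AV C) (W : EData X) (p : Ideal X.A)
    (hp : p.IsPrime) (M : Vec r m) (hM : deg M = 0)
    (h : ∀ V ∈ W.E, W.qq V ≤ p → 0 ≤ pair V M) : ∃ N ∈ X.S p, N + M ∈ X.MX := by
  obtain ⟨N, hN, hNM⟩ := nmon (S_face h1 hc X W p hp) M hM fun V hV hV0 =>
    h V hV ((qq_le_iff h1 hc X W V hV p hp).2 hV0)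
  rw [← W.mem] at hNM
  exact ⟨N, hN, hNM⟩

end PRI

end

end Pool.Agent.MLD.R
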