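import Pool.Agent.Lib.MP_f23696_ag.R.Frm
import Pool.Agent.Lib.MP_f23696_ag.R.Mon
import Pool.Agent.Lib.MP_f23696_ag.R.Gef
import Pool.Agent.Lib.MP_f23696_ag.R.Pri

/-!
Project LSC-ARR (MP_f23696_ag), module CDT: the combinatorial data at a closed point.
-/

namespace Pool.Agent.MLD.R

open scoped Classical
noncomputable section

universe u v w

variable {c r m : ℕ}

section CDT
variable {k : Type u} [Field k] [IsAlgClosed k] [CharZero k] {K : Type v} [Field K] [Algebra k K]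
  {C : RA k K c m r}

theorem cdata (h1 : 1 ≤ c) (hc : c < r) (X : AV C) (W : EData X) (δ : Ideal X.A →₀ ℝ)
    (hδ0 : ∀ q, 0 ≤ δ q) (y : MaximalSpectrum X.A)
    (γ : Vec r m →₀ ℝ) (hγ : ∀ M ∈ γ.support, deg M = 0)
    (hloc : IsLocalEq X.A C.D δ y.asIdeal (C.toEq γ)) :
    ∃ B : CD c r m, B.o = C.o 0 ∧ B.E = W.E ∧ B.S = X.S y.asIdeal ∧ B.γ = γ := by
  have hp : y.asIdeal.IsPrime := y.isMaximal.isPrime
  refine ⟨{
    o := C.o 0
    E := W.E
    trop := fun V hV => ⟨(W.mv V hV).trop.nonneg, W.card V hV⟩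
    S := X.S y.asIdeal
    face := S_face h1 hc X W y.asIdeal hp
    γ := γ
    γ0 := hγ
    one_le := h1
    lt := hc
    ld_le := ?_
    rel := ?_ }, rfl, rfl, rfl, rfl⟩
  · intro V hV hV0
    have h2 : W.qq V ≤ y.asIdeal := (qq_le_iff h1 hc X W V hV y.asIdeal hp).2 hV0
    obtain ⟨j, hj⟩ := (W.mv V hV).form
    have h3 := hloc (W.qq V) h2 (W.ht V hV) (W.vv V) (W.cen V hV) j hj
    have h4 := toEq_val (C := C) hc γ hγ V (W.vv V) 1 fun M hM => by
      rw [one_mul, (W.mv V hV).ord M hM]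
    rw [one_mul] at h4
    have h5 := disc_le C hc (W.vv V) j hj V (W.mv V hV).trop (W.mv V hV).ord
    have h6 : (disc c (C.o 0) V : ℝ) ≤ j + 1 := by exact_mod_cast h5
    have h7 := hδ0 (W.qq V)
    unfold ld
    rw [← h4, ← h3]
    linarith
  · intro J hJ Q hQ M hM hMJ
    set f : Fin (c + 1) → Fin r := fun j => J.orderEmbOfFin hJ j with hf
    have hfinj : Function.Injective f := (J.orderEmbOfFin hJ).injective
    have hfJ : ∀ j, f j ∈ J := fun j => J.orderEmbOfFin_mem hJ j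
    obtain ⟨a, ha⟩ := expand (fun i => C.L (f i)) (C.gp f hfinj) (C.L Q)
    have h2 : C.ell Q = ∑ j, algebraMap k K (a j) * C.ell (f j) := by
      have := congrArg C.lin ha
      rw [lin_sum] at this
      exact this
    have h3 : ∀ i, C.mon (M + ee i - ee Q) = C.mon M * C.ell i * (C.ell Q)⁻¹ := by
      intro i
      rw [sub_eq_add_neg, mon_add hc, mon_add hc, mon_neg hc, mon_ee, mon_ee]
    have h4 : C.mon M = ∑ j, algebraMap k K (a j) * C.mon (M + ee (f j) - ee Q) := by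
      have h5 : ∑ j, algebraMap k K (a j) * C.mon (M + ee (f j) - ee Q) =
          C.mon M * (∑ j, algebraMap k K (a j) * C.ell (f j)) * (C.ell Q)⁻¹ := by
        rw [Finset.mul_sum, Finset.sum_mul]
        refine Finset.sum_congr rfl fun j _ => ?_
        rw [h3]
        ring
      rw [h5, ← h2, mul_assoc, mul_inv_cancel₀ (ell_ne C hc Q), mul_one]
    by_contra hcon
    push Not at hcon
    obtain ⟨hd, hA, hMy⟩ := hM
    have h5 : ∀ j, M + ee (f j) - ee Q ∈ X.MX := fun j => by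
      rw [W.mem]
      exact hMJ _ (hfJ j)
    have h6 : ∀ j, (⟨C.mon (M + ee (f j) - ee Q), (h5 j).2⟩ : X.A) ∈ y.asIdeal := by
      intro j
      by_contra h7
      exact hcon _ (hfJ j) ⟨(h5 j).1, (h5 j).2, h7⟩
    refine hMy ?_
    have h7 : (⟨C.mon M, hA⟩ : X.A) = ∑ j, algebraMap k X.A (a j) *
        ⟨C.mon (M + ee (f j) - ee Q), (h5 j).2⟩ := by
      refine Subtype.ext ?_
      rw [AddSubmonoidClass.coe_finsetSum]
      exact h4
    rw [h7]
    exact Ideal.sum_mem _ fun j _ => Ideal.mul_mem_left _ _ (h6 j)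

end CDT

end

end Pool.Agent.MLD.R
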