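import Pool.Agent.Lib.MP_f23696_ag.R.Vec

/-!
Project LSC-ARR (MP_f23696_ag), module DRP: `rk + kap` decreases.
-/

namespace Pool.Agent.MLD.R

open scoped Classical
noncomputable section

variable {c r m : ℕ}

namespace Drp

/-- two different exponents of degree zero: one is smaller somewhere -/
theorem exists_lt {M M' : Vec r m} (h0 : deg M = 0) (h0' : deg M' = 0) (h : M.1 ≠ M'.1) :
    ∃ Q, M'.1 Q < M.1 Q := by
  by_contra hc
  push Not at hc
  apply h
  have h1 : ∑ Q, M.1 Q = ∑ Q, M'.1 Q := h0.trans h0'.symm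
  have h2 := (Finset.sum_eq_sum_iff_of_le (fun Q _ => hc Q)).1 h1
  funext Q
  exact h2 Q (Finset.mem_univ Q)

theorem exch_ineq {E : Finset (Vec r m)} (hE : ∀ V ∈ E, Trop 1 V) (hc : c < r) {W : Vec r m}
    (hW : Trop c W) (hA : ∀ M ∈ MA E, 0 ≤ pair W M) {M M' : Vec r m} (hM : M ∈ MA E)
    (hM' : M' ∈ MA E) (hMW : pair W M = 0) (hu : M.2 = M'.2) {Q : Fin r} (hQ : M'.1 Q < M.1 Q) :
    W.1 Q = 0 ∧ ∀ i, M + ee i - ee Q ∈ MA E ∧ pair W (M + ee i - ee Q) = W.1 i := by
  have h1 : ∀ i, pair W (M + ee i - ee Q) = W.1 i - W.1 Q := by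
    intro i
    rw [pair_sub, pair_add, pair_ee, pair_ee, hMW]
    ring
  have h2 : ∀ i, M + ee i - ee Q ∈ MA E := fun i => exch hE hM hM' hu hQ i
  have h3 : W.1 Q = 0 := by
    obtain ⟨i, hi⟩ := exists_zero hW hc
    have h4 := hA _ (h2 i)
    rw [h1, hi] at h4
    have h5 := hW.nonneg Q
    omega
  refine ⟨h3, fun i => ⟨h2 i, ?_⟩⟩
  rw [h1, h3, sub_zero]

theorem supp_sub {E : Finset (Vec r m)} (hE : ∀ V ∈ E, Trop 1 V) (hc : c < r) {V V' : Vec r m}
    (hV : Trop c V) (hV' : Trop c V') (hA : ∀ M ∈ MA E, 0 ≤ pair V M)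
    (hle : ∀ M ∈ MA E, pair V M ≤ pair V' M) (hp : HasPair (zeroSet E V')) :
    supp V ⊆ supp V' := by
  have hA' : ∀ M ∈ MA E, 0 ≤ pair V' M := fun M hM => (hA M hM).trans (hle M hM)
  obtain ⟨M, hM, M', hM', hu, hne⟩ := hp
  obtain ⟨Q, hQ⟩ := exists_lt hM.1.1 hM'.1.1 hne
  have hMV : pair V M = 0 := le_antisymm (by rw [← hM.2]; exact hle M hM.1) (hA M hM.1)
  obtain ⟨h1, h2⟩ := exch_ineq hE hc hV hA hM.1 hM'.1 hMV hu hQ
  obtain ⟨h3, h4⟩ := exch_ineq hE hc hV' hA' hM.1 hM'.1 hM.2 hu hQ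
  intro i hi
  rw [mem_supp] at hi ⊢
  intro h5
  apply hi
  obtain ⟨h6, h7⟩ := h2 i
  obtain ⟨-, h8⟩ := h4 i
  have h9 := hle _ h6
  rw [h7, h8, h5] at h9
  exact le_antisymm h9 (hV.nonneg i)

/-- elements of the rational span of the degrees of a face -/
theorem span_mem {E : Finset (Vec r m)} {Z : Set (Vec r m)} (hZ : IsFace E Z) (x : Fin m → ℚ)
    (hx : x ∈ Submodule.span ℚ ((fun M : Vec r m => fun i => (M.2 i : ℚ)) '' Z)) :
    ∃ N : ℕ, 1 ≤ N ∧ ∃ M1 ∈ Z, ∃ M2 ∈ Z, ∀ i, (N : ℚ) * x i + M2.2 i = M1.2 i := by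
  induction hx using Submodule.span_induction with
  | mem x hx =>
    obtain ⟨M, hM, rfl⟩ := hx
    exact ⟨1, le_rfl, M, hM, 0, hZ.zero, fun i => by simp⟩
  | zero => exact ⟨1, le_rfl, 0, hZ.zero, 0, hZ.zero, fun i => by simp⟩
  | add x y _ _ ihx ihy =>
    obtain ⟨N, hN, M1, hM1, M2, hM2, h⟩ := ihx
    obtain ⟨N', hN', M1', hM1', M2', hM2', h'⟩ := ihy
    refine ⟨N * N', Nat.mul_pos hN hN', N' • M1 + N • M1',
      hZ.add _ (hZ.nsmul hM1 _) _ (hZ.nsmul hM1' _), N' • M2 + N • M2',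
      hZ.add _ (hZ.nsmul hM2 _) _ (hZ.nsmul hM2' _), fun i => ?_⟩
    have e1 : (N' • M1 + N • M1').2 i = N' * M1.2 i + N * M1'.2 i := by
      show N' • M1.2 i + N • M1'.2 i = _
      rw [nsmul_eq_mul, nsmul_eq_mul]
    have e2 : (N' • M2 + N • M2').2 i = N' * M2.2 i + N * M2'.2 i := by
      show N' • M2.2 i + N • M2'.2 i = _
      rw [nsmul_eq_mul, nsmul_eq_mul]
    rw [e1, e2]
    simp only [Pi.add_apply]
    push_cast
    rw [← h i, ← h' i]
    ring
  | smul a x _ ih =>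
    obtain ⟨N, hN, M1, hM1, M2, hM2, h⟩ := ih
    have hden : (a.den : ℚ) ≠ 0 := by exact_mod_cast a.den_nz
    have ha : (a.den : ℚ) * a = a.num := by
      rw [mul_comm]
      exact Rat.mul_den_eq_num a
    rcases le_total 0 a.num with h0 | h0
    · obtain ⟨n, hn⟩ := Int.eq_ofNat_of_zero_le h0
      refine ⟨N * a.den, Nat.mul_pos hN a.den_pos, n • M1, hZ.nsmul hM1 _, n • M2,
        hZ.nsmul hM2 _, fun i => ?_⟩
      have e1 : (n • M1).2 i = n * M1.2 i := by
        show n • M1.2 i = _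
        rw [nsmul_eq_mul]
      have e2 : (n • M2).2 i = n * M2.2 i := by
        show n • M2.2 i = _
        rw [nsmul_eq_mul]
      rw [e1, e2]
      simp only [Pi.smul_apply, smul_eq_mul]
      have h1 : (a.den : ℚ) * a = n := by rw [ha, hn]; push_cast; rfl
      push_cast
      rw [← h i]
      linear_combination ((N : ℚ) * x i) * h1
    · obtain ⟨n, hn⟩ := Int.eq_ofNat_of_zero_le (neg_nonneg.2 h0)
      refine ⟨N * a.den, Nat.mul_pos hN a.den_pos, n • M2, hZ.nsmul hM2 _, n • M1,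
        hZ.nsmul hM1 _, fun i => ?_⟩
      have e1 : (n • M1).2 i = n * M1.2 i := by
        show n • M1.2 i = _
        rw [nsmul_eq_mul]
      have e2 : (n • M2).2 i = n * M2.2 i := by
        show n • M2.2 i = _
        rw [nsmul_eq_mul]
      rw [e1, e2]
      simp only [Pi.smul_apply, smul_eq_mul]
      have h1 : (a.den : ℚ) * a = -n := by
        rw [ha]
        have : (a.num : ℚ) = -((-a.num : ℤ) : ℚ) := by push_cast; ring
        rw [this, hn]
        push_cast
        rfl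
      push_cast
      rw [← h i]
      linear_combination ((N : ℚ) * x i) * h1

end Drp

open Drp in
theorem drop {E : Finset (Vec r m)} (hE : ∀ V ∈ E, Trop 1 V) (hc : c < r) (V V' : Vec r m)
    (hV : Trop c V) (hV' : Trop c V') (hA : ∀ M ∈ MA E, 0 ≤ pair V M)
    (hle : ∀ M ∈ MA E, pair V M ≤ pair V' M) (M₀ : Vec r m) (hM₀ : M₀ ∈ MA E)
    (h0 : pair V M₀ = 0) (h1 : 0 < pair V' M₀) :
    rk (zeroSet E V') + kap c (zeroSet E V') V' < rk (zeroSet E V) + kap c (zeroSet E V) V := by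
  have hA' : ∀ M ∈ MA E, 0 ≤ pair V' M := fun M hM => (hA M hM).trans (hle M hM)
  have hsub : zeroSet E V' ⊆ zeroSet E V := fun M hM =>
    ⟨hM.1, le_antisymm (by rw [← hM.2]; exact hle M hM.1) (hA M hM.1)⟩
  have hspan := Submodule.span_mono (R := ℚ)
    (Set.image_mono (f := fun M : Vec r m => fun i => (M.2 i : ℚ)) hsub)
  have hrk : rk (zeroSet E V') ≤ rk (zeroSet E V) := Submodule.finrank_mono hspan
  have hpair : HasPair (zeroSet E V') → HasPair (zeroSet E V) := by
    rintro ⟨M, hM, M', hM', h⟩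
    exact ⟨M, hsub hM, M', hsub hM', h⟩
  have hkap : kap c (zeroSet E V') V' ≤ kap c (zeroSet E V) V := by
    unfold kap
    by_cases hp : HasPair (zeroSet E V')
    · rw [if_pos hp, if_pos (hpair hp)]
      have := Finset.card_le_card (supp_sub hE hc hV hV' hA hle hp)
      omega
    · rw [if_neg hp]
      exact Nat.zero_le _
  by_contra hcon
  have hrk2 : rk (zeroSet E V') = rk (zeroSet E V) := by omega
  have hkap2 : kap c (zeroSet E V') V' = kap c (zeroSet E V) V := by omega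
  have hZ' := zeroSet_face hA'
  have hspan2 := Submodule.eq_of_le_of_finrank_eq hspan hrk2
  have hM₀Z : M₀ ∈ zeroSet E V := ⟨hM₀, h0⟩
  have hmem : (fun i => (M₀.2 i : ℚ)) ∈
      Submodule.span ℚ ((fun M : Vec r m => fun i => (M.2 i : ℚ)) '' zeroSet E V') := by
    rw [hspan2]
    exact Submodule.subset_span ⟨M₀, hM₀Z, rfl⟩
  obtain ⟨N, hN, M1, hM1, M2, hM2, h2⟩ := span_mem hZ' _ hmem
  obtain ⟨P, hP⟩ : ∃ P : Vec r m, P = N • M₀ + M2 := ⟨_, rfl⟩
  have hPA : P ∈ MA E := by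
    rw [hP]
    exact MA_add (MA_nsmul hM₀ N) hM2.1
  have hP2 : M1.2 = P.2 := by
    funext i
    have h3 := h2 i
    rw [hP]
    simp only [Prod.snd_add, Pi.add_apply, nsmul_eq_mul]
    exact_mod_cast h3.symm
  have hPV : pair V P = 0 := by
    rw [hP, pair_add, pair_nsmul, h0, (hsub hM2).2]
    ring
  have hPV' : 0 < pair V' P := by
    rw [hP, pair_add, pair_nsmul, hM2.2, add_zero]
    have : (0 : ℤ) < N := by exact_mod_cast hN
    positivity
  have hPZ : P ∈ zeroSet E V := ⟨hPA, hPV⟩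
  have hM1Z : M1 ∈ zeroSet E V := hsub hM1
  have hne : M1.1 ≠ P.1 := by
    intro h
    have : M1 = P := Prod.ext h hP2
    rw [← this, hM1.2] at hPV'
    exact lt_irrefl _ hPV'
  have hpZ : HasPair (zeroSet E V) := ⟨M1, hM1Z, P, hPZ, hP2, hne⟩
  have hagree : ∀ Q ∈ supp V, M1.1 Q = P.1 Q := fun Q hQ =>
    agree hE hV hc hA hM1Z hPZ hP2 hQ
  by_cases hp : HasPair (zeroSet E V')
  · have hss := supp_sub hE hc hV hV' hA hle hp
    unfold kap at hkap2
    rw [if_pos hp, if_pos hpZ] at hkap2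
    have hc1 := hV.card
    have hc2 := hV'.card
    have heq : supp V = supp V' := Finset.eq_of_subset_of_card_le hss (by omega)
    have h3 : pair V' M1 = pair V' P := by
      unfold pair
      rw [hP2]
      congr 1
      refine Finset.sum_congr rfl fun Q _ => ?_
      by_cases hQ : Q ∈ supp V
      · rw [hagree Q hQ]
      · rw [heq, mem_supp, not_not] at hQ
        rw [hQ, zero_mul, zero_mul]
    rw [← h3, hM1.2] at hPV'
    exact lt_irrefl _ hPV'
  · unfold kap at hkap2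
    rw [if_neg hp, if_pos hpZ] at hkap2
    have hc1 := hV.card
    have hcard : (supp V).card = c := by omega
    obtain ⟨Q, hQ⟩ := exists_lt hM1.1.1 hPA.1 hne
    obtain ⟨h3, h4⟩ := exch_ineq hE hc hV' hA' hM1.1 hPA hM1.2 hP2 hQ
    have h5 : ∀ i, i ≠ Q → V'.1 i ≠ 0 := by
      intro i hi h6
      apply hp
      refine ⟨M1, hM1, M1 + ee i - ee Q, ⟨(h4 i).1, by rw [(h4 i).2, h6]⟩, ?_, ?_⟩
      · simp [ee]
      · intro h7
        have h8 := congrFun h7 Q
        simp only [ee, Prod.fst_sub, Prod.fst_add, Pi.sub_apply, Pi.add_apply,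
          Pi.single_eq_same, Pi.single_eq_of_ne hi.symm] at h8
        omega
    have h6 : Finset.univ.erase Q ⊆ supp V' := by
      intro i hi
      rw [mem_supp]
      exact h5 i (Finset.ne_of_mem_erase hi)
    have h7 := Finset.card_le_card h6
    rw [Finset.card_erase_of_mem (Finset.mem_univ Q), Finset.card_univ, Fintype.card_fin] at h7
    have h8 := hV'.card
    have hr : r = c + 1 := by omega
    obtain ⟨i0, hi0⟩ := exists_zero hV hc
    have h9 : supp V = Finset.univ.erase i0 := by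
      apply Finset.eq_of_subset_of_card_le
      · intro i hi
        rw [mem_supp] at hi
        refine Finset.mem_erase.2 ⟨?_, Finset.mem_univ i⟩
        rintro rfl
        exact hi hi0
      · rw [Finset.card_erase_of_mem (Finset.mem_univ i0), Finset.card_univ, Fintype.card_fin]
        omega
    apply hne
    have h10 : ∀ i, i ≠ i0 → M1.1 i = P.1 i := by
      intro i hi
      apply hagree i
      rw [h9]
      exact Finset.mem_erase.2 ⟨hi, Finset.mem_univ i⟩
    have h11 : M1.1 i0 = P.1 i0 := by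
      have e1 : deg M1 = deg P := by rw [hM1.1.1, hPA.1]
      unfold deg at e1
      rw [← Finset.add_sum_erase Finset.univ _ (Finset.mem_univ i0),
        ← Finset.add_sum_erase Finset.univ P.1 (Finset.mem_univ i0)] at e1
      have e2 : ∑ i ∈ Finset.univ.erase i0, M1.1 i = ∑ i ∈ Finset.univ.erase i0, P.1 i :=
        Finset.sum_congr rfl fun i hi => h10 i (Finset.ne_of_mem_erase hi)
      rw [e2] at e1
      exact add_right_cancel e1
    funext i
    by_cases hi : i = i0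
    · rw [hi, h11]
    · exact h10 i hi

end

end Pool.Agent.MLD.R
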