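import Pool.Agent.Lib.MP_f23696_ag.R.Stp
import Pool.Agent.Lib.MP_f23696_ag.R.Drp

/-!
Project LSC-ARR (MP_f23696_ag), module CHN: the chain of tropical valuations.
-/

namespace Pool.Agent.MLD.R

open scoped Classical
noncomputable section

variable {c r m : ℕ}

theorem chain (X : CD c r m) (V : Vec r m) (hV : Trop c V) (hA : ∀ M ∈ MA X.E, 0 ≤ pair V M)
    (hS : ∀ M ∈ X.S, pair V M = 0) :
    ∃ V', Trop c V' ∧ (∀ M ∈ MA X.E, 0 ≤ pair V' M) ∧ zeroSet X.E V' = X.S ∧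
      ld c X.o X.γ V' + rk X.S + kap c X.S V' ≤
        ld c X.o X.γ V + rk (zeroSet X.E V) + kap c (zeroSet X.E V) V := by
  induction hn : rk (zeroSet X.E V) + kap c (zeroSet X.E V) V using Nat.strong_induction_on
    generalizing V with
  | _ n ih =>
    by_cases hZ : zeroSet X.E V = X.S
    · exact ⟨V, hV, hA, hZ, by rw [hZ]⟩
    · have hsub : X.S ⊆ zeroSet X.E V := fun M hM => ⟨X.face.sub hM, hS M hM⟩
      obtain ⟨M₀, hM₀, hM₀S⟩ : ∃ M₀ ∈ zeroSet X.E V, M₀ ∉ X.S := by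
        by_contra h
        push Not at h
        exact hZ (Set.Subset.antisymm h hsub)
      obtain ⟨V₁, h1, h2, h3, h4, h5⟩ := step X V hV hA hS M₀ hM₀.1 hM₀S
      have h6 := drop X.trop X.lt V V₁ hV h1 hA h2 M₀ hM₀.1 hM₀.2 h4
      rw [hn] at h6
      obtain ⟨V', a1, a2, a3, a4⟩ := ih _ h6 V₁ h1 (fun M hM => (hA M hM).trans (h2 M hM)) h3 rfl
      refine ⟨V', a1, a2, a3, a4.trans ?_⟩
      have h7 : ((rk (zeroSet X.E V₁) + kap c (zeroSet X.E V₁) V₁ : ℕ) : ℝ) + 1 ≤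
          ((rk (zeroSet X.E V) + kap c (zeroSet X.E V) V : ℕ) : ℝ) := by
        rw [hn]
        exact_mod_cast h6
      push_cast at h7
      linarith

end

end Pool.Agent.MLD.R
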