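import Pool.Agent.Lib.MP_f23696_ag.R.Vec
import Pool.Agent.Lib.MP_f23696_ag.Chx
import Pool.Agent.Lib.MP_f23696_ag.Bet

/-!
Project LSC-ARR (MP_f23696_ag), module CHR: characters and exponents.
-/

namespace Pool.Agent.MLD.R

open scoped Classical
noncomputable section

universe u v w

variable {c r m : ℕ}

namespace Chr

section Log

variable {k : Type u} [Field k] {L : Type v} [Field L] [Algebra k L] (D : Derivation k L L)

theorem ld_mul {a b : L} (ha : a ≠ 0) (hb : b ≠ 0) :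
    D (a * b) / (a * b) = D a / a + D b / b := by
  rw [Derivation.leibniz, smul_eq_mul, smul_eq_mul]
  field_simp
  ring

theorem ld_zpow {a : L} (ha : a ≠ 0) (n : ℤ) : D (a ^ n) / a ^ n = n * (D a / a) := by
  induction n using Int.induction_on with
  | zero => simp
  | succ n ih =>
    rw [zpow_add_one₀ ha, ld_mul D (zpow_ne_zero _ ha) ha, ih]
    push_cast
    ring
  | pred n ih =>
    have h : a ^ (-(n : ℤ)) = a ^ (-(n : ℤ) - 1) * a := by
      rw [← zpow_add_one₀ ha]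
      congr 1
      ring
    rw [h, ld_mul D (zpow_ne_zero _ ha) ha] at ih
    push_cast at ih ⊢
    linear_combination ih

theorem ld_prod {ι : Type*} (s : Finset ι) {f : ι → L} (hf : ∀ i ∈ s, f i ≠ 0) :
    D (∏ i ∈ s, f i) / ∏ i ∈ s, f i = ∑ i ∈ s, D (f i) / f i := by
  induction s using Finset.induction_on with
  | empty => simp
  | insert a s ha ih =>
    rw [Finset.prod_insert ha, Finset.sum_insert ha, ld_mul D
      (hf a (Finset.mem_insert_self _ _))
      (Finset.prod_ne_zero_iff.2 fun i hi => hf i (Finset.mem_insert_of_mem hi)),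
      ih fun i hi => hf i (Finset.mem_insert_of_mem hi)]

end Log

/-- The matrix `ᵗe` is, up to the factor `α`, also a left inverse of `β`. -/
theorem left_inv {G : Type w} [Field G] [CharZero G] (β : Matrix (Fin m) (Fin m) ℤ) (α : ℤ)
    (e : Fin m → Fin m → ℤ) (hα : 0 < α)
    (he : ∀ i i', ∑ j, β i' j * e i j = if i = i' then α else 0) (ρ : Fin m → G) (j : Fin m) :
    ρ j = ∑ i, ((∑ j', ρ j' * (e i j' : G)) / (α : G)) * (β i j : G) := by
  have hα' : (α : G) ≠ 0 := by exact_mod_cast hα.ne'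
  set B : Matrix (Fin m) (Fin m) G := Matrix.of fun i j => (β i j : G) with hB
  set A : Matrix (Fin m) (Fin m) G := Matrix.of fun j i => (e i j : G) / (α : G) with hA
  have h1 : B * A = 1 := by
    ext i i'
    rw [Matrix.mul_apply, Matrix.one_apply]
    have h2 : ∑ j, B i j * A j i' = ((∑ j, β i j * e i' j : ℤ) : G) / α := by
      rw [Int.cast_sum, Finset.sum_div]
      refine Finset.sum_congr rfl fun j _ => ?_
      simp only [hB, hA, Matrix.of_apply, Int.cast_mul]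
      ring
    rw [h2, he i' i]
    by_cases hii : i = i'
    · rw [if_pos hii, if_pos hii.symm, div_self hα']
    · rw [if_neg hii, if_neg (fun h => hii h.symm), Int.cast_zero, zero_div]
  have h2 : A * B = 1 := mul_eq_one_comm.1 h1
  have h3 : ρ j = ∑ j', ρ j' * (A * B) j' j := by
    rw [h2]
    simp [Matrix.one_apply]
  rw [h3]
  simp only [Matrix.mul_apply, Finset.mul_sum]
  rw [Finset.sum_comm]
  refine Finset.sum_congr rfl fun i _ => ?_
  rw [Finset.sum_div, Finset.sum_mul]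
  refine Finset.sum_congr rfl fun j' _ => ?_
  simp only [hB, hA, Matrix.of_apply]
  ring

end Chr

theorem char_data {k : Type u} [Field k] [CharZero k] {G : Type w} [Field G] [IsAlgClosed G]
    [Algebra k G] (S : Set (Vec r m)) (h0 : (0 : Vec r m) ∈ S)
    (hadd : ∀ M ∈ S, ∀ N ∈ S, M + N ∈ S) (ψ : Vec r m → G) (hne : ∀ M ∈ S, ψ M ≠ 0)
    (hmul : ∀ M ∈ S, ∀ N ∈ S, ψ (M + N) = ψ M * ψ N)
    (hwd : ∀ M ∈ S, ∀ N ∈ S, M.2 = N.2 → ψ M = ψ N) (E : Derivation k G G) (w : Fin m → ℤ)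
    (hE : ∀ M ∈ S, E (ψ M) = ((∑ i, w i * M.2 i : ℤ) : G) * ψ M) :
    ∃ (β : Matrix (Fin m) (Fin m) ℤ) (I : Finset (Fin m)) (cf ν : Fin m → G),
      β.det ≠ 0 ∧ I.card = rk S ∧ (∀ M ∈ S, ∀ i ∉ I, ∑ j, β i j * M.2 j = 0) ∧
      (∀ i ∈ I, ∃ M ∈ S, ∑ j, β i j * M.2 j ≠ 0) ∧ (∀ j, cf j ≠ 0) ∧
      (∀ M ∈ S, ∏ j, cf j ^ M.2 j = ψ M) ∧
      ∀ j, (w j : G) - E (cf j) / cf j = ∑ i ∈ Iᶜ, ν i * (β i j : G) := by
  have hchar : CharZero G := charZero_of_injective_algebraMap (algebraMap k G).injective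
  -- the monoid of the degrees
  let Γ : AddSubmonoid (Fin m → ℤ) :=
    { carrier := (fun M : Vec r m => M.2) '' S
      zero_mem' := ⟨0, h0, rfl⟩
      add_mem' := by
        rintro _ _ ⟨M, hM, rfl⟩ ⟨N, hN, rfl⟩
        exact ⟨M + N, hadd M hM N hN, rfl⟩ }
  have hΓ : ∀ M ∈ S, M.2 ∈ Γ := fun M hM => ⟨M, hM, rfl⟩
  have hΓ' : ∀ u ∈ Γ, ∃ M ∈ S, M.2 = u := fun u hu => hu
  let ψ' : (Fin m → ℤ) → G := fun u => if h : ∃ M ∈ S, M.2 = u then ψ h.choose else 1
  have hψ : ∀ M ∈ S, ψ' M.2 = ψ M := by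
    intro M hM
    have h : ∃ N ∈ S, N.2 = M.2 := ⟨M, hM, rfl⟩
    have h1 : ψ' M.2 = ψ h.choose := dif_pos h
    rw [h1]
    exact hwd _ h.choose_spec.1 _ hM h.choose_spec.2
  obtain ⟨cf, hcf, hcfψ⟩ := chext Γ ψ'
    (by
      intro u hu
      obtain ⟨M, hM, rfl⟩ := hΓ' u hu
      rw [hψ M hM]
      exact hne M hM)
    (by
      intro u hu t ht
      obtain ⟨M, hM, rfl⟩ := hΓ' u hu
      obtain ⟨N, hN, rfl⟩ := hΓ' t ht
      rw [hψ M hM, hψ N hN, ← hmul M hM N hN, ← hψ (M + N) (hadd M hM N hN)]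
      rfl)
  obtain ⟨β, I, α, e, hβ, hI, hβ0, hα, he, heI, -⟩ := beta Γ
  -- the logarithmic derivatives
  let ρ : Fin m → G := fun j => (w j : G) - E (cf j) / cf j
  have hρ : ∀ u ∈ Γ, ∑ j, ρ j * (u j : G) = 0 := by
    intro u hu
    obtain ⟨M, hM, rfl⟩ := hΓ' u hu
    have h1 := Chr.ld_prod E Finset.univ (f := fun j => cf j ^ M.2 j)
      (fun j _ => zpow_ne_zero _ (hcf j))
    have h2 : ∏ j, cf j ^ M.2 j = ψ M := by rw [hcfψ _ (hΓ M hM), hψ M hM]
    rw [h2, hE M hM, mul_div_assoc, div_self (hne M hM), mul_one] at h1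
    have h3 : ∀ j, E (cf j ^ M.2 j) / cf j ^ M.2 j = (M.2 j : G) * (E (cf j) / cf j) :=
      fun j => Chr.ld_zpow E (hcf j) _
    simp only [h3] at h1
    rw [Int.cast_sum] at h1
    simp only [Int.cast_mul] at h1
    simp only [ρ, sub_mul, Finset.sum_sub_distrib]
    rw [h1, sub_eq_zero]
    exact Finset.sum_congr rfl fun j _ => mul_comm _ _
  let ν : Fin m → G := fun i => (∑ j', ρ j' * (e i j' : G)) / (α : G)
  have hν0 : ∀ i ∈ I, ν i = 0 := by
    intro i hi
    obtain ⟨u, hu, t, ht, h⟩ := heI i hi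
    have h1 : ∑ j', ρ j' * (e i j' : G) = 0 := by
      have h2 : ∀ j, (e i j : G) = (u j : G) - (t j : G) := by
        intro j
        rw [← h, Pi.add_apply, Int.cast_add, add_sub_cancel_right]
      simp only [h2, mul_sub, Finset.sum_sub_distrib]
      rw [hρ u hu, hρ t ht, sub_zero]
    simp only [ν, h1, zero_div]
  refine ⟨β, I, cf, ν, hβ, ?_, ?_, ?_, hcf, ?_, ?_⟩
  · have hset : {x : Fin m → ℚ | ∃ u ∈ Γ, x = fun i => (u i : ℚ)} =
        (fun M : Vec r m => fun i => (M.2 i : ℚ)) '' S := by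
      ext x
      constructor
      · rintro ⟨u, hu, rfl⟩
        obtain ⟨M, hM, rfl⟩ := hΓ' u hu
        exact ⟨M, hM, rfl⟩
      · rintro ⟨M, hM, rfl⟩
        exact ⟨M.2, hΓ M hM, rfl⟩
    rw [hI, hset]
    rfl
  · intro M hM i hi
    exact hβ0 _ (hΓ M hM) i hi
  · intro i hi
    obtain ⟨u, hu, t, ht, h⟩ := heI i hi
    obtain ⟨M, hM, hMu⟩ := hΓ' u hu
    obtain ⟨N, hN, hNt⟩ := hΓ' t ht
    by_contra hcon
    push Not at hcon
    have h1 := hcon M hM
    have h2 := hcon N hN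
    have h3 := he i i
    rw [if_pos rfl] at h3
    rw [hMu, ← h] at h1
    rw [hNt] at h2
    simp only [Pi.add_apply, mul_add, Finset.sum_add_distrib] at h1
    rw [h2, h3] at h1
    omega
  · intro M hM
    rw [hcfψ _ (hΓ M hM), hψ M hM]
  · intro j
    have h1 := Chr.left_inv β α e hα he ρ j
    have h2 : (w j : G) - E (cf j) / cf j = ρ j := rfl
    rw [h2, h1, ← Finset.sum_add_sum_compl I, Finset.sum_eq_zero, zero_add]
    intro i hi
    have h3 := hν0 i hi
    simp only [ν] at h3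
    rw [h3, zero_mul]

end

end Pool.Agent.MLD.R
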