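import Pool.Agent.Lib.MP_f23696_ag.Ctx
import Pool.Agent.Lib.MP_f23696_ag.DefsR
import Pool.Agent.Lib.MP_f23696_ag.T.Ctx

/-!
Internal vocabulary for the project LSC-ARR (MP_f23696_ag): hyperplane arrangements in general
position, monomials, tropical valuations.
-/

namespace Pool.Agent.MLD.R

open scoped Classical
noncomputable section

universe u v w

/-! ### Combinatorics -/

/-- Exponents `(a, u)` of a monomial `∏ ℓ_Q^{a_Q} ∏ x_i^{u_i}`, and also values `(h, w)` of a
tropical valuation at `ℓ_Q` and `x_i`. -/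
abbrev Vec (r m : ℕ) : Type := (Fin r → ℤ) × (Fin m → ℤ)

variable {c r m : ℕ}

/-- total degree in the linear forms -/
def deg (M : Vec r m) : ℤ := ∑ Q, M.1 Q

/-- value of the tropical valuation `V` at the monomial `M` -/
def pair (V M : Vec r m) : ℤ := ∑ Q, V.1 Q * M.1 Q + ∑ i, V.2 i * M.2 i

/-- the exponent of `ℓ_Q` -/
def ee (Q : Fin r) : Vec r m := (Pi.single Q 1, 0)

/-- the set `I_V` of the forms with nonzero height -/
def supp (V : Vec r m) : Finset (Fin r) := Finset.univ.filter fun Q => V.1 Q ≠ 0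

/-- `V` is a tropical valuation of the general arrangement in `ℙ^c`: heights `≥ 0`, at most `c` of
them nonzero. -/
structure Trop (c : ℕ) (V : Vec r m) : Prop where
  nonneg : ∀ Q, 0 ≤ V.1 Q
  card : (supp V).card ≤ c

/-- `1 +` the order of `dz_1 ∧ ⋯ ∧ dz_c ∧ dx_1 ∧ ⋯ ∧ dx_m`; `o` is the hyperplane at infinity. -/
def disc (c : ℕ) (o : Fin r) (V : Vec r m) : ℤ := ∑ Q, V.1 Q - (c + 1) * V.1 o + ∑ i, V.2 i

def pairR (V : Vec r m) (γ : Vec r m →₀ ℝ) : ℝ := γ.sum fun M t => t * (pair V M : ℝ)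

/-- log discrepancy of `V` with respect to the local equation `γ` -/
def ld (c : ℕ) (o : Fin r) (γ : Vec r m →₀ ℝ) (V : Vec r m) : ℝ := (disc c o V : ℝ) - pairR V γ

/-- the monomials at which all elements of `E` are nonnegative -/
def MA (E : Finset (Vec r m)) : Set (Vec r m) := {M | deg M = 0 ∧ ∀ V ∈ E, 0 ≤ pair V M}

/-- `Z` is a face of the monoid `MA E`. -/
structure IsFace (E : Finset (Vec r m)) (Z : Set (Vec r m)) : Prop where
  sub : Z ⊆ MA E
  zero : (0 : Vec r m) ∈ Z
  add : ∀ M ∈ Z, ∀ M' ∈ Z, M + M' ∈ Z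
  face : ∀ M ∈ MA E, ∀ M' ∈ MA E, M + M' ∈ Z → M ∈ Z

/-- the monomials of `MA E` at which `V` vanishes -/
def zeroSet (E : Finset (Vec r m)) (V : Vec r m) : Set (Vec r m) := {M | M ∈ MA E ∧ pair V M = 0}

/-- rank of the group generated by the degrees of the elements of `Z` -/
def rk (Z : Set (Vec r m)) : ℕ :=
  Module.finrank ℚ (Submodule.span ℚ ((fun M : Vec r m => fun i => (M.2 i : ℚ)) '' Z))

/-- `Z` contains two different monomials of the same degree. -/
def HasPair (Z : Set (Vec r m)) : Prop := ∃ M ∈ Z, ∃ M' ∈ Z, M.2 = M'.2 ∧ M.1 ≠ M'.1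

/-- dimension of the part in `ℙ^c` of the centre of `V`, `Z` the set of monomials at which `V`
vanishes -/
def kap (c : ℕ) (Z : Set (Vec r m)) (V : Vec r m) : ℕ := if HasPair Z then c - (supp V).card else 0

/-- The combinatorial data at a point: `E` is the set of the valuations of all the prime divisors
containing monomials, `S` the set of the monomials of the ring which do not vanish at the point. -/
structure CD (c r m : ℕ) where
  o : Fin r
  E : Finset (Vec r m)
  trop : ∀ V ∈ E, Trop 1 V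
  S : Set (Vec r m)
  face : IsFace E S
  γ : Vec r m →₀ ℝ
  γ0 : ∀ M ∈ γ.support, deg M = 0
  one_le : 1 ≤ c
  lt : c < r
  ld_le : ∀ V ∈ E, (∀ M ∈ S, pair V M = 0) → ld c o γ V ≤ 1
  rel : ∀ J : Finset (Fin r), J.card = c + 1 → ∀ Q ∉ J, ∀ M ∈ S,
    (∀ i ∈ J, M + ee i - ee Q ∈ MA E) → ∃ i ∈ J, M + ee i - ee Q ∈ S

/-! ### Geometry -/

/-- A field `K` generated over `k` by the algebraically independent elements `y`, with its partial
derivatives. -/
structure RF (k : Type u) (K : Type v) [Field k] [Field K] [Algebra k K] (n : ℕ) where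
  y : Fin n → K
  ind : AlgebraicIndependent k y
  gen : IntermediateField.adjoin k (Set.range y) = ⊤
  D : Fin n → Derivation k K K
  dual : ∀ i j, D i (y j) = if i = j then 1 else 0

/-- The field `K = k(z_1, …, z_c, x_1, …, x_m)` with its partial derivatives and `r` affine linear
forms in `z` in general position, among them the coordinate forms `1, z_1, …, z_c`. -/
structure RA (k : Type u) (K : Type v) [Field k] [Field K] [Algebra k K] (c m r : ℕ) where
  z : Fin c → K
  x : Fin m → K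
  ind : AlgebraicIndependent k (Fin.append x z)
  gen : IntermediateField.adjoin k (Set.range (Fin.append x z)) = ⊤
  D : Fin (m + c) → Derivation k K K
  dual : ∀ i j, D i (Fin.append x z j) = if i = j then 1 else 0
  L : Fin r → Fin (c + 1) → k
  o : Fin (c + 1) → Fin r
  hL : ∀ i, L (o i) = Pi.single i 1
  gp : ∀ f : Fin (c + 1) → Fin r, Function.Injective f →
    (Matrix.of fun i j => L (f i) j).det ≠ 0

variable {k : Type u} {K : Type v} [Field k] [Field K] [Algebra k K]

/-- the coordinates `x, z` -/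
def RA.rf (C : RA k K c m r) : RF k K (m + c) where
  y := Fin.append C.x C.z
  ind := C.ind
  gen := C.gen
  D := C.D
  dual := C.dual

/-- value of an affine linear form -/
def RA.lin (C : RA k K c m r) (l : Fin (c + 1) → k) : K := linForm C.z l

/-- the form `ℓ_Q` -/
def RA.ell (C : RA k K c m r) (Q : Fin r) : K := C.lin (C.L Q)

/-- the monomial `∏ ℓ_Q^{a_Q} ∏ x_i^{u_i}` -/
def RA.mon (C : RA k K c m r) (M : Vec r m) : K := (∏ Q, C.ell Q ^ M.1 Q) * ∏ i, C.x i ^ M.2 i

/-- linear combination of monomials -/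
def RA.esum (C : RA k K c m r) (κ : Vec r m →₀ k) : K :=
  κ.sum fun M a => algebraMap k K a * C.mon M

/-- the monomials in the frame `f`: degree zero, only the forms `ℓ_{f 0}, …, ℓ_{f c}` -/
def FM (f : Fin (c + 1) → Fin r) : Set (Vec r m) :=
  {M | deg M = 0 ∧ ∀ Q, Q ∉ Set.range f → M.1 Q = 0}

/-- `v` has the values given by `V` on the monomials -/
def HasTrop (C : RA k K c m r) (V : Vec r m) (v : DVal k K) : Prop :=
  ∀ M, deg M = 0 → v.ord (C.mon M) = pair V M

/-- `v` is the monomial valuation with the weights `V` in some frame. -/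
structure MonVal (C : RA k K c m r) (V : Vec r m) (v : DVal k K) : Prop where
  trop : Trop c V
  ord : HasTrop C V v
  form : ∃ j, v.FormOrd C.D j
  min : ∃ f : Fin (c + 1) → Fin r, Function.Injective f ∧ f 0 ∉ supp V ∧
    (∀ Q ∈ supp V, Q ∈ Set.range f) ∧
    ∀ κ : Vec r m →₀ k, (∀ M ∈ κ.support, M ∈ FM f) → ∀ M ∈ κ.support,
      C.esum κ ≠ 0 ∧ v.ord (C.esum κ) ≤ pair V M

/-- A normal affine variety with coordinate ring generated by monomials. -/
structure AV (C : RA k K c m r) where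
  A : Subalgebra k K
  gens : Finset (Vec r m)
  gens0 : ∀ M ∈ gens, deg M = 0
  adj : Algebra.adjoin k (C.mon '' (gens : Set (Vec r m))) = A
  full : ∀ M, deg M = 0 → ∃ N, deg N = 0 ∧ C.mon N ∈ A ∧ C.mon (N + M) ∈ A
  frac : ∀ f : K, ∃ a b : A, (b : K) ≠ 0 ∧ f = (a : K) / b
  normal : ∀ f : K, IsIntegral A f → f ∈ A
  con : ∀ q : Ideal A, IsHeightOne q → ∀ v : DVal k K, v.HasCenter A q →
    ∀ Q₁ Q₂ Q₃, Q₁ ≠ Q₂ → v.ord (C.ell Q₃) < v.ord (C.ell Q₁) →
      ¬ v.ord (C.ell Q₃) < v.ord (C.ell Q₂)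

variable {C : RA k K c m r}

/-- the monomials in the coordinate ring -/
def AV.MX (X : AV C) : Set (Vec r m) := {M | deg M = 0 ∧ C.mon M ∈ X.A}

/-- the monomials of the coordinate ring not in `p` -/
def AV.S (X : AV C) (p : Ideal X.A) : Set (Vec r m) :=
  {M | deg M = 0 ∧ ∃ h : C.mon M ∈ X.A, (⟨C.mon M, h⟩ : X.A) ∉ p}

/-- The prime divisors containing monomials. -/
structure EData (X : AV C) where
  E : Finset (Vec r m)
  vv : Vec r m → DVal k K
  qq : Vec r m → Ideal X.A
  ht : ∀ V ∈ E, IsHeightOne (qq V)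
  mv : ∀ V ∈ E, MonVal C V (vv V)
  cen : ∀ V ∈ E, (vv V).HasCenter X.A (qq V)
  card : ∀ V ∈ E, (supp V).card ≤ 1
  all : ∀ q : Ideal X.A, IsHeightOne q → X.S q ≠ X.MX → ∃ V ∈ E, qq V = q
  mem : X.MX = MA E

/-- the unit of `K` given by a monomial -/
def RA.monU (C : RA k K c m r) (M : Vec r m) : Kˣ :=
  if H : C.mon M ≠ 0 then Units.mk0 _ H else 1

/-- monomial local equation as a local equation -/
def RA.toEq (C : RA k K c m r) (γ : Vec r m →₀ ℝ) : Kˣ →₀ ℝ := γ.mapDomain C.monU

end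

end Pool.Agent.MLD.R
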