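import Pool.Agent.Lib.MP_f23696_ag.R.Vec
import Pool.Agent.Lib.MP_f23696_ag.T.Der

/-!
Project LSC-ARR (MP_f23696_ag), module DIV: a valuation for which the order of the form exists is
divisorial.
-/

namespace Pool.Agent.MLD.R

open scoped Classical
noncomputable section

universe u v w

open Pool.Agent.MLD.Jac Pool.Agent.MLD.Ten

namespace Div

variable {k : Type u} [Field k] {K : Type v} [Field K] [Algebra k K]

theorem small_of_integral (v : DVal k K) (G : Derivation k K K)
    (hG : ∀ c, v.Integral c → v.Integral (G c)) (p : K) (hp0 : p ≠ 0) (hp : v.ord p = 1)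
    (hGp : v.Small (G p)) (c : K) (hc : v.Small c) : v.Small (G c) := by
  have h1 : LB v 0 (c * p⁻¹) := by
    have h2 : LB v (-1) p⁻¹ := by
      intro _
      rw [ord_inv v p hp0, hp]
    have h3 : LB v 1 c := hc
    have := h3.mul h2
    rwa [show (1 : ℤ) + -1 = 0 by norm_num] at this
  have h2 : c = p * (c * p⁻¹) := by
    rw [mul_comm c, ← mul_assoc, mul_inv_cancel₀ hp0, one_mul]
  have h3 : LB v 1 (p * G (c * p⁻¹)) := by
    have h4 : LB v 1 p := fun _ => hp.ge
    have h5 : LB v 0 (G (c * p⁻¹)) := hG _ h1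
    have := h4.mul h5
    rwa [add_zero] at this
  have h4 : LB v 1 (c * p⁻¹ * G p) := by
    have h5 : LB v 1 (G p) := hGp
    have := h1.mul h5
    rwa [zero_add] at this
  have h5 : G c = p * G (c * p⁻¹) + c * p⁻¹ * G p := by
    conv_lhs => rw [h2]
    rw [Derivation.leibniz, smul_eq_mul, smul_eq_mul]
  have h6 : LB v 1 (G c) := by
    rw [h5]
    exact h3.add h4
  exact h6

theorem main [CharZero k] (v : DVal k K) {n : ℕ} (G : Fin n → Derivation k K K) (t : Fin n → K)
    (ht : ∀ i l, G i (t l) = if i = l then 1 else 0)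
    (hG : ∀ i c, v.Small c → v.Small (G i c)) :
    ∀ N : ℕ, ∀ F : MvPolynomial (Fin n) k, F.totalDegree ≤ N →
      v.Small (MvPolynomial.aeval t F) → F = 0 := by
  have hC : ∀ a : k, v.Small (algebraMap k K a) → a = 0 := by
    intro a ha
    by_contra hne
    have h1 := ha (by simpa using hne)
    rw [v.ord_algebraMap a hne] at h1
    exact lt_irrefl _ h1
  intro N
  induction N with
  | zero =>
    intro F hF h0
    have h1 := MvPolynomial.totalDegree_eq_zero_iff_eq_C.1 (Nat.le_zero.1 hF)
    rw [h1, MvPolynomial.aeval_C] at h0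
    rw [h1, hC _ h0, map_zero]
  | succ N ih =>
    intro F hF h0
    have h1 : ∀ l, MvPolynomial.pderiv l F = 0 := by
      intro l
      refine ih _ (Jind.totalDegree_pderiv F l N hF) ?_
      have h2 := hG l _ h0
      rw [Jind.der_aeval] at h2
      simpa [ht] using h2
    have h3 := Jind.eq_C_of_pderiv F h1
    rw [h3, MvPolynomial.aeval_C] at h0
    rw [h3, hC _ h0, map_zero]

end Div

theorem divi {k : Type u} [Field k] [CharZero k] {K : Type v} [Field K] [Algebra k K] {n : ℕ}
    (D : Fin (n + 1) → Derivation k K K) (v : DVal k K) (j : ℤ) (hj : v.FormOrd D j) :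
    v.IsDivisorial n := by
  obtain ⟨a, E, ha, -, -, hE, -, -, hint⟩ := Ten.formOrd_dual v D j hj
  obtain ⟨p, hp0, hp⟩ := v.exists_ord_eq_one
  have hpi : v.Integral p := fun _ => by omega
  have key : ∃ (i0 : Fin (n + 1)) (F : Fin (n + 1) → Derivation k K K),
      (∀ i l, i ≠ i0 → l ≠ i0 → F i (a l) = if i = l then 1 else 0) ∧
      (∀ i c, v.Integral c → v.Integral (F i c)) ∧ ∀ i, v.Small (F i p) := by
    by_cases h : ∃ i0, ¬ v.Small (E i0 p)
    · obtain ⟨i0, h0⟩ := h
      obtain ⟨hne, hord⟩ := ord_eq_zero_of v (hint i0 p hpi) h0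
      refine ⟨i0, fun i => E i - (E i p * (E i0 p)⁻¹) • E i0, ?_, ?_, ?_⟩
      · intro i l _ hl
        rw [Derivation.sub_apply, Derivation.smul_apply, hE, hE i0 l, if_neg (Ne.symm hl),
          smul_zero, sub_zero]
      · intro i c hc
        rw [Derivation.sub_apply, Derivation.smul_apply, smul_eq_mul]
        have h1 : LB v 0 (E i c) := hint i c hc
        have h2 : LB v 0 (E i0 c) := hint i0 c hc
        have h3 : LB v 0 (E i p) := hint i p hpi
        have h4 : LB v 0 (E i0 p)⁻¹ := by
          intro _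
          rw [ord_inv v _ hne, hord, neg_zero]
        have h5 := (h3.mul h4).mul h2
        rw [add_zero, add_zero] at h5
        exact LB_sub v h1 h5
      · intro i
        rw [Derivation.sub_apply, Derivation.smul_apply, smul_eq_mul, mul_assoc,
          inv_mul_cancel₀ hne, mul_one, sub_self]
        exact fun h => absurd rfl h
    · push Not at h
      exact ⟨0, E, fun i l _ _ => hE i l, hint, h⟩
  obtain ⟨i0, F, hF1, hF2, hF3⟩ := key
  refine ⟨fun i => a (i0.succAbove i), fun i => ha _, fun P hP hs => hP ?_⟩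
  refine Div.main v (fun i => F (i0.succAbove i)) (fun i => a (i0.succAbove i)) ?_ ?_
    P.totalDegree P le_rfl hs
  · intro i l
    rw [hF1 _ _ (Fin.succAbove_ne i0 i) (Fin.succAbove_ne i0 l)]
    simp only [Fin.succAbove_right_inj]
  · intro i c hc
    exact Div.small_of_integral v _ (hF2 _) p hp0 hp (hF3 _) c hc

end

end Pool.Agent.MLD.R
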