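import Pool.Agent.Lib.MP_f23696_ag.R.Rfb
import Pool.Agent.Lib.MP_f23696_ag.Phi2

/-!
Project LSC-ARR (MP_f23696_ag), module EMB: embeddings of `K` into `G((T))((s))` and the bound of
the Jacobians.
-/

namespace Pool.Agent.MLD.R

open scoped Classical
open Pool.Agent.MLD.Phi2 (VD Dat DDer vd akk axi)
noncomputable section

universe u v w

namespace Emb

/-! ### determinants -/

theorem det_lower {L : Type v} [Field L] {m c : ℕ} (M : Matrix (Fin (m + c)) (Fin (m + c)) L)
    (h : ∀ i j, M (Fin.castAdd c i) (Fin.natAdd m j) = 0) :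
    M.det = (Matrix.of fun i j : Fin m => M (Fin.castAdd c i) (Fin.castAdd c j)).det *
      (Matrix.of fun i j : Fin c => M (Fin.natAdd m i) (Fin.natAdd m j)).det := by
  have h1 : M.submatrix finSumFinEquiv finSumFinEquiv =
      Matrix.fromBlocks (Matrix.of fun i j : Fin m => M (Fin.castAdd c i) (Fin.castAdd c j)) 0
        (Matrix.of fun (i : Fin c) (j : Fin m) => M (Fin.natAdd m i) (Fin.castAdd c j))
        (Matrix.of fun i j : Fin c => M (Fin.natAdd m i) (Fin.natAdd m j)) := by
    ext i j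
    rcases i with i | i <;> rcases j with j | j
    · simp
    · simp [h]
    · simp
    · simp
  rw [← Matrix.det_submatrix_equiv_self finSumFinEquiv M, h1, Matrix.det_fromBlocks_zero₁₂]

section Abs2
variable {k : Type u} [Field k] {L : Type v} [Field L] [Algebra k L]

/-- if a derivation raising the order is a combination of the derivations of the family, then
the determinant has order at least one -/
theorem det_rel (V : VD L) {n : ℕ} (ds : Derivation k L L) (Δ : Fin n → Derivation k L L)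
    (hds : ∀ f, V.P 0 f → V.P 1 (ds f)) (hΔ : ∀ i f, V.P 0 f → V.P 0 (Δ i f))
    (lam : Fin n → L) (p₀ : Fin n) (hl : lam p₀ ≠ 0) (hlP : V.P 0 (lam p₀)⁻¹)
    (b : Fin n → L) (hb : ∀ j, V.P 0 (b j)) (hrel : ∀ j, ds (b j) = ∑ i, lam i * Δ i (b j)) :
    V.P 1 (Matrix.of fun i j => Δ i (b j)).det := by
  set M : Matrix (Fin n) (Fin n) L := Matrix.of fun i j => Δ i (b j) with hM
  have h := Matrix.det_updateRow_sum M p₀ lam
  have hrow : (∑ r, lam r • M r) = fun j => ds (b j) := by
    funext j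
    rw [Finset.sum_apply, hrel j]
    simp [hM]
  rw [hrow] at h
  have h1 : V.P 1 (M.updateRow p₀ fun j => ds (b j)).det := by
    apply V.det _ p₀
    · intro i j
      by_cases hi : i = p₀
      · rw [hi, Matrix.updateRow_self]
        exact V.mono (by norm_num) (hds _ (hb j))
      · rw [Matrix.updateRow_ne hi]
        exact hΔ i _ (hb j)
    · intro j
      rw [Matrix.updateRow_self]
      exact hds _ (hb j)
  rw [h, smul_eq_mul] at h1
  have h2 := V.mul _ _ _ _ hlP h1
  rw [zero_add, inv_mul_cancel_left₀ hl] at h2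
  exact h2

end Abs2

section Abs
variable {k : Type u} [Field k] {L : Type v} [Field L] [Algebra k L] {m c : ℕ}
  {V : VD L} {s : L} {T a : Fin m → L} (H : Dat V s T a)

/-- the images of the coordinates -/
def img (s : L) (T a : Fin m → L) (U : Fin c → L) (z : Fin c → ℤ) (w : Fin m → ℤ)
    (β : Matrix (Fin m) (Fin m) ℤ) (I : Finset (Fin m)) : Fin (m + c) → L :=
  Fin.append (axi s T a w β I) fun b => s ^ z b * U b

include H

theorem z_der {D : Derivation k L L} {q u u' : L} (h1 : D s = q * s) (h2 : D u = u') (z : ℤ) :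
    D (s ^ z * u) = (z : L) * q * (s ^ z * u) + s ^ z * u' := by
  rw [Derivation.leibniz, Phi2.der_zpow D H.sne h1, h2, smul_eq_mul, smul_eq_mul]
  ring

theorem J0 (e : Fin m → Derivation k L L) (D0 : Fin c → Derivation k L L) (U : Fin c → L)
    (hD : ∀ a b, D0 a (U b) = if a = b then U b else 0) (hDs : ∀ a, D0 a s = 0)
    (hU : ∀ i b, e i (U b) = 0) (h1 : ∀ i j, e i (a j) = 0) (h2 : ∀ i, e i s = 0)
    (h3 : ∀ i j, e i (T j) = if i = j then T j else 0) (z : Fin c → ℤ) (w : Fin m → ℤ)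
    (β : Matrix (Fin m) (Fin m) ℤ) (I : Finset (Fin m)) :
    (Matrix.of fun i j => (Fin.append e D0 : Fin (m + c) → Derivation k L L) i
      (img s T a U z w β I j)).det =
      (∏ b, s ^ z b * U b) *
        ((∏ j, axi s T a w β I j) * ((∏ i, akk s T I i) * ((β.det : ℤ) : L))) := by
  rw [det_lower, mul_comm]
  · congr 1
    · have : (Matrix.of fun i j : Fin c => (Matrix.of fun i j =>
          (Fin.append e D0 : Fin (m + c) → Derivation k L L) i (img s T a U z w β I j))
            (Fin.natAdd m i) (Fin.natAdd m j)) = Matrix.diagonal fun b => s ^ z b * U b := by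
        ext i j
        simp only [Matrix.of_apply, img, Fin.append_right]
        rw [z_der H (q := 0) (by rw [hDs, zero_mul]) (hD i j), Matrix.diagonal_apply]
        by_cases hij : i = j
        · rw [if_pos hij, if_pos hij, hij]
          ring
        · rw [if_neg hij, if_neg hij]
          ring
      rw [this, Matrix.det_diagonal]
    · rw [← Phi2.det_form]
      congr 1
      ext i j
      simp only [Matrix.of_apply, img, Fin.append_left]
      exact Phi2.e_axi H (h1 i) (h2 i) (h3 i) w β I j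
  · intro i b
    simp only [Matrix.of_apply, img, Fin.append_left, Fin.append_right]
    rw [z_der H (q := 0) (by rw [h2, zero_mul]) (hU i b)]
    ring

theorem d_axi {D : Derivation k L L} {η : Fin m → L} (h1 : ∀ j, D (a j) = η j * a j)
    (h2 : D s = 0) (h3 : ∀ j, D (T j) = 0) (w : Fin m → ℤ) (β : Matrix (Fin m) (Fin m) ℤ)
    (I : Finset (Fin m)) (j : Fin m) :
    D (axi s T a w β I j) = axi s T a w β I j * η j := by
  have h := Phi2.ld_axi H D w β I j
  have h4 : ∀ i, D (Phi2.att s T I i) = 0 := by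
    intro i
    unfold Phi2.att
    split_ifs
    · rw [map_add, Derivation.leibniz, h2, h3 i, Derivation.map_one_eq_zero D]
      simp
    · exact h3 i
  have h5 : ∑ i, ((β i j : ℤ) : L) * (D (Phi2.att s T I i) / Phi2.att s T I i) = 0 :=
    Finset.sum_eq_zero fun i _ => by rw [h4, zero_div, mul_zero]
  rw [h5, h1, h2, zero_div, mul_zero, add_zero, add_zero, mul_div_assoc, div_self (H.ane j),
    mul_one, div_eq_iff (Phi2.axi_ne H w β I j)] at h
  rw [h, mul_comm]

theorem rel [CharZero k] {K : Type w} [Field K] [Algebra k K] (R : RF k K (m + c))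
    (ds : Derivation k L L) (e : Fin m → Derivation k L L) (D0 : Fin c → Derivation k L L)
    (U : Fin c → L)
    (hD : ∀ a b, D0 a (U b) = if a = b then U b else 0) (hDs : ∀ a, D0 a s = 0)
    (hDT : ∀ b j, D0 b (T j) = 0) (η : Fin c → Fin m → L) (hη : ∀ b j, D0 b (a j) = η b j * a j)
    (hU : ∀ i b, e i (U b) = 0) (h1 : ∀ i j, e i (a j) = 0) (h2 : ∀ i, e i s = 0)
    (h3 : ∀ i j, e i (T j) = if i = j then T j else 0)
    (sU : ∀ b, ds (U b) = 0) (s1 : ∀ j, ds (a j) = 0) (s2 : ds s = s) (s3 : ∀ j, ds (T j) = 0)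
    (z : Fin c → ℤ) (w : Fin m → ℤ) (β : Matrix (Fin m) (Fin m) ℤ) (I : Finset (Fin m))
    (ν : Fin m → L) (hν : ∀ j, (w j : L) - ∑ b, (z b : L) * η b j = ∑ i ∈ Iᶜ, ν i * (β i j : L))
    (Φ : K →ₐ[k] L) (hΦ : ∀ j, Φ (R.y j) = img s T a U z w β I j) (x : K) :
    ds (Φ x) = ∑ p, (Fin.append (fun i => if i ∈ I then (1 : L) else ν i) (fun b => (z b : L)) :
      Fin (m + c) → L) p * (Fin.append e D0 : Fin (m + c) → Derivation k L L) p (Φ x) := by
  set lam : Fin (m + c) → L :=
    Fin.append (fun i => if i ∈ I then (1 : L) else ν i) (fun b => (z b : L)) with hlam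
  set Δ : Fin (m + c) → Derivation k L L := Fin.append e D0 with hΔ
  have key : ∀ y : L, (ds - ∑ p, lam p • Δ p) y = ds y - ∑ p, lam p * Δ p y := by
    intro y
    rw [Derivation.sub_apply, Phi2.der_sum]
    rfl
  have h := rf_der R Φ (ds - ∑ p, lam p • Δ p) (fun j => ?_) x
  · rw [key, sub_eq_zero] at h
    exact h
  · rw [key, hΦ, sub_eq_zero, Fin.sum_univ_add]
    simp only [hlam, hΔ, Fin.append_left, Fin.append_right, img]
    refine Fin.addCases (fun j => ?_) (fun b => ?_) j
    · rw [Fin.append_left, Phi2.ds_axi H s1 s2 s3]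
      have h5 : ∀ i ∈ Finset.univ, (if i ∈ I then (1 : L) else ν i) * e i (axi s T a w β I j) =
          axi s T a w β I j * ((if i ∈ I then (1 : L) else ν i) *
            (((β i j : ℤ) : L) * akk s T I i)) := by
        intro i _
        rw [Phi2.e_axi H (h1 i) (h2 i) (h3 i)]
        ring
      have h6 : ∀ b ∈ Finset.univ, (z b : L) * D0 b (axi s T a w β I j) =
          axi s T a w β I j * ((z b : L) * η b j) := by
        intro b _
        rw [d_axi H (hη b) (hDs b) (hDT b)]
        ring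
      rw [Finset.sum_congr rfl h5, Finset.sum_congr rfl h6, ← Finset.mul_sum, ← Finset.mul_sum,
        ← mul_add]
      congr 1
      have h7 : ((w j : ℤ) : L) = ∑ i ∈ Iᶜ, ν i * (β i j : L) + ∑ b, (z b : L) * η b j := by
        rw [← hν j]
        ring
      have h8 : ∑ i ∈ I, (if i ∈ I then (1 : L) else ν i) * (((β i j : ℤ) : L) * akk s T I i) =
          ∑ i ∈ I, ((β i j : ℤ) : L) * akk s T I i :=
        Finset.sum_congr rfl fun i hi => by rw [if_pos hi, one_mul]
      have h9 : ∑ i ∈ Iᶜ, (if i ∈ I then (1 : L) else ν i) * (((β i j : ℤ) : L) * akk s T I i) =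
          ∑ i ∈ Iᶜ, ν i * (β i j : L) := by
        refine Finset.sum_congr rfl fun i hi => ?_
        have hi' : i ∉ I := by simpa using hi
        rw [if_neg hi']
        unfold Phi2.akk
        rw [if_neg hi', mul_one]
      rw [← Finset.sum_add_sum_compl I, h8, h9, h7]
      ring
    · rw [Fin.append_right, z_der H (q := 1) (by rw [s2, one_mul]) (sU b)]
      have h5 : ∑ i, (if i ∈ I then (1 : L) else ν i) * e i (s ^ z b * U b) = 0 := by
        refine Finset.sum_eq_zero fun i _ => ?_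
        rw [z_der H (q := 0) (by rw [h2, zero_mul]) (hU i b)]
        ring
      have h6 : ∑ a, (z a : L) * D0 a (s ^ z b * U b) = (z b : L) * (s ^ z b * U b) := by
        rw [Finset.sum_eq_single b]
        · rw [z_der H (q := 0) (by rw [hDs, zero_mul]) (hD b b), if_pos rfl]
          ring
        · intro a _ hab
          rw [z_der H (q := 0) (by rw [hDs, zero_mul]) (hD a b), if_neg hab]
          ring
        · intro h
          exact absurd (Finset.mem_univ b) h
      rw [h5, h6]
      ring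

theorem z_ord (U : Fin c → L) (hU0 : ∀ b, U b ≠ 0) (hUo : ∀ b, V.ord (U b) = 0) (z : Fin c → ℤ) :
    (∏ b, s ^ z b * U b) ≠ 0 ∧ V.ord (∏ b, s ^ z b * U b) = ∑ b, z b := by
  have h0 : ∀ b, s ^ z b * U b ≠ 0 := fun b => mul_ne_zero (zpow_ne_zero _ H.sne) (hU0 b)
  refine ⟨Finset.prod_ne_zero_iff.2 fun b _ => h0 b, ?_⟩
  rw [V.ord_prod _ fun b _ => h0 b]
  refine Finset.sum_congr rfl fun b _ => ?_
  rw [V.ord_mul _ _ (zpow_ne_zero _ H.sne) (hU0 b), V.ord_zpow H.sne, H.sord, hUo]
  ring

theorem bound [CharZero k] {K : Type w} [Field K] [Algebra k K] (R : RF k K (m + c))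
    (e : Fin m → Derivation k L L) (D0 : Fin c → Derivation k L L) (U : Fin c → L)
    (hU0 : ∀ b, U b ≠ 0) (hUo : ∀ b, V.ord (U b) = 0)
    (hD : ∀ a b, D0 a (U b) = if a = b then U b else 0) (hDs : ∀ a, D0 a s = 0)
    (hU : ∀ i b, e i (U b) = 0) (h1 : ∀ i j, e i (a j) = 0) (h2 : ∀ i, e i s = 0)
    (h3 : ∀ i j, e i (T j) = if i = j then T j else 0) (z : Fin c → ℤ) (w : Fin m → ℤ)
    (β : Matrix (Fin m) (Fin m) ℤ) (hβ : β.det ≠ 0) (I : Finset (Fin m))
    (Φ : K →ₐ[k] L) (hΦ : ∀ j, Φ (R.y j) = img s T a U z w β I j)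
    (b : Fin (m + c) → K) (hJ : jac R.D b ≠ 0)
    (hdet : V.P 1 (Matrix.of fun i j =>
      (Fin.append e D0 : Fin (m + c) → Derivation k L L) i (Φ (b j))).det) :
    1 - (∑ b, z b + (∑ j, w j + I.card)) ≤ V.ord (Φ (jac R.D b)) := by
  have hQ : Φ (jac R.D b) ≠ 0 := (map_ne_zero Φ).2 hJ
  have hch := rf_chain R Φ (Fin.append e D0 : Fin (m + c) → Derivation k L L) b
  simp only [hΦ] at hch
  rw [J0 H e D0 U hD hDs hU h1 h2 h3 z w β I] at hch
  rw [hch] at hdet
  obtain ⟨hz0, hzo⟩ := z_ord H U hU0 hUo z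
  have hJn := Phi2.J0_ne H hz0 w β hβ I
  have h := V.to_ord 1 _ (mul_ne_zero hJn hQ) hdet
  rw [V.ord_mul _ _ hJn hQ, Phi2.J0_ord H hz0 w β hβ I, hzo] at h
  linarith

end Abs

end Emb

open Emb

theorem emb {k : Type u} [Field k] [CharZero k] {G : Type w} [Field G] [Algebra k G]
    {K : Type v} [Field K] [Algebra k K] {c m : ℕ} (R : RF k K (m + c))
    (U : Fin c → G) (hU : ∀ a, U a ≠ 0) (δ : Fin c → Derivation k G G)
    (hδ : ∀ a b, δ a (U b) = if a = b then U b else 0)
    (e : Fin c → ℤ) (w : Fin m → ℤ) (cf : Fin m → G) (hcf : ∀ j, cf j ≠ 0)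
    (β : Matrix (Fin m) (Fin m) ℤ) (hβ : β.det ≠ 0) (I : Finset (Fin m)) (ν : Fin m → G)
    (hν : ∀ j, (w j : G) - (∑ a, (e a : G) * (δ a (cf j) / cf j)) = ∑ i ∈ Iᶜ, ν i * (β i j : G))
    (hne : (∃ i, i ∈ I) ∨ (∃ a, e a ≠ 0) ∨ ∃ j, w j ≠ 0) :
    ∃ Φ : K →ₐ[k] LL G m, (∀ a, Φ (R.y (Fin.natAdd m a)) = ss G m ^ e a * cc G m (U a)) ∧
      (∀ j, Φ (R.y (Fin.castAdd c j)) = xi cf w β I j) ∧
      ∀ a : Fin (m + c) → K, (∀ i, 0 ≤ (Φ (a i)).order) → jac R.D a ≠ 0 →
        1 - (∑ a, e a + ∑ i, w i + I.card) ≤ (Φ (jac R.D a)).order := by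
  have : CharZero G := charZero_of_injective_algebraMap (algebraMap k G).injective
  have hd := Phi2.dat (F := G) (m := m) cf hcf
  choose ee b1 b2 b3 b4 using fun i => Phi2.exists_e (k := k) (F := G) (m := m) i
  choose D0 a1 a2 a3 a4 using fun b => Phi2.exists_d0 (k := k) (F := G) (m := m) (δ b)
  obtain ⟨ds, s1, s2, s3, s4⟩ := Phi2.exists_ds (k := k) (F := G) (m := m)
  have hU0 : ∀ b, cc G m (U b) ≠ 0 := fun b => (map_ne_zero _).2 (hU b)
  have hUo : ∀ b, (vd (EE G m)).ord (cc G m (U b)) = 0 := fun b => HahnSeries.order_C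
  have hD : ∀ a b, D0 a (cc G m (U b)) = if a = b then cc G m (U b) else 0 := by
    intro a b
    rw [a2, hδ]
    split_ifs
    · rfl
    · rw [map_zero]
  have hJ := J0 hd ee D0 (fun b => cc G m (U b)) hD a3 (fun i b => b2 i _) (fun i j => b2 i _)
    b3 b4 e w β I
  obtain ⟨hz0, hzo⟩ := z_ord hd (fun b => cc G m (U b)) hU0 hUo e
  have hJn := Phi2.J0_ne hd hz0 w β hβ I
  rw [← hJ] at hJn
  obtain ⟨Φ, hΦ⟩ := rf_embed R _ (jac_indep _ _ hJn)
  refine ⟨Φ, fun a => ?_, fun j => ?_, fun a ha hJa => ?_⟩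
  · rw [hΦ]
    unfold img
    rw [Fin.append_right]
  · rw [hΦ]
    unfold img
    rw [Fin.append_left]
    rfl
  · have hν' : ∀ j, (w j : LL G m) - ∑ b, (e b : LL G m) * cc G m (δ b (cf j) / cf j) =
        ∑ i ∈ Iᶜ, cc G m (ν i) * (β i j : LL G m) := by
      intro j
      have h := congrArg (cc G m) (hν j)
      simpa using h
    have hη : ∀ b j, D0 b (cc G m (cf j)) = cc G m (δ b (cf j) / cf j) * cc G m (cf j) := by
      intro b j
      rw [a2, ← map_mul, div_mul_cancel₀ _ (hcf j)]
    have hrel : ∀ j, ds (Φ (a j)) = _ := fun j => rel hd R ds ee D0 (fun b => cc G m (U b)) hD a3 a4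
      (fun b j => cc G m (δ b (cf j) / cf j)) hη (fun i b => b2 i _) (fun i j => b2 i _)
      b3 b4 (fun b => s2 _) (fun j => s2 _) s3 s4 e w β I (fun i => cc G m (ν i)) hν' Φ hΦ (a j)
    obtain ⟨p₀, hp₀, hp₁⟩ : ∃ p₀ : Fin (m + c),
        (Fin.append (fun i => if i ∈ I then (1 : LL G m) else cc G m (ν i))
          (fun b => (e b : LL G m)) : Fin (m + c) → LL G m) p₀ ≠ 0 ∧
        (vd (EE G m)).P 0 ((Fin.append (fun i => if i ∈ I then (1 : LL G m) else cc G m (ν i))
          (fun b => (e b : LL G m)) : Fin (m + c) → LL G m) p₀)⁻¹ := by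
      have hint : ∀ f : LL G m, f ≠ 0 → (vd (EE G m)).ord f = 0 → (vd (EE G m)).P 0 f⁻¹ := by
        intro f hf h0
        apply (vd (EE G m)).of_ord
        rw [(vd (EE G m)).ord_inv hf, h0]
        norm_num
      by_cases hI : ∃ i, i ∈ I
      · obtain ⟨i, hi⟩ := hI
        refine ⟨Fin.castAdd c i, ?_, ?_⟩
        · rw [Fin.append_left, if_pos hi]
          exact one_ne_zero
        · rw [Fin.append_left, if_pos hi]
          exact hint 1 one_ne_zero (vd (EE G m)).ord_one
      · by_cases he : ∃ b, e b ≠ 0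
        · obtain ⟨b, hb⟩ := he
          refine ⟨Fin.natAdd m b, ?_, ?_⟩
          · rw [Fin.append_right]
            exact hd.ine _ hb
          · rw [Fin.append_right]
            exact hint _ (hd.ine _ hb) (hd.iord _ hb)
        · have he' : ∀ b, e b = 0 := fun b => by
            by_contra h
            exact he ⟨b, h⟩
          obtain ⟨j, hj⟩ : ∃ j, w j ≠ 0 := by
            rcases hne with h | h | h
            · exact absurd h hI
            · exact absurd h he
            · exact h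
          have h5 := hν j
          have h6 : ∑ a, (e a : G) * (δ a (cf j) / cf j) = 0 :=
            Finset.sum_eq_zero fun b _ => by rw [he' b, Int.cast_zero, zero_mul]
          rw [h6, sub_zero] at h5
          have h7 : (w j : G) ≠ 0 := by exact_mod_cast hj
          rw [h5] at h7
          obtain ⟨i, hi, h8⟩ := Finset.exists_ne_zero_of_sum_ne_zero h7
          have hi' : i ∉ I := by simpa using hi
          have hνi : ν i ≠ 0 := left_ne_zero_of_mul h8
          refine ⟨Fin.castAdd c i, ?_, ?_⟩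
          · rw [Fin.append_left, if_neg hi']
            exact (map_ne_zero _).2 hνi
          · rw [Fin.append_left, if_neg hi']
            exact hint _ ((map_ne_zero _).2 hνi) HahnSeries.order_C
    have hΔ : ∀ i f, (vd (EE G m)).P 0 f → (vd (EE G m)).P 0
        ((Fin.append ee D0 : Fin (m + c) → DDer k (LL G m)) i f) := by
      intro i f hf
      refine Fin.addCases (fun i => ?_) (fun b => ?_) i
      · rw [Fin.append_left]
        exact b1 i f hf
      · rw [Fin.append_right]
        exact a1 b f hf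
    have hdet := det_rel (vd (EE G m)) ds (Fin.append ee D0) s1 hΔ _ p₀ hp₀ hp₁ (fun j => Φ (a j))
      (fun j => (vd (EE G m)).of_ord 0 _ (ha j)) hrel
    have h := bound hd R ee D0 (fun b => cc G m (U b)) hU0 hUo hD a3 (fun i b => b2 i _)
      (fun i j => b2 i _) b3 b4 e w β hβ I Φ hΦ a hJa hdet
    rw [← add_assoc] at h
    exact h

end

end Pool.Agent.MLD.R
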