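import Pool.Agent.Lib.MP_f23696_ag.R.Mon
import Pool.Agent.Lib.MP_f23696_ag.LeHB
import Pool.Agent.Lib.MP_f23696_ag.Ser

/-!
Project LSC-ARR (MP_f23696_ag), module LEA: leading terms of the images of the forms.
-/

namespace Pool.Agent.MLD.R

open scoped Classical
noncomputable section

set_option linter.unusedSectionVars false

universe u v w

variable {c r m : ℕ}

namespace Lea

section
variable {k : Type u} [Field k] {K : Type v} [Field K] [Algebra k K]

theorem linForm_eq {n : ℕ} (z : Fin n → K) (l : Fin (n + 1) → k) :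
    linForm z l = ∑ j, algebraMap k K (l j) * (Fin.cons 1 z : Fin (n + 1) → K) j := by
  rw [Fin.sum_univ_succ]
  simp [linForm]

theorem lin_sum (C : RA k K c m r) (a : Fin (c + 1) → k) (g : Fin (c + 1) → Fin (c + 1) → k) :
    C.lin (∑ j, a j • g j) = ∑ j, algebraMap k K (a j) * C.lin (g j) := by
  unfold RA.lin
  simp only [linForm_eq, Finset.sum_apply, Pi.smul_apply, smul_eq_mul, map_sum, map_mul,
    Finset.sum_mul, Finset.mul_sum]
  rw [Finset.sum_comm]
  exact Finset.sum_congr rfl fun j _ => Finset.sum_congr rfl fun i _ => by ring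

/-- `1, U_1, …, U_c` are linearly independent -/
theorem lin_ind {n : ℕ} (U : Fin n → K) (hU : AlgebraicIndependent k U) (l : Fin (n + 1) → k)
    (h0 : linForm U l = 0) : l = 0 := by
  have hz := hU
  rw [algebraicIndependent_iff] at hz
  have h1 := hz (MvPolynomial.C (l 0) + ∑ i, MvPolynomial.C (l i.succ) * MvPolynomial.X i) (by
    rw [map_add, map_sum, MvPolynomial.aeval_C]
    unfold linForm at h0
    rw [← h0]
    congr 1
    refine Finset.sum_congr rfl fun i _ => ?_
    rw [map_mul, MvPolynomial.aeval_C, MvPolynomial.aeval_X])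
  funext j
  refine Fin.cases ?_ (fun i => ?_) j
  · have h2 := congrArg (MvPolynomial.coeff 0) h1
    simpa [MvPolynomial.coeff_add, MvPolynomial.coeff_sum, MvPolynomial.coeff_C_mul] using h2
  · have h2 := congrArg (MvPolynomial.coeff (Finsupp.single i 1)) h1
    rw [MvPolynomial.coeff_add, MvPolynomial.coeff_sum, MvPolynomial.coeff_zero,
      MvPolynomial.coeff_C, if_neg (by
        intro h
        have := congrArg (fun f => f i) h
        simp at this), zero_add, Finset.sum_eq_single i] at h2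
    · rw [MvPolynomial.coeff_C_mul, MvPolynomial.coeff_X, if_pos rfl, mul_one] at h2
      exact h2
    · intro j _ hj
      rw [MvPolynomial.coeff_C_mul, MvPolynomial.coeff_X, if_neg, mul_zero]
      intro h
      exact hj (Finsupp.single_left_injective one_ne_zero h)
    · intro h
      exact absurd (Finset.mem_univ i) h

theorem expand_gp (C : RA k K c m r) (f : Fin (c + 1) → Fin r) (hf : Function.Injective f)
    (Q : Fin r) (hQ : Q ∉ Set.range f) : ∃ a : Fin (c + 1) → k,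
      C.L Q = ∑ j, a j • C.L (f j) ∧ ∀ j, a j ≠ 0 := by
  set A : Matrix (Fin (c + 1)) (Fin (c + 1)) k := Matrix.of fun i j => C.L (f i) j with hA
  have hdet : A.det ≠ 0 := C.gp f hf
  have hu : IsUnit A.det := isUnit_iff_ne_zero.2 hdet
  set a : Fin (c + 1) → k := Matrix.vecMul (C.L Q) A⁻¹ with ha
  have h1 : Matrix.vecMul a A = C.L Q := by
    rw [ha, Matrix.vecMul_vecMul, Matrix.nonsing_inv_mul _ hu, Matrix.vecMul_one]
  have h2 : C.L Q = ∑ j, a j • C.L (f j) := by
    rw [← h1]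
    funext i
    rw [Finset.sum_apply]
    simp [Matrix.vecMul, dotProduct, hA]
  refine ⟨a, h2, fun j hj => ?_⟩
  have h3 : (A.updateRow j (∑ i, a i • A i)).det = a j • A.det :=
    Matrix.det_updateRow_sum A j a
  have h4 : ∑ i, a i • A i = C.L Q := by
    rw [h2]
    rfl
  rw [h4, hj, zero_smul] at h3
  have h5 : A.updateRow j (C.L Q) = Matrix.of fun i l => C.L (Function.update f j Q i) l := by
    ext i l
    by_cases hi : i = j
    · subst hi
      simp
    · simp [hi, hA, Matrix.updateRow_ne]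
  rw [h5] at h3
  refine C.gp (Function.update f j Q) ?_ h3
  intro i i' hii
  by_cases hi : i = j
  · by_cases hi' : i' = j
    · rw [hi, hi']
    · rw [hi, Function.update_self, Function.update_of_ne hi'] at hii
      exact absurd ⟨i', hii.symm⟩ hQ
  · by_cases hi' : i' = j
    · rw [hi', Function.update_self, Function.update_of_ne hi] at hii
      exact absurd ⟨i, hii⟩ hQ
    · rw [Function.update_of_ne hi, Function.update_of_ne hi'] at hii
      exact hf hii

end

section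
variable {E : Type v} [Field E]

theorem lc_of_Ld {a : LaurentSeries E} {n : ℤ} {e : E} (h : Ser.Ld a n e) (he : e ≠ 0) :
    a.leadingCoeff = e := by
  obtain ⟨b, rfl, hb⟩ := h
  have h1 : LEC.lc E (Ser.s E ^ n * b) = e := by
    rw [map_mul, map_zpow₀, ← LEC.coeff_zero_of_order (hb.order_eq he), hb.2]
    have h2 : LEC.lc E (Ser.s E) = 1 := HahnSeries.leadingCoeff_of_single
    rw [h2, one_zpow, one_mul]
  exact h1

/-- a sum of terms with the same exponent -/
theorem Ld_sum {ι : Type w} (S : Finset ι) {a : ι → LaurentSeries E} {n : ℤ} {e : ι → E}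
    (h : ∀ i ∈ S, Ser.Ld (a i) n (e i)) : Ser.Ld (∑ i ∈ S, a i) n (∑ i ∈ S, e i) := by
  choose! b hb using h
  refine ⟨∑ i ∈ S, b i, ?_, Ser.R.sum S fun i hi => (hb i hi).2⟩
  rw [Finset.mul_sum]
  exact Finset.sum_congr rfl fun i hi => (hb i hi).1

theorem Ld_zero (n : ℤ) : Ser.Ld (0 : LaurentSeries E) n 0 := ⟨0, by simp, Ser.R.zero⟩

/-- the exponent can be lowered -/
theorem Ld_of_lt {a : LaurentSeries E} {n p : ℤ} {e : E} (h : Ser.Ld a n e) (hp : p < n) :
    Ser.Ld a p 0 := by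
  obtain ⟨b, rfl, hb⟩ := h
  refine ⟨Ser.s E ^ (n - p) * b, ?_, ?_⟩
  · rw [← mul_assoc, ← zpow_add₀ Ser.s_ne, add_sub_cancel]
  · exact Ser.Ld.R_of_pos ⟨b, rfl, hb⟩ (by omega)

end

end Lea

section LEA
variable {k : Type u} [Field k] [CharZero k] {K : Type v} [Field K] [Algebra k K]

/-- A frame of forms with weights `e` in which `V` is a monomial valuation. -/
structure Fr (C : RA k K c m r) (V : Vec r m) where
  g : Fin (c + 1) → Fin (c + 1) → k
  det : (Matrix.of g).det ≠ 0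
  e : Fin c → ℤ
  e0 : ∀ i, 0 ≤ e i
  la : Fin r → Fin (c + 1) → k
  exp : ∀ Q, C.L Q = ∑ j, la Q j • g j
  lo : ∀ Q j, la Q j ≠ 0 → V.1 Q ≤ (Fin.cons 0 e : Fin (c + 1) → ℤ) j
  att : ∀ Q, ∃ j, la Q j ≠ 0 ∧ (Fin.cons 0 e : Fin (c + 1) → ℤ) j = V.1 Q

/-- frames of forms of the arrangement -/
theorem fr_of_frame (C : RA k K c m r) (V : Vec r m) (hV : Trop c V) (f : Fin (c + 1) → Fin r)
    (hf : Function.Injective f) (h0 : f 0 ∉ supp V) (hI : ∀ Q ∈ supp V, Q ∈ Set.range f) :
    ∃ F : Fr C V, (∀ j, F.g j = C.L (f j)) ∧ ∀ i, F.e i = V.1 (f i.succ) := by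
  have hex : ∀ Q, ∃ a : Fin (c + 1) → k, C.L Q = ∑ j, a j • C.L (f j) ∧
      (Q ∉ Set.range f → ∀ j, a j ≠ 0) ∧ ∀ i, f i = Q → a = Pi.single i 1 := by
    intro Q
    by_cases hQ : Q ∈ Set.range f
    · obtain ⟨i, rfl⟩ := hQ
      refine ⟨Pi.single i 1, ?_, fun h => absurd ⟨i, rfl⟩ h, fun i' hi' => by rw [hf hi']⟩
      rw [Finset.sum_eq_single i]
      · rw [Pi.single_eq_same, one_smul]
      · intro j _ hj
        rw [Pi.single_eq_of_ne hj, zero_smul]
      · intro h
        exact absurd (Finset.mem_univ i) h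
    · obtain ⟨a, h1, h2⟩ := Lea.expand_gp C f hf Q hQ
      exact ⟨a, h1, fun _ => h2, fun i hi => absurd ⟨i, hi⟩ hQ⟩
  choose la hla1 hla2 hla3 using hex
  have hf0 : V.1 (f 0) = 0 := by
    by_contra h
    exact h0 (Finset.mem_filter.2 ⟨Finset.mem_univ _, h⟩)
  have hcons : ∀ j, (Fin.cons 0 (fun i : Fin c => V.1 (f i.succ)) : Fin (c + 1) → ℤ) j
      = V.1 (f j) := by
    intro j
    refine Fin.cases ?_ (fun i => ?_) j
    · rw [Fin.cons_zero, hf0]
    · rw [Fin.cons_succ]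
  have hQ0 : ∀ Q, Q ∉ Set.range f → V.1 Q = 0 := by
    intro Q hQ
    by_contra h
    exact hQ (hI Q (Finset.mem_filter.2 ⟨Finset.mem_univ _, h⟩))
  refine ⟨{ g := fun j => C.L (f j)
            det := C.gp f hf
            e := fun i => V.1 (f i.succ)
            e0 := fun i => hV.nonneg _
            la := la
            exp := hla1
            lo := ?_
            att := ?_ }, fun j => rfl, fun i => rfl⟩
  · intro Q j hj
    rw [hcons]
    by_cases hQ : Q ∈ Set.range f
    · obtain ⟨i, hi⟩ := hQ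
      rw [hla3 Q i hi] at hj
      have hji : j = i := by
        by_contra h
        exact hj (Pi.single_eq_of_ne h 1)
      rw [hji, hi]
    · rw [hQ0 Q hQ]
      exact hV.nonneg _
  · intro Q
    by_cases hQ : Q ∈ Set.range f
    · obtain ⟨i, hi⟩ := hQ
      refine ⟨i, ?_, ?_⟩
      · rw [hla3 Q i hi, Pi.single_eq_same]
        exact one_ne_zero
      · rw [hcons, hi]
    · exact ⟨0, hla2 Q hQ 0, by rw [hcons, hf0, hQ0 Q hQ]⟩

/-- leading coefficient of `ℓ_Q / g_0` -/
def Fr.t {C : RA k K c m r} {V : Vec r m} (F : Fr C V) {G : Type w} [Field G] [Algebra k G]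
    (U : Fin c → G) (Q : Fin r) : G :=
  ∑ j, if (Fin.cons 0 F.e : Fin (c + 1) → ℤ) j = V.1 Q then
    algebraMap k G (F.la Q j) * (Fin.cons 1 U : Fin (c + 1) → G) j else 0

theorem t_ne {C : RA k K c m r} {V : Vec r m} (F : Fr C V) {G : Type w} [Field G] [Algebra k G]
    (U : Fin c → G) (hU : AlgebraicIndependent k U) (Q : Fin r) : F.t U Q ≠ 0 := by
  intro h
  obtain ⟨j, hj1, hj2⟩ := F.att Q
  have h1 : linForm U (fun j => if (Fin.cons 0 F.e : Fin (c + 1) → ℤ) j = V.1 Q then F.la Q j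
      else 0) = 0 := by
    rw [Lea.linForm_eq, ← h]
    unfold Fr.t
    refine Finset.sum_congr rfl fun i _ => ?_
    split_ifs
    · rfl
    · rw [map_zero, zero_mul]
  have h2 := congrFun (Lea.lin_ind U hU _ h1) j
  rw [if_pos hj2] at h2
  exact hj1 h2

theorem t_euler {C : RA k K c m r} {V : Vec r m} (F : Fr C V) {G : Type w} [Field G] [Algebra k G]
    (U : Fin c → G) (E : Derivation k G G) (hE : ∀ a, E (U a) = (F.e a : G) * U a) (Q : Fin r) :
    E (F.t U Q) = (V.1 Q : G) * F.t U Q := by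
  have hE' : ∀ j, E ((Fin.cons 1 U : Fin (c + 1) → G) j)
      = (((Fin.cons 0 F.e : Fin (c + 1) → ℤ) j : ℤ) : G) * (Fin.cons 1 U : Fin (c + 1) → G) j := by
    intro j
    refine Fin.cases ?_ (fun i => ?_) j
    · rw [Fin.cons_zero, Fin.cons_zero, Derivation.map_one_eq_zero, Int.cast_zero, zero_mul]
    · rw [Fin.cons_succ, Fin.cons_succ, hE]
  unfold Fr.t
  rw [map_sum, Finset.mul_sum]
  refine Finset.sum_congr rfl fun j _ => ?_
  split_ifs with h
  · rw [Derivation.leibniz, Derivation.map_algebraMap, smul_zero, add_zero, hE', h, smul_eq_mul]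
    ring
  · rw [map_zero, mul_zero]

namespace Lea

theorem algebraMap_LL {G : Type w} [Field G] [Algebra k G] (a : k) :
    algebraMap k (LL G m) a = cc G m (algebraMap k G a) := by
  rw [Ser.algebraMap_eq]
  rfl

/-- image of `ℓ_Q / g_0` -/
theorem Ld_ell {C : RA k K c m r} {V : Vec r m} (F : Fr C V) {G : Type w} [Field G]
    [Algebra k G] (U : Fin c → G) (R : RF k K (m + c))
    (hR : R.y = Fin.append C.x (fun i => C.lin (F.g i.succ) / C.lin (F.g 0)))
    (hg0 : C.lin (F.g 0) ≠ 0)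
    (Φ : K →ₐ[k] LL G m)
    (hΦz : ∀ a, Φ (R.y (Fin.natAdd m a)) = ss G m ^ F.e a * cc G m (U a)) (Q : Fin r) :
    Ser.Ld (Φ (C.ell Q / C.lin (F.g 0))) (V.1 Q) (HahnSeries.C (F.t U Q)) := by
  have hj : ∀ j, Φ (C.lin (F.g j) / C.lin (F.g 0))
      = ss G m ^ (Fin.cons 0 F.e : Fin (c + 1) → ℤ) j *
        cc G m ((Fin.cons 1 U : Fin (c + 1) → G) j) := by
    intro j
    refine Fin.cases ?_ (fun i => ?_) j
    · rw [Fin.cons_zero, Fin.cons_zero, zpow_zero, map_one, one_mul, div_self hg0, map_one]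
    · rw [Fin.cons_succ, Fin.cons_succ, ← hΦz i, hR, Fin.append_right]
  have h1 : Φ (C.ell Q / C.lin (F.g 0)) = ∑ j, cc G m (algebraMap k G (F.la Q j)) *
      (ss G m ^ (Fin.cons 0 F.e : Fin (c + 1) → ℤ) j *
        cc G m ((Fin.cons 1 U : Fin (c + 1) → G) j)) := by
    rw [RA.ell, F.exp Q, lin_sum, Finset.sum_div, map_sum]
    refine Finset.sum_congr rfl fun j _ => ?_
    rw [mul_div_assoc, map_mul, hj, AlgHom.commutes, algebraMap_LL]
  have h2 : (HahnSeries.C (F.t U Q) : EE G m)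
      = ∑ j, if (Fin.cons 0 F.e : Fin (c + 1) → ℤ) j = V.1 Q then
        (HahnSeries.C (algebraMap k G (F.la Q j) * (Fin.cons 1 U : Fin (c + 1) → G) j) : EE G m)
        else 0 := by
    unfold Fr.t
    rw [map_sum]
    refine Finset.sum_congr rfl fun j _ => ?_
    split_ifs
    · rfl
    · rw [map_zero]
  rw [h1, h2]
  refine Ld_sum _ fun j _ => ?_
  have h3 : Ser.Ld (cc G m (algebraMap k G (F.la Q j)) *
      (ss G m ^ (Fin.cons 0 F.e : Fin (c + 1) → ℤ) j *
        cc G m ((Fin.cons 1 U : Fin (c + 1) → G) j)))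
      ((Fin.cons 0 F.e : Fin (c + 1) → ℤ) j)
      (HahnSeries.C (algebraMap k G (F.la Q j) * (Fin.cons 1 U : Fin (c + 1) → G) j)) := by
    refine ⟨cc G m (algebraMap k G (F.la Q j) * (Fin.cons 1 U : Fin (c + 1) → G) j), ?_,
      Ser.R.C _⟩
    rw [map_mul]
    change _ = ss G m ^ (Fin.cons 0 F.e : Fin (c + 1) → ℤ) j * _
    ring
  by_cases hla : F.la Q j = 0
  · have h4 : cc G m (algebraMap k G (F.la Q j)) *
        (ss G m ^ (Fin.cons 0 F.e : Fin (c + 1) → ℤ) j *
        cc G m ((Fin.cons 1 U : Fin (c + 1) → G) j)) = 0 := by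
      rw [hla, map_zero, map_zero, zero_mul]
    have h5 : (if (Fin.cons 0 F.e : Fin (c + 1) → ℤ) j = V.1 Q then
        (HahnSeries.C (algebraMap k G (F.la Q j) * (Fin.cons 1 U : Fin (c + 1) → G) j) : EE G m)
        else 0) = 0 := by
      rw [hla, map_zero, zero_mul, map_zero, ite_self]
    rw [h4, h5]
    exact Ld_zero _
  · have hle := F.lo Q j hla
    by_cases he : (Fin.cons 0 F.e : Fin (c + 1) → ℤ) j = V.1 Q
    · rw [if_pos he]
      rw [he] at h3 ⊢
      exact h3
    · rw [if_neg he]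
      exact Ld_of_lt h3 (lt_of_le_of_ne hle (Ne.symm he))

end Lea

/-- images of the monomials: `s^{V(M)} · (leading coefficient) · (1 + O(s)) · (factors T)` -/
theorem lead {C : RA k K c m r} (hc : c < r) {V : Vec r m} (F : Fr C V) {G : Type w} [Field G]
    [Algebra k G] (U : Fin c → G) (hU : AlgebraicIndependent k U) (R : RF k K (m + c))
    (hR : R.y = Fin.append C.x (fun i => C.lin (F.g i.succ) / C.lin (F.g 0)))
    (cf : Fin m → G) (hcf : ∀ j, cf j ≠ 0) (β : Matrix (Fin m) (Fin m) ℤ) (I : Finset (Fin m))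
    (Φ : K →ₐ[k] LL G m)
    (hΦz : ∀ a, Φ (R.y (Fin.natAdd m a)) = ss G m ^ F.e a * cc G m (U a))
    (hΦx : ∀ j, Φ (R.y (Fin.castAdd c j)) = xi cf V.2 β I j) (M : Vec r m) (hM : deg M = 0) :
    Φ (C.mon M) ≠ 0 ∧ (Φ (C.mon M)).order = pair V M ∧
      (Φ (C.mon M)).leadingCoeff = HahnSeries.single (toLex fun i => if i ∈ I then 0 else
          ∑ j, β i j * M.2 j) ((∏ Q, F.t U Q ^ M.1 Q) * ∏ j, cf j ^ M.2 j) := by
  have hg0 : C.lin (F.g 0) ≠ 0 := by
    refine Mon.lin_ne C _ fun h0 => F.det ?_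
    apply Matrix.det_eq_zero_of_row_eq_zero 0
    intro j
    rw [Matrix.of_apply, h0]
    rfl
  have hx : ∀ j, Φ (C.x j) = xi cf V.2 β I j := by
    intro j
    rw [← hΦx j, hR, Fin.append_left]
  have hprod : ∏ Q, C.ell Q ^ M.1 Q = ∏ Q, (C.ell Q / C.lin (F.g 0)) ^ M.1 Q := by
    simp only [div_zpow]
    rw [Finset.prod_div_distrib]
    have h1 : ∏ Q, C.lin (F.g 0) ^ M.1 Q = 1 := by
      have h2 : ∀ s : Finset (Fin r), ∏ Q ∈ s, C.lin (F.g 0) ^ M.1 Q
          = C.lin (F.g 0) ^ (∑ Q ∈ s, M.1 Q) := by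
        intro s
        induction s using Finset.induction_on with
        | empty => simp
        | insert a s ha ih =>
          rw [Finset.prod_insert ha, Finset.sum_insert ha, ih, zpow_add₀ hg0]
      rw [h2]
      have h3 : ∑ Q, M.1 Q = 0 := hM
      rw [h3, zpow_zero]
    rw [h1, div_one]
  set P : LL G m := ∏ Q, Φ (C.ell Q / C.lin (F.g 0)) ^ M.1 Q with hP
  set X : LL G m := ∏ j, xi cf V.2 β I j ^ M.2 j with hX
  have hmon : Φ (C.mon M) = P * X := by
    unfold RA.mon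
    rw [hprod, map_mul, map_prod, map_prod]
    congr 1
    · exact Finset.prod_congr rfl fun Q _ => map_zpow₀ Φ _ _
    · exact Finset.prod_congr rfl fun j _ => by rw [map_zpow₀, hx]
  have htne : ∀ Q, (HahnSeries.C (F.t U Q) : EE G m) ≠ 0 := fun Q h =>
    t_ne F U hU Q (HahnSeries.C_injective (by rw [h, map_zero]))
  have hLd : Ser.Ld P (∑ Q, M.1 Q * V.1 Q) (∏ Q, (HahnSeries.C (F.t U Q) : EE G m) ^ M.1 Q) := by
    rw [hP]
    exact Ser.Ld.prod _ fun Q _ => (Lea.Ld_ell F U R hR hg0 Φ hΦz Q).zpow (htne Q) _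
  have hne : (∏ Q, (HahnSeries.C (F.t U Q) : EE G m) ^ M.1 Q) ≠ 0 :=
    Finset.prod_ne_zero_iff.2 fun Q _ => zpow_ne_zero _ (htne Q)
  have hXne : X ≠ 0 := by
    rw [hX, LEC.xi_prod]
    exact mul_ne_zero (mul_ne_zero
      (LEC.cc_ne (Finset.prod_ne_zero_iff.2 fun i _ => zpow_ne_zero _ (hcf i)))
      (LEC.zne LEC.ss_ne _)) (LEC.facs_ne I _)
  have hPne : P ≠ 0 := hLd.ne_zero hne
  refine ⟨?_, ?_, ?_⟩
  · rw [hmon]
    exact mul_ne_zero hPne hXne
  · rw [hmon, HahnSeries.order_mul hPne hXne, hLd.order_eq hne, hX, LEC.order_xi hcf]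
    unfold pair
    congr 1
    exact Finset.sum_congr rfl fun Q _ => mul_comm _ _
  · have h1 : LEC.lc (EE G m) P = HahnSeries.C (∏ Q, F.t U Q ^ M.1 Q) := by
      have h0 : LEC.lc (EE G m) P = ∏ Q, (HahnSeries.C (F.t U Q) : EE G m) ^ M.1 Q :=
        Lea.lc_of_Ld hLd hne
      rw [h0, map_prod]
      exact Finset.prod_congr rfl fun Q _ => (map_zpow₀ _ _ _).symm
    have h2 : LEC.lc (EE G m) X = HahnSeries.single (toLex fun i => if i ∈ I then 0 else
        ∑ j, β i j * M.2 j) (∏ j, cf j ^ M.2 j) := by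
      have h3 := LEC.lc_xi' (c := cf) V.2 β I M.2 (1 : G)
      rw [map_one, one_mul, one_mul] at h3
      exact h3
    rw [hmon]
    change LEC.lc (EE G m) (P * X) = _
    rw [map_mul, h1, h2, HahnSeries.C_apply, HahnSeries.single_mul_single, zero_add]

end LEA

end

end Pool.Agent.MLD.R
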