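import Pool.Agent.Lib.MP_f23696_ag.R.Ctx
import Pool.Agent.Lib.MP_f23696_ag.Jind
import Pool.Agent.Lib.MP_f23696_ag.T.Der

/-!
Project LSC-ARR (MP_f23696_ag), module RFB: change of coordinates in a rational function field.
-/

namespace Pool.Agent.MLD.R

open scoped Classical
noncomputable section

universe u v w

section RFB
variable {k : Type u} [Field k] [CharZero k] {K : Type v} [Field K] [Algebra k K] {n : ℕ}

omit [CharZero k] in
theorem Rfb.mem (R : RF k K n) (x : K) : x ∈ IntermediateField.adjoin k (Set.range R.y) := by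
  rw [R.gen]; trivial

theorem rf_der (R : RF k K n) {L : Type w} [Field L] [Algebra k L] (Φ : K →ₐ[k] L)
    (E : Derivation k L L) (h : ∀ i, E (Φ (R.y i)) = 0) (x : K) : E (Φ x) = 0 := by
  have hx := Rfb.mem R x
  induction hx using IntermediateField.adjoin_induction with
  | mem x hx =>
    obtain ⟨i, rfl⟩ := hx
    exact h i
  | algebraMap c => simp
  | add x y _ _ hx hy => rw [map_add, map_add, hx, hy, add_zero]
  | inv x _ hx => rw [map_inv₀, Derivation.leibniz_inv, hx, smul_zero]
  | mul x y _ _ hx hy => rw [map_mul, Derivation.leibniz, hx, hy, smul_zero, smul_zero, add_zero]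

omit [CharZero k] in
theorem Rfb.chain (R : RF k K n) {L : Type w} [Field L] [Algebra k L] (Φ : K →ₐ[k] L)
    (D : Derivation k L L) (b : K) : D (Φ b) = ∑ l, D (Φ (R.y l)) * Φ (R.D l b) := by
  have hb := Rfb.mem R b
  induction hb using IntermediateField.adjoin_induction with
  | mem x hx =>
    obtain ⟨i, rfl⟩ := hx
    rw [Finset.sum_eq_single i]
    · rw [R.dual, if_pos rfl, map_one, mul_one]
    · intro j _ hj
      rw [R.dual, if_neg hj, map_zero, mul_zero]
    · intro h
      exact absurd (Finset.mem_univ i) h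
  | algebraMap c => simp
  | add x y _ _ hx hy => simp only [map_add, hx, hy, mul_add, Finset.sum_add_distrib]
  | inv x _ hx =>
    rw [map_inv₀, Derivation.leibniz_inv, hx, smul_eq_mul, Finset.mul_sum]
    refine Finset.sum_congr rfl fun l _ => ?_
    rw [Derivation.leibniz_inv, smul_eq_mul, map_mul, map_neg, map_pow, map_inv₀]
    ring
  | mul x y _ _ hx hy =>
    rw [map_mul, Derivation.leibniz, hx, hy, smul_eq_mul, smul_eq_mul, Finset.mul_sum,
      Finset.mul_sum, ← Finset.sum_add_distrib]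
    refine Finset.sum_congr rfl fun l _ => ?_
    rw [Derivation.leibniz, smul_eq_mul, smul_eq_mul, map_add, map_mul, map_mul]
    ring

theorem rf_chain (R : RF k K n) {L : Type w} [Field L] [Algebra k L] (Φ : K →ₐ[k] L)
    (Δ : Fin n → Derivation k L L) (a : Fin n → K) :
    (Matrix.of fun i j => Δ i (Φ (a j))).det =
      (Matrix.of fun i j => Δ i (Φ (R.y j))).det * Φ (jac R.D a) := by
  have h1 : (Matrix.of fun i j => Δ i (Φ (a j))) =
      (Matrix.of fun i j => Δ i (Φ (R.y j))) *
        (Matrix.of fun i j => R.D i (a j)).map Φ := by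
    ext i j
    rw [Matrix.mul_apply]
    exact Rfb.chain R Φ (Δ i) (a j)
  rw [h1, Matrix.det_mul, jac]
  congr 1
  exact (Φ.toRingHom.map_det _).symm

theorem rf_embed (R : RF k K n) {L : Type w} [Field L] [Algebra k L] (ξ : Fin n → L)
    (h : AlgebraicIndependent k ξ) : ∃ Φ : K →ₐ[k] L, ∀ i, Φ (R.y i) = ξ i := by
  have hy := R.ind
  let e : K ≃ₐ[k] FractionRing (MvPolynomial (Fin n) k) :=
    (IntermediateField.topEquiv.symm.trans
      (IntermediateField.equivOfEq R.gen.symm)).trans hy.aevalEquivField.symm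
  have he : ∀ i, e (R.y i) = algebraMap (MvPolynomial (Fin n) k) _
      (MvPolynomial.X i) := by
    intro i
    have h1 : e.symm (algebraMap (MvPolynomial (Fin n) k) _ (MvPolynomial.X i)) = R.y i := by
      change ((hy.aevalEquivField (algebraMap _ _ (MvPolynomial.X i)) :
        IntermediateField.adjoin k (Set.range R.y)) : K) = _
      rw [hy.aevalEquivField_algebraMap_apply_coe, MvPolynomial.aeval_X]
    rw [← h1, AlgEquiv.apply_symm_apply]
  let f : FractionRing (MvPolynomial (Fin n) k) →ₐ[k] L :=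
    IsFractionRing.liftAlgHom (K := FractionRing (MvPolynomial (Fin n) k))
      (algebraicIndependent_iff_injective_aeval.2 h)
  have hf : ∀ i, f (algebraMap (MvPolynomial (Fin n) k) _ (MvPolynomial.X i)) = ξ i := by
    intro i
    have := IsFractionRing.lift_algebraMap (K := FractionRing (MvPolynomial (Fin n) k))
      (algebraicIndependent_iff_injective_aeval.2 h) (MvPolynomial.X i)
    rw [show f (algebraMap (MvPolynomial (Fin n) k) _ (MvPolynomial.X i)) =
      IsFractionRing.lift (algebraicIndependent_iff_injective_aeval.2 h)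
        (algebraMap (MvPolynomial (Fin n) k) _ (MvPolynomial.X i)) from rfl, this]
    exact MvPolynomial.aeval_X _ _
  refine ⟨f.comp e.toAlgHom, fun i => ?_⟩
  have := hf i
  rw [← he i] at this
  exact this

theorem rf_jac (R R' : RF k K n) (a : Fin n → K) :
    jac R.D a = jac R.D R'.y * jac R'.D a := rf_chain R' (AlgHom.id k K) R.D a

omit [CharZero k] in
theorem Rfb.jac_self (R : RF k K n) : jac R.D R.y = 1 := Ten.jac_dual R.D R.y R.dual

theorem rf_jac_ne (R R' : RF k K n) : jac R.D R'.y ≠ 0 := by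
  have h := rf_jac R R' R.y
  rw [Rfb.jac_self] at h
  exact left_ne_zero_of_mul_eq_one h.symm

theorem rf_form (R R' : RF k K n) (v : DVal k K) (j : ℤ) (h : v.FormOrd R'.D j) :
    v.FormOrd R.D (j - v.ord (jac R.D R'.y)) := by
  obtain ⟨h1, a, ha, ha0, haj⟩ := h
  have hne := rf_jac_ne R R'
  refine ⟨fun b hb hb0 => ?_, a, ha, ?_, ?_⟩
  · rw [rf_jac R R' b] at hb0 ⊢
    have hb1 := right_ne_zero_of_mul hb0
    rw [v.ord_mul _ _ hne hb1]
    have := h1 b hb hb1
    omega
  · rw [rf_jac R R' a]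
    exact mul_ne_zero hne ha0
  · rw [rf_jac R R' a, v.ord_mul _ _ hne ha0, haj]
    ring

theorem rf_mk (R : RF k K n) (y : Fin n → K) (hJ : jac R.D y ≠ 0)
    (hgen : IntermediateField.adjoin k (Set.range y) = ⊤) : ∃ R' : RF k K n, R'.y = y := by
  obtain ⟨E, hE, _, _⟩ := Ten.dual R.D y hJ
  exact ⟨⟨y, jac_indep R.D y hJ, hgen, E, hE⟩, rfl⟩

theorem rf_form_ex (R : RF k K n) (v : DVal k K) (N : ℤ)
    (h : ∀ a : Fin n → K, (∀ i, v.Integral (a i)) → jac R.D a ≠ 0 → N ≤ v.ord (jac R.D a)) :
    ∃ j : ℤ, v.FormOrd R.D j ∧ j ≤ -N := by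
  refine Ten.formOrd_ex v R.D N h ?_
  have hy : ∀ i, R.y i ≠ 0 := fun i => R.ind.ne_zero i
  have h1 : ∀ i, ∃ b c : K, v.Integral b ∧ c ≠ 0 ∧ ∀ l, R.D l b = if l = i then c else 0 := by
    intro i
    rcases le_or_gt 0 (v.ord (R.y i)) with h0 | h0
    · exact ⟨R.y i, 1, fun _ => h0, one_ne_zero, fun l => R.dual l i⟩
    · refine ⟨(R.y i)⁻¹, -(R.y i)⁻¹ ^ 2, fun _ => ?_, ?_, fun l => ?_⟩
      · have h2 := v.ord_mul _ _ (hy i) (inv_ne_zero (hy i))
        have h3 : v.ord (R.y i * (R.y i)⁻¹) = 0 := by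
          rw [mul_inv_cancel₀ (hy i)]
          have h4 := v.ord_algebraMap 1 one_ne_zero
          rwa [map_one] at h4
        omega
      · exact neg_ne_zero.2 (pow_ne_zero _ (inv_ne_zero (hy i)))
      · rw [Derivation.leibniz_inv, R.dual, smul_eq_mul, mul_ite, mul_one, mul_zero]
  choose b c hb hc hD using h1
  refine ⟨b, hb, ?_⟩
  have h2 : (Matrix.of fun i j => R.D i (b j)) = Matrix.diagonal c := by
    ext i j
    rw [Matrix.of_apply, hD, Matrix.diagonal_apply]
    split_ifs with hij
    · rw [hij]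
    · rfl
  unfold jac
  rw [h2, Matrix.det_diagonal]
  exact Finset.prod_ne_zero_iff.2 fun i _ => hc i

end RFB

end

end Pool.Agent.MLD.R
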