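import Pool.Agent.Lib.MP_f23696_ag.R.Vec
import Pool.Agent.Lib.MP_f23696_ag.R.Frm

/-!
Project LSC-ARR (MP_f23696_ag), module TFR: expansion in a frame.
-/

set_option autoImplicit false
set_option linter.unusedSectionVars false

namespace Pool.Agent.MLD.R

open scoped Classical
noncomputable section

universe u v w

variable {c r m : ℕ}

section TFR
variable {k : Type u} [Field k] [CharZero k] {K : Type v} [Field K] [Algebra k K]
  (C : RA k K c m r)

namespace Tfr

theorem mon_add (hc : c < r) (M N : Vec r m) : C.mon (M + N) = C.mon M * C.mon N := by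
  have h1 : ∀ Q, C.ell Q ^ (M + N).1 Q = C.ell Q ^ M.1 Q * C.ell Q ^ N.1 Q := fun Q => by
    rw [Prod.fst_add, Pi.add_apply, zpow_add₀ (ell_ne C hc Q)]
  have h2 : ∀ i, C.x i ^ (M + N).2 i = C.x i ^ M.2 i * C.x i ^ N.2 i := fun i => by
    rw [Prod.snd_add, Pi.add_apply, zpow_add₀ (x_ne C i)]
  unfold RA.mon
  simp only [h1, h2, Finset.prod_mul_distrib]
  ring

theorem mon_ne (hc : c < r) (M : Vec r m) : C.mon M ≠ 0 := by
  unfold RA.mon
  exact mul_ne_zero (Finset.prod_ne_zero_iff.2 fun Q _ => zpow_ne_zero _ (ell_ne C hc Q))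
    (Finset.prod_ne_zero_iff.2 fun i _ => zpow_ne_zero _ (x_ne C i))

theorem mon_ee (Q : Fin r) : C.mon (ee Q) = C.ell Q := by
  unfold RA.mon ee
  simp only [Pi.zero_apply, zpow_zero, Finset.prod_const_one, mul_one]
  rw [Finset.prod_eq_single Q]
  · rw [Pi.single_eq_same, zpow_one]
  · intro Q' _ h
    rw [Pi.single_eq_of_ne h, zpow_zero]
  · intro h
    exact absurd (Finset.mem_univ Q) h

theorem mon_zero : C.mon 0 = 1 := by
  unfold RA.mon
  simp

/-- `esum` as a linear map -/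
theorem esum_eq (κ : Vec r m →₀ k) : C.esum κ = Finsupp.linearCombination k C.mon κ := by
  rw [Finsupp.linearCombination_apply]
  unfold RA.esum
  refine Finsupp.sum_congr fun M _ => ?_
  rw [Algebra.smul_def]

theorem esum_zero : C.esum 0 = 0 := by rw [esum_eq, map_zero]

theorem esum_add (κ κ' : Vec r m →₀ k) : C.esum (κ + κ') = C.esum κ + C.esum κ' := by
  simp only [esum_eq, map_add]

theorem esum_smul (a : k) (κ : Vec r m →₀ k) :
    C.esum (a • κ) = algebraMap k K a * C.esum κ := by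
  simp only [esum_eq, map_smul, Algebra.smul_def]

theorem esum_single (M : Vec r m) (a : k) :
    C.esum (Finsupp.single M a) = algebraMap k K a * C.mon M := by
  rw [esum_eq, Finsupp.linearCombination_single, Algebra.smul_def]

/-- valuation of a sum -/
theorem ord_sum (v : DVal k K) {ι : Type w} (s : Finset ι) (F : ι → K) (N : ℤ)
    (h : ∀ i ∈ s, F i ≠ 0 → N ≤ v.ord (F i)) (h0 : ∑ i ∈ s, F i ≠ 0) :
    N ≤ v.ord (∑ i ∈ s, F i) := by
  induction s using Finset.induction_on with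
  | empty => exact absurd Finset.sum_empty h0
  | insert a s ha ih =>
    rw [Finset.sum_insert ha] at h0 ⊢
    have h1 := h a (Finset.mem_insert_self _ _)
    have h2 := ih fun i hi => h i (Finset.mem_insert_of_mem hi)
    by_cases ha0 : F a = 0
    · rw [ha0, zero_add] at h0 ⊢
      exact h2 h0
    · by_cases hs0 : ∑ i ∈ s, F i = 0
      · rw [hs0, add_zero]
        exact h1 ha0
      · exact le_trans (le_min (h1 ha0) (h2 hs0)) (v.ord_add _ _ ha0 hs0 h0)

end Tfr

theorem esum_ord (hc : c < r) (v : DVal k K) (κ : Vec r m →₀ k) (N : ℤ)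
    (h : ∀ M ∈ κ.support, N ≤ v.ord (C.mon M)) (h0 : C.esum κ ≠ 0) :
    N ≤ v.ord (C.esum κ) := by
  unfold RA.esum Finsupp.sum at h0 ⊢
  refine Tfr.ord_sum v κ.support _ N (fun M hM _ => ?_) h0
  have h1 : algebraMap k K (κ M) ≠ 0 := by
    rw [Ne, map_eq_zero]
    exact Finsupp.mem_support_iff.1 hM
  rw [v.ord_mul _ _ h1 (Tfr.mon_ne C hc M), v.ord_algebraMap _ (Finsupp.mem_support_iff.1 hM),
    zero_add]
  exact h M hM

theorem mem_span_iff (S : Set (Vec r m)) (g : K) :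
    g ∈ Submodule.span k (C.mon '' S) ↔
      ∃ κ : Vec r m →₀ k, (∀ M ∈ κ.support, M ∈ S) ∧ C.esum κ = g := by
  rw [Finsupp.mem_span_image_iff_linearCombination]
  constructor
  · rintro ⟨κ, h1, h2⟩
    exact ⟨κ, fun M hM => (Finsupp.mem_supported k κ).1 h1 hM, by rw [Tfr.esum_eq, h2]⟩
  · rintro ⟨κ, h1, h2⟩
    exact ⟨κ, (Finsupp.mem_supported k κ).2 fun M hM => h1 M hM, by rw [← Tfr.esum_eq, h2]⟩

namespace Tfr

theorem mon_mem_span {S : Set (Vec r m)} {M : Vec r m} (h : M ∈ S) :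
    C.mon M ∈ Submodule.span k (C.mon '' S) :=
  Submodule.subset_span ⟨M, h, rfl⟩

/-- one step of the expansion -/
theorem expand_mon (hc : c < r) (f : Fin (c + 1) → Fin r) (hf : Function.Injective f)
    (Q : Fin r) : ∃ a : Fin (c + 1) → k, ∀ M : Vec r m,
      C.mon M = ∑ j, a j • C.mon (M - ee Q + ee (f j)) := by
  obtain ⟨a, ha⟩ := expand (fun j => C.L (f j)) (C.gp f hf) (C.L Q)
  refine ⟨a, fun M => ?_⟩
  have h1 : C.ell Q = ∑ j, algebraMap k K (a j) * C.ell (f j) := by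
    unfold RA.ell
    conv_lhs => rw [ha]
    rw [lin_sum]
  have h2 : C.mon M = C.mon (M - ee Q) * C.ell Q := by
    rw [← mon_ee C Q, ← mon_add C hc, sub_add_cancel]
  rw [h2, h1, Finset.mul_sum]
  refine Finset.sum_congr rfl fun j _ => ?_
  rw [mon_add C hc, mon_ee, Algebra.smul_def]
  ring

theorem poly_aux (hc : c < r) (f : Fin (c + 1) → Fin r) (hf : Function.Injective f)
    (A : Vec r m) (n : ℕ) (M : Vec r m) (h1 : M.2 = A.2) (h2 : deg M = 0)
    (h3 : ∀ Q, A.1 Q ≤ M.1 Q)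
    (hn : ∑ Q ∈ Finset.univ.filter (fun Q => Q ∉ Set.range f), (M.1 Q - A.1 Q) = n) :
    C.mon M ∈ Submodule.span k (C.mon '' {M | M.2 = A.2 ∧ deg M = 0 ∧ (∀ Q, A.1 Q ≤ M.1 Q) ∧
      ∀ Q, Q ∉ Set.range f → M.1 Q = A.1 Q}) := by
  induction n generalizing M with
  | zero =>
    refine mon_mem_span C ⟨h1, h2, h3, fun Q hQ => ?_⟩
    have h4 := (Finset.sum_eq_zero_iff_of_nonneg (fun Q _ => sub_nonneg.2 (h3 Q))).1
      (by exact_mod_cast hn) Q (Finset.mem_filter.2 ⟨Finset.mem_univ _, hQ⟩)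
    linarith
  | succ n ih =>
    have h4 : ∃ Q ∈ Finset.univ.filter (fun Q => Q ∉ Set.range f), 0 < M.1 Q - A.1 Q := by
      by_contra hcon
      push Not at hcon
      have h5 := Finset.sum_nonpos hcon
      rw [hn] at h5
      push_cast at h5
      linarith
    obtain ⟨Q, hQ, hQ2⟩ := h4
    obtain ⟨a, ha⟩ := expand_mon C hc f hf Q
    rw [ha M]
    refine Submodule.sum_mem _ fun j _ => Submodule.smul_mem _ _ ?_
    have hfj : ∀ Q', Q' ∉ Set.range f → Q' ≠ f j := fun Q' h h' => h ⟨j, h'.symm⟩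
    have hval : ∀ Q', (M - ee Q + ee (f j)).1 Q' =
        M.1 Q' - (if Q' = Q then 1 else 0) + (if Q' = f j then 1 else 0) := by
      intro Q'
      simp only [Prod.fst_add, Prod.fst_sub, Pi.add_apply, Pi.sub_apply, ee, Pi.single_apply]
    refine ih _ ?_ ?_ (fun Q' => ?_) ?_
    · rw [← h1]
      simp [ee]
    · rw [deg_add, deg_sub, deg_ee, deg_ee, h2]
      ring
    · rw [hval]
      have h6 := h3 Q'
      by_cases hq : Q' = Q
      · subst hq
        split_ifs <;> linarith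
      · rw [if_neg hq]
        split_ifs <;> linarith
    · have h7 : ∑ Q' ∈ Finset.univ.filter (fun Q => Q ∉ Set.range f),
          ((M - ee Q + ee (f j)).1 Q' - A.1 Q') =
          ∑ Q' ∈ Finset.univ.filter (fun Q => Q ∉ Set.range f),
            ((M.1 Q' - A.1 Q') - (if Q' = Q then 1 else 0)) := by
        refine Finset.sum_congr rfl fun Q' hQ' => ?_
        rw [hval, if_neg (hfj Q' (Finset.mem_filter.1 hQ').2)]
        ring
      rw [h7, Finset.sum_sub_distrib, hn, Finset.sum_ite_eq' _ Q, if_pos hQ]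
      push_cast
      ring

end Tfr

/-- expansion of the other forms in the frame `f`: the exponents at the forms outside the frame
can be lowered to the given lower bounds `A` -/
theorem poly_frame (hc : c < r) (f : Fin (c + 1) → Fin r) (hf : Function.Injective f)
    (A : Vec r m) (g : K)
    (hg : g ∈ Submodule.span k (C.mon '' {M | M.2 = A.2 ∧ deg M = 0 ∧ ∀ Q, A.1 Q ≤ M.1 Q})) :
    g ∈ Submodule.span k (C.mon '' {M | M.2 = A.2 ∧ deg M = 0 ∧ (∀ Q, A.1 Q ≤ M.1 Q) ∧
      ∀ Q, Q ∉ Set.range f → M.1 Q = A.1 Q}) := by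
  refine (Submodule.span_le.2 ?_) hg
  rintro _ ⟨M, ⟨h1, h2, h3⟩, rfl⟩
  have h4 : 0 ≤ ∑ Q ∈ Finset.univ.filter (fun Q => Q ∉ Set.range f), (M.1 Q - A.1 Q) :=
    Finset.sum_nonneg fun Q _ => sub_nonneg.2 (h3 Q)
  exact Tfr.poly_aux C hc f hf A _ M h1 h2 h3 (Int.toNat_of_nonneg h4).symm

/-- finitely many monomials become, up to a common monomial, combinations of monomials in the
frame `f` -/
theorem to_frame (hc : c < r) (f : Fin (c + 1) → Fin r) (hf : Function.Injective f)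
    (T : Finset (Vec r m)) (hT : ∀ M ∈ T, deg M = 0) :
    ∃ N : Vec r m, deg N = 0 ∧ N.2 = 0 ∧ ∀ M ∈ T, C.mon N * C.mon M ∈
      Submodule.span k (C.mon '' {M' | M' ∈ FM f ∧ M'.2 = M.2}) := by
  let p : Fin r → ℤ := fun Q => if Q ∈ Set.range f then 0 else ∑ M ∈ T, |M.1 Q|
  have hp : ∀ M ∈ T, ∀ Q, Q ∉ Set.range f → 0 ≤ p Q + M.1 Q := by
    intro M hM Q hQ
    have h1 : |M.1 Q| ≤ ∑ M ∈ T, |M.1 Q| :=
      Finset.single_le_sum (f := fun M : Vec r m => |M.1 Q|) (fun _ _ => abs_nonneg _) hM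
    have h2 := neg_abs_le (M.1 Q)
    simp only [p, if_neg hQ]
    linarith
  let N : Vec r m := (p, 0) - (∑ Q, p Q) • ee (f 0)
  have hN : deg N = 0 := by
    rw [deg_sub, deg_zsmul, deg_ee, mul_one]
    exact sub_self _
  have hN2 : N.2 = 0 := by simp [N, ee]
  have hN1 : ∀ Q, Q ∉ Set.range f → N.1 Q = p Q := by
    intro Q hQ
    have h1 : Q ≠ f 0 := fun h => hQ ⟨0, h.symm⟩
    simp [N, ee, h1]
  refine ⟨N, hN, hN2, fun M hM => ?_⟩
  rw [← Tfr.mon_add C hc]
  let A : Vec r m := (fun Q => if Q ∈ Set.range f then (N + M).1 Q else 0, M.2)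
  have h1 := poly_frame C hc f hf A (C.mon (N + M)) (Tfr.mon_mem_span C ⟨?_, ?_, fun Q => ?_⟩)
  · refine Submodule.span_mono ?_ h1
    rintro _ ⟨M', ⟨h2, h3, -, h4⟩, rfl⟩
    refine ⟨M', ⟨⟨h3, fun Q hQ => ?_⟩, h2⟩, rfl⟩
    rw [h4 Q hQ]
    simp only [A, if_neg hQ]
  · change (N + M).2 = M.2
    rw [Prod.snd_add, hN2, zero_add]
  · rw [deg_add, hN, hT M hM, add_zero]
  · by_cases hQ : Q ∈ Set.range f
    · simp only [A, if_pos hQ]
      exact le_rfl
    · simp only [A, if_neg hQ]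
      rw [Prod.fst_add, Pi.add_apply, hN1 Q hQ]
      exact hp M hM Q hQ

end TFR

end

end Pool.Agent.MLD.R
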