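import Pool.Agent.Lib.MP_f23696_ag.R.Fr0
import Pool.Agent.Lib.MP_f23696_ag.R.Frm
import Pool.Agent.Lib.MP_f23696_ag.R.Emb
import Pool.Agent.Lib.MP_f23696_ag.R.Alg
import Pool.Agent.Lib.MP_f23696_ag.R.Lea
import Pool.Agent.Lib.MP_f23696_ag.R.Rfb
import Pool.Agent.Lib.MP_f23696_ag.R.Tfr
import Pool.Agent.Lib.MP_f23696_ag.Mono
import Pool.Agent.Lib.MP_f23696_ag.JacLog

/-!
Project LSC-ARR (MP_f23696_ag), module MNO: monomial valuations.
-/

set_option autoImplicit false

namespace Pool.Agent.MLD.R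

open scoped Classical
noncomputable section

universe u v w

variable {c r m : ℕ}

namespace Mno

/-- Laurent monomials in algebraically independent elements are linearly independent. -/
theorem laurent {k : Type u} [Field k] {ι : Type} {G : Type w} [Field G] [Algebra k G]
    {U : Fin c → G} (hU : AlgebraicIndependent k U) (s : Finset ι) (b : ι → Fin c → ℤ)
    (hb : ∀ i ∈ s, ∀ j ∈ s, b i = b j → i = j) (a : ι → k)
    (h : ∑ i ∈ s, algebraMap k G (a i) * ∏ l, U l ^ b i l = 0) : ∀ i ∈ s, a i = 0 := by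
  set N : ℕ := ∑ i ∈ s, ∑ l, (b i l).natAbs with hN
  have hN1 : ∀ i ∈ s, ∀ l, 0 ≤ b i l + N := by
    intro i hi l
    have h1 : (b i l).natAbs ≤ ∑ l, (b i l).natAbs :=
      Finset.single_le_sum (f := fun l => (b i l).natAbs) (fun _ _ => Nat.zero_le _)
        (Finset.mem_univ l)
    have h2 : ∑ l, (b i l).natAbs ≤ N :=
      Finset.single_le_sum (f := fun i : ι => ∑ l, (b i l).natAbs)
        (fun _ _ => Nat.zero_le _) hi
    omega
  set e : ι → (Fin c →₀ ℕ) := fun i =>
    Finsupp.equivFunOnFinite.symm (fun l => (b i l + N).toNat) with he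
  have he1 : ∀ i l, e i l = (b i l + N).toNat := fun i l => rfl
  have hy : ∀ l, U l ≠ 0 := fun l => hU.ne_zero l
  have key : ∑ i ∈ s, MvPolynomial.monomial (e i) (a i) = 0 := by
    have hinj := hU
    rw [AlgebraicIndependent] at hinj
    apply hinj
    rw [map_zero, map_sum]
    have h2 : (∏ l, U l ^ N) * (∑ i ∈ s, algebraMap k G (a i) * ∏ l, U l ^ b i l) = 0 := by
      rw [h, mul_zero]
    rw [← h2, Finset.mul_sum]
    apply Finset.sum_congr rfl
    intro i hi
    rw [MvPolynomial.aeval_monomial, Finsupp.prod_fintype _ _ (by simp)]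
    have e2 : ∏ l, U l ^ (e i l) = (∏ l, U l ^ N) * ∏ l, U l ^ b i l := by
      rw [← Finset.prod_mul_distrib]
      apply Finset.prod_congr rfl
      intro l _
      rw [he1, ← zpow_natCast, Int.toNat_of_nonneg (hN1 i hi l),
        zpow_add₀ (hy _), zpow_natCast, mul_comm]
    rw [e2]
    ring
  intro i hi
  have h3 := congrArg (MvPolynomial.coeff (e i)) key
  rw [MvPolynomial.coeff_sum, MvPolynomial.coeff_zero, Finset.sum_eq_single_of_mem i hi] at h3
  · rwa [MvPolynomial.coeff_monomial, if_pos rfl] at h3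
  · intro j hj hne
    rw [MvPolynomial.coeff_monomial, if_neg]
    intro h4
    apply hne
    apply hb j hj i hi
    funext l
    have h5 := congrArg (fun f => f l) h4
    simp only [he1] at h5
    have h6 := hN1 j hj l
    have h7 := hN1 i hi l
    omega

section Comb

variable {f : Fin (c + 1) → Fin r}

/-- a product over all forms reduces to the frame -/
theorem prod_frame {M' : Type w} [CommMonoid M'] (hf : Function.Injective f) (g : Fin r → M')
    (h : ∀ Q, Q ∉ Set.range f → g Q = 1) : ∏ Q, g Q = ∏ i, g (f i) := by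
  rw [← Finset.prod_image (s := Finset.univ) (g := f) (f := g) fun i _ j _ hij => hf hij]
  symm
  apply Finset.prod_subset (Finset.subset_univ _)
  intro Q _ hQ
  apply h
  rintro ⟨i, hi⟩
  exact hQ (Finset.mem_image.2 ⟨i, Finset.mem_univ _, hi⟩)

theorem sum_frame (hf : Function.Injective f) (g : Fin r → ℤ)
    (h : ∀ Q, Q ∉ Set.range f → g Q = 0) : ∑ Q, g Q = ∑ i, g (f i) := by
  rw [← Finset.sum_image (s := Finset.univ) (g := f) (f := g) fun i _ j _ hij => hf hij]
  symm
  apply Finset.sum_subset (Finset.subset_univ _)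
  intro Q _ hQ
  apply h
  rintro ⟨i, hi⟩
  exact hQ (Finset.mem_image.2 ⟨i, Finset.mem_univ _, hi⟩)

theorem fm_ext (hf : Function.Injective f) {M M' : Vec r m} (hM : M ∈ FM (m := m) f)
    (hM' : M' ∈ FM (m := m) f) (h2 : M.2 = M'.2)
    (h1 : (fun a : Fin c => M.1 (f a.succ)) = fun a : Fin c => M'.1 (f a.succ)) : M = M' := by
  have hs : ∀ a : Fin c, M.1 (f a.succ) = M'.1 (f a.succ) := fun a => congrFun h1 a
  have hz : M.1 (f 0) = M'.1 (f 0) := by
    have e1 := hM.1
    have e2 := hM'.1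
    rw [deg, sum_frame hf _ hM.2, Fin.sum_univ_succ] at e1
    rw [deg, sum_frame hf _ hM'.2, Fin.sum_univ_succ] at e2
    rw [Finset.sum_congr rfl fun a _ => hs a] at e1
    linarith
  refine Prod.ext ?_ h2
  funext Q
  by_cases hQ : Q ∈ Set.range f
  · obtain ⟨i, rfl⟩ := hQ
    refine Fin.cases hz (fun a => hs a) i
  · rw [hM.2 Q hQ, hM'.2 Q hQ]

end Comb

section Lead

variable {k : Type u} [Field k] [CharZero k] {K : Type v} [Field K] [Algebra k K]
  {C : RA k K c m r} {V : Vec r m}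

theorem la_frame (F : Fr C V) {f : Fin (c + 1) → Fin r} (hg : ∀ j, F.g j = C.L (f j))
    (i : Fin (c + 1)) : F.la (f i) = Pi.single i 1 := by
  have h2 : LinearIndependent k F.g :=
    Matrix.linearIndependent_rows_iff_isUnit.2
      ((Matrix.isUnit_iff_isUnit_det _).2 (isUnit_iff_ne_zero.2 F.det))
  have h3 := F.exp (f i)
  rw [← hg] at h3
  have h4 : ∑ j, (F.la (f i) j - (Pi.single i (1 : k) : Fin (c + 1) → k) j) • F.g j = 0 := by
    simp only [sub_smul, Finset.sum_sub_distrib]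
    rw [← h3, sub_eq_zero, Finset.sum_eq_single i]
    · rw [Pi.single_eq_same, one_smul]
    · intro j _ hj
      rw [Pi.single_eq_of_ne hj, zero_smul]
    · intro h
      exact absurd (Finset.mem_univ i) h
  funext j
  exact sub_eq_zero.1 (Fintype.linearIndependent_iff.1 h2 _ h4 j)

theorem t_frame (F : Fr C V) {f : Fin (c + 1) → Fin r} (hg : ∀ j, F.g j = C.L (f j))
    (he : ∀ i, F.e i = V.1 (f i.succ)) (h0 : f 0 ∉ supp V) {G : Type w} [Field G] [Algebra k G]
    (U : Fin c → G) (i : Fin (c + 1)) : F.t U (f i) = (Fin.cons 1 U : Fin (c + 1) → G) i := by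
  have h1 : (Fin.cons 0 F.e : Fin (c + 1) → ℤ) i = V.1 (f i) := by
    refine Fin.cases ?_ (fun a => ?_) i
    · rw [Fin.cons_zero]
      by_contra h
      exact h0 ((mem_supp V _).2 (Ne.symm h))
    · rw [Fin.cons_succ, he]
  rw [Fr.t, Finset.sum_eq_single i]
  · rw [if_pos h1, la_frame F hg, Pi.single_eq_same, map_one, one_mul]
  · intro j _ hj
    rw [la_frame F hg, Pi.single_eq_of_ne hj, map_zero, zero_mul, ite_self]
  · intro h
    exact absurd (Finset.mem_univ i) h

theorem prod_t (F : Fr C V) {f : Fin (c + 1) → Fin r} (hf : Function.Injective f)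
    (hg : ∀ j, F.g j = C.L (f j)) (he : ∀ i, F.e i = V.1 (f i.succ)) (h0 : f 0 ∉ supp V)
    {G : Type w} [Field G] [Algebra k G] (U : Fin c → G) {M : Vec r m}
    (hM : M ∈ FM (m := m) f) : ∏ Q, F.t U Q ^ M.1 Q = ∏ a, U a ^ M.1 (f a.succ) := by
  rw [prod_frame hf _ fun Q hQ => by rw [hM.2 Q hQ, zpow_zero], Fin.prod_univ_succ,
    t_frame F hg he h0, Fin.cons_zero, one_zpow, one_mul]
  refine Finset.prod_congr rfl fun a _ => ?_
  rw [t_frame F hg he h0, Fin.cons_succ]

/-- the minimum formula -/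
theorem min_aux (F : Fr C V) {f : Fin (c + 1) → Fin r} (hf : Function.Injective f)
    (hg : ∀ j, F.g j = C.L (f j)) (he : ∀ i, F.e i = V.1 (f i.succ)) (h0 : f 0 ∉ supp V)
    {G : Type w} [Field G] [Algebra k G] {U : Fin c → G} (hU : AlgebraicIndependent k U)
    (Φ : K →ₐ[k] LL G m)
    (hΦ : ∀ M : Vec r m, deg M = 0 → Mono.Ld (Φ (C.mon M)) (pair V M)
      (HahnSeries.single (toLex M.2) (∏ Q, F.t U Q ^ M.1 Q)))
    (κ : Vec r m →₀ k) (hκ : ∀ M ∈ κ.support, M ∈ FM (m := m) f) {M₁ : Vec r m}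
    (hM₁ : M₁ ∈ κ.support) : C.esum κ ≠ 0 ∧ (Φ (C.esum κ)).order ≤ pair V M₁ := by
  have hne : κ.support.Nonempty := ⟨M₁, hM₁⟩
  set n₀ := κ.support.inf' hne fun M => pair V M with hn₀
  obtain ⟨M₀, hM₀, hM₀'⟩ := Finset.exists_mem_eq_inf' hne fun M => pair V M
  have hle : ∀ M ∈ κ.support, n₀ ≤ pair V M := fun M hM => Finset.inf'_le _ hM
  -- leading terms
  set A : Vec r m → EE G m := fun M =>
    HahnSeries.single (toLex M.2) (algebraMap k G (κ M) * ∏ Q, F.t U Q ^ M.1 Q) with hA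
  have hld : ∀ M ∈ κ.support, Mono.Ld (Φ (algebraMap k K (κ M) * C.mon M)) (pair V M) (A M) := by
    intro M hM
    have h1 := hΦ M (hκ M hM).1
    have h2 : Mono.Ld (algebraMap k (LL G m) (κ M)) 0 (HahnSeries.C (algebraMap k G (κ M))) := by
      rw [← Mono.cc_algebraMap]
      apply Mono.ld_C
      intro h3
      have h4 : algebraMap k G (κ M) = 0 := HahnSeries.C_injective (by rw [h3, map_zero])
      exact Finsupp.mem_support_iff.1 hM ((map_eq_zero _).1 h4)
    have h3 := h2.mul h1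
    rw [zero_add, HahnSeries.C_apply, HahnSeries.single_mul_single, zero_add] at h3
    rw [map_mul, AlgHom.commutes]
    exact h3
  have hA0 : ∑ M ∈ κ.support.filter (fun M => pair V M = n₀), A M ≠ 0 := by
    intro hz
    have h1 : (∑ M ∈ κ.support.filter (fun M => pair V M = n₀), A M).coeff (toLex M₀.2) = 0 := by
      rw [hz]
      rfl
    rw [Mono.coeff_fsum'] at h1
    have h2 : ∀ M : Vec r m, (A M).coeff (toLex M₀.2) =
        if M.2 = M₀.2 then algebraMap k G (κ M) * ∏ Q, F.t U Q ^ M.1 Q else 0 := by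
      intro M
      split_ifs with h3
      · rw [hA, ← h3]
        exact HahnSeries.coeff_single_same _ _
      · exact HahnSeries.coeff_single_of_ne fun h4 => h3 (toLex.injective h4).symm
    rw [Finset.sum_congr rfl fun M _ => h2 M, ← Finset.sum_filter] at h1
    set S := (κ.support.filter (fun M => pair V M = n₀)).filter (fun M => M.2 = M₀.2) with hS
    have hSs : ∀ M ∈ S, M ∈ κ.support ∧ M.2 = M₀.2 := fun M hM =>
      ⟨(Finset.mem_filter.1 (Finset.mem_filter.1 hM).1).1, (Finset.mem_filter.1 hM).2⟩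
    have h3 : ∑ M ∈ S, algebraMap k G (κ M) * ∏ a, U a ^ M.1 (f a.succ) = 0 := by
      rw [← h1]
      refine Finset.sum_congr rfl fun M hM => ?_
      rw [prod_t F hf hg he h0 U (hκ M (hSs M hM).1)]
    have h4 := laurent hU S (fun M a => M.1 (f a.succ)) (fun M hM M' hM' h5 =>
      fm_ext hf (hκ M (hSs M hM).1) (hκ M' (hSs M' hM').1)
        ((hSs M hM).2.trans (hSs M' hM').2.symm) h5) κ h3
    have h5 : M₀ ∈ S := Finset.mem_filter.2 ⟨Finset.mem_filter.2 ⟨hM₀, hM₀'.symm⟩, rfl⟩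
    exact Finsupp.mem_support_iff.1 hM₀ (h4 M₀ h5)
  have h1 := Mono.ld_sum κ.support (fun M => Φ (algebraMap k K (κ M) * C.mon M))
    (fun M => pair V M) A hld n₀ hle _ rfl hA0
  rw [← map_sum] at h1
  have h2 : C.esum κ = ∑ M ∈ κ.support, algebraMap k K (κ M) * C.mon M := rfl
  rw [← h2] at h1
  refine ⟨fun h3 => h1.1 (by rw [h3, map_zero]), ?_⟩
  rw [h1.2.1]
  exact hle M₁ hM₁

end Lead

section Basic

variable {k : Type u} [Field k] [CharZero k] {K : Type v} [Field K] [Algebra k K]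
  (C : RA k K c m r)

theorem monNe (hc : c < r) (M : Vec r m) : C.mon M ≠ 0 :=
  mul_ne_zero (Finset.prod_ne_zero_iff.2 fun Q _ => zpow_ne_zero _ (ell_ne C hc Q))
    (Finset.prod_ne_zero_iff.2 fun i _ => zpow_ne_zero _ (x_ne C i))

theorem jac_eq (R : RF k K (m + c)) (v : DVal k K) (j : ℤ) (h : v.FormOrd R.D j) :
    ∃ j', v.FormOrd C.D j' :=
  ⟨_, rf_form C.rf R v j h⟩

end Basic

end Mno

section MNO
variable {k : Type u} [Field k] [CharZero k] {K : Type v} [Field K] [Algebra k K]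
  (C : RA k K c m r)

open Mno

theorem mono (hc : c < r) (V : Vec r m) (hV : Trop c V) (h1 : ∃ M, deg M = 0 ∧ pair V M = 1) :
    ∃ v, MonVal C V v := by
  obtain ⟨f, hf, h0, hI⟩ := frame0 (supp V) hV.card hc
  obtain ⟨F, hFg, hFe⟩ := fr_of_frame C V hV f hf h0 hI
  obtain ⟨R, hR, -⟩ := frame C F.g F.det
  have hgne : ∀ j, F.g j ≠ 0 := by
    intro j hj
    apply F.det
    exact Matrix.det_eq_zero_of_row_eq_zero j fun i => congrFun hj i
  have hRne : ∀ i, R.y i ≠ 0 := by
    intro i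
    rw [hR]
    refine Fin.addCases (fun i => ?_) (fun i => ?_) i
    · rw [Fin.append_left]
      exact x_ne C i
    · rw [Fin.append_right]
      exact div_ne_zero (lin_ne C _ (hgne _)) (lin_ne C _ (hgne _))
  obtain ⟨U, δ, -, hU0, hδ, hUi⟩ := euler_ders R hRne
  have hnz : (∃ i, i ∈ (∅ : Finset (Fin m))) ∨ (∃ a, F.e a ≠ 0) ∨ ∃ j, V.2 j ≠ 0 := by
    by_contra hcon
    push Not at hcon
    obtain ⟨-, hc1, hc2⟩ := hcon
    obtain ⟨M, hM, hVM⟩ := h1
    have h2 : ∀ Q, V.1 Q = 0 := by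
      intro Q
      by_contra hQ
      have hQ' : Q ∈ supp V := (mem_supp V Q).2 hQ
      obtain ⟨i, hi⟩ := hI Q hQ'
      revert hi
      refine Fin.cases (fun hi => ?_) (fun a hi => ?_) i
      · exact h0 (hi ▸ hQ')
      · apply hQ
        rw [← hi, ← hFe, hc1]
    have h3 : pair V M = 0 := by
      rw [pair, Finset.sum_eq_zero fun Q _ => by rw [h2 Q, zero_mul],
        Finset.sum_eq_zero fun i _ => by rw [hc2 i, zero_mul], add_zero]
    rw [h3] at hVM
    exact zero_ne_one hVM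
  obtain ⟨Φ, hΦz, hΦx, hΦj⟩ := emb R U hU0 δ hδ F.e V.2 (fun _ => (1 : AlgebraicClosure K))
    (fun _ => one_ne_zero) (1 : Matrix (Fin m) (Fin m) ℤ) (by rw [Matrix.det_one]; exact one_ne_zero)
    ∅ (fun j => (V.2 j : AlgebraicClosure K)) (by
      intro j
      have e1 : ∀ a, δ a (1 : AlgebraicClosure K) = 0 := fun a => (δ a).map_one_eq_zero
      simp only [e1, zero_div, mul_zero, Finset.sum_const_zero, sub_zero, Finset.compl_empty]
      rw [Finset.sum_eq_single j]
      · rw [Matrix.one_apply_eq, Int.cast_one, mul_one]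
      · intro i _ hi
        rw [Matrix.one_apply_ne hi, Int.cast_zero, mul_zero]
      · intro h
        exact absurd (Finset.mem_univ j) h) hnz
  have hlead : ∀ M : Vec r m, deg M = 0 → Mono.Ld (Φ (C.mon M)) (pair V M)
      (HahnSeries.single (toLex M.2) (∏ Q, F.t U Q ^ M.1 Q)) := by
    intro M hM
    obtain ⟨e1, e2, e3⟩ := lead hc F U hUi R hR (fun _ => (1 : AlgebraicClosure K))
      (fun _ => one_ne_zero) (1 : Matrix (Fin m) (Fin m) ℤ) ∅ Φ hΦz hΦx M hM
    refine ⟨e1, e2, ?_⟩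
    rw [e3]
    have e4 : (fun i => if i ∈ (∅ : Finset (Fin m)) then (0 : ℤ) else
        ∑ j, (1 : Matrix (Fin m) (Fin m) ℤ) i j * M.2 j) = M.2 := by
      funext i
      rw [if_neg (Finset.notMem_empty i), Finset.sum_eq_single i]
      · rw [Matrix.one_apply_eq, one_mul]
      · intro j _ hj
        rw [Matrix.one_apply_ne (Ne.symm hj), zero_mul]
      · intro h
        exact absurd (Finset.mem_univ i) h
    rw [e4]
    congr 1
    simp only [one_zpow, Finset.prod_const_one, mul_one]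
  obtain ⟨v, hv⟩ := exists_dval Φ (by
    obtain ⟨M, hM, hVM⟩ := h1
    exact ⟨C.mon M, monNe C hc M, by rw [(hlead M hM).2.1, hVM]⟩)
  obtain ⟨j, hj, -⟩ := rf_form_ex R v (1 - (∑ a, F.e a + ∑ i, V.2 i + (∅ : Finset (Fin m)).card))
    (by
      intro a ha hJ
      rw [hv _ hJ]
      apply hΦj a _ hJ
      intro i
      by_cases hai : a i = 0
      · rw [hai, map_zero, HahnSeries.order_zero]
      · rw [← hv _ hai]
        exact ha i hai)
  refine ⟨v, hV, fun M hM => ?_, jac_eq C R v j hj, f, hf, h0, hI, fun κ hκ M hM => ?_⟩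
  · rw [hv _ (monNe C hc M), (hlead M hM).2.1]
  · obtain ⟨e1, e2⟩ := min_aux F hf hFg hFe h0 hUi Φ hlead κ hκ hM
    exact ⟨e1, by rw [hv _ e1]; exact e2⟩

/-- a tropical valuation is a multiple of a primitive one -/
theorem prim (hc : c < r) (V : Vec r m) (hV : Trop c V) (h1 : ∃ M, deg M = 0 ∧ pair V M ≠ 0) :
    ∃ (N : ℕ) (W : Vec r m), 1 ≤ N ∧ V = (N : ℤ) • W ∧ Trop c W ∧ supp W = supp V ∧
      ∃ M, deg M = 0 ∧ pair W M = 1 := by
  have h2 : ∃ i, (Fin.append V.1 V.2 : Fin (r + m) → ℤ) i ≠ 0 := by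
    by_contra hcon
    push Not at hcon
    obtain ⟨M, -, hM⟩ := h1
    apply hM
    have e1 : ∀ Q, V.1 Q = 0 := fun Q => by
      have := hcon (Fin.castAdd m Q)
      rwa [Fin.append_left] at this
    have e2 : ∀ i, V.2 i = 0 := fun i => by
      have := hcon (Fin.natAdd r i)
      rwa [Fin.append_right] at this
    rw [pair, Finset.sum_eq_zero fun Q _ => by rw [e1 Q, zero_mul],
      Finset.sum_eq_zero fun i _ => by rw [e2 i, zero_mul], add_zero]
  obtain ⟨N, g, b, hN, hg, hb⟩ := Mono.bez _ h2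
  have hN' : (1 : ℤ) ≤ N := by exact_mod_cast hN
  set W : Vec r m := (fun Q => g (Fin.castAdd m Q), fun i => g (Fin.natAdd r i)) with hW
  have hVW : V = (N : ℤ) • W := by
    refine Prod.ext ?_ ?_
    · funext Q
      have := hg (Fin.castAdd m Q)
      rw [Fin.append_left] at this
      exact this
    · funext i
      have := hg (Fin.natAdd r i)
      rw [Fin.append_right] at this
      exact this
  have hV1 : ∀ Q, V.1 Q = N * W.1 Q := fun Q => by rw [hVW]; rfl
  have hsupp : supp W = supp V := by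
    ext Q
    rw [mem_supp, mem_supp, hV1]
    constructor
    · intro h
      exact mul_ne_zero (by omega) h
    · intro h h3
      exact h (by rw [h3, mul_zero])
  have hT : Trop c W := by
    refine ⟨fun Q => ?_, by rw [hsupp]; exact hV.card⟩
    have h3 := hV.nonneg Q
    rw [hV1] at h3
    by_contra h4
    push Not at h4
    nlinarith
  obtain ⟨Q₀, hQ₀⟩ := exists_zero hT hc
  refine ⟨N, W, hN, hVW, hT, hsupp, ?_⟩
  refine ⟨∑ Q, b (Fin.castAdd m Q) • (ee Q - ee Q₀) +
    ((0 : Fin r → ℤ), fun i => b (Fin.natAdd r i)), ?_, ?_⟩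
  · rw [deg_add, deg_sum]
    have e1 : ∀ Q ∈ Finset.univ, deg (b (Fin.castAdd m Q) • (ee Q - ee Q₀) : Vec r m) = 0 := by
      intro Q _
      rw [deg_zsmul, deg_sub, deg_ee, deg_ee, sub_self, mul_zero]
    rw [Finset.sum_eq_zero e1, zero_add]
    simp [deg]
  · rw [pair_add, pair_sum]
    have e1 : ∀ Q ∈ Finset.univ, pair W (b (Fin.castAdd m Q) • (ee Q - ee Q₀)) =
        b (Fin.castAdd m Q) * g (Fin.castAdd m Q) := by
      intro Q _
      rw [pair_zsmul, pair_sub, pair_ee, pair_ee, hQ₀, sub_zero]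
    rw [Finset.sum_congr rfl e1]
    have e2 : pair W ((0 : Fin r → ℤ), fun i => b (Fin.natAdd r i)) =
        ∑ i, b (Fin.natAdd r i) * g (Fin.natAdd r i) := by
      simp only [pair, Pi.zero_apply, mul_zero, Finset.sum_const_zero, zero_add]
      exact Finset.sum_congr rfl fun i _ => mul_comm _ _
    rw [e2, ← hb, Fin.sum_univ_add]

/-- minimality of the monomial valuation -/
theorem mono_le (hc : c < r) (V : Vec r m) (v μ : DVal k K) (hμ : MonVal C V μ) (N : ℕ)
    (hN : 1 ≤ N) (hv : ∀ M, deg M = 0 → v.ord (C.mon M) = N * pair V M) (f : K) (hf : f ≠ 0)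
    (hs : f ∈ Submodule.span k (C.mon '' {M | deg M = 0})) : N * μ.ord f ≤ v.ord f := by
  obtain ⟨κ, hκ, hκf⟩ := (mem_span_iff C _ _).1 hs
  obtain ⟨φ, hφ, -, -, hmin⟩ := hμ.min
  obtain ⟨N₀, hN₀, -, hT⟩ := to_frame C hc φ hφ κ.support hκ
  have h1 : C.mon N₀ * f ∈ Submodule.span k (C.mon '' (FM (m := m) φ)) := by
    rw [← hκf]
    have e1 : C.esum κ = ∑ M ∈ κ.support, algebraMap k K (κ M) * C.mon M := rfl
    rw [e1, Finset.mul_sum]
    refine Submodule.sum_mem _ fun M hM => ?_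
    have e2 : C.mon N₀ * (algebraMap k K (κ M) * C.mon M) = κ M • (C.mon N₀ * C.mon M) := by
      rw [Algebra.smul_def]
      ring
    rw [e2]
    refine Submodule.smul_mem _ _ (Submodule.span_mono ?_ (hT M hM))
    exact Set.image_mono fun M' hM' => hM'.1
  obtain ⟨κ', hκ', hκf'⟩ := (mem_span_iff C _ _).1 h1
  have hne : C.mon N₀ * f ≠ 0 := mul_ne_zero (monNe C hc N₀) hf
  have h2 : (N : ℤ) * μ.ord (C.mon N₀ * f) ≤ v.ord (C.mon N₀ * f) := by
    rw [← hκf']
    apply esum_ord C hc v κ' _ _ (by rw [hκf']; exact hne)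
    intro M hM
    rw [hv M (hκ' M hM).1]
    have h3 := (hmin κ' hκ' M hM).2
    have h4 : (0 : ℤ) ≤ N := by omega
    exact mul_le_mul_of_nonneg_left h3 h4
  rw [v.ord_mul _ _ (monNe C hc N₀) hf, μ.ord_mul _ _ (monNe C hc N₀) hf, hv N₀ hN₀,
    hμ.ord N₀ hN₀] at h2
  linarith

end MNO

end

end Pool.Agent.MLD.R
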