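import Pool.Agent.Lib.MP_f23696_ag.Heq
import Pool.Agent.Lib.MP_f23696_ag.T.Der
import Pool.Agent.Lib.MP_f23696_ag.R.Mon

set_option autoImplicit false

/-!
Project LSC-ARR (MP_f23696_ag), module NMN: prime divisors without monomials.
-/

namespace Pool.Agent.MLD.R

open scoped Classical
noncomputable section

universe u v w

variable {c r m : ℕ}

namespace Nmn

open Pool.Agent.MLD.Jac (LB LB.add LB.mul LB.zero ord_one ord_inv)

variable {k : Type u} [Field k] {K : Type v} [Field K] [Algebra k K]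

/-- the elements which are integral together with their derivatives -/
def sub {n : ℕ} (v : DVal k K) (D : Fin n → Derivation k K K) : Subalgebra k K where
  carrier := {f | LB v 0 f ∧ ∀ i, LB v 0 (D i f)}
  mul_mem' := by
    rintro a b ⟨ha, ha'⟩ ⟨hb, hb'⟩
    refine ⟨by simpa using ha.mul hb, fun i => ?_⟩
    rw [Derivation.leibniz, smul_eq_mul, smul_eq_mul]
    have h1 := ha.mul (hb' i)
    have h2 := hb.mul (ha' i)
    rw [zero_add] at h1 h2
    exact h1.add h2
  add_mem' := by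
    rintro a b ⟨ha, ha'⟩ ⟨hb, hb'⟩
    refine ⟨ha.add hb, fun i => ?_⟩
    rw [map_add]
    exact (ha' i).add (hb' i)
  algebraMap_mem' := by
    intro a
    refine ⟨Ten.LB_algebraMap v a, fun i => ?_⟩
    rw [Derivation.map_algebraMap]
    exact LB.zero v 0

theorem mem_sub {n : ℕ} {v : DVal k K} {D : Fin n → Derivation k K K} {f : K} :
    f ∈ sub v D ↔ LB v 0 f ∧ ∀ i, LB v 0 (D i f) := Iff.rfl

theorem inv_mem {n : ℕ} {v : DVal k K} {D : Fin n → Derivation k K K} {f : K}
    (h : f ∈ sub v D) (hf : f ≠ 0) (h0 : v.ord f = 0) : f⁻¹ ∈ sub v D := by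
  have h1 : LB v 0 f⁻¹ := by
    intro _
    rw [ord_inv v f hf, h0, neg_zero]
  refine ⟨h1, fun i => ?_⟩
  rw [Derivation.leibniz_inv, smul_eq_mul]
  have h2 : LB v 0 (f⁻¹ ^ 2) := by
    have := h1.mul h1
    rw [zero_add] at this
    rw [pow_two]
    exact this
  have h3 := (Ten.LB_neg v h2).mul (h.2 i)
  rw [zero_add] at h3
  exact h3

theorem zpow_mem {n : ℕ} {v : DVal k K} {D : Fin n → Derivation k K K} {f : K}
    (h : f ∈ sub v D) (hf : f ≠ 0) (h0 : v.ord f = 0) (a : ℤ) : f ^ a ∈ sub v D := by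
  obtain ⟨b, rfl | rfl⟩ := a.eq_nat_or_neg
  · rw [zpow_natCast]
    exact pow_mem h b
  · rw [zpow_neg, zpow_natCast, ← inv_pow]
    exact pow_mem (inv_mem h hf h0) b

theorem coord_mem {n : ℕ} {v : DVal k K} {D : Fin n → Derivation k K K} {y : Fin n → K}
    (hD : ∀ i j, D i (y j) = if i = j then 1 else 0) (j : Fin n) (h0 : v.ord (y j) = 0) :
    y j ∈ sub v D := by
  refine ⟨fun _ => h0.symm.le, fun i => ?_⟩
  rw [hD]
  split_ifs
  · intro _
    rw [ord_one]
  · exact LB.zero v 0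

theorem mon_x (C : RA k K c m r) (i : Fin m) : C.mon (0, Pi.single i 1) = C.x i := by
  rw [RA.mon]
  simp only [Pi.zero_apply, zpow_zero, Finset.prod_const_one, one_mul]
  rw [Finset.prod_eq_single i]
  · rw [Pi.single_eq_same, zpow_one]
  · intro j _ hj
    rw [Pi.single_eq_of_ne hj, zpow_zero]
  · intro h
    exact absurd (Finset.mem_univ i) h

end Nmn

section NMN
variable {k : Type u} [Field k] [IsAlgClosed k] [CharZero k] {K : Type v} [Field K] [Algebra k K]
  {C : RA k K c m r}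

open Nmn in
open Pool.Agent.MLD.Jac (ord_one) in
theorem nonmon (hc : c < r) (X : AV C) (q : Ideal X.A) (hq : IsHeightOne q)
    (h : X.S q = X.MX) (v : DVal k K) (hv : v.HasCenter X.A q) :
    v.FormOrd C.D 0 ∧ ∀ M, deg M = 0 → v.ord (C.mon M) = 0 := by
  have hMX : ∀ M ∈ X.MX, v.ord (C.mon M) = 0 := by
    intro M hM
    rw [← h] at hM
    obtain ⟨-, h1, h2⟩ := hM
    exact HEQ.ord_eq_zero hv ⟨_, h1⟩ h2
  have hmon : ∀ M, deg M = 0 → v.ord (C.mon M) = 0 := by
    intro M hM
    obtain ⟨N, hN, hN1, hN2⟩ := X.full M hM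
    have e1 := hMX N ⟨hN, hN1⟩
    have e2 := hMX (N + M) ⟨by rw [deg_add, hN, hM, add_zero], hN2⟩
    rw [mon_add hc, v.ord_mul _ _ (mon_ne hc N) (mon_ne hc M)] at e2
    omega
  refine ⟨?_, hmon⟩
  have hell : ∀ Q, v.ord (C.ell Q) = 0 := by
    intro Q
    have h1 := hmon (ee Q - ee (C.o 0)) (by rw [deg_sub, deg_ee, deg_ee, sub_self])
    rw [sub_eq_add_neg, mon_add hc, mon_neg hc, mon_ee, mon_ee, ell_o, inv_one, mul_one] at h1
    exact h1
  have hell0 : ∀ Q, C.ell Q ≠ 0 := fun Q => by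
    rw [← mon_ee]
    exact mon_ne hc _
  have hz : ∀ i, v.ord (C.z i) = 0 := fun i => by
    rw [← ell_o_succ]
    exact hell _
  have hx : ∀ i, v.ord (C.x i) = 0 := fun i => by
    rw [← mon_x]
    exact hmon _ (by simp [deg])
  have hx0 : ∀ i, C.x i ≠ 0 := fun i => by
    rw [← mon_x]
    exact mon_ne hc _
  set T : Subalgebra k K := sub v C.D with hT
  have hy : ∀ j, v.ord (Fin.append C.x C.z j) = 0 := by
    intro j
    refine Fin.addCases (fun i => ?_) (fun i => ?_) j
    · rw [Fin.append_left]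
      exact hx i
    · rw [Fin.append_right]
      exact hz i
  have hyT : ∀ j, Fin.append C.x C.z j ∈ T := fun j => coord_mem C.dual j (hy j)
  have hxT : ∀ i, C.x i ∈ T := fun i => by
    have := hyT (Fin.castAdd c i)
    rwa [Fin.append_left] at this
  have hzT : ∀ i, C.z i ∈ T := fun i => by
    have := hyT (Fin.natAdd m i)
    rwa [Fin.append_right] at this
  have hlT : ∀ Q, C.ell Q ∈ T := by
    intro Q
    rw [RA.ell, RA.lin, linForm]
    exact T.add_mem (T.algebraMap_mem _)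
      (T.sum_mem fun i _ => T.mul_mem (T.algebraMap_mem _) (hzT i))
  have hmT : ∀ M, C.mon M ∈ T := by
    intro M
    rw [RA.mon]
    exact T.mul_mem (T.prod_mem fun Q _ => zpow_mem (hlT Q) (hell0 Q) (hell Q) _)
      (T.prod_mem fun i _ => zpow_mem (hxT i) (hx0 i) (hx i) _)
  have hAT : X.A ≤ T := by
    rw [← X.adj]
    refine Algebra.adjoin_le ?_
    rintro _ ⟨M, -, rfl⟩
    exact hmT M
  have hint : ∀ f : K, v.Integral f → f ∈ T := by
    intro f hf
    by_cases hf0 : f = 0
    · rw [hf0]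
      exact T.zero_mem
    obtain ⟨w, hw, hw1⟩ := dvr X.A (noeth X) X.frac X.normal q hq
    have e1 : 0 ≤ w.ord f := by
      rw [dvr_unique X.A (noeth X) X.frac X.normal q hq w v hw hv f hf0]
      exact hf hf0
    obtain ⟨s, hs, hsA⟩ := (hw1 f hf0).1 e1
    have hs0 := HEQ.ne_of_not_mem s hs
    have e2 : f = (s : K)⁻¹ * ((s : K) * f) := by
      rw [← mul_assoc, inv_mul_cancel₀ hs0, one_mul]
    rw [e2]
    exact T.mul_mem (inv_mem (hAT s.2) hs0 (HEQ.ord_eq_zero hv s hs)) (hAT hsA)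
  constructor
  · intro a ha hj
    rw [neg_zero]
    exact Ten.det_integral v _ (fun i j => (hint (a j) (ha j)).2 i) hj
  · have hjac : jac C.D (Fin.append C.x C.z) = 1 := by
      rw [jac]
      have : (Matrix.of fun i j => C.D i (Fin.append C.x C.z j)) = 1 := by
        ext i j
        rw [Matrix.of_apply, C.dual, Matrix.one_apply]
      rw [this, Matrix.det_one]
    refine ⟨Fin.append C.x C.z, fun i _ => (hy i).symm.le, ?_, ?_⟩
    · rw [hjac]
      exact one_ne_zero
    · rw [hjac, ord_one, neg_zero]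

end NMN

end

end Pool.Agent.MLD.R
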