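import Pool.Agent.Lib.MP_f23696_ag.R.Trp
import Pool.Agent.Lib.MP_f23696_ag.R.Mon
import Pool.Agent.Lib.MP_f23696_ag.R.Mno
import Pool.Agent.Lib.MP_f23696_ag.R.Tfr
import Pool.Agent.Lib.MP_f23696_ag.Dvr

/-!
Project LSC-ARR (MP_f23696_ag), module UNQ: the valuations of the prime divisors containing
monomials are monomial valuations.
-/

namespace Pool.Agent.MLD.R

open scoped Classical
noncomputable section

universe u v w

namespace Unq

variable {c r m : ℕ} {k : Type u} [Field k] {K : Type v} [Field K] [Algebra k K]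
  {C : RA k K c m r}

theorem form_congr (v v' : DVal k K) (h : ∀ f : K, f ≠ 0 → v.ord f = v'.ord f) {n : ℕ}
    (D : Fin n → Derivation k K K) {j : ℤ} (hj : v.FormOrd D j) : v'.FormOrd D j := by
  have hI : ∀ a, v.Integral a ↔ v'.Integral a := fun a => by
    constructor <;> intro H ha
    · rw [← h a ha]; exact H ha
    · rw [h a ha]; exact H ha
  refine ⟨fun a ha hJ => ?_, ?_⟩
  · rw [← h _ hJ]; exact hj.1 a (fun i => (hI _).2 (ha i)) hJ
  · obtain ⟨a, ha, hJ, he⟩ := hj.2
    exact ⟨a, fun i => (hI _).1 (ha i), hJ, by rw [← h _ hJ]; exact he⟩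

theorem congr {V : Vec r m} {v v' : DVal k K} (h : ∀ f : K, f ≠ 0 → v.ord f = v'.ord f)
    (hne : ∀ M, C.mon M ≠ 0) (H : MonVal C V v) : MonVal C V v' where
  trop := H.trop
  ord M hM := by rw [← h _ (hne M)]; exact H.ord M hM
  form := by
    obtain ⟨j, hj⟩ := H.form
    exact ⟨j, form_congr v v' h C.D hj⟩
  min := by
    obtain ⟨f, h1, h2, h3, h4⟩ := H.min
    refine ⟨f, h1, h2, h3, fun κ hκ M hM => ?_⟩
    obtain ⟨h5, h6⟩ := h4 κ hκ M hM
    exact ⟨h5, by rw [← h _ h5]; exact h6⟩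

/-- the centre of a valuation which is nonnegative on `A` -/
def cen (A : Subalgebra k K) (v : DVal k K) (h : ∀ a : A, v.Integral (a : K)) : Ideal A where
  carrier := {a | v.Small (a : K)}
  zero_mem' := fun h => absurd rfl h
  add_mem' := by
    intro a b ha hb hab
    change v.Small (a : K) at ha
    change v.Small (b : K) at hb
    by_cases ha0 : (a : K) = 0
    · have : ((a + b : A) : K) = b := by
        rw [Subalgebra.coe_add, ha0, zero_add]
      rw [this] at hab ⊢
      exact hb hab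
    by_cases hb0 : (b : K) = 0
    · have : ((a + b : A) : K) = a := by
        rw [Subalgebra.coe_add, hb0, add_zero]
      rw [this] at hab ⊢
      exact ha hab
    · have h1 := v.ord_add a b ha0 hb0 hab
      have h2 := ha ha0
      have h3 := hb hb0
      change 0 < v.ord ((a : K) + b)
      omega
  smul_mem' := by
    intro a b hb hab
    change v.Small (b : K) at hb
    have h0 : (a : K) * b ≠ 0 := hab
    have h1 := v.ord_mul a b (left_ne_zero_of_mul h0) (right_ne_zero_of_mul h0)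
    have h2 := h a (left_ne_zero_of_mul h0)
    have h3 := hb (right_ne_zero_of_mul h0)
    change 0 < v.ord ((a : K) * b)
    omega

theorem cen_center (A : Subalgebra k K) (v : DVal k K) (h : ∀ a : A, v.Integral (a : K)) :
    v.HasCenter A (cen A v h) := ⟨h, fun _ => Iff.rfl⟩

theorem cen_prime (A : Subalgebra k K) (v : DVal k K) (h : ∀ a : A, v.Integral (a : K)) :
    (cen A v h).IsPrime := by
  have h1 : v.ord 1 = 0 := by
    have := v.ord_mul 1 1 one_ne_zero one_ne_zero
    rw [mul_one] at this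
    omega
  refine ⟨?_, ?_⟩
  · rw [Ne, Ideal.eq_top_iff_one]
    intro h2
    have h3 : v.Small ((1 : A) : K) := h2
    have h4 := h3 (by simp)
    rw [Subalgebra.coe_one, h1] at h4
    exact lt_irrefl _ h4
  · intro a b hab
    by_contra hn
    push Not at hn
    obtain ⟨ha, hb⟩ := hn
    have ha' : ¬ v.Small (a : K) := ha
    have hb' : ¬ v.Small (b : K) := hb
    unfold DVal.Small at ha' hb'
    push Not at ha' hb'
    have h5 := v.ord_mul a b ha'.1 hb'.1
    have h6 : v.Small ((a * b : A) : K) := hab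
    have h7 := h6 (mul_ne_zero ha'.1 hb'.1)
    change 0 < v.ord ((a : K) * b) at h7
    omega

end Unq

section UNQ
variable {c r m : ℕ} {k : Type u} [Field k] [IsAlgClosed k] [CharZero k] {K : Type v} [Field K]
  [Algebra k K] {C : RA k K c m r}

theorem mon_val (hc : c < r) (X : AV C) (q : Ideal X.A) (hq : IsHeightOne q)
    (h : X.S q ≠ X.MX) (v : DVal k K) (hv : v.HasCenter X.A q) : ∃ V, MonVal C V v := by
  obtain ⟨V, hV, hVv⟩ := trop_exists C hc v
  -- a monomial in `q`
  obtain ⟨M₀, hM₀, hM₀S⟩ : ∃ M ∈ X.MX, M ∉ X.S q := by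
    by_contra hn
    push Not at hn
    exact h (Set.Subset.antisymm (S_sub X q) hn)
  have hpos : ∀ M ∈ X.MX, 0 ≤ pair V M := fun M hM => (S_iff hc X q v hv V hVv M hM).1
  have hM₀p : 0 < pair V M₀ := by
    have h1 := S_iff hc X q v hv V hVv M₀ hM₀
    refine lt_of_le_of_ne h1.1 fun h2 => hM₀S (h1.2.2 h2.symm)
  obtain ⟨N, W, hN, hVW, hW, -, M₁, hM₁, hM₁1⟩ := prim hc V hV ⟨M₀, hM₀.1, hM₀p.ne'⟩
  obtain ⟨μ, hμ⟩ := mono C hc W hW ⟨M₁, hM₁, hM₁1⟩
  have hNpos : (0 : ℤ) < N := by exact_mod_cast hN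
  have hpair : ∀ M, pair V M = N * pair W M := fun M => by rw [hVW, zsmul_pair]
  have hWpos : ∀ M ∈ X.MX, 0 ≤ pair W M := by
    intro M hM
    have h1 := hpos M hM
    rw [hpair] at h1
    exact nonneg_of_mul_nonneg_right h1 hNpos
  have hle : ∀ f : K, f ≠ 0 → f ∈ Submodule.span k (C.mon '' {M | deg M = 0}) →
      N * μ.ord f ≤ v.ord f :=
    fun f hf hs => mono_le C hc W v μ hμ N hN (fun M hM => by rw [hVv M hM, hpair]) f hf hs
  have hspan : ∀ a : X.A, (a : K) ∈ Submodule.span k (C.mon '' {M | deg M = 0}) := fun a =>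
    Submodule.span_mono (Set.image_mono fun M hM => hM.1) (mem_span hc X a)
  -- `μ` is nonnegative on `A`
  have hint : ∀ a : X.A, μ.Integral (a : K) := by
    intro a ha
    obtain ⟨κ, hκ, he⟩ := (mem_span_iff C X.MX (a : K)).1 (mem_span hc X a)
    rw [← he]
    refine esum_ord C hc μ κ 0 (fun M hM => ?_) (by rw [he]; exact ha)
    rw [hμ.ord M (hκ M hM).1]
    exact hWpos M (hκ M hM)
  have hpq : Unq.cen X.A μ hint ≤ q := by
    intro a ha
    refine (hv.2 a).2 fun ha0 => ?_
    have h1 : μ.Small (a : K) := ha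
    have h2 := h1 ha0
    have h3 := hle a ha0 (hspan a)
    have h4 : (0 : ℤ) < N * μ.ord (a : K) := mul_pos hNpos h2
    linarith
  have hp0 : Unq.cen X.A μ hint ≠ ⊥ := by
    intro h0
    have h1 : (⟨C.mon M₀, hM₀.2⟩ : X.A) ∈ Unq.cen X.A μ hint := by
      intro _
      change 0 < μ.ord (C.mon M₀)
      rw [hμ.ord M₀ hM₀.1]
      rw [hpair] at hM₀p
      exact pos_of_mul_pos_right hM₀p hNpos.le
    rw [h0, Ideal.mem_bot] at h1
    exact mon_ne hc M₀ (congrArg Subtype.val h1)
  have hp := hq.2.2 _ (Unq.cen_prime X.A μ hint) hp0 hpq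
  have hcen := Unq.cen_center X.A μ hint
  rw [hp] at hcen
  refine ⟨W, Unq.congr (fun f hf => ?_) (fun M => mon_ne hc M) hμ⟩
  exact dvr_unique X.A (noeth X) X.frac X.normal q hq μ v hcen hv f hf

end UNQ

end

end Pool.Agent.MLD.R
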