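import Pool.Agent.Lib.MP_f23696_ag.R.Frm
import Pool.Agent.Lib.MP_f23696_ag.R.Mon
import Pool.Agent.Lib.MP_f23696_ag.R.Mno
import Pool.Agent.Lib.MP_f23696_ag.R.Unq
import Pool.Agent.Lib.MP_f23696_ag.R.Nmn
import Pool.Agent.Lib.MP_f23696_ag.Hart
import Pool.Agent.Lib.MP_f23696_ag.Dvr
import Pool.Agent.Lib.MP_f23696_ag.T.Val

/-!
Module EDT of LSC-ARR (MP_f23696_ag): the finite set of the prime divisors containing monomials.
-/

namespace Pool.Agent.MLD.R

open scoped Classical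
noncomputable section

universe u v w

variable {c r m : ℕ}

section EDT
variable {k : Type u} [Field k] [IsAlgClosed k] [CharZero k] {K : Type v} [Field K] [Algebra k K]
  {C : RA k K c m r}

namespace Edt

omit [IsAlgClosed k] [CharZero k] in
/-- value of a valuation at a monomial, if it vanishes at all the forms and coordinates -/
theorem ord_mon_zero (v : DVal k K) (hne : ∀ Q, C.ell Q ≠ 0) (hx : ∀ i, C.x i ≠ 0)
    (h1 : ∀ Q, v.ord (C.ell Q) = 0) (h2 : ∀ i, v.ord (C.x i) = 0) (M : Vec r m) :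
    v.ord (C.mon M) = 0 := by
  have e1 : v.ord (∏ Q, C.ell Q ^ M.1 Q) = 0 := by
    rw [Jac.ord_prod v Finset.univ _ fun Q _ => zpow_ne_zero _ (hne Q)]
    exact Finset.sum_eq_zero fun Q _ => by rw [Jac.ord_zpow v _ (hne Q), h1, mul_zero]
  have e2 : v.ord (∏ i, C.x i ^ M.2 i) = 0 := by
    rw [Jac.ord_prod v Finset.univ _ fun i _ => zpow_ne_zero _ (hx i)]
    exact Finset.sum_eq_zero fun i _ => by rw [Jac.ord_zpow v _ (hx i), h2, mul_zero]
  rw [RA.mon, v.ord_mul _ _ (Finset.prod_ne_zero_iff.2 fun Q _ => zpow_ne_zero _ (hne Q))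
    (Finset.prod_ne_zero_iff.2 fun i _ => zpow_ne_zero _ (hx i)), e1, e2, add_zero]

theorem fin_aux (hc : c < r) (X : AV C) (M : Vec r m) (hM : deg M = 0) :
    ∃ a : X.A, a ≠ 0 ∧ ∀ q : Ideal X.A, q.IsPrime → a ∉ q → ∀ v : DVal k K, v.HasCenter X.A q →
      v.ord (C.mon M) = 0 := by
  obtain ⟨N, hN, h1, h2⟩ := X.full M hM
  have n1 := mon_ne (C := C) hc N
  have n2 := mon_ne (C := C) hc (N + M)
  have n3 := mon_ne (C := C) hc M
  refine ⟨⟨C.mon N, h1⟩ * ⟨C.mon (N + M), h2⟩, ?_, ?_⟩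
  · intro h
    have := congrArg (fun a : X.A => (a : K)) h
    exact mul_ne_zero n1 n2 this
  · intro q hq ha v hv
    have key : ∀ f : K, f ≠ 0 → ∀ hf : f ∈ X.A, (⟨f, hf⟩ : X.A) ∉ q → v.ord f = 0 := by
      intro f f0 hf hfq
      have h3 := hv.1 ⟨f, hf⟩ f0
      have h4 : ¬ v.Small f := fun h => hfq ((hv.2 ⟨f, hf⟩).2 h)
      by_contra h5
      exact h4 fun _ => lt_of_le_of_ne h3 (Ne.symm h5)
    have k1 := key _ n1 h1 fun h => ha (q.mul_mem_right _ h)
    have k2 := key _ n2 h2 fun h => ha (q.mul_mem_left _ h)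
    rw [mon_add hc, v.ord_mul _ _ n1 n3, k1, zero_add] at k2
    exact k2

theorem finite (hc : c < r) (X : AV C) : {q : Ideal X.A | IsHeightOne q ∧ X.S q ≠ X.MX}.Finite := by
  have hdv : ∀ q : Ideal X.A, IsHeightOne q → ∃ v : DVal k K, v.HasCenter X.A q := by
    intro q hq
    obtain ⟨v, hv, _⟩ := dvr X.A (noeth X) X.frac X.normal q hq
    exact ⟨v, hv⟩
  have a1 : ∀ Q : Fin r, ∃ a : X.A, a ≠ 0 ∧ ∀ q : Ideal X.A, q.IsPrime → a ∉ q →
      ∀ v : DVal k K, v.HasCenter X.A q → v.ord (C.mon (ee Q - ee (C.o 0))) = 0 := fun Q =>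
    fin_aux hc X _ (by rw [deg_sub, deg_ee, deg_ee, sub_self])
  have a2 : ∀ i : Fin m, ∃ a : X.A, a ≠ 0 ∧ ∀ q : Ideal X.A, q.IsPrime → a ∉ q →
      ∀ v : DVal k K, v.HasCenter X.A q → v.ord (C.mon (0, Pi.single i 1)) = 0 := fun i =>
    fin_aux hc X _ (by simp [deg])
  choose P hP0 hP using a1
  choose R hR0 hR using a2
  refine (finite_heightOne X.A (noeth X) ((∏ Q, P Q) * ∏ i, R i)
    (mul_ne_zero (Finset.prod_ne_zero_iff.2 fun Q _ => hP0 Q)
      (Finset.prod_ne_zero_iff.2 fun i _ => hR0 i))).subset ?_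
  rintro q ⟨hq, hS⟩
  refine ⟨hq, ?_⟩
  by_contra ha
  obtain ⟨v, hv⟩ := hdv q hq
  apply hS
  have hPq : ∀ Q, P Q ∉ q := fun Q h =>
    ha (q.mul_mem_right _ (Ideal.mem_of_dvd q (Finset.dvd_prod_of_mem P (Finset.mem_univ Q)) h))
  have hRq : ∀ i, R i ∉ q := fun i h =>
    ha (q.mul_mem_left _ (Ideal.mem_of_dvd q (Finset.dvd_prod_of_mem R (Finset.mem_univ i)) h))
  have hell : ∀ Q, C.ell Q ≠ 0 := ell_ne C hc
  have hx : ∀ i, C.x i ≠ 0 := x_ne C
  have e1 : ∀ Q, v.ord (C.ell Q) = 0 := by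
    intro Q
    have h1 := hP Q q hq.1 (hPq Q) v hv
    have h2 : C.mon (ee Q - ee (C.o 0)) = C.ell Q := by
      rw [sub_eq_add_neg, mon_add hc, mon_neg hc, mon_ee, mon_ee, ell_o, inv_one, mul_one]
    rw [h2] at h1
    exact h1
  have e2 : ∀ i, v.ord (C.x i) = 0 := by
    intro i
    have h1 := hR i q hq.1 (hRq i) v hv
    have h2 : C.mon (0, Pi.single i 1) = C.x i := by
      rw [RA.mon]
      simp only [Pi.zero_apply, zpow_zero, Finset.prod_const_one, one_mul]
      rw [Finset.prod_eq_single i]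
      · rw [Pi.single_eq_same, zpow_one]
      · intro j _ hj
        rw [Pi.single_eq_of_ne hj, zpow_zero]
      · intro h
        exact absurd (Finset.mem_univ i) h
    rw [h2] at h1
    exact h1
  ext M
  constructor
  · intro h
    exact S_sub X q h
  · intro h
    refine ⟨h.1, h.2, fun h' => ?_⟩
    have h3 := (hv.2 ⟨C.mon M, h.2⟩).1 h' (mon_ne hc M)
    have h4 := ord_mon_zero (C := C) v hell hx e1 e2 M
    have h5 : 0 < v.ord (C.mon M) := h3
    omega

omit [IsAlgClosed k] [CharZero k] in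
/-- an element which is locally in `A` is in `A` -/
theorem mem_of_local (A : Subalgebra k K) (f : K)
    (h : ∀ p : Ideal A, p.IsPrime → ∃ s : A, s ∉ p ∧ (s : K) * f ∈ A) : f ∈ A := by
  let I : Ideal A :=
    { carrier := {s | (s : K) * f ∈ A}
      add_mem' := fun {a b} ha hb => by
        show ((a + b : A) : K) * f ∈ A
        rw [Subalgebra.coe_add, add_mul]
        exact A.add_mem ha hb
      zero_mem' := by
        show ((0 : A) : K) * f ∈ A
        rw [Subalgebra.coe_zero, zero_mul]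
        exact A.zero_mem
      smul_mem' := fun a b hb => by
        show ((a * b : A) : K) * f ∈ A
        rw [Subalgebra.coe_mul, mul_assoc]
        exact A.mul_mem a.2 hb }
  by_cases hI : I = ⊤
  · have h1 : (1 : A) ∈ I := by rw [hI]; exact Submodule.mem_top
    have h2 : ((1 : A) : K) * f ∈ A := h1
    rw [Subalgebra.coe_one, one_mul] at h2
    exact h2
  · obtain ⟨p, hp, hIp⟩ := Ideal.exists_le_maximal I hI
    obtain ⟨s, hs, h1⟩ := h p hp.isPrime
    exact absurd (hIp h1) hs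

theorem le_of_mono (hc : c < r) (X : AV C) (V : Vec r m) (v v' : DVal k K) (h : MonVal C V v)
    (h' : MonVal C V v') (a : X.A) (ha : (a : K) ≠ 0) : v.ord (a : K) ≤ v'.ord (a : K) := by
  have h1 := mono_le C hc V v' v h 1 le_rfl (fun M hM => by
    rw [h'.ord M hM, Nat.cast_one, one_mul]) (a : K) ha
    (Submodule.span_mono (Set.image_mono fun M hM => hM.1) (mem_span hc X a))
  rwa [Nat.cast_one, one_mul] at h1

theorem inj (hc : c < r) (X : AV C) (V : Vec r m) (v v' : DVal k K) (h : MonVal C V v)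
    (h' : MonVal C V v') (q q' : Ideal X.A) (hv : v.HasCenter X.A q)
    (hv' : v'.HasCenter X.A q') : q = q' := by
  ext a
  rw [hv.2, hv'.2]
  constructor
  · intro hs h0
    exact lt_of_lt_of_le (hs h0) (le_of_mono hc X V v v' h h' a h0)
  · intro hs h0
    exact lt_of_lt_of_le (hs h0) (le_of_mono hc X V v' v h' h a h0)

omit [IsAlgClosed k] in
/-- there are valuations -/
theorem exists_val (h1 : 1 ≤ c) (hc : c < r) (C : RA k K c m r) : Nonempty (DVal k K) := by
  let Q : Fin r := ⟨1, by omega⟩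
  let Q' : Fin r := ⟨0, by omega⟩
  have hQ : Q' ≠ Q := by
    intro h
    have := congrArg Fin.val h
    exact absurd this (by norm_num [Q, Q'])
  have hs : supp (ee Q : Vec r m) = {Q} := by
    ext P
    rw [mem_supp, Finset.mem_singleton]
    constructor
    · intro h
      by_contra hP
      exact h (by rw [ee]; exact Pi.single_eq_of_ne hP 1)
    · rintro rfl
      rw [ee]
      simp
  obtain ⟨v, _⟩ := mono C hc (ee Q)
    ⟨fun P => by
      rw [ee]
      by_cases h : P = Q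
      · subst h
        simp
      · simp [Pi.single_eq_of_ne h], by rw [hs, Finset.card_singleton]; exact h1⟩
    ⟨ee Q - ee Q', by rw [deg_sub, deg_ee, deg_ee, sub_self], by
      rw [pair_sub, pair_ee, pair_ee, ee]
      simp [Pi.single_eq_of_ne hQ]⟩
  exact ⟨v⟩

theorem card_le (hc : c < r) (X : AV C) (q : Ideal X.A) (hq : IsHeightOne q) (V : Vec r m)
    (v : DVal k K) (hv : v.HasCenter X.A q) (h : MonVal C V v) : (supp V).card ≤ 1 := by
  rw [Finset.card_le_one]
  intro Q₁ h₁ Q₂ h₂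
  by_contra hne
  obtain ⟨Q₃, h₃⟩ := exists_zero h.trop hc
  have key : ∀ Q ∈ supp V, v.ord (C.ell Q₃) < v.ord (C.ell Q) := by
    intro Q hQ
    have e1 := h.ord (ee Q - ee Q₃) (by rw [deg_sub, deg_ee, deg_ee, sub_self])
    have n1 := mon_ne (C := C) hc (ee Q - ee Q₃)
    have n2 := mon_ne (C := C) hc (ee Q₃)
    have e2 : C.mon (ee Q) = C.mon (ee Q - ee Q₃) * C.mon (ee Q₃) := by
      rw [← mon_add hc, sub_add_cancel]
    have e3 := congrArg v.ord e2
    rw [v.ord_mul _ _ n1 n2, e1, mon_ee, mon_ee, pair_sub, pair_ee, pair_ee, h₃] at e3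
    have := h.trop.pos hQ
    omega
  exact X.con q hq v hv Q₁ Q₂ Q₃ hne (key Q₁ h₁) (key Q₂ h₂)

end Edt

theorem edata (h1 : 1 ≤ c) (hc : c < r) (X : AV C) : Nonempty (EData X) := by
  obtain ⟨v₀⟩ := Edt.exists_val h1 hc C
  have hfin := Edt.finite hc X
  have hdv : ∀ q : Ideal X.A, ∃ v : DVal k K, IsHeightOne q → v.HasCenter X.A q ∧
      ∀ f : K, f ≠ 0 → (0 ≤ v.ord f ↔ ∃ s : X.A, s ∉ q ∧ (s : K) * f ∈ X.A) := by
    intro q
    by_cases hq : IsHeightOne q
    · obtain ⟨v, hv⟩ := dvr X.A (noeth X) X.frac X.normal q hq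
      exact ⟨v, fun _ => hv⟩
    · exact ⟨v₀, fun h => absurd h hq⟩
  choose v hv using hdv
  have hVq : ∀ q : Ideal X.A, ∃ V : Vec r m, IsHeightOne q → X.S q ≠ X.MX → MonVal C V (v q) := by
    intro q
    by_cases hq : IsHeightOne q ∧ X.S q ≠ X.MX
    · obtain ⟨V, hV⟩ := mon_val hc X q hq.1 hq.2 (v q) (hv q hq.1).1
      exact ⟨V, fun _ _ => hV⟩
    · exact ⟨0, fun h h' => absurd ⟨h, h'⟩ hq⟩
  choose V hV using hVq
  have hqq : ∀ W : Vec r m, ∃ q : Ideal X.A, W ∈ hfin.toFinset.image V →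
      (IsHeightOne q ∧ X.S q ≠ X.MX) ∧ V q = W := by
    intro W
    by_cases hW : W ∈ hfin.toFinset.image V
    · obtain ⟨q, hq, h⟩ := Finset.mem_image.1 hW
      exact ⟨q, fun _ => ⟨hfin.mem_toFinset.1 hq, h⟩⟩
    · exact ⟨⊥, fun h => absurd h hW⟩
  choose qq hqq using hqq
  have hmv : ∀ W ∈ hfin.toFinset.image V, MonVal C W (v (qq W)) := by
    intro W hW
    have h2 := hqq W hW
    have h3 := hV (qq W) h2.1.1 h2.1.2
    rw [h2.2] at h3
    exact h3
  refine ⟨{
    E := hfin.toFinset.image V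
    vv := fun W => v (qq W)
    qq := qq
    ht := fun W hW => (hqq W hW).1.1
    mv := hmv
    cen := fun W hW => (hv (qq W) (hqq W hW).1.1).1
    card := fun W hW => Edt.card_le hc X (qq W) (hqq W hW).1.1 W (v (qq W))
      (hv (qq W) (hqq W hW).1.1).1 (hmv W hW)
    all := ?_
    mem := ?_ }⟩
  · intro q hq hS
    have hW : V q ∈ hfin.toFinset.image V :=
      Finset.mem_image_of_mem V (hfin.mem_toFinset.2 ⟨hq, hS⟩)
    refine ⟨V q, hW, ?_⟩
    exact Edt.inj hc X (V q) (v (qq (V q))) (v q) (hmv _ hW) (hV q hq hS) _ _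
      (hv _ (hqq _ hW).1.1).1 (hv q hq).1
  · ext M
    constructor
    · intro hM
      refine ⟨hM.1, fun W hW => ?_⟩
      have h2 := (hmv W hW).ord M hM.1
      have h3 := (hv (qq W) (hqq W hW).1.1).1.1 ⟨C.mon M, hM.2⟩ (mon_ne hc M)
      rw [← h2]
      exact h3
    · intro hM
      refine ⟨hM.1, ?_⟩
      refine Edt.mem_of_local X.A _ fun p hp => ?_
      refine hartogs X.A (noeth X) X.frac X.normal p hp _ (mon_ne hc M) fun q hq _ => ?_
      rw [← (hv q hq).2 _ (mon_ne hc M)]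
      by_cases hS : X.S q = X.MX
      · rw [(nonmon hc X q hq hS (v q) (hv q hq).1).2 M hM.1]
      · rw [(hV q hq hS).ord M hM.1]
        exact hM.2 _ (Finset.mem_image_of_mem V (hfin.mem_toFinset.2 ⟨hq, hS⟩))

end EDT

end

end Pool.Agent.MLD.R
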