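import Pool.Agent.Lib.MP_f23696_ag.R.Kyr

/-!
Project LSC-ARR (MP_f23696_ag), module FNR: the final statement.
-/

namespace Pool.Agent.MLD.R

open scoped Classical
noncomputable section

universe u v w

theorem final {k : Type u} [Field k] [IsAlgClosed k] [CharZero k] {K : Type v} [Field K]
    [Algebra k K] {c m r : ℕ} (z : Fin (c + 1) → K) (x : Fin m → K)
    (hind : AlgebraicIndependent k (Fin.append x z))
    (hgen : IntermediateField.adjoin k (Set.range x ∪ Set.range z) = ⊤)
    (D : Fin (m + (c + 1)) → Derivation k K K)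
    (hD : ∀ i j, D i (Fin.append x z j) = if i = j then 1 else 0)
    (L : Fin r → Fin (c + 2) → k) (hr : c + 2 ≤ r)
    (hL : ∀ i : Fin (c + 2), L (Fin.castLE hr i) = Pi.single i 1)
    (hgp : ∀ f : Fin (c + 2) → Fin r, Function.Injective f →
      (Matrix.of fun i j => L (f i) j).det ≠ 0)
    (A : Subalgebra k K) (G : Finset K) (hG : ∀ g ∈ G, IsArrMon L z x g)
    (hA : Algebra.adjoin k (G : Set K) = A)
    (hfull : ∀ f : K, IsArrMon L z x f → ∃ a b : A, IsArrMon L z x (a : K) ∧
      IsArrMon L z x (b : K) ∧ f = (a : K) / b)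
    [IsFractionRing A K] [IsIntegrallyClosed A]
    (hcon : ∀ q : Ideal A, IsHeightOne q → ∀ v : DVal k K, v.HasCenter A q →
      ∀ Q₁ Q₂ Q₃, Q₁ ≠ Q₂ → v.ord (linForm z (L Q₃)) < v.ord (linForm z (L Q₁)) →
        ¬ v.ord (linForm z (L Q₃)) < v.ord (linForm z (L Q₂)))
    (δ : Ideal A →₀ ℝ) (hδ0 : ∀ q, 0 ≤ δ q)
    (hδ : ∀ q, δ q ≠ 0 → IsHeightOne q ∧ IsMonIdeal L z x q)
    (hRC : ∀ x : MaximalSpectrum A, ∃ γ : Kˣ →₀ ℝ, IsLocalEq A D δ x.asIdeal γ) :
    LowerSemicontinuous (mld A D δ) := by
  have hc : c + 1 < r := hr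
  let C : RA k K (c + 1) m r :=
    { z := z
      x := x
      ind := hind
      gen := by
        rw [← hgen]
        congr 1
        ext a
        constructor
        · rintro ⟨i, rfl⟩
          refine Fin.addCases (fun i => ?_) (fun i => ?_) i
          · exact Or.inl ⟨i, by rw [Fin.append_left]⟩
          · exact Or.inr ⟨i, by rw [Fin.append_right]⟩
        · rintro (⟨i, rfl⟩ | ⟨i, rfl⟩)
          · exact ⟨Fin.castAdd _ i, by rw [Fin.append_left]⟩
          · exact ⟨Fin.natAdd _ i, by rw [Fin.append_right]⟩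
      D := D
      dual := hD
      L := L
      o := Fin.castLE hr
      hL := hL
      gp := hgp }
  have hell : ∀ Q, C.ell Q = linForm z (L Q) := fun Q => rfl
  have hmonC : ∀ M : Vec r m, C.mon M = (∏ Q, linForm z (L Q) ^ M.1 Q) * ∏ i, x i ^ M.2 i :=
    fun M => rfl
  have hmonA : ∀ M : Vec r m, IsArrMon L z x (C.mon M) := fun M => ⟨M.1, M.2, rfl⟩
  -- normalisation of the degree
  have hnorm : ∀ f : K, IsArrMon L z x f → ∃ M : Vec r m, deg M = 0 ∧ f = C.mon M := by
    rintro f ⟨a, u, rfl⟩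
    refine ⟨(a, u) - deg ((a, u) : Vec r m) • ee (C.o 0), ?_, ?_⟩
    · rw [deg_sub, deg_zsmul, deg_ee]
      ring
    · have h1 := mon_add (C := C) hc ((a, u) - deg ((a, u) : Vec r m) • ee (C.o 0))
        (deg ((a, u) : Vec r m) • ee (C.o 0))
      rw [sub_add_cancel] at h1
      have h2 : C.mon (deg ((a, u) : Vec r m) • ee (C.o 0)) = 1 := by
        have h3 : ∀ n : ℤ, C.mon (n • ee (C.o 0)) = 1 := by
          intro n
          unfold RA.mon
          have h4 : ∏ i, C.x i ^ (n • ee (C.o 0) : Vec r m).2 i = 1 := by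
            refine Finset.prod_eq_one fun i _ => ?_
            simp [ee]
          rw [h4, mul_one]
          refine Finset.prod_eq_one fun Q _ => ?_
          by_cases hQ : Q = C.o 0
          · rw [hQ, ell_o, one_zpow]
          · simp [ee, Pi.single_eq_of_ne hQ]
        exact h3 _
      rw [h2, mul_one] at h1
      exact h1
  choose! N hN0 hN using hnorm
  have hfrac : ∀ f : K, ∃ a b : A, (b : K) ≠ 0 ∧ f = (a : K) / b := by
    intro f
    obtain ⟨a, b, hb, hf⟩ := IsFractionRing.div_surjective (A := A) f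
    refine ⟨a, b, ?_, hf.symm⟩
    have := nonZeroDivisors.ne_zero hb
    exact fun h => this (Subtype.ext h)
  let X : AV C :=
    { A := A
      gens := G.image N
      gens0 := by
        intro M hM
        obtain ⟨g, hg, rfl⟩ := Finset.mem_image.1 hM
        exact hN0 g (hG g hg)
      adj := by
        rw [← hA]
        congr 1
        ext g
        constructor
        · rintro ⟨M, hM, rfl⟩
          obtain ⟨g, hg, rfl⟩ := Finset.mem_image.1 (Finset.mem_coe.1 hM)
          rw [← hN g (hG g hg)]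
          exact hg
        · intro hg
          exact ⟨N g, Finset.mem_coe.2 (Finset.mem_image_of_mem N hg), (hN g (hG g hg)).symm⟩
      full := by
        intro M hM
        obtain ⟨a, b, ha, hb, hab⟩ := hfull _ (hmonA M)
        refine ⟨N b, hN0 _ hb, ?_, ?_⟩
        · rw [← hN _ hb]
          exact b.2
        · rw [mon_add hc, ← hN _ hb, hab]
          have hb0 : (b : K) ≠ 0 := by
            rw [hN _ hb]
            exact mon_ne hc _
          rw [mul_div_cancel₀ _ hb0]
          exact a.2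
      frac := hfrac
      normal := by
        intro f hf
        obtain ⟨a, ha⟩ := IsIntegrallyClosed.isIntegral_iff.1 hf
        rw [← ha]
        exact a.2
      con := by
        intro q hq v hv Q₁ Q₂ Q₃ h12 h31
        exact hcon q hq v hv Q₁ Q₂ Q₃ h12 h31 }
  refine lsc_av (C := C) hc X δ hδ0 (fun q hq hS => ?_) hRC
  by_contra hne
  obtain ⟨-, hmon⟩ := hδ q hne
  have hempty : {a : A | a ∈ q ∧ IsArrMon L z x (a : K)} = ∅ := by
    rw [Set.eq_empty_iff_forall_notMem]
    rintro a ⟨haq, ha⟩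
    have h1 : N (a : K) ∈ X.MX := ⟨hN0 _ ha, by rw [← hN _ ha]; exact a.2⟩
    rw [← hS] at h1
    obtain ⟨-, h2, h3⟩ := h1
    apply h3
    have h4 : (⟨C.mon (N (a : K)), h2⟩ : A) = a := Subtype.ext (hN _ ha).symm
    rw [h4]
    exact haq
  unfold IsMonIdeal at hmon
  rw [hempty, Ideal.span_empty] at hmon
  exact hq.2.1 hmon

end

end Pool.Agent.MLD.R
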