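import Pool.Agent.Lib.MP_f23696_ag.R.Frm
import Pool.Agent.Lib.MP_f23696_ag.R.Mon

/-!
Project LSC-ARR (MP_f23696_ag), module RSD: residues at a point with a pair.
-/

namespace Pool.Agent.MLD.R

open scoped Classical
noncomputable section

universe u v w

variable {c r m : ℕ}

section RSD
variable {k : Type u} [Field k] [IsAlgClosed k] [CharZero k] {K : Type v} [Field K] [Algebra k K]
  {C : RA k K c m r}

namespace Rsd

omit [IsAlgClosed k] [CharZero k] in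
theorem lin_eq (l : Fin (c + 1) → k) (h0 : C.ell (C.o 0) = 1)
    (h1 : ∀ i : Fin c, C.ell (C.o i.succ) = C.z i) :
    C.lin l = ∑ i, algebraMap k K (l i) * C.ell (C.o i) := by
  rw [Fin.sum_univ_succ, h0, mul_one]
  unfold RA.lin linForm
  congr 1
  refine Finset.sum_congr rfl fun i _ => ?_
  rw [h1 i]

theorem shift (hc : c < r) (M : Vec r m) (Q Q' : Fin r) :
    C.mon (M + ee Q - ee Q') = C.ell Q / C.ell Q' * C.mon M := by
  rw [sub_eq_add_neg, mon_add hc, mon_add hc, mon_neg hc, mon_ee, mon_ee]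
  ring

/-- the exchange at a point with a pair -/
theorem exists_ex (X : AV C) (W : EData X) (x : MaximalSpectrum X.A)
    (hp : HasPair (X.S x.asIdeal)) :
    ∃ (Q₀ : Fin r) (M : Vec r m), M ∈ X.S x.asIdeal ∧ ∀ Q, M + ee Q - ee Q₀ ∈ X.MX := by
  obtain ⟨M, hM, M', hM', h2, h1⟩ := hp
  have hMX := S_sub X _ hM
  have hMX' := S_sub X _ hM'
  have hdeg : ∑ Q, M.1 Q = ∑ Q, M'.1 Q := hMX.1.trans hMX'.1.symm
  have hex : ∃ Q, M'.1 Q < M.1 Q := by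
    by_contra hcon
    push Not at hcon
    refine h1 (funext fun Q => ?_)
    exact ((Finset.sum_eq_sum_iff_of_le fun Q _ => hcon Q).1 hdeg) Q (Finset.mem_univ Q)
  obtain ⟨Q₀, hQ₀⟩ := hex
  refine ⟨Q₀, M, hM, fun Q => ?_⟩
  rw [W.mem] at hMX hMX' ⊢
  exact exch (fun V hV => ⟨(W.mv V hV).trop.nonneg, W.card V hV⟩) hMX hMX' h2 hQ₀ Q

end Rsd

theorem residues (hc : c < r) (X : AV C) (W : EData X) (x : MaximalSpectrum X.A)
    (ε : X.A →ₐ[k] k) (hε : ∀ a, a ∈ x.asIdeal ↔ ε a = 0) (hp : HasPair (X.S x.asIdeal)) :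
    ∃ (Q₀ : Fin r) (M : Vec r m) (hM : C.mon M ∈ X.A) (ζ : (Fin (c + 1) → k) →ₗ[k] k),
      deg M = 0 ∧ ε ⟨C.mon M, hM⟩ ≠ 0 ∧ ζ (C.L Q₀) = 1 ∧
      (∀ Q, M + ee Q - ee Q₀ ∈ X.MX) ∧
      ∀ l, ∃ h : C.lin l / C.ell Q₀ * C.mon M ∈ X.A,
        ε ⟨_, h⟩ = ζ l * ε ⟨C.mon M, hM⟩ := by
  obtain ⟨Q₀, M, ⟨hdeg, hMA, hMx⟩, hex⟩ := Rsd.exists_ex X W x hp
  have hne : ε ⟨C.mon M, hMA⟩ ≠ 0 := fun h => hMx ((hε _).2 h)
  let E : Fin (c + 1) → X.A := fun i => ⟨C.mon (M + ee (C.o i) - ee Q₀), (hex (C.o i)).2⟩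
  let ζ : (Fin (c + 1) → k) →ₗ[k] k :=
    { toFun := fun l => ∑ i, l i * (ε (E i) / ε ⟨C.mon M, hMA⟩)
      map_add' := fun l l' => by
        simp only [Pi.add_apply, add_mul, Finset.sum_add_distrib]
      map_smul' := fun a l => by
        simp only [Pi.smul_apply, smul_eq_mul, RingHom.id_apply, Finset.mul_sum, mul_assoc] }
  have hlin : ∀ l, C.lin l / C.ell Q₀ * C.mon M = ((∑ i, l i • E i : X.A) : K) := by
    intro l
    rw [Rsd.lin_eq l ell_o ell_o_succ, Finset.sum_div, Finset.sum_mul]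
    rw [AddSubmonoidClass.coe_finsetSum]
    refine Finset.sum_congr rfl fun i _ => ?_
    show _ = l i • C.mon (M + ee (C.o i) - ee Q₀)
    rw [Rsd.shift hc, Algebra.smul_def]
    ring
  have hA : ∀ l, C.lin l / C.ell Q₀ * C.mon M ∈ X.A := fun l => by
    rw [hlin l]
    exact (∑ i, l i • E i : X.A).2
  have hval : ∀ l, ε ⟨_, hA l⟩ = ζ l * ε ⟨C.mon M, hMA⟩ := by
    intro l
    have h1 : (⟨_, hA l⟩ : X.A) = ∑ i, l i • E i := Subtype.ext (hlin l)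
    rw [h1, map_sum]
    show _ = (∑ i, l i * (ε (E i) / ε ⟨C.mon M, hMA⟩)) * _
    rw [Finset.sum_mul]
    refine Finset.sum_congr rfl fun i _ => ?_
    rw [map_smul, smul_eq_mul, mul_assoc, div_mul_cancel₀ _ hne]
  refine ⟨Q₀, M, hMA, ζ, hdeg, hne, ?_, hex, fun l => ⟨hA l, hval l⟩⟩
  have h1 := hval (C.L Q₀)
  have h2 : C.lin (C.L Q₀) / C.ell Q₀ * C.mon M = C.mon M := by
    rw [show C.lin (C.L Q₀) = C.ell Q₀ from rfl, div_self (ell_ne C hc Q₀), one_mul]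
  have h3 : (⟨_, hA (C.L Q₀)⟩ : X.A) = ⟨C.mon M, hMA⟩ := Subtype.ext h2
  rw [h3] at h1
  exact mul_right_cancel₀ hne (by rw [one_mul]; exact h1.symm)

end RSD

end

end Pool.Agent.MLD.R
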