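import Pool.Agent.Lib.MP_f23696_ag.R.Gef
import Pool.Agent.Lib.MP_f23696_ag.R.Rsd

/-!
Project LSC-ARR (MP_f23696_ag), module GEP: the log discrepancy of a valuation with centre a closed
point is at least that of its tropical valuation plus the dimension of the centre of the latter.
-/

namespace Pool.Agent.MLD.R

open scoped Classical
noncomputable section

universe u v w

variable {c r m : ℕ}

namespace Gep

section
variable {k : Type u} [Field k] {K : Type v} [Field K] [Algebra k K]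

theorem ord_one (v : DVal k K) : v.ord 1 = 0 := by
  have h := v.ord_mul 1 1 one_ne_zero one_ne_zero
  rw [mul_one] at h
  omega

theorem ord_inv (v : DVal k K) {a : K} (ha : a ≠ 0) : v.ord a⁻¹ = -v.ord a := by
  have h := v.ord_mul a a⁻¹ ha (inv_ne_zero ha)
  rw [mul_inv_cancel₀ ha, ord_one] at h
  omega

theorem ord_div (v : DVal k K) {a b : K} (ha : a ≠ 0) (hb : b ≠ 0) :
    v.ord (a / b) = v.ord a - v.ord b := by
  rw [div_eq_mul_inv, v.ord_mul _ _ ha (inv_ne_zero hb), ord_inv v hb]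
  ring

end

section
variable {k : Type u} [Field k] [IsAlgClosed k] [CharZero k] {K : Type v} [Field K] [Algebra k K]
  {C : RA k K c m r}

omit [IsAlgClosed k] [CharZero k] in
/-- the monomials not vanishing at the point are nonzero constants up to small elements -/
theorem small_sub (X : AV C) (x : MaximalSpectrum X.A) (ε : X.A →ₐ[k] k)
    (hε : ∀ a, a ∈ x.asIdeal ↔ ε a = 0) (v : DVal k K) (hv : v.HasCenter X.A x.asIdeal)
    (M : Vec r m) (hM : M ∈ X.S x.asIdeal) :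
    ∃ κ : k, κ ≠ 0 ∧ v.Small (C.mon M - algebraMap k K κ) := by
  obtain ⟨_, h, hn⟩ := hM
  refine ⟨ε ⟨C.mon M, h⟩, fun h0 => hn ((hε _).2 h0), ?_⟩
  have h1 : (⟨C.mon M, h⟩ - algebraMap k X.A (ε ⟨C.mon M, h⟩) : X.A) ∈ x.asIdeal := by
    rw [hε, map_sub, AlgHom.commutes]
    simp
  exact (hv.2 _).1 h1

omit [IsAlgClosed k] in
/-- the value of a quotient of forms -/
theorem ord_ell_div (hc : c < r) (v : DVal k K) (V : Vec r m) (hVv : HasTrop C V v)
    (Q Q₀ : Fin r) : v.ord (C.lin (C.L Q) / C.lin (C.L Q₀)) = V.1 Q - V.1 Q₀ := by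
  have h1 : C.lin (C.L Q) ≠ 0 := ell_ne C hc Q
  have h2 : C.lin (C.L Q₀) ≠ 0 := ell_ne C hc Q₀
  rw [ord_div v h1 h2]
  have h3 : v.ord (C.lin (C.L Q)) = V.1 Q - V.1 (C.o 0) := ord_ell C hc v V hVv Q
  have h4 : v.ord (C.lin (C.L Q₀)) = V.1 Q₀ - V.1 (C.o 0) := ord_ell C hc v V hVv Q₀
  rw [h3, h4]
  ring

/-- `mon (M + e_Q - e_Q₀) = ℓ_Q / ℓ_Q₀ · mon M` -/
theorem mon_shift (hc : c < r) (M : Vec r m) (Q Q₀ : Fin r) :
    C.mon (M + ee Q - ee Q₀) = C.lin (C.L Q) / C.ell Q₀ * C.mon M := by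
  have h1 : C.mon (M + ee Q - ee Q₀) = C.mon M * C.mon (ee Q) * (C.mon (ee Q₀))⁻¹ := by
    rw [sub_eq_add_neg, mon_add hc, mon_add hc, mon_neg hc]
  rw [h1, mon_ee, mon_ee]
  have h2 : C.ell Q = C.lin (C.L Q) := rfl
  rw [h2, div_eq_mul_inv]
  ring

theorem no_pair (hc : c < r) (X : AV C) (x : MaximalSpectrum X.A) (v : DVal k K)
    (hv : v.HasCenter X.A x.asIdeal) (j : ℤ) (hj : v.FormOrd C.D j) (V : Vec r m)
    (hV : Trop c V) (hVv : HasTrop C V v) :
    disc c (C.o 0) V + rk (X.S x.asIdeal) ≤ j + 1 := by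
  obtain ⟨ε, hε⟩ := eval X x
  obtain ⟨f, hf, h0, hI⟩ := frame0 (r := r) (supp V) hV.card hc
  have h1 := ge_frame C hc v j hj (fun i => C.L (f i)) (C.gp f hf) (X.S x.asIdeal)
    (small_sub X x ε hε v hv)
  have hf0 : V.1 (f 0) = 0 := by
    by_contra h
    exact h0 ((mem_supp V _).2 h)
  have h2 : ∀ i : Fin c, v.ord (C.lin (C.L (f i.succ)) / C.lin (C.L (f 0))) = V.1 (f i.succ) := by
    intro i
    rw [ord_ell_div hc v V hVv, hf0, sub_zero]
  have h3 : ∑ j, V.1 (f j) = ∑ Q, V.1 Q := by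
    refine Finset.sum_of_injOn f hf.injOn (fun _ _ => Finset.mem_coe.2 (Finset.mem_univ _)) ?_
      fun _ _ => rfl
    intro Q _ hQ
    by_contra h
    obtain ⟨i, hi⟩ := hI Q ((mem_supp V Q).2 h)
    exact hQ ⟨i, by simp, hi⟩
  rw [Fin.sum_univ_succ, hf0, zero_add] at h3
  have h4 : v.ord (C.lin (C.L (f 0))) = - V.1 (C.o 0) := by
    have := ord_ell C hc v V hVv (f 0)
    rw [hf0, zero_sub] at this
    exact this
  have h5 : ∑ i, v.ord (C.x i) = ∑ i, V.2 i := Finset.sum_congr rfl fun i _ => ord_x C hc v V hVv i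
  simp only [h2] at h1
  rw [h3, h4, h5] at h1
  unfold disc
  linarith

theorem with_pair (h1c : 1 ≤ c) (hc : c < r) (X : AV C) (W : EData X) (x : MaximalSpectrum X.A)
    (v : DVal k K) (hv : v.HasCenter X.A x.asIdeal) (j : ℤ) (hj : v.FormOrd C.D j) (V : Vec r m)
    (hV : Trop c V) (hVv : HasTrop C V v) (hp : HasPair (X.S x.asIdeal)) :
    disc c (C.o 0) V + rk (X.S x.asIdeal) + ((c : ℤ) - (supp V).card) ≤ j + 1 := by
  obtain ⟨ε, hε⟩ := eval X x
  obtain ⟨Q₀, M, hM, ζ, hdeg, hne, hζ, hMX, hres⟩ := residues hc X W x ε hε hp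
  have hMS : M ∈ X.S x.asIdeal := ⟨hdeg, hM, fun h => hne ((hε _).1 h)⟩
  have hMM : M ∈ X.MX := S_sub X _ hMS
  have hpM : pair V M = 0 := (S_iff hc X _ v hv V hVv M hMM).2.1 hMS
  -- the height at `Q₀` is zero
  have hQ0 : V.1 Q₀ = 0 := by
    obtain ⟨Q', hQ'⟩ := exists_zero hV hc
    have h1 := (S_iff hc X _ v hv V hVv _ (hMX Q')).1
    rw [pair_sub, pair_add, pair_ee, pair_ee, hpM, hQ'] at h1
    have := hV.nonneg Q₀
    omega
  have hζ0 : ∀ Q ∈ supp V, ζ (C.L Q) = 0 := by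
    intro Q hQ
    have h1 := hV.pos hQ
    have h2 := S_iff hc X _ v hv V hVv _ (hMX Q)
    have h3 : M + ee Q - ee Q₀ ∉ X.S x.asIdeal := by
      intro h
      have h4 := h2.2.1 h
      rw [pair_sub, pair_add, pair_ee, pair_ee, hpM, hQ0] at h4
      omega
    obtain ⟨h, hh⟩ := hres (C.L Q)
    have h5 : (⟨_, h⟩ : X.A) ∈ x.asIdeal := by
      by_contra h6
      refine h3 ⟨(hMX Q).1, ?_, ?_⟩
      · rw [mon_shift hc]; exact h
      · have h7 : (⟨C.mon (M + ee Q - ee Q₀), by rw [mon_shift hc]; exact h⟩ : X.A) =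
            ⟨_, h⟩ := Subtype.ext (mon_shift hc M Q Q₀)
        rw [h7]
        exact h6
    rw [hε, hh] at h5
    exact (mul_eq_zero.1 h5).resolve_right hne
  obtain ⟨g, s, hg, hg0, hgζ, hs, hgs⟩ := framex C h1c hc Q₀ ζ hζ (supp V) hV.card hζ0
  have hmain := ge_frame C hc v j hj g hg (X.S x.asIdeal) (small_sub X x ε hε v hv)
  have hgne : ∀ i, g i ≠ 0 := by
    intro i h
    refine hg (Matrix.det_eq_zero_of_row_eq_zero i fun l => ?_)
    simp [h]
  have hmonM : v.ord (C.mon M) = 0 := by rw [hVv M hdeg, hpM]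
  have hge : ∀ i : Fin c, 1 ≤ v.ord (C.lin (g i.succ) / C.lin (g 0)) := by
    intro i
    obtain ⟨h, hh⟩ := hres (g i.succ)
    rw [hgζ i, zero_mul, ← hε] at hh
    have h1 := (hv.2 _).1 hh
    have hn1 : C.lin (g i.succ) ≠ 0 := lin_ne C _ (hgne _)
    have hn2 : C.ell Q₀ ≠ 0 := ell_ne C hc Q₀
    have hn3 : C.mon M ≠ 0 := mon_ne hc M
    have h2 := h1 (mul_ne_zero (div_ne_zero hn1 hn2) hn3)
    rw [v.ord_mul _ _ (div_ne_zero hn1 hn2) hn3, hmonM, add_zero] at h2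
    rw [hg0]
    exact h2
  have heq : ∀ Q ∈ supp V, v.ord (C.lin (g (s Q).succ) / C.lin (g 0)) = V.1 Q := by
    intro Q hQ
    rw [hgs Q hQ, hg0, ord_ell_div hc v V hVv, hQ0, sub_zero]
  have hsum : ∑ Q, V.1 Q + ((c : ℤ) - (supp V).card) ≤
      ∑ i : Fin c, v.ord (C.lin (g i.succ) / C.lin (g 0)) := by
    have h1 : ∑ Q, V.1 Q = ∑ Q ∈ supp V, V.1 Q := by
      unfold supp
      rw [Finset.sum_filter_ne_zero]
    have h2 : ∑ i ∈ (supp V).image s, (v.ord (C.lin (g i.succ) / C.lin (g 0)) - 1) ≤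
        ∑ i : Fin c, (v.ord (C.lin (g i.succ) / C.lin (g 0)) - 1) :=
      Finset.sum_le_sum_of_subset_of_nonneg (Finset.subset_univ _)
        fun i _ _ => by have := hge i; omega
    rw [Finset.sum_image fun Q hQ Q' hQ' h => hs Q hQ Q' hQ' h] at h2
    have h3 : ∑ Q ∈ supp V, (v.ord (C.lin (g (s Q).succ) / C.lin (g 0)) - 1) =
        ∑ Q ∈ supp V, (V.1 Q - 1) := Finset.sum_congr rfl fun Q hQ => by rw [heq Q hQ]
    rw [h3, Finset.sum_sub_distrib, Finset.sum_sub_distrib] at h2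
    simp only [Finset.sum_const, Finset.card_univ, Fintype.card_fin, nsmul_eq_mul, mul_one] at h2
    rw [h1]
    linarith
  have h4 : v.ord (C.lin (g 0)) = - V.1 (C.o 0) := by
    have := ord_ell C hc v V hVv Q₀
    rw [hQ0, zero_sub] at this
    rw [hg0]
    exact this
  have h5 : ∑ i, v.ord (C.x i) = ∑ i, V.2 i := Finset.sum_congr rfl fun i _ => ord_x C hc v V hVv i
  rw [h4, h5] at hmain
  unfold disc
  linarith

end

end Gep

section GEP
variable {k : Type u} [Field k] [IsAlgClosed k] [CharZero k] {K : Type v} [Field K] [Algebra k K]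
  {C : RA k K c m r}

theorem ge_point (h1 : 1 ≤ c) (hc : c < r) (X : AV C) (W : EData X) (x : MaximalSpectrum X.A)
    (v : DVal k K) (hv : v.HasCenter X.A x.asIdeal) (j : ℤ) (hj : v.FormOrd C.D j) (V : Vec r m)
    (hV : Trop c V) (hVv : HasTrop C V v) :
    disc c (C.o 0) V + rk (X.S x.asIdeal) + kap c (X.S x.asIdeal) V ≤ j + 1 := by
  by_cases hp : HasPair (X.S x.asIdeal)
  · have h2 := Gep.with_pair h1 hc X W x v hv j hj V hV hVv hp
    unfold kap
    rw [if_pos hp, Nat.cast_sub hV.card]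
    exact h2
  · have h2 := Gep.no_pair hc X x v hv j hj V hV hVv
    unfold kap
    rw [if_neg hp]
    simpa using h2

end GEP

end

end Pool.Agent.MLD.R
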