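import Pool.Agent.Lib.MP_f23696_ag.R.Ctx

/-!
A numerical lemma (MP_f23696_ag, project LSC-ARR, module Jst).
-/

set_option autoImplicit false

open scoped Classical

namespace Pool.Agent.MLD.R

noncomputable section

namespace Jst

variable {r : ℕ} (h μ : Fin r → ℤ)

/-- the rounded up multiplicities for `j = i + 1` -/
def sq : ℕ → Fin r → ℤ
  | 0 => fun Q => if h Q = 0 then 1 else 0
  | i + 1 => fun Q => if h Q + sq i Q * μ Q = (i : ℤ) + 1 then sq i Q + 1 else sq i Q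

theorem sq_succ (i : ℕ) (Q : Fin r) : sq h μ (i + 1) Q =
    sq h μ i Q + if h Q + sq h μ i Q * μ Q = (i : ℤ) + 1 then 1 else 0 := by
  show (if h Q + sq h μ i Q * μ Q = (i : ℤ) + 1 then sq h μ i Q + 1 else sq h μ i Q) = _
  split_ifs
  · rfl
  · rw [add_zero]

theorem sq_zero (Q : Fin r) : sq h μ 0 Q = if h Q = 0 then 1 else 0 := rfl

variable {h μ}

theorem sq_nonneg (i : ℕ) (Q : Fin r) : 0 ≤ sq h μ i Q := by
  induction i with
  | zero =>
    rw [sq_zero]
    split_ifs <;> norm_num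
  | succ i ih =>
    rw [sq_succ]
    split_ifs <;> omega

theorem sq_one (i : ℕ) (Q : Fin r) (hQ : h Q = 0) : 1 ≤ sq h μ i Q := by
  induction i with
  | zero =>
    rw [sq_zero, if_pos hQ]
  | succ i ih =>
    rw [sq_succ]
    split_ifs <;> omega

theorem sq_le (hμ : ∀ Q, 0 < μ Q) (hh : ∀ Q, 0 ≤ h Q) (i : ℕ) (Q : Fin r) :
    (i : ℤ) + 1 ≤ h Q + sq h μ i Q * μ Q := by
  induction i with
  | zero =>
    have h1 := hμ Q
    have h2 := hh Q
    rw [sq_zero]
    split_ifs with h3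
    · rw [h3, one_mul]
      push_cast
      omega
    · rw [zero_mul]
      push_cast
      omega
  | succ i ih =>
    have h1 := hμ Q
    rw [sq_succ]
    split_ifs with h3
    · rw [add_mul, one_mul, ← add_assoc, h3]
      push_cast
      omega
    · rw [add_zero]
      push_cast
      omega

end Jst

theorem jstar (r c : ℕ) (hc : c < r) (h μ : Fin r → ℤ) (hμ : ∀ Q, 0 < μ Q) (hh : ∀ Q, 0 ≤ h Q)
    (hcard : (Finset.univ.filter fun Q => h Q ≠ 0).card = c)
    (hs : (r : ℚ) - c - 1 < ∑ Q, 1 / (μ Q : ℚ)) :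
    ∃ (j : ℤ) (n : Fin r → ℤ), 1 ≤ j ∧ (∀ Q, 0 ≤ n Q) ∧ (∀ Q, h Q = 0 → 1 ≤ n Q) ∧
      (∀ Q, j ≤ h Q + n Q * μ Q) ∧
      (Finset.univ.filter fun Q => h Q + n Q * μ Q - j ≠ 0).card ≤ c ∧
      ∑ Q, n Q - j * ((r : ℤ) - c - 1) ≤ 1 := by
  by_contra hcon
  -- the induction
  have key : ∀ i : ℕ, ∑ Q, Jst.sq h μ i Q - ((i : ℤ) + 1) * ((r : ℤ) - c - 1) ≤ 1 := by
    intro i
    induction i with
    | zero =>
      have h1 : ∑ Q, Jst.sq h μ 0 Q = ((Finset.univ.filter fun Q => h Q = 0).card : ℤ) := by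
        rw [Finset.card_filter]
        push_cast
        exact Finset.sum_congr rfl fun Q _ => rfl
      have h2 := Finset.card_filter_add_card_filter_not (s := (Finset.univ : Finset (Fin r)))
        (p := fun Q => h Q = 0)
      rw [Finset.card_univ, Fintype.card_fin] at h2
      have h3 : (Finset.univ.filter fun Q => ¬ h Q = 0).card = c := hcard
      rw [h1]
      push_cast
      omega
    | succ i ih =>
      have h0 : c < (Finset.univ.filter fun Q =>
          h Q + Jst.sq h μ i Q * μ Q - ((i : ℤ) + 1) ≠ 0).card := by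
        by_contra hle
        push Not at hle
        exact hcon ⟨(i : ℤ) + 1, Jst.sq h μ i, by omega, Jst.sq_nonneg i, Jst.sq_one i,
          Jst.sq_le hμ hh i, hle, ih⟩
      have h1 : ∑ Q, Jst.sq h μ (i + 1) Q = ∑ Q, Jst.sq h μ i Q +
          ((Finset.univ.filter fun Q =>
            h Q + Jst.sq h μ i Q * μ Q - ((i : ℤ) + 1) = 0).card : ℤ) := by
        rw [Finset.card_filter]
        push_cast
        rw [← Finset.sum_add_distrib]
        refine Finset.sum_congr rfl fun Q _ => ?_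
        rw [Jst.sq_succ]
        congr 1
        by_cases h5 : h Q + Jst.sq h μ i Q * μ Q = (i : ℤ) + 1
        · rw [if_pos h5, if_pos (by omega)]
        · rw [if_neg h5, if_neg (by omega)]
      have h2 := Finset.card_filter_add_card_filter_not (s := (Finset.univ : Finset (Fin r)))
        (p := fun Q => h Q + Jst.sq h μ i Q * μ Q - ((i : ℤ) + 1) = 0)
      rw [Finset.card_univ, Fintype.card_fin] at h2
      have h3 : c < (Finset.univ.filter fun Q =>
          ¬ (h Q + Jst.sq h μ i Q * μ Q - ((i : ℤ) + 1) = 0)).card := h0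
      rw [h1]
      push_cast
      have h4 : ((i : ℤ) + 1 + 1) * ((r : ℤ) - c - 1) =
          ((i : ℤ) + 1) * ((r : ℤ) - c - 1) + ((r : ℤ) - c - 1) := by ring
      rw [h4]
      omega
  -- the growth
  set δ : ℚ := ∑ Q, 1 / (μ Q : ℚ) - ((r : ℚ) - c - 1) with hδ
  have hδ0 : 0 < δ := by
    rw [hδ]
    linarith
  obtain ⟨i, hi⟩ := exists_nat_gt ((1 + ∑ Q, (h Q : ℚ) / (μ Q : ℚ)) / δ)
  rw [div_lt_iff₀ hδ0] at hi
  have h1 := key i
  have h2 : (∑ Q, (Jst.sq h μ i Q : ℚ)) - ((i : ℚ) + 1) * ((r : ℚ) - c - 1) ≤ 1 := by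
    exact_mod_cast h1
  have h3 : ∀ Q, ((i : ℚ) + 1) * (1 / (μ Q : ℚ)) - (h Q : ℚ) / (μ Q : ℚ) ≤
      (Jst.sq h μ i Q : ℚ) := by
    intro Q
    have h4 : (0 : ℚ) < (μ Q : ℚ) := by exact_mod_cast hμ Q
    have h5 : ((i : ℚ) + 1) ≤ (h Q : ℚ) + (Jst.sq h μ i Q : ℚ) * (μ Q : ℚ) := by
      exact_mod_cast Jst.sq_le hμ hh i Q
    rw [mul_one_div, ← sub_div, div_le_iff₀ h4]
    linarith
  have h6 : ∑ Q, (((i : ℚ) + 1) * (1 / (μ Q : ℚ)) - (h Q : ℚ) / (μ Q : ℚ)) ≤
      ∑ Q, (Jst.sq h μ i Q : ℚ) := Finset.sum_le_sum fun Q _ => h3 Q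
  rw [Finset.sum_sub_distrib, ← Finset.mul_sum] at h6
  have h7 : ((i : ℚ) + 1) * ∑ Q, 1 / (μ Q : ℚ) - ((i : ℚ) + 1) * ((r : ℚ) - c - 1) =
      (i : ℚ) * δ + δ := by
    rw [hδ]
    ring
  linarith

end

end Pool.Agent.MLD.R
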