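import Pool.Agent.Lib.MP_f23696_ag.R.Lec
import Pool.Agent.Lib.MP_f23696_ag.R.Rsd
import Pool.Agent.Lib.MP_f23696_ag.R.Mno
import Pool.Agent.Lib.MP_f23696_ag.R.Fr0

/-!
Project LSC-ARR (MP_f23696_ag), module LEP: at a point `y` whose monomials are the zeros of the
tropical valuation `V` there is a valuation with centre `y` and small log discrepancy.
-/

namespace Pool.Agent.MLD.R

open scoped Classical
noncomputable section

universe u v w

variable {c r m : ℕ}

namespace Lep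

section PROD
variable {F : Type u} [Field F] {ι : Type w}

theorem prod_zpow_const (s : Finset ι) (t : F) (ht : t ≠ 0) (b : ι → ℤ) :
    ∏ i ∈ s, t ^ b i = t ^ ∑ i ∈ s, b i := by
  induction s using Finset.induction_on with
  | empty => simp
  | insert a s ha ih => rw [Finset.prod_insert ha, Finset.sum_insert ha, ih, zpow_add₀ ht]

theorem prod_split (s : Finset ι) (t : ι → F) (b : ι → ℤ) (ht : ∀ i ∈ s, t i ≠ 0) :
    (∏ i ∈ s, t i ^ b i) * ∏ i ∈ s, t i ^ (-b i).toNat = ∏ i ∈ s, t i ^ (b i).toNat := by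
  rw [← Finset.prod_mul_distrib]
  refine Finset.prod_congr rfl fun i hi => ?_
  rw [← zpow_natCast, ← zpow_natCast, ← zpow_add₀ (ht i hi)]
  congr 1
  omega

theorem prod_mul_const (s : Finset ι) (t : ι → F) (w : F) (hw : w ≠ 0) (b : ι → ℤ)
    (hb : ∑ i ∈ s, b i = 0) : ∏ i ∈ s, (t i * w) ^ b i = ∏ i ∈ s, t i ^ b i := by
  simp only [mul_zpow, Finset.prod_mul_distrib]
  rw [prod_zpow_const s w hw b, hb, zpow_zero, mul_one]

end PROD

section EVAL
variable {k : Type u} [Field k] {K : Type v} [Field K] [Algebra k K]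

theorem eval_eq {A : Subalgebra k K} (ε : A →ₐ[k] k) {ι : Type w} (s : Finset ι) (U : ι → A)
    (W : A) (t : ι → K) (ζ : ι → k) (b : ι → ℤ) (hb : ∑ i ∈ s, b i = 0) (hW : ε W ≠ 0)
    (hζ : ∀ i ∈ s, ζ i ≠ 0) (hU : ∀ i ∈ s, ε (U i) = ζ i * ε W)
    (hUt : ∀ i ∈ s, (U i : K) = t i * W) (ht : ∀ i ∈ s, t i ≠ 0) (a a' : A)
    (h : (a : K) = a' * ∏ i ∈ s, t i ^ b i) : ε a = ε a' * ∏ i ∈ s, ζ i ^ b i := by
  have hW' : (W : K) ≠ 0 := by
    intro h0
    apply hW
    have : W = 0 := Subtype.ext h0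
    rw [this, map_zero]
  have e1 : ∏ i ∈ s, (U i : K) ^ b i = ∏ i ∈ s, t i ^ b i := by
    rw [← prod_mul_const s t (W : K) hW' b hb]
    exact Finset.prod_congr rfl fun i hi => by rw [hUt i hi]
  have e2 := prod_split s (fun i => (U i : K)) b fun i hi => by
    show (U i : K) ≠ 0
    rw [hUt i hi]
    exact mul_ne_zero (ht i hi) hW'
  have e3 : a * ∏ i ∈ s, U i ^ (-b i).toNat = a' * ∏ i ∈ s, U i ^ (b i).toNat := by
    apply Subtype.ext
    push_cast
    rw [h, ← e1, mul_assoc, e2]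
  have e4 := congrArg ε e3
  rw [map_mul, map_mul, map_prod, map_prod] at e4
  simp only [map_pow] at e4
  have hne : ∀ i ∈ s, ε (U i) ≠ 0 := fun i hi => by
    rw [hU i hi]
    exact mul_ne_zero (hζ i hi) hW
  have e5 := prod_split s (fun i => ε (U i)) b hne
  have e6 : ∏ i ∈ s, ε (U i) ^ b i = ∏ i ∈ s, ζ i ^ b i := by
    rw [← prod_mul_const s ζ (ε W) hW b hb]
    exact Finset.prod_congr rfl fun i hi => by rw [hU i hi]
  have hP : ∏ i ∈ s, ε (U i) ^ (-b i).toNat ≠ 0 :=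
    Finset.prod_ne_zero_iff.2 fun i hi => pow_ne_zero _ (hne i hi)
  apply mul_right_cancel₀ hP
  rw [e4, ← e5, e6, mul_assoc]

end EVAL

section FRAME
variable {k : Type u} [Field k] [CharZero k] {K : Type v} [Field K] [Algebra k K]

/-- the frame at a point with a pair -/
theorem mk_fr (C : RA k K c m r) (V : Vec r m) (hV : Trop c V) (h1 : 1 ≤ c) (hc : c < r)
    (Q₀ : Fin r) (ζ : (Fin (c + 1) → k) →ₗ[k] k) (hζ1 : ζ (C.L Q₀) = 1)
    (hζ0 : ∀ Q ∈ supp V, ζ (C.L Q) = 0) (hζn : ∀ Q ∉ supp V, ζ (C.L Q) ≠ 0) :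
    ∃ F : Fr C V, (∀ a, 1 ≤ F.e a) ∧ (∀ Q ∉ supp V, F.la Q 0 = ζ (C.L Q)) ∧
      ∑ a, F.e a = ∑ Q, V.1 Q + (c - (supp V).card : ℕ) ∧
      ((supp V).card < c → ∃ a, F.e a = 1) := by
  obtain ⟨g, s, hdet, hg0, hgs, hinj, hgL⟩ := framex C h1 hc Q₀ ζ hζ1 (supp V) hV.card hζ0
  set e : Fin c → ℤ := fun a => if h : ∃ Q ∈ supp V, s Q = a then V.1 h.choose else 1 with he
  have he1 : ∀ Q ∈ supp V, e (s Q) = V.1 Q := by
    intro Q hQ
    have h : ∃ Q' ∈ supp V, s Q' = s Q := ⟨Q, hQ, rfl⟩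
    have h2 : e (s Q) = V.1 h.choose := by
      simp only [he]
      rw [dif_pos h]
    rw [h2, hinj _ h.choose_spec.1 _ hQ h.choose_spec.2]
  have he2 : ∀ a, a ∉ (supp V).image s → e a = 1 := by
    intro a ha
    simp only [he]
    rw [dif_neg]
    rintro ⟨Q, hQ, h⟩
    exact ha (Finset.mem_image.2 ⟨Q, hQ, h⟩)
  have he3 : ∀ a, 1 ≤ e a := by
    intro a
    by_cases ha : a ∈ (supp V).image s
    · obtain ⟨Q, hQ, rfl⟩ := Finset.mem_image.1 ha
      rw [he1 Q hQ]
      exact hV.pos hQ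
    · rw [he2 a ha]
  choose la hla using fun Q => expand g hdet (C.L Q)
  have hla0 : ∀ Q, la Q 0 = ζ (C.L Q) := by
    intro Q
    conv_rhs => rw [hla Q]
    rw [map_sum, Fin.sum_univ_succ, map_smul, hg0, hζ1, smul_eq_mul, mul_one]
    rw [Finset.sum_eq_zero, add_zero]
    intro i _
    rw [map_smul, hgs i, smul_zero]
  have hcardim : ((supp V).image s).card = (supp V).card :=
    Finset.card_image_of_injOn fun Q hQ Q' hQ' h => hinj Q hQ Q' hQ' h
  have hsum : ∑ a, e a = ∑ Q, V.1 Q + (c - (supp V).card : ℕ) := by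
    rw [← Finset.sum_add_sum_compl ((supp V).image s) e]
    rw [Finset.sum_image fun Q hQ Q' hQ' h => hinj Q hQ Q' hQ' h]
    rw [Finset.sum_congr rfl he1]
    have e1 : ∑ a ∈ ((supp V).image s)ᶜ, e a = ∑ a ∈ ((supp V).image s)ᶜ, 1 :=
      Finset.sum_congr rfl fun a ha => he2 a (Finset.mem_compl.1 ha)
    rw [e1, Finset.sum_const, Finset.card_compl, Fintype.card_fin, hcardim]
    have e2 : ∑ Q ∈ supp V, V.1 Q = ∑ Q, V.1 Q := by
      apply Finset.sum_subset (Finset.subset_univ _)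
      intro Q _ hQ
      by_contra h
      exact hQ ((mem_supp V Q).2 h)
    rw [e2]
    simp
  refine ⟨⟨g, hdet, e, fun a => le_trans zero_le_one (he3 a),
    fun Q => if Q ∈ supp V then Pi.single (s Q).succ 1 else la Q, ?_, ?_, ?_⟩, he3, ?_, hsum, ?_⟩
  · intro Q
    by_cases hQ : Q ∈ supp V
    · simp only [if_pos hQ]
      rw [Finset.sum_eq_single (s Q).succ]
      · rw [Pi.single_eq_same, one_smul, hgL Q hQ]
      · intro j _ hj
        rw [Pi.single_eq_of_ne hj, zero_smul]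
      · intro h
        exact absurd (Finset.mem_univ _) h
    · simp only [if_neg hQ]
      exact hla Q
  · intro Q j hj
    by_cases hQ : Q ∈ supp V
    · simp only [if_pos hQ] at hj
      have h2 : j = (s Q).succ := by
        by_contra h
        exact hj (Pi.single_eq_of_ne h _)
      rw [h2, Fin.cons_succ, he1 Q hQ]
    · have h2 : V.1 Q = 0 := by
        by_contra h
        exact hQ ((mem_supp V Q).2 h)
      rw [h2]
      refine Fin.cases ?_ (fun i => ?_) j
      · rw [Fin.cons_zero]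
      · rw [Fin.cons_succ]
        exact le_trans zero_le_one (he3 i)
  · intro Q
    by_cases hQ : Q ∈ supp V
    · refine ⟨(s Q).succ, ?_, ?_⟩
      · simp only [if_pos hQ]
        rw [Pi.single_eq_same]
        exact one_ne_zero
      · rw [Fin.cons_succ, he1 Q hQ]
    · have h2 : V.1 Q = 0 := by
        by_contra h
        exact hQ ((mem_supp V Q).2 h)
      refine ⟨0, ?_, ?_⟩
      · simp only [if_neg hQ]
        rw [hla0 Q]
        exact hζn Q hQ
      · rw [Fin.cons_zero, h2]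
  · intro Q hQ
    simp only [if_neg hQ]
    exact hla0 Q
  · intro hlt
    have : ∃ a, a ∉ (supp V).image s := by
      by_contra h
      push Not at h
      have h2 : (supp V).image s = Finset.univ := by
        ext a
        simp only [Finset.mem_univ, iff_true]
        exact h a
      rw [h2, Finset.card_univ, Fintype.card_fin] at hcardim
      omega
    obtain ⟨a, ha⟩ := this
    exact ⟨a, he2 a ha⟩

end FRAME

section POINT
variable {k : Type u} [Field k] [IsAlgClosed k] [CharZero k] {K : Type v} [Field K] [Algebra k K]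
  {C : RA k K c m r}

omit [IsAlgClosed k] in
theorem mon_ratio (hc : c < r) (M N : Vec r m) (I : Finset (Fin r)) (hI : ∀ Q ∈ I, M.1 Q = N.1 Q)
    (hu : M.2 = N.2) (hM : deg M = 0) (hN : deg N = 0) (Q₀ : Fin r) :
    C.mon M = C.mon N * ∏ Q ∈ Iᶜ, (C.ell Q / C.ell Q₀) ^ (M.1 Q - N.1 Q) := by
  have hb : ∑ Q ∈ Iᶜ, (M.1 Q - N.1 Q) = 0 := by
    have h1 : ∑ Q, (M.1 Q - N.1 Q) = 0 := by
      rw [Finset.sum_sub_distrib]
      change deg M - deg N = 0
      rw [hM, hN, sub_zero]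
    rw [← h1]
    apply Finset.sum_subset (Finset.subset_univ _)
    intro Q _ hQ
    rw [Finset.mem_compl, not_not] at hQ
    rw [hI Q hQ, sub_self]
  have e1 := prod_mul_const Iᶜ (fun Q => C.ell Q) (C.ell Q₀)⁻¹ (inv_ne_zero (ell_ne C hc Q₀))
    (fun Q => M.1 Q - N.1 Q) hb
  simp only [← div_eq_mul_inv] at e1
  rw [e1]
  have e2 : ∏ Q ∈ Iᶜ, C.ell Q ^ (M.1 Q - N.1 Q) = ∏ Q, C.ell Q ^ (M.1 Q - N.1 Q) := by
    apply Finset.prod_subset (Finset.subset_univ _)
    intro Q _ hQ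
    rw [Finset.mem_compl, not_not] at hQ
    rw [hI Q hQ, sub_self, zpow_zero]
  rw [e2]
  unfold RA.mon
  rw [hu]
  have e3 : ∏ Q, C.ell Q ^ M.1 Q = (∏ Q, C.ell Q ^ N.1 Q) * ∏ Q, C.ell Q ^ (M.1 Q - N.1 Q) := by
    rw [← Finset.prod_mul_distrib]
    refine Finset.prod_congr rfl fun Q _ => ?_
    rw [← zpow_add₀ (ell_ne C hc Q)]
    congr 1
    ring
  rw [e3]
  ring

theorem mon_shift (hc : c < r) (M : Vec r m) (Q Q₀ : Fin r) :
    C.mon (M + ee Q - ee Q₀) = C.ell Q / C.ell Q₀ * C.mon M := by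
  rw [sub_eq_add_neg, mon_add hc, mon_add hc, mon_neg hc, mon_ee, mon_ee, div_eq_mul_inv]
  ring

/-- the case of a frame centred at the point, `N = 1` -/
theorem core1 (h1 : 1 ≤ c) (hc : c < r) (X : AV C) (W : EData X) (y : MaximalSpectrum X.A)
    (V : Vec r m) (hV : Trop c V) (hA : ∀ M ∈ X.MX, 0 ≤ pair V M)
    (hS : zeroSet W.E V = X.S y.asIdeal)
    (hone : 1 ≤ rk (X.S y.asIdeal) ∨ (HasPair (X.S y.asIdeal) ∧ (supp V).card < c) ∨
      ∃ M, deg M = 0 ∧ pair V M = 1) :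
    ∃ (v : DVal k K) (j : ℤ), v.HasCenter X.A y.asIdeal ∧ v.FormOrd C.D j ∧ HasTrop C V v ∧
      j + 1 ≤ disc c (C.o 0) V + rk (X.S y.asIdeal) + kap c (X.S y.asIdeal) V := by
  obtain ⟨ε, hε⟩ := eval X y
  have hS' : ∀ M ∈ X.MX, pair V M = 0 ↔ M ∈ X.S y.asIdeal := by
    intro M hM
    rw [← hS]
    rw [W.mem] at hM
    exact ⟨fun h => ⟨hM, h⟩, fun h => h.2⟩
  have hSe : ∀ M (hM : C.mon M ∈ X.A), deg M = 0 → (M ∈ X.S y.asIdeal ↔ ε ⟨_, hM⟩ ≠ 0) := by
    intro M hM h0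
    constructor
    · rintro ⟨_, _, h⟩ h3
      exact h ((hε _).2 h3)
    · intro h
      exact ⟨h0, hM, fun h3 => h ((hε _).1 h3)⟩
  by_cases hp : HasPair (X.S y.asIdeal)
  · obtain ⟨Q₀, M₀, hM₀, ζ, hd, hM₀ε, hζ1, hsh, hζ⟩ := residues hc X W y ε hε hp
    have hM₀S : M₀ ∈ X.S y.asIdeal := (hSe M₀ hM₀ hd).2 hM₀ε
    have hM₀V : pair V M₀ = 0 := (hS' M₀ ⟨hd, hM₀⟩).2 hM₀S
    have hpr : ∀ Q, pair V (M₀ + ee Q - ee Q₀) = V.1 Q - V.1 Q₀ := by
      intro Q
      rw [pair_sub, pair_add, pair_ee, pair_ee, hM₀V]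
      ring
    have hV0 : V.1 Q₀ = 0 := by
      obtain ⟨i, hi⟩ := exists_zero hV hc
      have h2 := hA _ (hsh i)
      rw [hpr, hi] at h2
      have h3 := hV.nonneg Q₀
      omega
    have hev : ∀ Q, ζ (C.L Q) ≠ 0 ↔ V.1 Q = 0 := by
      intro Q
      have h2 := hsh Q
      obtain ⟨h3, h4⟩ := hζ (C.L Q)
      have h5 : C.mon (M₀ + ee Q - ee Q₀) ∈ X.A := h2.2
      have h6 : ε ⟨_, h5⟩ = ζ (C.L Q) * ε ⟨C.mon M₀, hM₀⟩ := by
        rw [← h4]
        congr 1
        exact Subtype.ext (mon_shift hc M₀ Q Q₀)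
      have h7 := (hSe _ h5 h2.1)
      rw [← hS' _ h2, hpr, hV0, sub_zero, h6] at h7
      rw [h7]
      constructor
      · intro h8
        exact mul_ne_zero h8 hM₀ε
      · intro h8 h9
        exact h8 (by rw [h9, zero_mul])
    have hζ0 : ∀ Q ∈ supp V, ζ (C.L Q) = 0 := by
      intro Q hQ
      by_contra h
      exact (mem_supp V Q).1 hQ ((hev Q).1 h)
    have hζn : ∀ Q ∉ supp V, ζ (C.L Q) ≠ 0 := by
      intro Q hQ
      apply (hev Q).2
      by_contra h
      exact hQ ((mem_supp V Q).2 h)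
    obtain ⟨F, hF1, hF2, hF3, hF4⟩ := mk_fr C V hV h1 hc Q₀ ζ hζ1 hζ0 hζn
    have hE : ∀ V ∈ W.E, Trop 1 V := fun V hV => ⟨(W.mv V hV).trop.nonneg, W.card V hV⟩
    have hA' : ∀ M ∈ MA W.E, 0 ≤ pair V M := fun M hM => hA M (by rw [W.mem]; exact hM)
    obtain ⟨v, j, hv1, hv2, hv3, hv4⟩ := le_core hc X y ε hε V F hA hS'
      (Or.inr ⟨hF1, by
        intro M N hM hN hMS hNS hu
        have hMz : M ∈ zeroSet W.E V := by rw [hS]; exact hMS
        have hNz : N ∈ zeroSet W.E V := by rw [hS]; exact hNS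
        have hag : ∀ Q ∈ supp V, M.1 Q = N.1 Q := fun Q hQ =>
          agree hE hV hc hA' hMz hNz hu hQ
        refine ⟨hag, ?_⟩
        choose h3 h4 using fun Q => hζ (C.L Q)
        have h5 := eval_eq ε (supp V)ᶜ (fun Q => ⟨_, h3 Q⟩) ⟨C.mon M₀, hM₀⟩
          (fun Q => C.ell Q / C.ell Q₀) (fun Q => ζ (C.L Q)) (fun Q => M.1 Q - N.1 Q) (by
            have h1 : ∑ Q, (M.1 Q - N.1 Q) = 0 := by
              rw [Finset.sum_sub_distrib]
              change deg M - deg N = 0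
              rw [hMS.1, hNS.1, sub_zero]
            rw [← h1]
            apply Finset.sum_subset (Finset.subset_univ _)
            intro Q _ hQ
            rw [Finset.mem_compl, not_not] at hQ
            rw [hag Q hQ, sub_self]) hM₀ε
          (fun Q hQ => hζn Q (Finset.mem_compl.1 hQ)) (fun Q _ => h4 Q)
          (fun Q _ => rfl) (fun Q _ => div_ne_zero (ell_ne C hc Q) (ell_ne C hc Q₀))
          ⟨_, hM⟩ ⟨_, hN⟩ (mon_ratio hc M N (supp V) hag hu hMS.1 hNS.1 Q₀)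
        rw [h5]
        congr 1
        exact Finset.prod_congr rfl fun Q hQ => by rw [hF2 Q (Finset.mem_compl.1 hQ)]⟩)
      (by
        rcases hone with h | h | h
        · exact Or.inl h
        · exact Or.inr (Or.inl (hF4 h.2))
        · exact Or.inr (Or.inr h))
    refine ⟨v, j, hv1, hv2, hv3, le_trans hv4 (le_of_eq ?_)⟩
    have hk : (kap c (X.S y.asIdeal) V : ℤ) = ((c - (supp V).card : ℕ) : ℤ) := by
      unfold kap
      rw [if_pos hp]
    rw [hF3, hk]
    unfold disc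
    ring
  · obtain ⟨f, hf, hf0, hfI⟩ := frame0 (supp V) hV.card hc
    obtain ⟨F, _, hFe⟩ := fr_of_frame C V hV f hf hf0 hfI
    obtain ⟨v, j, hv1, hv2, hv3, hv4⟩ := le_core hc X y ε hε V F hA hS' (Or.inl hp)
      (by
        rcases hone with h | h | h
        · exact Or.inl h
        · exact absurd h.1 hp
        · exact Or.inr (Or.inr h))
    refine ⟨v, j, hv1, hv2, hv3, le_trans hv4 ?_⟩
    have hsum : ∑ a, F.e a = ∑ Q, V.1 Q := by
      have e1 : ∑ a : Fin c, F.e a = ∑ j : Fin (c + 1), V.1 (f j) := by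
        rw [Fin.sum_univ_succ]
        have h0 : V.1 (f 0) = 0 := by
          by_contra h
          exact hf0 ((mem_supp V _).2 h)
        rw [h0, zero_add]
        exact Finset.sum_congr rfl fun a _ => hFe a
      rw [e1, ← Finset.sum_image (f := fun Q => V.1 Q) (g := f) (s := Finset.univ)
        (fun a _ b _ h => hf h)]
      apply Finset.sum_subset (Finset.subset_univ _)
      intro Q _ hQ
      by_contra h
      obtain ⟨a, ha⟩ := hfI Q ((mem_supp V _).2 h)
      exact hQ (Finset.mem_image.2 ⟨a, Finset.mem_univ _, ha⟩)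
    rw [hsum]
    unfold disc
    have hk : (0 : ℤ) ≤ (kap c (X.S y.asIdeal) V : ℤ) := Int.natCast_nonneg _
    linarith

end POINT

end Lep

section LEP
variable {k : Type u} [Field k] [IsAlgClosed k] [CharZero k] {K : Type v} [Field K] [Algebra k K]
  {C : RA k K c m r}

theorem le_point (h1 : 1 ≤ c) (hc : c < r) (X : AV C) (W : EData X) (y : MaximalSpectrum X.A)
    (V : Vec r m) (hV : Trop c V) (hA : ∀ M ∈ X.MX, 0 ≤ pair V M)
    (hS : zeroSet W.E V = X.S y.asIdeal) :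
    ∃ (N : ℕ) (v : DVal k K) (j : ℤ), 1 ≤ N ∧ v.HasCenter X.A y.asIdeal ∧ v.FormOrd C.D j ∧
      (∀ M, deg M = 0 → (N : ℤ) * v.ord (C.mon M) = pair V M) ∧
      N * (j + 1) ≤ disc c (C.o 0) V + rk (X.S y.asIdeal) + kap c (X.S y.asIdeal) V := by
  by_cases hone : 1 ≤ rk (X.S y.asIdeal) ∨ (HasPair (X.S y.asIdeal) ∧ (supp V).card < c) ∨
      ∃ M, deg M = 0 ∧ pair V M = 1
  · obtain ⟨v, j, hv1, hv2, hv3, hv4⟩ := Lep.core1 h1 hc X W y V hV hA hS hone
    refine ⟨1, v, j, le_refl _, hv1, hv2, fun M hM => ?_, ?_⟩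
    · rw [Nat.cast_one, one_mul]
      exact hv3 M hM
    · rw [Nat.cast_one, one_mul]
      exact hv4
  · push Not at hone
    obtain ⟨hrk, hpc, _⟩ := hone
    have hMA : ∀ M, M ∈ X.MX ↔ M ∈ MA W.E := fun M => by rw [W.mem]
    have hne : ∃ M, deg M = 0 ∧ pair V M ≠ 0 := by
      by_contra hcon
      push Not at hcon
      obtain ⟨Q₁, hQ₁⟩ := exists_zero hV hc
      have hV0 : ∀ Q, V.1 Q = 0 := by
        intro Q
        have h2 := hcon (ee Q - ee Q₁) (by rw [deg_sub, deg_ee, deg_ee, sub_self])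
        rw [pair_sub, pair_ee, pair_ee, hQ₁, sub_zero] at h2
        exact h2
      have hsupp : supp V = ∅ := by
        ext Q
        simp [mem_supp, hV0 Q]
      have hpair : HasPair (X.S y.asIdeal) := by
        set Q₂ : Fin r := ⟨0, by omega⟩ with hQ₂
        set Q₃ : Fin r := ⟨1, by omega⟩ with hQ₃
        have hQ : Q₂ ≠ Q₃ := by
          intro h
          have := congrArg Fin.val h
          simp [hQ₂, hQ₃] at this
        obtain ⟨N, hN0, hN1, hN2⟩ := X.full (ee Q₂ - ee Q₃)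
          (by rw [deg_sub, deg_ee, deg_ee, sub_self])
        have hN : ∀ M, deg M = 0 → C.mon M ∈ X.A → M ∈ X.S y.asIdeal := by
          intro M hM0 hM
          rw [← hS]
          exact ⟨(hMA M).1 ⟨hM0, hM⟩, hcon M hM0⟩
        refine ⟨N + (ee Q₂ - ee Q₃), hN _ ?_ hN2, N, hN N hN0 hN1, ?_, ?_⟩
        · rw [deg_add, hN0, deg_sub, deg_ee, deg_ee, sub_self, add_zero]
        · simp [ee]
        · intro h
          have h2 := congrFun h Q₂
          simp [ee, Pi.single_eq_of_ne hQ] at h2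
      have := hpc hpair
      rw [hsupp, Finset.card_empty] at this
      omega
    obtain ⟨N, V', hN, hVN, hV', hsV', hM⟩ := prim hc V hV hne
    have hNpos : (0 : ℤ) < N := by exact_mod_cast hN
    have hpV : ∀ M, pair V M = (N : ℤ) * pair V' M := by
      intro M
      rw [hVN, zsmul_pair]
    have hA' : ∀ M ∈ X.MX, 0 ≤ pair V' M := by
      intro M hM
      have h2 := hA M hM
      rw [hpV] at h2
      exact nonneg_of_mul_nonneg_right h2 hNpos
    have hS' : zeroSet W.E V' = X.S y.asIdeal := by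
      rw [← hS]
      ext M
      constructor
      · rintro ⟨h2, h3⟩
        exact ⟨h2, by rw [hpV, h3, mul_zero]⟩
      · rintro ⟨h2, h3⟩
        refine ⟨h2, ?_⟩
        rw [hpV] at h3
        rcases mul_eq_zero.1 h3 with h4 | h4
        · exact absurd h4 (ne_of_gt hNpos)
        · exact h4
    obtain ⟨v, j, hv1, hv2, hv3, hv4⟩ := Lep.core1 h1 hc X W y V' hV' hA' hS' (Or.inr (Or.inr hM))
    refine ⟨N, v, j, hN, hv1, hv2, fun M hM => ?_, ?_⟩
    · rw [hv3 M hM, hpV]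
    · have hrk0 : rk (X.S y.asIdeal) = 0 := by omega
      have hk0 : kap c (X.S y.asIdeal) V' = 0 := by
        unfold kap
        by_cases hp : HasPair (X.S y.asIdeal)
        · rw [if_pos hp, hsV']
          have := hpc hp
          omega
        · rw [if_neg hp]
      rw [hrk0, hk0] at hv4
      have hd : disc c (C.o 0) V = N * disc c (C.o 0) V' := by
        rw [hVN, disc_zsmul]
      rw [hd]
      have h3 : (0 : ℤ) ≤ (rk (X.S y.asIdeal) : ℤ) := Int.natCast_nonneg _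
      have h4 : (0 : ℤ) ≤ (kap c (X.S y.asIdeal) V : ℤ) := Int.natCast_nonneg _
      have h5 : j + 1 ≤ disc c (C.o 0) V' := by simpa using hv4
      have h6 : (N : ℤ) * (j + 1) ≤ N * disc c (C.o 0) V' :=
        mul_le_mul_of_nonneg_left h5 (le_of_lt hNpos)
      linarith

end LEP

end

end Pool.Agent.MLD.R
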