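import Pool.Agent.Lib.MP_f23696_ag.Heq
import Pool.Agent.Lib.MP_f23696_ag.R.Mon
import Pool.Agent.Lib.MP_f23696_ag.R.Nmn
import Pool.Agent.Lib.MP_f23696_ag.R.Spn
import Pool.Agent.Lib.MP_f23696_ag.R.Pri

set_option autoImplicit false

/-!
Project LSC-ARR (MP_f23696_ag), module MEQ: a local equation of a divisor generated by monomials
can be replaced by a combination of monomials.
-/

namespace Pool.Agent.MLD.R

open scoped Classical
noncomputable section

universe u v w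

variable {c r m : ℕ}

namespace Meq

section basic
variable {k : Type u} [Field k] {K : Type v} [Field K] [Algebra k K]

/-- `g` lies in the maximal ideal of the local ring of `p`. -/
def InP (A : Subalgebra k K) (p : Ideal A) (g : K) : Prop :=
  ∃ t : A, t ∉ p ∧ ∃ h : (t : K) * g ∈ A, (⟨_, h⟩ : A) ∈ p

theorem InP.add {A : Subalgebra k K} {p : Ideal A} (hp : p.IsPrime) {g g' : K}
    (h : InP A p g) (h' : InP A p g') : InP A p (g + g') := by
  obtain ⟨t, ht, h1, h2⟩ := h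
  obtain ⟨t', ht', h1', h2'⟩ := h'
  have e : (((t * t' : A) : K)) * (g + g') = (t' : K) * ((t : K) * g) + (t : K) * ((t' : K) * g') := by
    push_cast
    ring
  have hm : (((t * t' : A) : K)) * (g + g') ∈ A := by
    rw [e]
    exact A.add_mem (A.mul_mem t'.2 h1) (A.mul_mem t.2 h1')
  refine ⟨t * t', fun h => (hp.mem_or_mem h).elim ht ht', hm, ?_⟩
  have e2 : (⟨_, hm⟩ : A) = t' * ⟨_, h1⟩ + t * ⟨_, h1'⟩ := Subtype.ext e
  rw [e2]
  exact p.add_mem (p.mul_mem_left _ h2) (p.mul_mem_left _ h2')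

theorem InP.smul {A : Subalgebra k K} {p : Ideal A} (a : k) {g : K} (h : InP A p g) :
    InP A p (a • g) := by
  obtain ⟨t, ht, h1, h2⟩ := h
  have e : (t : K) * (a • g) = a • ((t : K) * g) := mul_smul_comm _ _ _
  have hm : (t : K) * (a • g) ∈ A := by
    rw [e]
    exact A.smul_mem h1 a
  refine ⟨t, ht, hm, ?_⟩
  have e2 : (⟨_, hm⟩ : A) = a • (⟨_, h1⟩ : A) := Subtype.ext e
  rw [e2, Algebra.smul_def]
  exact p.mul_mem_left _ h2

theorem InP.zero {A : Subalgebra k K} {p : Ideal A} (hp : p.IsPrime) : InP A p (0 : K) := by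
  have hm : ((1 : A) : K) * 0 ∈ A := by
    rw [mul_zero]
    exact A.zero_mem
  refine ⟨1, fun h => hp.ne_top ((Ideal.eq_top_iff_one p).2 h), hm, ?_⟩
  have e2 : (⟨_, hm⟩ : A) = 0 := Subtype.ext (mul_zero _)
  rw [e2]
  exact p.zero_mem

theorem not_inP_one {A : Subalgebra k K} {p : Ideal A} : ¬ InP A p (1 : K) := by
  rintro ⟨t, ht, h1, h2⟩
  apply ht
  have e2 : (⟨_, h1⟩ : A) = t := Subtype.ext (mul_one _)
  rwa [e2] at h2

theorem ord_div_add (v : DVal k K) {a b : K} (ha : a ≠ 0) (hb : b ≠ 0) :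
    v.ord (a / b) + v.ord b = v.ord a := by
  rw [← v.ord_mul _ _ (div_ne_zero ha hb) hb, div_mul_cancel₀ _ hb]

end basic

section claim
variable {k : Type u} [Field k] [IsAlgClosed k] [CharZero k] {K : Type v} [Field K] [Algebra k K]
  {C : RA k K c m r}

theorem unique (X : AV C) (q : Ideal X.A) (hq : IsHeightOne q) (v v' : DVal k K)
    (hv : v.HasCenter X.A q) (hv' : v'.HasCenter X.A q) (f : K) (hf : f ≠ 0) :
    v.ord f = v'.ord f :=
  dvr_unique X.A (noeth X) X.frac X.normal q hq v v' hv hv' f hf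

theorem hart (X : AV C) (p : Ideal X.A) (hp : p.IsPrime) (f : K) (hf : f ≠ 0)
    (h : ∀ q : Ideal X.A, IsHeightOne q → q ≤ p → ∀ v : DVal k K, v.HasCenter X.A q →
      0 ≤ v.ord f) :
    ∃ s : X.A, s ∉ p ∧ (s : K) * f ∈ X.A := by
  refine hartogs X.A (noeth X) X.frac X.normal p hp f hf fun q hq hqp => ?_
  obtain ⟨v, hv, h1⟩ := dvr X.A (noeth X) X.frac X.normal q hq
  exact (h1 f hf).1 (h q hq hqp v hv)

/-- a monomial of the ring which is positive at the prime divisors through `p` containing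
monomials -/
theorem clear (h1 : 1 ≤ c) (hc : c < r) (X : AV C) (W : EData X) (F : Finset (Vec r m))
    (hF : F ⊆ W.E) : ∃ N ∈ MA W.E, ∀ V ∈ F, 1 ≤ pair V N := by
  have hex : ∀ V ∈ W.E, ∃ N ∈ X.MX, 0 < pair V N := by
    intro V hV
    obtain ⟨a, haq, ha0⟩ := Submodule.exists_mem_ne_zero_of_ne_bot (W.ht V hV).2.1
    have h := qq_span h1 hc X W V hV a haq
    by_contra hcon
    have h2 : {M | M ∈ X.MX ∧ 0 < pair V M} = (∅ : Set (Vec r m)) := by
      ext M
      simp only [Set.mem_ofPred_eq, Set.mem_empty_iff_false, iff_false]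
      exact fun hM => hcon ⟨M, hM⟩
    rw [h2, Set.image_empty, Submodule.span_empty, Submodule.mem_bot] at h
    exact ha0 (Subtype.ext h)
  choose! N hN1 hN2 using hex
  have hN3 : ∀ V ∈ W.E, N V ∈ MA W.E := fun V hV => by
    rw [← W.mem]
    exact hN1 V hV
  refine ⟨∑ V ∈ F, N V, MA_sum F N fun V hV => hN3 V (hF hV), fun V hV => ?_⟩
  rw [pair_sum, ← Finset.add_sum_erase F _ hV]
  have h3 : 0 ≤ ∑ V' ∈ F.erase V, pair V (N V') := Finset.sum_nonneg fun V' hV' =>
    (hN3 V' (hF (Finset.mem_of_mem_erase hV'))).2 V (hF hV)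
  have h4 := hN2 V (hF hV)
  omega

theorem claim (h1 : 1 ≤ c) (hc : c < r) (X : AV C) (W : EData X) (p : Ideal X.A) (hp : p.IsPrime)
    (f : K) (hf : f ≠ 0)
    (h0 : ∀ q : Ideal X.A, IsHeightOne q → X.S q = X.MX → q ≤ p → ∀ v : DVal k K,
      v.HasCenter X.A q → v.ord f = 0) :
    ∃ M : Vec r m, deg M = 0 ∧ ∀ q : Ideal X.A, IsHeightOne q → q ≤ p →
      ∀ v : DVal k K, v.HasCenter X.A q → v.ord f = v.ord (C.mon M) := by
  set F : Finset (Vec r m) := W.E.filter fun V => W.qq V ≤ p with hF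
  have hFE : F ⊆ W.E := Finset.filter_subset _ _
  obtain ⟨N, hN, hN1⟩ := clear h1 hc X W F hFE
  set n : ℕ := ∑ V ∈ F, ((W.vv V).ord f).natAbs with hn
  set P : Vec r m := n • N with hP
  have hPA : P ∈ MA W.E := MA_nsmul hN n
  have hPX : P ∈ X.MX := by
    rw [W.mem]
    exact hPA
  have hb0 := mon_ne (C := C) hc P
  have hbf : f * C.mon P ≠ 0 := mul_ne_zero hf hb0
  -- the two kinds of prime divisors
  have hkind : ∀ q : Ideal X.A, IsHeightOne q → q ≤ p → ∀ v : DVal k K, v.HasCenter X.A q →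
      (v.ord f = 0 ∧ ∀ M, deg M = 0 → v.ord (C.mon M) = 0) ∨
      ∃ V ∈ F, (∀ g : K, g ≠ 0 → v.ord g = (W.vv V).ord g) ∧
        ∀ M, deg M = 0 → v.ord (C.mon M) = pair V M := by
    intro q hq hqp v hv
    by_cases hS : X.S q = X.MX
    · exact Or.inl ⟨h0 q hq hS hqp v hv, (nonmon hc X q hq hS v hv).2⟩
    · obtain ⟨V, hV, hVq⟩ := W.all q hq hS
      subst hVq
      refine Or.inr ⟨V, Finset.mem_filter.2 ⟨hV, hqp⟩, fun g hg =>
        unique X _ hq v _ hv (W.cen V hV) g hg, fun M hM => ?_⟩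
      rw [unique X _ hq v _ hv (W.cen V hV) _ (mon_ne hc M)]
      exact (W.mv V hV).ord M hM
  have hpos : ∀ q : Ideal X.A, IsHeightOne q → q ≤ p → ∀ v : DVal k K, v.HasCenter X.A q →
      0 ≤ v.ord (f * C.mon P) := by
    intro q hq hqp v hv
    rw [v.ord_mul _ _ hf hb0]
    rcases hkind q hq hqp v hv with ⟨e1, e2⟩ | ⟨V, hV, e1, e2⟩
    · rw [e1, e2 P hPA.1, add_zero]
    · rw [e1 f hf, e2 P hPA.1, hP, pair_nsmul]
      have e3 : ((W.vv V).ord f).natAbs ≤ n :=
        Finset.single_le_sum (f := fun V => ((W.vv V).ord f).natAbs)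
          (fun _ _ => Nat.zero_le _) hV
      have e4 := hN1 V hV
      have e5 : (n : ℤ) * 1 ≤ n * pair V N := mul_le_mul_of_nonneg_left e4 (Int.natCast_nonneg _)
      omega
  obtain ⟨s, hsp, hsA⟩ := hart X p hp _ hbf hpos
  have hs0 := HEQ.ne_of_not_mem s hsp
  set d : K := (s : K) * (f * C.mon P) with hd
  have hd0 : d ≠ 0 := mul_ne_zero hs0 hbf
  have hordd : ∀ q : Ideal X.A, IsHeightOne q → q ≤ p → ∀ v : DVal k K, v.HasCenter X.A q →
      v.ord d = v.ord f + v.ord (C.mon P) := by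
    intro q hq hqp v hv
    rw [hd, v.ord_mul _ _ hs0 hbf, v.ord_mul _ _ hf hb0,
      HEQ.ord_eq_zero hv s fun h => hsp (hqp h), zero_add]
  have hspan : d ∈ Submodule.span k (C.mon '' {M | deg M = 0}) := by
    have h2 := mem_span hc X ⟨d, hsA⟩
    exact Submodule.span_mono (Set.image_mono fun M hM => hM.1) h2
  have hspan2 := spn C h1 hc F (fun V => V) W.vv (fun V hV => W.mv V (hFE hV))
    (fun V hV => W.card V (hFE hV)) d hd0 hspan
  have hex : ∃ M : Vec r m, deg M = 0 ∧ (∀ V ∈ F, (W.vv V).ord d ≤ pair V M) ∧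
      ¬ InP X.A p (C.mon M / d) := by
    by_contra hcon
    push Not at hcon
    have h3 : InP X.A p (d / d) := by
      refine Submodule.span_induction (p := fun g _ => InP X.A p (g / d)) ?_ ?_ ?_ ?_ hspan2
      · rintro _ ⟨M, hM, rfl⟩
        exact hcon M hM.1 hM.2
      · rw [zero_div]
        exact InP.zero hp
      · intro g g' _ _ hg hg'
        rw [add_div]
        exact hg.add hp hg'
      · intro a g _ hg
        rw [smul_div_assoc]
        exact hg.smul a
    rw [div_self hd0] at h3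
    exact not_inP_one h3
  obtain ⟨M, hM0, hM1, hM2⟩ := hex
  have hm0 := mon_ne (C := C) hc M
  obtain ⟨t, ht, htA⟩ := hart X p hp (C.mon M / d) (div_ne_zero hm0 hd0) (by
    intro q hq hqp v hv
    have e := ord_div_add v hm0 hd0
    rcases hkind q hq hqp v hv with ⟨e1, e2⟩ | ⟨V, hV, e1, e2⟩
    · have e3 := hordd q hq hqp v hv
      rw [e1, e2 P hPA.1, add_zero] at e3
      rw [e3, e2 M hM0, add_zero] at e
      exact e.symm.le
    · have e3 := hM1 V hV
      rw [← e1 d hd0, ← e2 M hM0] at e3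
      omega)
  have htM : (⟨_, htA⟩ : X.A) ∉ p := fun h => hM2 ⟨t, ht, htA, h⟩
  refine ⟨M - P, by rw [deg_sub, hM0, hPA.1, sub_zero], fun q hq hqp v hv => ?_⟩
  have e1 : C.mon (M - P) * C.mon P = C.mon M := by rw [← mon_add hc, sub_add_cancel]
  have e2 : v.ord (C.mon (M - P)) + v.ord (C.mon P) = v.ord (C.mon M) := by
    rw [← v.ord_mul _ _ (mon_ne hc _) hb0, e1]
  have e3 : v.ord ((t : K) * (C.mon M / d)) = 0 := HEQ.ord_eq_zero hv ⟨_, htA⟩ fun h => htM (hqp h)
  have e4 : v.ord (t : K) = 0 := HEQ.ord_eq_zero hv t fun h => ht (hqp h)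
  rw [v.ord_mul _ _ (HEQ.ne_of_not_mem t ht) (div_ne_zero hm0 hd0), e4, zero_add] at e3
  have e5 := ord_div_add v hm0 hd0
  have e6 := hordd q hq hqp v hv
  omega

end claim

end Meq

section MEQ
variable {k : Type u} [Field k] [IsAlgClosed k] [CharZero k] {K : Type v} [Field K] [Algebra k K]
  {C : RA k K c m r}

theorem mon_eq (h1 : 1 ≤ c) (hc : c < r) (X : AV C) (W : EData X) (δ : Ideal X.A →₀ ℝ)
    (hδ : ∀ q, IsHeightOne q → X.S q = X.MX → δ q = 0) (p : Ideal X.A) (hp : p.IsPrime)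
    (γ : Kˣ →₀ ℝ) (hγ : IsLocalEq X.A C.D δ p γ) :
    ∃ γ' : Vec r m →₀ ℝ, (∀ M ∈ γ'.support, deg M = 0) ∧
      IsLocalEq X.A C.D δ p (C.toEq γ') := by
  obtain ⟨n, ρ, f, hρ, hval⟩ := qbasis (k := k) γ
  have h0 : ∀ i, ∀ q : Ideal X.A, IsHeightOne q → X.S q = X.MX → q ≤ p → ∀ v : DVal k K,
      v.HasCenter X.A q → v.ord (f i : K) = 0 := by
    intro i q hq hS hqp v hv
    have e1 := hγ q hqp hq v hv 0 (nonmon hc X q hq hS v hv).1
    rw [hδ q hq hS, hval v] at e1
    exact Nrm.ord_zero_of_sum ρ hρ (fun i => v.ord (f i : K)) (by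
      simpa using e1.symm) i
  have hcl := fun i => Meq.claim h1 hc X W p hp (f i : K) (f i).ne_zero (h0 i)
  choose M hM hfM using hcl
  refine ⟨∑ i, Finsupp.single (M i) (ρ i), fun a ha => ?_, fun q hqp hq v hv j hj => ?_⟩
  · have h2 := Finsupp.support_finsetSum ha
    rw [Finset.mem_biUnion] at h2
    obtain ⟨i, -, hi⟩ := h2
    have h3 := Finsupp.support_single_subset hi
    rw [Finset.mem_singleton] at h3
    rw [h3]
    exact hM i
  · rw [hγ q hqp hq v hv j hj, hval v, RA.toEq, Finsupp.mapDomain_finsetSum, HEQ.val_sum]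
    refine Finset.sum_congr rfl fun i _ => ?_
    rw [Finsupp.mapDomain_single, HEQ.val_single, hfM i q hq hqp v hv]
    have : ((C.monU (M i) : Kˣ) : K) = C.mon (M i) := by
      unfold RA.monU
      rw [dif_pos (mon_ne hc (M i))]
      rfl
    rw [this]

end MEQ

end

end Pool.Agent.MLD.R
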