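import Pool.Agent.Lib.MP_f23696_ag.Heq
import Pool.Agent.Lib.MP_f23696_ag.T.Der
import Pool.Agent.Lib.MP_f23696_ag.R.Mon
import Pool.Agent.Lib.MP_f23696_ag.R.Nmn
import Pool.Agent.Lib.MP_f23696_ag.R.Pri

set_option autoImplicit false

/-!
Project LSC-ARR (MP_f23696_ag), module OPR: a monomial local equation at a closed point is a local
equation at the closed points near it.
-/

namespace Pool.Agent.MLD.R

open scoped Classical
noncomputable section

universe u v w

variable {c r m : ℕ}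

namespace Opr

variable {k : Type u} [Field k] {K : Type v} [Field K] [Algebra k K]

theorem isClosed_ge {A : Subalgebra k K} (p : Ideal A) :
    IsClosed {x : MaximalSpectrum A | p ≤ x.asIdeal} := by
  have h1 : {x : MaximalSpectrum A | p ≤ x.asIdeal} =
      MaximalSpectrum.toPrimeSpectrum ⁻¹' PrimeSpectrum.zeroLocus (p : Set A) := by
    ext x
    simp only [Set.mem_ofPred_eq, Set.mem_preimage, PrimeSpectrum.mem_zeroLocus]
    rfl
  rw [h1]
  exact (PrimeSpectrum.isClosed_zeroLocus _).preimage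
    MaximalSpectrum.toPrimeSpectrum_continuous

/-- the points contained only in those of finitely many closed sets which contain `y` -/
theorem open_nhd {A : Subalgebra k K} {ι : Type w} (s : Finset ι) (q : ι → Ideal A)
    (y : MaximalSpectrum A) :
    IsOpen {x : MaximalSpectrum A | ∀ i ∈ s, q i ≤ x.asIdeal → q i ≤ y.asIdeal} := by
  have h1 : {x : MaximalSpectrum A | ∀ i ∈ s, q i ≤ x.asIdeal → q i ≤ y.asIdeal} =
      ⋂ i ∈ s, {x : MaximalSpectrum A | q i ≤ x.asIdeal → q i ≤ y.asIdeal} := by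
    ext x
    simp
  rw [h1]
  refine isOpen_biInter_finset fun i _ => ?_
  by_cases hi : q i ≤ y.asIdeal
  · have h2 : {x : MaximalSpectrum A | q i ≤ x.asIdeal → q i ≤ y.asIdeal} = Set.univ := by
      ext x
      simp [hi]
    rw [h2]
    exact isOpen_univ
  · have h2 : {x : MaximalSpectrum A | q i ≤ x.asIdeal → q i ≤ y.asIdeal} =
        {x : MaximalSpectrum A | q i ≤ x.asIdeal}ᶜ := by
      ext x
      simp [hi]
    rw [h2]
    exact (isClosed_ge (q i)).isOpen_compl

end Opr

section OPR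
variable {k : Type u} [Field k] [IsAlgClosed k] [CharZero k] {K : Type v} [Field K] [Algebra k K]
  {C : RA k K c m r}

open Opr in
theorem open_eq (h1 : 1 ≤ c) (hc : c < r) (X : AV C) (W : EData X) (δ : Ideal X.A →₀ ℝ)
    (hδ : ∀ q, IsHeightOne q → X.S q = X.MX → δ q = 0) (y : MaximalSpectrum X.A)
    (γ : Vec r m →₀ ℝ) (hγ : ∀ M ∈ γ.support, deg M = 0)
    (hloc : IsLocalEq X.A C.D δ y.asIdeal (C.toEq γ)) :
    ∃ U : Set (MaximalSpectrum X.A), IsOpen U ∧ y ∈ U ∧ ∀ x ∈ U,
      IsLocalEq X.A C.D δ x.asIdeal (C.toEq γ) ∧ X.S y.asIdeal ⊆ X.S x.asIdeal := by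
  refine ⟨_, open_nhd W.E W.qq y, fun V _ h => h, fun x hx => ⟨?_, ?_⟩⟩
  · intro q hqx hq v hv j hj
    by_cases hS : X.S q = X.MX
    · obtain ⟨e1, e2⟩ := nonmon hc X q hq hS v hv
      have e3 := Ten.formOrd_unique v C.D j 0 hj e1
      have e4 := toEq_val (C := C) hc γ hγ 0 v 1 (fun M hM => by
        rw [e2 M hM, zero_pair]
        simp)
      have e5 : pairR (0 : Vec r m) γ = 0 := by
        unfold pairR Finsupp.sum
        refine Finset.sum_eq_zero fun M _ => ?_
        show γ M * ((pair 0 M : ℤ) : ℝ) = 0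
        rw [zero_pair]
        simp
      rw [e5, one_mul] at e4
      rw [e3, hδ q hq hS, e4]
      simp
    · obtain ⟨V, hV, hVq⟩ := W.all q hq hS
      have hqy : q ≤ y.asIdeal := by
        rw [← hVq] at hqx ⊢
        exact hx V hV hqx
      exact hloc q hqy hq v hv j hj
  · intro M hM
    have hMX : M ∈ X.MX := S_sub X _ hM
    have hx0 := x.isMaximal.isPrime
    have hy0 := y.isMaximal.isPrime
    obtain ⟨N, hN, hNM⟩ := mon_in h1 hc X W x.asIdeal hx0 (-M)
      (by rw [deg_neg, hM.1, neg_zero]) (fun V hV hVx => by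
        rw [pair_neg, (qq_le_iff h1 hc X W V hV y.asIdeal hy0).1 (hx V hV hVx) M hM, neg_zero])
    obtain ⟨hN0, hNA, hNx⟩ := hN
    refine ⟨hM.1, hMX.2, fun hmem => hNx ?_⟩
    have e1 : (⟨C.mon N, hNA⟩ : X.A) = ⟨C.mon (N + -M), hNM.2⟩ * ⟨C.mon M, hMX.2⟩ := by
      ext
      show C.mon N = C.mon (N + -M) * C.mon M
      rw [← mon_add hc, neg_add_cancel_right]
    rw [e1]
    exact x.asIdeal.mul_mem_left _ hmem

end OPR

end

end Pool.Agent.MLD.R
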