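import Pool.Agent.Lib.MP_f23696_ag.R.Chn
import Pool.Agent.Lib.MP_f23696_ag.R.Div
import Pool.Agent.Lib.MP_f23696_ag.R.Trp
import Pool.Agent.Lib.MP_f23696_ag.R.Mon
import Pool.Agent.Lib.MP_f23696_ag.R.Gep
import Pool.Agent.Lib.MP_f23696_ag.R.Lep
import Pool.Agent.Lib.MP_f23696_ag.R.Edt
import Pool.Agent.Lib.MP_f23696_ag.R.Meq
import Pool.Agent.Lib.MP_f23696_ag.R.Opr
import Pool.Agent.Lib.MP_f23696_ag.R.Cdt
import Pool.Agent.Lib.MP_f23696_ag.T.Ind
import Pool.Agent.Lib.MP_f23696_ag.T.Der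

/-!
Project LSC-ARR (MP_f23696_ag), module KYR: lower semicontinuity.
-/

namespace Pool.Agent.MLD.R

open scoped Classical
noncomputable section

universe u v w

variable {c r m : ℕ} {k : Type u} [Field k] [IsAlgClosed k] [CharZero k] {K : Type v} [Field K]
  [Algebra k K] {C : RA k K (c + 1) m r}

/-- the key semicontinuity statement -/
theorem key (hc : c + 1 < r) (X : AV C) (δ : Ideal X.A →₀ ℝ) (hδ0 : ∀ q, 0 ≤ δ q)
    (hδ : ∀ q, IsHeightOne q → X.S q = X.MX → δ q = 0)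
    (hRC : ∀ x : MaximalSpectrum X.A, ∃ γ, IsLocalEq X.A C.D δ x.asIdeal γ) (b : ℝ)
    (y : MaximalSpectrum X.A)
    (hy : y ∈ closure {x : MaximalSpectrum X.A | ∃ l ∈ logDiscs X.A C.D δ x, l < b}) :
    ∃ l ∈ logDiscs X.A C.D δ y, l < b ∨ l < 0 := by
  have h1c : 1 ≤ c + 1 := by omega
  obtain ⟨W⟩ := edata h1c hc X
  obtain ⟨γy, hγy⟩ := hRC y
  obtain ⟨γ', hγ, hloc⟩ := mon_eq h1c hc X W δ hδ y.asIdeal y.isMaximal.isPrime γy hγy
  obtain ⟨U, hU, hyU, hUx⟩ := open_eq h1c hc X W δ hδ y γ' hγ hloc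
  obtain ⟨B, hBo, hBE, hBS, hBγ⟩ := cdata h1c hc X W δ hδ0 y γ' hγ hloc
  obtain ⟨x, hxU, l, ⟨v, -, hv, j, hj, γx, hγx, rfl⟩, hlb⟩ :=
    mem_closure_iff.1 hy U hU hyU
  obtain ⟨hx, hSS⟩ := hUx x hxU
  obtain ⟨V, hV, hVv⟩ := trop_exists C hc v
  -- the value of the local equation
  have hjac : ∃ a, jac C.D a ≠ 0 := by
    refine ⟨Fin.append C.x C.z, ?_⟩
    rw [Ten.jac_dual C.D _ C.dual]
    exact one_ne_zero
  have e1 : v.val γx = v.val (C.toEq γ') :=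
    Ten.indep_gen X.A (good X) C.D hjac δ x.asIdeal x.isMaximal.isPrime γx (C.toEq γ')
      hγx hx v hv
  have e2 : v.val (C.toEq γ') = pairR V γ' := by
    have h := toEq_val hc γ' hγ V v 1 (fun M hM => by rw [hVv M hM]; simp)
    rwa [one_mul] at h
  -- the zero set of `V`
  have hMA : X.MX = MA W.E := W.mem
  have hVA : ∀ M ∈ MA W.E, 0 ≤ pair V M := by
    intro M hM
    exact (S_iff hc X x.asIdeal v hv V hVv M (hMA ▸ hM)).1
  have hZx : zeroSet W.E V = X.S x.asIdeal := by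
    ext M
    constructor
    · rintro ⟨hM, h0⟩
      exact (S_iff hc X x.asIdeal v hv V hVv M (hMA ▸ hM)).2.2 h0
    · intro hM
      have hM' := S_sub X _ hM
      exact ⟨hMA ▸ hM', (S_iff hc X x.asIdeal v hv V hVv M hM').2.1 hM⟩
  have hge := ge_point h1c hc X W x v hv j hj V hV hVv
  have hVS : ∀ M ∈ B.S, pair V M = 0 := by
    intro M hM
    rw [hBS] at hM
    have h := hSS hM
    rw [← hZx] at h
    exact h.2
  obtain ⟨V', a1, a2, a3, a4⟩ := chain B V hV (by rw [hBE]; exact hVA) hVS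
  rw [hBE, hBS] at a3
  rw [hBE, hBS, hBo, hBγ, hZx] at a4
  rw [hBE] at a2
  obtain ⟨N, v', j', hN, hcen, hform, hord, hle⟩ := le_point h1c hc X W y V' a1
    (fun M hM => a2 M (hMA ▸ hM)) a3
  have e3 := toEq_val hc γ' hγ V' v' N (fun M hM => by exact_mod_cast hord M hM)
  refine ⟨1 + (j' : ℝ) - v'.val (C.toEq γ'), ⟨v', divi C.D v' j' hform, hcen, j', hform, _, hloc,
    rfl⟩, ?_⟩
  have h1 : ((disc (c + 1) (C.o 0) V : ℤ) : ℝ) + rk (X.S x.asIdeal) +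
      kap (c + 1) (X.S x.asIdeal) V ≤ (j : ℝ) + 1 := by exact_mod_cast hge
  have h2 : (N : ℝ) * ((j' : ℝ) + 1) ≤ ((disc (c + 1) (C.o 0) V' : ℤ) : ℝ) +
      rk (X.S y.asIdeal) + kap (c + 1) (X.S y.asIdeal) V' := by exact_mod_cast hle
  have h3 : (N : ℝ) * (1 + (j' : ℝ) - v'.val (C.toEq γ')) < b := by
    have h4 : (N : ℝ) * (1 + (j' : ℝ) - v'.val (C.toEq γ')) =
        (N : ℝ) * ((j' : ℝ) + 1) - (N : ℝ) * v'.val (C.toEq γ') := by ring
    rw [h4, e3]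
    unfold ld at a4
    linarith
  by_cases hneg : 1 + (j' : ℝ) - v'.val (C.toEq γ') < 0
  · exact Or.inr hneg
  · push Not at hneg
    have hN1 : (1 : ℝ) ≤ N := by exact_mod_cast hN
    left
    nlinarith

theorem lsc_av (hc : c + 1 < r) (X : AV C) (δ : Ideal X.A →₀ ℝ) (hδ0 : ∀ q, 0 ≤ δ q)
    (hδ : ∀ q, IsHeightOne q → X.S q = X.MX → δ q = 0)
    (hRC : ∀ x : MaximalSpectrum X.A, ∃ γ, IsLocalEq X.A C.D δ x.asIdeal γ) :
    LowerSemicontinuous (mld X.A C.D δ) := by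
  have hbot : ∀ x : MaximalSpectrum X.A, (¬ ∃ l ∈ logDiscs X.A C.D δ x, l < 0) →
      0 ≤ mld X.A C.D δ x := by
    intro x hx
    unfold mld
    rw [if_neg hx]
    refine le_iInf₂ fun l hl => ?_
    by_contra hlt
    push Not at hlt
    exact hx ⟨l, hl, by exact_mod_cast hlt⟩
  have hneg : ∀ x : MaximalSpectrum X.A, (∃ l ∈ logDiscs X.A C.D δ x, l < 0) →
      mld X.A C.D δ x = ⊥ := by
    intro x hx
    unfold mld
    rw [if_pos hx]
  have hkey0 : ∀ a : EReal, a < 0 → closure (mld X.A C.D δ ⁻¹' Set.Iic a) ⊆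
      mld X.A C.D δ ⁻¹' Set.Iic a := by
    intro a ha y hy
    have h1 : mld X.A C.D δ ⁻¹' Set.Iic a ⊆
        {x : MaximalSpectrum X.A | ∃ l ∈ logDiscs X.A C.D δ x, l < 0} := by
      intro x hx
      by_contra hn
      exact absurd (lt_of_le_of_lt (hbot x hn) (lt_of_le_of_lt hx ha)) (lt_irrefl _)
    obtain ⟨l, hl, hl0⟩ := key hc X δ hδ0 hδ hRC 0 y (closure_mono h1 hy)
    have h2 := hneg y ⟨l, hl, or_self_iff.mp hl0⟩
    simp only [Set.mem_preimage, Set.mem_Iic, h2, bot_le]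
  rw [lowerSemicontinuous_iff_isClosed_preimage]
  intro a
  refine isClosed_of_closure_subset ?_
  by_cases ha : a < 0
  · exact hkey0 a ha
  push Not at ha
  intro y hy
  simp only [Set.mem_preimage, Set.mem_Iic]
  by_contra hlt
  push Not at hlt
  obtain ⟨b, hab, hby⟩ := EReal.lt_iff_exists_real_btwn.mp hlt
  have h1 : mld X.A C.D δ ⁻¹' Set.Iic a ⊆
      {x : MaximalSpectrum X.A | ∃ l ∈ logDiscs X.A C.D δ x, l < b} := by
    intro x hx
    have hb0 : (0 : EReal) < b := lt_of_le_of_lt ha hab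
    by_cases hn : ∃ l ∈ logDiscs X.A C.D δ x, l < 0
    · obtain ⟨l, hl, hl0⟩ := hn
      exact ⟨l, hl, hl0.trans (by exact_mod_cast hb0)⟩
    · have h2 : mld X.A C.D δ x < b := lt_of_le_of_lt hx hab
      unfold mld at h2
      rw [if_neg hn] at h2
      obtain ⟨l, h3⟩ := iInf_lt_iff.mp h2
      obtain ⟨hl, hlb⟩ := iInf_lt_iff.mp h3
      exact ⟨l, hl, by exact_mod_cast hlb⟩
  obtain ⟨l, hl, hl0⟩ := key hc X δ hδ0 hδ hRC b y (closure_mono h1 hy)
  by_cases hn : ∃ l ∈ logDiscs X.A C.D δ y, l < 0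
  · rw [hneg y hn] at hby
    exact not_lt_bot hby
  · have hlb : l < b := by
      rcases hl0 with h | h
      · exact h
      · exact absurd ⟨l, hl, h⟩ hn
    unfold mld at hby
    rw [if_neg hn] at hby
    have h3 : (b : EReal) < l := lt_of_lt_of_le hby (iInf₂_le l hl)
    exact absurd (by exact_mod_cast h3 : b < l) (not_lt.mpr hlb.le)

end

end Pool.Agent.MLD.R
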