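import Pool.Agent.Lib.MP_f23696_ag.R.Lea
import Pool.Agent.Lib.MP_f23696_ag.R.Chr
import Pool.Agent.Lib.MP_f23696_ag.R.Frm
import Pool.Agent.Lib.MP_f23696_ag.R.Mon
import Pool.Agent.Lib.MP_f23696_ag.R.Emb
import Pool.Agent.Lib.MP_f23696_ag.R.Alg
import Pool.Agent.Lib.MP_f23696_ag.R.Rfb
import Pool.Agent.Lib.MP_f23696_ag.LeHB
import Pool.Agent.Lib.MP_f23696_ag.JacLog
import Pool.Agent.Lib.MP_f23696_ag.Ser

/-!
Project LSC-ARR (MP_f23696_ag), module LEC: existence of a valuation with small log discrepancy,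
given a frame.
-/

namespace Pool.Agent.MLD.R

open scoped Classical
noncomputable section

universe u v w

variable {c r m : ℕ}

namespace Lec

open Pool.Agent.MLD.LEC (NN Pos)
open Pool.Agent.MLD.Phi2 (vd)

section Gen
variable {k : Type u} [Field k] {K : Type v} [Field K] [Algebra k K]
  {E : Type w} [Field E] [Algebra k E]

/-- the centre of a valuation given by an embedding -/
theorem center_of (A : Subalgebra k K) (p : Ideal A) (Φ : K →ₐ[k] LaurentSeries E)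
    (v : DVal k K) (hv : ∀ a, a ≠ 0 → v.ord a = (Φ a).order) (ε : A →ₐ[k] k)
    (hε : ∀ a : A, a ∈ p ↔ ε a = 0)
    (key : ∀ a : A, Pos (Φ (a : K) - HahnSeries.C (algebraMap k E (ε a)))) :
    v.HasCenter A p := by
  have hint : ∀ a : A, NN (Φ (a : K)) := by
    intro a
    have h1 : Φ (a : K) = (Φ (a : K) - HahnSeries.C (algebraMap k E (ε a)))
        + HahnSeries.C (algebraMap k E (ε a)) := by ring
    rw [h1]
    exact (key a).nn.add (LEC.nn_C _)
  refine ⟨fun a ha => ?_, fun a => ⟨fun hp ha => ?_, fun hs => ?_⟩⟩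
  · rw [hv _ ha]
    exact LEC.order_of_nn (hint a)
  · rw [hv _ ha]
    have h1 := key a
    rw [(hε a).1 hp, map_zero, map_zero, sub_zero] at h1
    refine LEC.order_of_pos h1 ?_
    intro h2
    exact ha ((map_eq_zero Φ).1 h2)
  · rw [hε]
    by_cases ha : (a : K) = 0
    · have : a = 0 := Subtype.ext ha
      rw [this, map_zero]
    · have h1 := hs ha
      rw [hv _ ha] at h1
      have h2 := key a 0 le_rfl
      rw [HahnSeries.coeff_sub, HahnSeries.coeff_eq_zero_of_lt_order h1, LEC.coeff_C_zero,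
        zero_sub, neg_eq_zero] at h2
      exact (map_eq_zero _).1 h2

theorem pos_C_mul (a : E) {f : LaurentSeries E} (hf : Pos f) : Pos (HahnSeries.C a * f) := by
  intro n hn
  rw [HahnSeries.C_mul_eq_smul, HahnSeries.coeff_smul, hf n hn, smul_zero]

/-- a sum of elements with leading terms -/
theorem ld_sum {ι : Type*} (S : Finset ι) {a : ι → LaurentSeries E} {r : ℤ} {e : ι → E}
    (h : ∀ i ∈ S, Ser.Ld (a i) r (e i)) : Ser.Ld (∑ i ∈ S, a i) r (∑ i ∈ S, e i) := by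
  induction S using Finset.induction_on with
  | empty =>
    rw [Finset.sum_empty, Finset.sum_empty]
    exact ⟨0, by rw [mul_zero], Ser.R.zero⟩
  | insert i S hi ih =>
    rw [Finset.sum_insert hi, Finset.sum_insert hi]
    obtain ⟨b, hb, hb'⟩ := h i (Finset.mem_insert_self i S)
    obtain ⟨d, hd, hd'⟩ := ih fun j hj => h j (Finset.mem_insert_of_mem hj)
    exact ⟨b + d, by rw [hb, hd, mul_add], hb'.add hd'⟩

theorem prod_zpow_const {L : Type*} [Field L] {ι : Type*} {a : L} (h : a ≠ 0) (s : Finset ι)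
    (b : ι → ℤ) : ∏ i ∈ s, a ^ b i = a ^ ∑ i ∈ s, b i := by
  induction s using Finset.induction_on with
  | empty => simp
  | insert a s ha ih => rw [Finset.prod_insert ha, Finset.sum_insert ha, zpow_add₀ h, ih]

theorem prod_ne {L : Type*} [Field L] {ι κ : Type*} [Fintype ι] [Fintype κ] (q : ι → L)
    (hq : ∀ i, q i ≠ 0) (X : κ → L) (hX : ∀ j, X j ≠ 0) (a : ι → ℤ) (u : κ → ℤ) :
    (∏ i, q i ^ a i) * ∏ j, X j ^ u j ≠ 0 :=
  mul_ne_zero (Finset.prod_ne_zero_iff.2 fun i _ => zpow_ne_zero _ (hq i))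
    (Finset.prod_ne_zero_iff.2 fun i _ => zpow_ne_zero _ (hX i))

/-- derivative of a monomial -/
theorem der_mon {L : Type*} [Field L] [Algebra k L] (D : Derivation k L L) {ι κ : Type*}
    [Fintype ι] [Fintype κ] (q : ι → L) (hq : ∀ i, q i ≠ 0) (hDq : ∀ i, D (q i) = 0)
    (X : κ → L) (hX : ∀ j, X j ≠ 0) (ξ : κ → L) (hDX : ∀ j, D (X j) = X j * ξ j)
    (a : ι → ℤ) (u : κ → ℤ) :
    D ((∏ i, q i ^ a i) * ∏ j, X j ^ u j) =
      ((∏ i, q i ^ a i) * ∏ j, X j ^ u j) * ∑ j, (u j : L) * ξ j := by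
  have h1 : ∏ i, q i ^ a i ≠ 0 := Finset.prod_ne_zero_iff.2 fun i _ => zpow_ne_zero _ (hq i)
  have h2 : ∏ j, X j ^ u j ≠ 0 := Finset.prod_ne_zero_iff.2 fun i _ => zpow_ne_zero _ (hX i)
  have h := Phi2.ld_mul D h1 h2
  rw [Phi2.ld_prod D _ fun i _ => zpow_ne_zero _ (hq i),
    Phi2.ld_prod D _ fun i _ => zpow_ne_zero _ (hX i)] at h
  have h3 : ∑ i, D (q i ^ a i) / q i ^ a i = 0 := by
    refine Finset.sum_eq_zero fun i _ => ?_
    rw [Phi2.ld_zpow D (hq i), hDq, zero_div, mul_zero]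
  have h4 : ∑ j, D (X j ^ u j) / X j ^ u j = ∑ j, (u j : L) * ξ j := by
    refine Finset.sum_congr rfl fun j _ => ?_
    rw [Phi2.ld_zpow D (hX j), hDX, mul_div_cancel_left₀ _ (hX j)]
  rw [h3, h4, zero_add, div_eq_iff (mul_ne_zero h1 h2)] at h
  rw [h, mul_comm]

theorem der_term {L : Type*} [Field L] [Algebra k L] (D : Derivation k L L) {a s u : L}
    (ha : D a = 0) (hs : D s = 0) (hs0 : s ≠ 0) (hu : D u = 0) (z : ℤ) :
    D (a * (s ^ z * u)) = 0 := by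
  have h1 := Phi2.der_zpow D (s := s) (q := 0) hs0 (by rw [hs, zero_mul]) z
  rw [mul_zero, zero_mul] at h1
  rw [Derivation.leibniz, ha, smul_zero, add_zero, Derivation.leibniz, hu, smul_zero, zero_add,
    h1, smul_zero, smul_zero]

/-- an element of positive order whose image under an inner derivation has order one -/
theorem ord_one_of {L : Type*} [Field L] [Algebra k L] {V : Phi2.VD L} (D : Derivation k L L)
    (s : L) (hs : s ≠ 0) (hso : V.ord s = 1) (hDs : D s = 0)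
    (hD : ∀ f, V.P 0 f → V.P 0 (D f)) (f : L) (hf : V.P 1 f) (h1 : D f ≠ 0)
    (h2 : V.ord (D f) = 1) : f ≠ 0 ∧ V.ord f = 1 := by
  have h0 : f ≠ 0 := by
    intro h
    rw [h, map_zero] at h1
    exact h1 rfl
  refine ⟨h0, le_antisymm ?_ (V.to_ord 1 f h0 hf)⟩
  by_contra hcon
  push Not at hcon
  have hs2 : s * s ≠ 0 := mul_ne_zero hs hs
  have hfg : f = s * s * (f / (s * s)) := by
    rw [mul_div_cancel₀ _ hs2]
  set g := f / (s * s) with hg
  have hg0 : g ≠ 0 := div_ne_zero h0 hs2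
  have hDss : D (s * s) = 0 := by
    rw [Derivation.leibniz, hDs, smul_zero, add_zero]
  have hDf : D f = s * s * D g := by
    rw [hfg, Derivation.leibniz, hDss, smul_zero, add_zero, smul_eq_mul]
  have hDg : D g ≠ 0 := by
    intro h
    rw [hDf, h, mul_zero] at h1
    exact h1 rfl
  have e1 : V.ord f = 1 + 1 + V.ord g := by
    conv_lhs => rw [hfg]
    rw [V.ord_mul _ _ hs2 hg0, V.ord_mul _ _ hs hs, hso]
  have e2 : V.ord (D f) = 1 + 1 + V.ord (D g) := by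
    rw [hDf, V.ord_mul _ _ hs2 hDg, V.ord_mul _ _ hs hs, hso]
  have e3 : 0 ≤ V.ord (D g) := V.to_ord 0 _ hDg (hD g (V.of_ord 0 g (by omega)))
  omega

end Gen

section Cen
variable {k : Type u} [Field k] [IsAlgClosed k] [CharZero k] {K : Type v} [Field K] [Algebra k K]
  {C : RA k K c m r} {E : Type w} [Field E] [Algebra k E]

theorem pos_of_mon (hc : c < r) (X : AV C) (Φ : K →ₐ[k] LaurentSeries E) (ε : X.A →ₐ[k] k)
    (h : ∀ M (hM : C.mon M ∈ X.A), deg M = 0 →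
      Pos (Φ (C.mon M) - HahnSeries.C (algebraMap k E (ε ⟨C.mon M, hM⟩)))) (a : X.A) :
    Pos (Φ (a : K) - HahnSeries.C (algebraMap k E (ε a))) := by
  have key : ∀ b ∈ Submodule.span k (C.mon '' X.MX), ∃ hb : b ∈ X.A,
      Pos (Φ b - HahnSeries.C (algebraMap k E (ε ⟨b, hb⟩))) := by
    intro b hb
    induction hb using Submodule.span_induction with
    | mem x hx =>
      obtain ⟨M, hM, rfl⟩ := hx
      exact ⟨hM.2, h M hM.2 hM.1⟩
    | zero =>
      refine ⟨X.A.zero_mem, ?_⟩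
      have h0 : (⟨0, X.A.zero_mem⟩ : X.A) = 0 := rfl
      rw [h0, map_zero, map_zero, map_zero, map_zero, sub_zero]
      exact Pos.zero
    | add x y _ _ hx hy =>
      obtain ⟨hx, hx'⟩ := hx
      obtain ⟨hy, hy'⟩ := hy
      refine ⟨X.A.add_mem hx hy, ?_⟩
      have h0 : (⟨x + y, X.A.add_mem hx hy⟩ : X.A) = ⟨x, hx⟩ + ⟨y, hy⟩ := rfl
      rw [h0, map_add, map_add, map_add, map_add, add_sub_add_comm]
      exact hx'.add hy'
    | smul b x _ hx =>
      obtain ⟨hx, hx'⟩ := hx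
      refine ⟨X.A.smul_mem hx b, ?_⟩
      have h0 : (⟨b • x, X.A.smul_mem hx b⟩ : X.A) = b • ⟨x, hx⟩ := rfl
      have e1 : Φ (b • x) = HahnSeries.C (algebraMap k E b) * Φ x := by
        rw [Algebra.smul_def, map_mul, AlgHom.commutes, PHI1.algebraMap_laurent]
      have e2 : ε (b • ⟨x, hx⟩) = b * ε ⟨x, hx⟩ := by rw [map_smul, smul_eq_mul]
      rw [h0, e1, e2, map_mul, map_mul, ← mul_sub]
      exact pos_C_mul _ hx'
  exact (key _ (mem_span hc X a)).2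

end Cen

section Quot
variable {k : Type u} [Field k] [CharZero k] {K : Type v} [Field K] [Algebra k K]
  {C : RA k K c m r} {V : Vec r m} (F : Fr C V)

omit [CharZero k] in
theorem g_ne (j : Fin (c + 1)) : F.g j ≠ 0 := by
  intro h
  apply F.det
  apply Matrix.det_eq_zero_of_row_eq_zero j
  intro i
  rw [Matrix.of_apply, h]
  rfl

theorem lin_g_ne (j : Fin (c + 1)) : C.lin (F.g j) ≠ 0 := lin_ne C _ (g_ne F j)

/-- the expansion of `ℓ_Q / g_0` -/
theorem quot_eq (R : RF k K (m + c))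
    (hR : R.y = Fin.append C.x (fun i => C.lin (F.g i.succ) / C.lin (F.g 0))) (Q : Fin r) :
    C.ell Q / C.lin (F.g 0) = ∑ j, algebraMap k K (F.la Q j) *
      (Fin.cons 1 (fun a => R.y (Fin.natAdd m a)) : Fin (c + 1) → K) j := by
  have h1 : C.ell Q = ∑ j, algebraMap k K (F.la Q j) * C.lin (F.g j) := by
    unfold RA.ell
    rw [F.exp Q, lin_sum]
  rw [h1, Finset.sum_div]
  refine Finset.sum_congr rfl fun j _ => ?_
  rw [mul_div_assoc]
  congr 1
  refine Fin.cases ?_ (fun a => ?_) j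
  · rw [Fin.cons_zero, div_self (lin_g_ne F 0)]
  · rw [Fin.cons_succ, hR, Fin.append_right]

variable {G : Type w} [Field G] [Algebra k G] (U : Fin c → G) (R : RF k K (m + c))
  (hR : R.y = Fin.append C.x (fun i => C.lin (F.g i.succ) / C.lin (F.g 0)))
  (Φ : K →ₐ[k] LL G m)
  (hΦz : ∀ a, Φ (R.y (Fin.natAdd m a)) = ss G m ^ F.e a * cc G m (U a))
include hR hΦz

theorem phi_quot (Q : Fin r) : Φ (C.ell Q / C.lin (F.g 0)) =
    ∑ j, cc G m (algebraMap k G (F.la Q j)) *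
      (ss G m ^ ((Fin.cons 0 F.e : Fin (c + 1) → ℤ) j) *
        cc G m ((Fin.cons 1 U : Fin (c + 1) → G) j)) := by
  rw [quot_eq F R hR, map_sum]
  refine Finset.sum_congr rfl fun j _ => ?_
  rw [map_mul, AlgHom.commutes, PHI1.algebraMap_laurent]
  congr 1
  refine Fin.cases ?_ (fun a => ?_) j
  · rw [Fin.cons_zero, Fin.cons_zero, Fin.cons_zero, map_one, map_one, zpow_zero, mul_one]
  · rw [Fin.cons_succ, Fin.cons_succ, Fin.cons_succ, hΦz]

theorem ld_quot (Q : Fin r) :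
    Ser.Ld (Φ (C.ell Q / C.lin (F.g 0))) (V.1 Q) (HahnSeries.C (F.t U Q) : EE G m) := by
  rw [phi_quot F U R hR Φ hΦz, Fr.t, map_sum]
  refine ld_sum _ fun j _ => ?_
  have h0 : ∀ a : G, Ser.Ld (cc G m a) 0 (HahnSeries.C a : EE G m) := fun a =>
    Ser.Ld.of_R (Ser.R.C _)
  have h1 : Ser.Ld (cc G m (algebraMap k G (F.la Q j)) *
      (ss G m ^ ((Fin.cons 0 F.e : Fin (c + 1) → ℤ) j) *
        cc G m ((Fin.cons 1 U : Fin (c + 1) → G) j)))
      ((Fin.cons 0 F.e : Fin (c + 1) → ℤ) j)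
      (HahnSeries.C (algebraMap k G (F.la Q j) * (Fin.cons 1 U : Fin (c + 1) → G) j) : EE G m) := by
    have h2 := (h0 (algebraMap k G (F.la Q j))).mul
      ((Ser.Ld.s_zpow ((Fin.cons 0 F.e : Fin (c + 1) → ℤ) j)).mul
        (h0 ((Fin.cons 1 U : Fin (c + 1) → G) j)))
    rw [zero_add, add_zero, one_mul, ← map_mul] at h2
    exact h2
  by_cases hla : F.la Q j = 0
  · refine ⟨0, ?_, ?_⟩
    · rw [hla, map_zero, map_zero, zero_mul, mul_zero]
    · rw [hla, map_zero, zero_mul, ite_self, map_zero]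
      exact Ser.R.zero
  · have hle := F.lo Q j hla
    by_cases he : (Fin.cons 0 F.e : Fin (c + 1) → ℤ) j = V.1 Q
    · rw [if_pos he]
      rw [he] at h1 ⊢
      exact h1
    · rw [if_neg he, map_zero]
      obtain ⟨b, hb, hb'⟩ := h1
      have hlt : 0 < (Fin.cons 0 F.e : Fin (c + 1) → ℤ) j - V.1 Q := by omega
      refine ⟨Ser.s (EE G m) ^ ((Fin.cons 0 F.e : Fin (c + 1) → ℤ) j - V.1 Q) * b, ?_, ?_⟩
      · rw [hb, ← mul_assoc, ← zpow_add₀ Ser.s_ne]
        congr 2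
        ring
      · exact Ser.Ld.R_of_pos ⟨b, rfl, hb'⟩ hlt

theorem quot_ord (hU : AlgebraicIndependent k U) (Q : Fin r) :
    Φ (C.ell Q / C.lin (F.g 0)) ≠ 0 ∧ (Φ (C.ell Q / C.lin (F.g 0))).order = V.1 Q := by
  have h := ld_quot F U R hR Φ hΦz Q
  have hne : (HahnSeries.C (F.t U Q) : EE G m) ≠ 0 := by
    rw [Ne, map_eq_zero]
    exact t_ne F U hU Q
  exact ⟨h.ne_zero hne, h.order_eq hne⟩

omit [CharZero k] hΦz in
/-- the image of a monomial of degree zero -/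
theorem phi_mon (hg : C.lin (F.g 0) ≠ 0) (M : Vec r m) (hM : deg M = 0) :
    Φ (C.mon M) = (∏ Q, Φ (C.ell Q / C.lin (F.g 0)) ^ M.1 Q) *
      ∏ j, Φ (R.y (Fin.castAdd c j)) ^ M.2 j := by
  have h1 : ∏ Q, C.ell Q ^ M.1 Q = ∏ Q, (C.ell Q / C.lin (F.g 0)) ^ M.1 Q := by
    have h2 : ∏ Q, (C.ell Q / C.lin (F.g 0)) ^ M.1 Q =
        (∏ Q, C.ell Q ^ M.1 Q) / ∏ Q, C.lin (F.g 0) ^ M.1 Q := by
      rw [← Finset.prod_div_distrib]
      exact Finset.prod_congr rfl fun Q _ => div_zpow _ _ _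
    have h3 : ∏ Q, C.lin (F.g 0) ^ M.1 Q = 1 := by
      rw [prod_zpow_const hg]
      have h4 : ∑ Q, M.1 Q = 0 := hM
      rw [h4, zpow_zero]
    rw [h2, h3, div_one]
  unfold RA.mon
  rw [h1, map_mul, map_prod, map_prod]
  congr 1
  · exact Finset.prod_congr rfl fun Q _ => by rw [map_zpow₀]
  · refine Finset.prod_congr rfl fun j _ => ?_
    rw [map_zpow₀, hR, Fin.append_left]

/-- an element of order exactly one in the case of positive rank -/
theorem one_rk (hU : AlgebraicIndependent k U) (cf : Fin m → G)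
    (hcf : ∀ j, cf j ≠ 0) (β : Matrix (Fin m) (Fin m) ℤ) (I : Finset (Fin m))
    (hΦx : ∀ j, Φ (R.y (Fin.castAdd c j)) = xi cf V.2 β I j) (M : Vec r m) (hM : deg M = 0)
    (i : Fin m) (hi : i ∈ I) (hβ : ∑ j, β i j * M.2 j ≠ 0) (hord : (Φ (C.mon M)).order = 0)
    (a : k) (hpos : Pos (Φ (C.mon M) - HahnSeries.C (algebraMap k (EE G m) a))) :
    C.mon M - algebraMap k K a ≠ 0 ∧ (Φ (C.mon M - algebraMap k K a)).order = 1 := by
  have : CharZero G := charZero_of_injective_algebraMap (algebraMap k G).injective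
  have hd := Phi2.dat (F := G) (m := m) cf hcf
  obtain ⟨D, d1, d2, d3, d4⟩ := Phi2.exists_e (k := k) (F := G) (m := m) i
  have hq0 : ∀ Q, Φ (C.ell Q / C.lin (F.g 0)) ≠ 0 := fun Q => (quot_ord F U R hR Φ hΦz hU Q).1
  have hq : ∀ Q, D (Φ (C.ell Q / C.lin (F.g 0))) = 0 := by
    intro Q
    rw [phi_quot F U R hR Φ hΦz, map_sum]
    exact Finset.sum_eq_zero fun j _ => der_term D (d2 _) d3 hd.sne (d2 _) _
  have hX : ∀ j, D (xi cf V.2 β I j) = xi cf V.2 β I j *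
      (((β i j : ℤ) : LL G m) * Phi2.akk (ss G m) (TL G m) I i) := fun j =>
    Phi2.e_axi hd (fun j => d2 _) d3 d4 V.2 β I j
  have hmon := phi_mon F R hR Φ (lin_g_ne F 0) M hM
  simp only [hΦx] at hmon
  have hD := der_mon D _ hq0 hq (fun j => xi cf V.2 β I j) (fun j => Phi2.axi_ne hd V.2 β I j)
    _ hX M.1 M.2
  rw [← hmon] at hD
  have hsum : ∑ j, (M.2 j : LL G m) * (((β i j : ℤ) : LL G m) *
      Phi2.akk (ss G m) (TL G m) I i) =
      ((∑ j, β i j * M.2 j : ℤ) : LL G m) * Phi2.akk (ss G m) (TL G m) I i := by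
    push_cast
    rw [Finset.sum_mul]
    exact Finset.sum_congr rfl fun j _ => by ring
  rw [hsum] at hD
  have hf0 : Φ (C.mon M) ≠ 0 := by
    rw [hmon]
    exact prod_ne _ hq0 (fun j => xi cf V.2 β I j) (fun j => Phi2.axi_ne hd V.2 β I j) _ _
  have hb0 : ((∑ j, β i j * M.2 j : ℤ) : LL G m) ≠ 0 := hd.ine _ hβ
  have hbo : (vd (EE G m)).ord ((∑ j, β i j * M.2 j : ℤ) : LL G m) = 0 := hd.iord _ hβ
  have hk0 := Phi2.akk_ne hd I i
  have hko := Phi2.akk_ord hd I i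
  rw [if_pos hi] at hko
  have hΦf : Φ (C.mon M - algebraMap k K a) = Φ (C.mon M) - cc G m (algebraMap k G a) := by
    rw [map_sub, AlgHom.commutes, PHI1.algebraMap_laurent]
    rfl
  have hDf : D (Φ (C.mon M - algebraMap k K a)) = D (Φ (C.mon M)) := by
    rw [hΦf, map_sub, d2, sub_zero]
  have hDne : D (Φ (C.mon M)) ≠ 0 := by
    rw [hD]
    exact mul_ne_zero hf0 (mul_ne_zero hb0 hk0)
  have hDo : (vd (EE G m)).ord (D (Φ (C.mon M))) = 1 := by
    rw [hD, (vd (EE G m)).ord_mul _ _ hf0 (mul_ne_zero hb0 hk0),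
      (vd (EE G m)).ord_mul _ _ hb0 hk0, hbo, hko]
    have h3 : (vd (EE G m)).ord (Φ (C.mon M)) = 0 := hord
    rw [h3]
    norm_num
  have hP : (vd (EE G m)).P 1 (Φ (C.mon M - algebraMap k K a)) := by
    intro γ hγ
    rw [hΦf]
    exact hpos γ (by omega)
  obtain ⟨h4, h5⟩ := ord_one_of D (ss G m) hd.sne hd.sord d3 d1 _ hP (by rw [hDf]; exact hDne)
    (by rw [hDf]; exact hDo)
  refine ⟨?_, h5⟩
  intro h6
  rw [h6, map_zero] at h4
  exact h4 rfl

end Quot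

end Lec

namespace Lec

section SM
variable {k : Type u} [Field k] {K : Type v} [Field K] [Algebra k K] {C : RA k K c m r}

theorem mem_S (X : AV C) (p : Ideal X.A) (ε : X.A →ₐ[k] k) (hε : ∀ a, a ∈ p ↔ ε a = 0)
    (M : Vec r m) : M ∈ X.S p ↔ deg M = 0 ∧ ∃ h : C.mon M ∈ X.A, ε ⟨C.mon M, h⟩ ≠ 0 := by
  unfold AV.S
  rw [Set.mem_ofPred_eq]
  refine and_congr_right fun _ => exists_congr fun h => ?_
  rw [hε]

/-- the value of a monomial at the point (`1` if the monomial is not in the ring) -/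
def ev (X : AV C) (ε : X.A →ₐ[k] k) (M : Vec r m) : k :=
  if h : C.mon M ∈ X.A then ε ⟨C.mon M, h⟩ else 1

theorem ev_eq (X : AV C) (ε : X.A →ₐ[k] k) {M : Vec r m} (h : C.mon M ∈ X.A) :
    ev X ε M = ε ⟨C.mon M, h⟩ := dif_pos h

end SM

section CH
variable {k : Type u} [Field k] [IsAlgClosed k] [CharZero k] {K : Type v} [Field K] [Algebra k K]
  {C : RA k K c m r}

theorem S_add (hc : c < r) (X : AV C) (p : Ideal X.A) (ε : X.A →ₐ[k] k)
    (hε : ∀ a, a ∈ p ↔ ε a = 0) {M N : Vec r m} (hM : M ∈ X.S p) (hN : N ∈ X.S p) :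
    M + N ∈ X.S p ∧ ev X ε (M + N) = ev X ε M * ev X ε N := by
  obtain ⟨hM0, hMA, hM1⟩ := (mem_S X p ε hε M).1 hM
  obtain ⟨hN0, hNA, hN1⟩ := (mem_S X p ε hε N).1 hN
  have h1 : C.mon (M + N) ∈ X.A := by
    rw [mon_add hc]
    exact X.A.mul_mem hMA hNA
  have h2 : (⟨C.mon (M + N), h1⟩ : X.A) = ⟨C.mon M, hMA⟩ * ⟨C.mon N, hNA⟩ :=
    Subtype.ext (mon_add hc M N)
  have h3 : ε ⟨C.mon (M + N), h1⟩ = ε ⟨C.mon M, hMA⟩ * ε ⟨C.mon N, hNA⟩ := by
    rw [h2, map_mul]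
  refine ⟨(mem_S X p ε hε _).2 ⟨by rw [deg_add, hM0, hN0, add_zero], h1, ?_⟩, ?_⟩
  · rw [h3]
    exact mul_ne_zero hM1 hN1
  · rw [ev_eq X ε h1, ev_eq X ε hMA, ev_eq X ε hNA, h3]

theorem S_zero (X : AV C) (p : Ideal X.A) (ε : X.A →ₐ[k] k) (hε : ∀ a, a ∈ p ↔ ε a = 0) :
    (0 : Vec r m) ∈ X.S p := by
  have h1 : C.mon 0 = 1 := mon_zero
  have h2 : C.mon 0 ∈ X.A := by
    rw [h1]
    exact X.A.one_mem
  refine (mem_S X p ε hε _).2 ⟨deg_zero, h2, ?_⟩
  have h3 : (⟨C.mon 0, h2⟩ : X.A) = 1 := Subtype.ext h1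
  rw [h3, map_one]
  exact one_ne_zero

/-- the character and the exponents -/
theorem setup (hc : c < r) (X : AV C) (p : Ideal X.A) (ε : X.A →ₐ[k] k)
    (hε : ∀ a, a ∈ p ↔ ε a = 0) (V : Vec r m) (F : Fr C V)
    (hS : ∀ M ∈ X.MX, pair V M = 0 ↔ M ∈ X.S p)
    (hcons : ¬ HasPair (X.S p) ∨ (∀ a, 1 ≤ F.e a) ∧
      ∀ M N (hM : C.mon M ∈ X.A) (hN : C.mon N ∈ X.A), M ∈ X.S p → N ∈ X.S p →
        M.2 = N.2 → (∀ Q ∈ supp V, M.1 Q = N.1 Q) ∧
        ε ⟨_, hM⟩ = ε ⟨_, hN⟩ * ∏ Q ∈ (supp V)ᶜ, F.la Q 0 ^ (M.1 Q - N.1 Q))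
    {G : Type w} [Field G] [IsAlgClosed G] [Algebra k G] (U : Fin c → G)
    (hU : AlgebraicIndependent k U) (δ : Fin c → Derivation k G G)
    (hδ : ∀ a b, δ a (U b) = if a = b then U b else 0) :
    ∃ (β : Matrix (Fin m) (Fin m) ℤ) (I : Finset (Fin m)) (cf ν : Fin m → G),
      β.det ≠ 0 ∧ I.card = rk (X.S p) ∧
      (∀ M ∈ X.S p, ∀ i ∉ I, ∑ j, β i j * M.2 j = 0) ∧
      (∀ i ∈ I, ∃ M ∈ X.S p, ∑ j, β i j * M.2 j ≠ 0) ∧ (∀ j, cf j ≠ 0) ∧
      (∀ M ∈ X.S p, (∏ Q, F.t U Q ^ M.1 Q) * ∏ j, cf j ^ M.2 j =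
        algebraMap k G (ev X ε M)) ∧
      ∀ j, (V.2 j : G) - (∑ a, (F.e a : G) * (δ a (cf j) / cf j)) =
        ∑ i ∈ Iᶜ, ν i * (β i j : G) := by
  have hSd := mem_S X p ε hε
  have ht : ∀ Q, F.t U Q ≠ 0 := t_ne F U hU
  let ψ : Vec r m → G := fun M => algebraMap k G (ev X ε M) / ∏ Q, F.t U Q ^ M.1 Q
  have hψd : ∀ M, ψ M = algebraMap k G (ev X ε M) / ∏ Q, F.t U Q ^ M.1 Q := fun M => rfl
  have htp : ∀ M : Vec r m, ∏ Q, F.t U Q ^ M.1 Q ≠ 0 := fun M =>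
    Finset.prod_ne_zero_iff.2 fun Q _ => zpow_ne_zero _ (ht Q)
  have hevS : ∀ M ∈ X.S p, ev X ε M ≠ 0 := by
    intro M hM
    obtain ⟨-, h, h'⟩ := (hSd M).1 hM
    rw [ev_eq X ε h]
    exact h'
  have hψne : ∀ M ∈ X.S p, ψ M ≠ 0 := fun M hM =>
    div_ne_zero ((map_ne_zero _).2 (hevS M hM)) (htp M)
  have hψmul : ∀ M ∈ X.S p, ∀ N ∈ X.S p, ψ (M + N) = ψ M * ψ N := by
    intro M hM N hN
    rw [hψd, hψd, hψd, (S_add hc X p ε hε hM hN).2, map_mul, div_mul_div_comm]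
    congr 1
    rw [← Finset.prod_mul_distrib]
    refine Finset.prod_congr rfl fun Q _ => ?_
    rw [← zpow_add₀ (ht Q)]
    rfl
  have hψwd : ∀ M ∈ X.S p, ∀ N ∈ X.S p, M.2 = N.2 → ψ M = ψ N := by
    intro M hM N hN h2
    rcases hcons with hnp | ⟨he, hcons⟩
    · have h1 : M.1 = N.1 := by
        by_contra h
        exact hnp ⟨M, hM, N, hN, h2, h⟩
      have h3 : M = N := Prod.ext h1 h2
      rw [h3]
    · obtain ⟨-, hMA, hM1⟩ := (hSd M).1 hM
      obtain ⟨-, hNA, hN1⟩ := (hSd N).1 hN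
      obtain ⟨h3, h4⟩ := hcons M N hMA hNA hM hN h2
      rw [hψd, hψd, div_eq_div_iff (htp M) (htp N), ev_eq X ε hMA, ev_eq X ε hNA, h4, map_mul,
        map_prod]
      have h5 : ∀ Q ∈ (supp V)ᶜ, algebraMap k G (F.la Q 0 ^ (M.1 Q - N.1 Q)) =
          F.t U Q ^ (M.1 Q - N.1 Q) := by
        intro Q hQ
        have hQ0 : V.1 Q = 0 := by
          rw [Finset.mem_compl, mem_supp, not_not] at hQ
          exact hQ
        have h6 : F.t U Q = algebraMap k G (F.la Q 0) := by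
          unfold Fr.t
          rw [Fin.sum_univ_succ, Fin.cons_zero, hQ0, if_pos rfl, Fin.cons_zero, mul_one,
            Finset.sum_eq_zero, add_zero]
          intro a _
          rw [Fin.cons_succ, if_neg]
          have := he a
          omega
        rw [h6, map_zpow₀]
      rw [Finset.prod_congr rfl h5]
      have h7 : ∏ Q ∈ (supp V)ᶜ, F.t U Q ^ (M.1 Q - N.1 Q) =
          ∏ Q, F.t U Q ^ (M.1 Q - N.1 Q) := by
        apply Finset.prod_subset (Finset.subset_univ _)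
        intro Q _ hQ
        have hQ' : Q ∈ supp V := by
          by_contra h
          exact hQ (Finset.mem_compl.2 h)
        rw [h3 Q hQ', sub_self, zpow_zero]
      have h8 : ∏ Q, F.t U Q ^ M.1 Q = (∏ Q, F.t U Q ^ (M.1 Q - N.1 Q)) *
          ∏ Q, F.t U Q ^ N.1 Q := by
        rw [← Finset.prod_mul_distrib]
        refine Finset.prod_congr rfl fun Q _ => ?_
        rw [← zpow_add₀ (ht Q), sub_add_cancel]
      rw [h7, h8]
      ring
  let E : Derivation k G G := ∑ a, (F.e a : G) • δ a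
  have hEapp : ∀ x, E x = ∑ a, (F.e a : G) * δ a x := by
    intro x
    have h := Phi2.der_sum Finset.univ (fun a => (F.e a : G) • δ a) x
    exact h
  have hEU : ∀ a, E (U a) = (F.e a : G) * U a := by
    intro b
    rw [hEapp, Finset.sum_eq_single b]
    · rw [hδ, if_pos rfl]
    · intro a _ hab
      rw [hδ, if_neg hab, mul_zero]
    · intro h
      exact absurd (Finset.mem_univ b) h
  have hEt : ∀ Q, E (F.t U Q) = (V.1 Q : G) * F.t U Q := t_euler F U E hEU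
  have hEψ : ∀ M ∈ X.S p, E (ψ M) = ((∑ i, V.2 i * M.2 i : ℤ) : G) * ψ M := by
    intro M hM
    have hd : ψ M = ψ M := rfl
    have h1 : E (∏ Q, F.t U Q ^ M.1 Q) = ((∑ Q, V.1 Q * M.1 Q : ℤ) : G) *
        ∏ Q, F.t U Q ^ M.1 Q := by
      have h2 := Phi2.ld_prod E Finset.univ (f := fun Q => F.t U Q ^ M.1 Q)
        fun Q _ => zpow_ne_zero _ (ht Q)
      rw [div_eq_iff (htp M)] at h2
      rw [h2]
      congr 1
      push_cast
      refine Finset.sum_congr rfl fun Q _ => ?_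
      rw [Phi2.ld_zpow E (ht Q), hEt, mul_div_assoc, div_self (ht Q), mul_one, mul_comm]
    have h3 : ψ M * ∏ Q, F.t U Q ^ M.1 Q = algebraMap k G (ev X ε M) := by
      rw [hψd, div_mul_cancel₀ _ (htp M)]
    have h4 : E (ψ M * ∏ Q, F.t U Q ^ M.1 Q) = 0 := by
      rw [h3]
      exact Derivation.map_algebraMap E _
    rw [Derivation.leibniz, h1, smul_eq_mul, smul_eq_mul] at h4
    have h5 : pair V M = 0 := by
      obtain ⟨hM0, hMA, hM1⟩ := (hSd M).1 hM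
      exact (hS M ⟨hM0, hMA⟩).2 hM
    have h6 : ((∑ Q, V.1 Q * M.1 Q : ℤ) : G) = -((∑ i, V.2 i * M.2 i : ℤ) : G) := by
      have h7 : ∑ Q, V.1 Q * M.1 Q = -∑ i, V.2 i * M.2 i := by
        have h8 : ∑ Q, V.1 Q * M.1 Q + ∑ i, V.2 i * M.2 i = 0 := h5
        omega
      rw [h7]
      push_cast
      ring
    rw [h6] at h4
    have h9 : (∏ Q, F.t U Q ^ M.1 Q) *
        (E (ψ M) - ((∑ i, V.2 i * M.2 i : ℤ) : G) * ψ M) = 0 := by
      linear_combination h4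
    exact sub_eq_zero.1 ((mul_eq_zero.1 h9).resolve_left (htp M))
  obtain ⟨β, I, cf, ν, hβ, hIcard, hIS, hI, hcf, hψ, hν⟩ := char_data (X.S p)
    (S_zero X p ε hε) (fun M hM N hN => (S_add hc X p ε hε hM hN).1) ψ hψne hψmul hψwd E V.2 hEψ
  refine ⟨β, I, cf, ν, hβ, hIcard, hIS, hI, hcf, fun M hM => ?_, fun j => ?_⟩
  · rw [hψ M hM, hψd, mul_div_cancel₀ _ (htp M)]
  · rw [← hν j, hEapp, Finset.sum_div]
    congr 1
    exact Finset.sum_congr rfl fun a _ => (mul_div_assoc _ _ _).symm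

end CH

end Lec

section LEC
variable {k : Type u} [Field k] [IsAlgClosed k] [CharZero k] {K : Type v} [Field K] [Algebra k K]
  {C : RA k K c m r}

theorem le_core (hc : c < r) (X : AV C) (y : MaximalSpectrum X.A) (ε : X.A →ₐ[k] k)
    (hε : ∀ a, a ∈ y.asIdeal ↔ ε a = 0) (V : Vec r m) (F : Fr C V)
    (hA : ∀ M ∈ X.MX, 0 ≤ pair V M) (hS : ∀ M ∈ X.MX, pair V M = 0 ↔ M ∈ X.S y.asIdeal)
    (hcons : ¬ HasPair (X.S y.asIdeal) ∨ (∀ a, 1 ≤ F.e a) ∧
      ∀ M N (hM : C.mon M ∈ X.A) (hN : C.mon N ∈ X.A), M ∈ X.S y.asIdeal → N ∈ X.S y.asIdeal →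
        M.2 = N.2 → (∀ Q ∈ supp V, M.1 Q = N.1 Q) ∧
        ε ⟨_, hM⟩ = ε ⟨_, hN⟩ * ∏ Q ∈ (supp V)ᶜ, F.la Q 0 ^ (M.1 Q - N.1 Q))
    (hone : 1 ≤ rk (X.S y.asIdeal) ∨ (∃ a, F.e a = 1) ∨ ∃ M, deg M = 0 ∧ pair V M = 1) :
    ∃ (v : DVal k K) (j : ℤ), v.HasCenter X.A y.asIdeal ∧ v.FormOrd C.D j ∧ HasTrop C V v ∧
      j + 1 ≤ ∑ a, F.e a + ∑ i, V.2 i + rk (X.S y.asIdeal) - (c + 1) * V.1 (C.o 0) := by
  have hSd := Lec.mem_S X y.asIdeal ε hε
  -- the frame
  obtain ⟨R, hR, hJR⟩ := frame C F.g F.det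
  have hne : ∀ i, R.y i ≠ 0 := by
    intro i
    rw [hR]
    refine Fin.addCases (fun j => ?_) (fun a => ?_) i
    · rw [Fin.append_left]
      exact x_ne C j
    · rw [Fin.append_right]
      exact div_ne_zero (Lec.lin_g_ne F _) (Lec.lin_g_ne F _)
  obtain ⟨U, δ, -, hU0, hδ, hU⟩ := euler_ders R hne
  obtain ⟨β, I, cf, ν, hβ, hIcard, hIS, hI, hcf, hψ, hν⟩ :=
    Lec.setup hc X y.asIdeal ε hε V F hS hcons U hU δ hδ
  have hIne : 1 ≤ rk (X.S y.asIdeal) → ∃ i, i ∈ I := by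
    intro h
    rw [← hIcard] at h
    exact Finset.card_pos.1 h
  have hne' : (∃ i, i ∈ I) ∨ (∃ a, F.e a ≠ 0) ∨ ∃ j, V.2 j ≠ 0 := by
    rcases hone with h | ⟨a, ha⟩ | ⟨M, hM0, hM1⟩
    · exact Or.inl (hIne h)
    · exact Or.inr (Or.inl ⟨a, by omega⟩)
    · by_contra hcon
      push Not at hcon
      obtain ⟨-, h1, h2⟩ := hcon
      have h3 : ∀ j, (Fin.cons 0 F.e : Fin (c + 1) → ℤ) j = 0 := by
        intro j
        refine Fin.cases ?_ (fun a => ?_) j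
        · rw [Fin.cons_zero]
        · rw [Fin.cons_succ, h1]
      have h4 : ∀ Q, V.1 Q = 0 := by
        intro Q
        obtain ⟨j, -, hj⟩ := F.att Q
        rw [← hj, h3]
      have h5 : pair V M = 0 := by
        unfold pair
        simp [h4, h2]
      omega
  obtain ⟨Φ, hΦz, hΦx, hbd⟩ := emb R U hU0 δ hδ F.e V.2 cf hcf β hβ I ν hν hne'
  have hlead := fun M (hM : deg M = 0) => lead hc F U hU R hR cf hcf β I Φ hΦz hΦx M hM
  -- the values at the monomials of the ring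
  have hpos : ∀ M (hM : C.mon M ∈ X.A), deg M = 0 →
      LEC.Pos (Φ (C.mon M) - HahnSeries.C (algebraMap k (EE (AlgebraicClosure K) m)
        (ε ⟨C.mon M, hM⟩))) := by
    intro M hM hM0
    obtain ⟨h1, h2, h3⟩ := hlead M hM0
    by_cases hMS : M ∈ X.S y.asIdeal
    · have h4 : pair V M = 0 := (hS M ⟨hM0, hM⟩).2 hMS
      rw [h4] at h2
      have h5 : (Φ (C.mon M)).coeff 0 =
          algebraMap k (EE (AlgebraicClosure K) m) (ε ⟨C.mon M, hM⟩) := by
        rw [LEC.coeff_zero_of_order h2, LEC.lc_apply, h3, hψ M hMS, Lec.ev_eq X ε hM]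
        have h6 : (fun i => if i ∈ I then (0 : ℤ) else ∑ j, β i j * M.2 j) = 0 := by
          funext i
          by_cases hi : i ∈ I
          · rw [if_pos hi]
            rfl
          · rw [if_neg hi]
            exact hIS M hMS i hi
        rw [h6]
        rfl
      intro q hq
      rw [HahnSeries.coeff_sub]
      rcases hq.lt_or_eq with hq | hq
      · rw [LEC.nn_of_order h2.ge q hq, LEC.nn_C _ q hq, sub_zero]
      · rw [hq, h5, LEC.coeff_C_zero, sub_self]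
    · have h4 : ε ⟨C.mon M, hM⟩ = 0 := by
        by_contra h
        exact hMS ((hSd M).2 ⟨hM0, hM, h⟩)
      rw [h4, map_zero, map_zero, sub_zero]
      apply LEC.pos_of_order
      rw [h2]
      have h5 := hA M ⟨hM0, hM⟩
      have h6 : pair V M ≠ 0 := fun h => hMS ((hS M ⟨hM0, hM⟩).1 h)
      omega
  have hΦne : ∀ {a : K}, a ≠ 0 → Φ a ≠ 0 := fun {a} ha => by
    rw [Ne, map_eq_zero]
    exact ha
  -- an element of order one
  have hone' : ∃ a : K, a ≠ 0 ∧ (Φ a).order = 1 := by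
    rcases hone with h | ⟨a, ha⟩ | ⟨M, hM0, hM1⟩
    · obtain ⟨i, hi⟩ := hIne h
      obtain ⟨M, hM, hMb⟩ := hI i hi
      obtain ⟨hM0, hMA, -⟩ := (hSd M).1 hM
      have h1 : (Φ (C.mon M)).order = 0 := by
        rw [(hlead M hM0).2.1]
        exact (hS M ⟨hM0, hMA⟩).2 hM
      exact ⟨_, Lec.one_rk F U R hR Φ hΦz hU cf hcf β I hΦx M hM0 i hi hMb h1 _
        (hpos M hMA hM0)⟩
    · refine ⟨R.y (Fin.natAdd m a), hne _, ?_⟩
      rw [hΦz, ha, HahnSeries.order_mul (LEC.zne LEC.ss_ne 1) (LEC.cc_ne (hU0 a)),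
        LEC.order_cc, add_zero]
      have h1 := LEC.order_zpow (LEC.ss_ne (F := AlgebraicClosure K) (m := m)) 1
      rw [LEC.order_ss] at h1
      exact h1
    · exact ⟨C.mon M, mon_ne hc M, by rw [(hlead M hM0).2.1, hM1]⟩
  obtain ⟨v, hv⟩ := exists_dval Φ hone'
  have htrop : HasTrop C V v := fun M hM => by
    rw [hv _ (mon_ne hc M)]
    exact (hlead M hM).2.1
  have hcen : v.HasCenter X.A y.asIdeal :=
    Lec.center_of X.A y.asIdeal Φ v hv ε hε (Lec.pos_of_mon hc X Φ ε hpos)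
  obtain ⟨j', hj', hj'le⟩ := rf_form_ex R v (1 - (∑ a, F.e a + ∑ i, V.2 i + I.card)) (by
    intro a ha hJ
    rw [hv _ hJ]
    refine hbd a (fun i => ?_) hJ
    by_cases h0 : a i = 0
    · rw [h0, map_zero, HahnSeries.order_zero]
    · rw [← hv _ h0]
      exact ha i h0)
  have hform := rf_form C.rf R v j' hj'
  have hg0 := Lec.lin_g_ne F 0
  have hlin : v.ord (C.lin (F.g 0)) = -V.1 (C.o 0) := by
    have h1 := (Lec.quot_ord F U R hR Φ hΦz hU (C.o 0)).2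
    have h2 : C.ell (C.o 0) / C.lin (F.g 0) = (C.lin (F.g 0))⁻¹ := by
      rw [ell_o, one_div]
    rw [h2, ← hv _ (inv_ne_zero hg0), PHI1.ord_inv v _ hg0] at h1
    omega
  have hJord : v.ord (jac C.rf.D R.y) = (c + 1) * V.1 (C.o 0) := by
    have h1 : jac C.rf.D R.y = algebraMap k K (Matrix.of F.g).det *
        C.lin (F.g 0) ^ (-((c : ℤ) + 1)) := hJR
    rw [h1, v.ord_mul _ _ ((map_ne_zero _).2 F.det) (zpow_ne_zero _ hg0),
      v.ord_algebraMap _ F.det, zero_add, Jac.ord_zpow v _ hg0, hlin]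
    ring
  refine ⟨v, _, hcen, hform, htrop, ?_⟩
  rw [hJord, ← hIcard]
  omega

end LEC

end

end Pool.Agent.MLD.R
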