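import Pool.Agent.Lib.MP_f23696_ag.R.Ctx

/-!
Project LSC-ARR (MP_f23696_ag), module VEC: elementary lemmas on exponents and tropical valuations.
-/

namespace Pool.Agent.MLD.R

open scoped Classical
noncomputable section

variable {c r m : ℕ}

theorem deg_add (M N : Vec r m) : deg (M + N) = deg M + deg N := by
  simp [deg, Finset.sum_add_distrib]

theorem deg_sub (M N : Vec r m) : deg (M - N) = deg M - deg N := by
  simp [deg, Finset.sum_sub_distrib]

theorem deg_zero : deg (0 : Vec r m) = 0 := by simp [deg]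

theorem deg_neg (M : Vec r m) : deg (-M) = -deg M := by simp [deg]

theorem deg_zsmul (n : ℤ) (M : Vec r m) : deg (n • M) = n * deg M := by
  simp [deg, Finset.mul_sum]

theorem deg_nsmul (n : ℕ) (M : Vec r m) : deg (n • M) = n * deg M := by
  simp [deg, Finset.mul_sum]

theorem deg_ee (Q : Fin r) : deg (ee Q : Vec r m) = 1 := by
  simp [deg, ee]

theorem deg_sum {ι : Type*} (s : Finset ι) (F : ι → Vec r m) :
    deg (∑ i ∈ s, F i) = ∑ i ∈ s, deg (F i) := by
  induction s using Finset.induction_on with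
  | empty => simp [deg_zero]
  | insert a s ha ih => rw [Finset.sum_insert ha, Finset.sum_insert ha, deg_add, ih]

theorem pair_add (V M N : Vec r m) : pair V (M + N) = pair V M + pair V N := by
  simp only [pair, Prod.fst_add, Prod.snd_add, Pi.add_apply, mul_add, Finset.sum_add_distrib]
  ring

theorem pair_sub (V M N : Vec r m) : pair V (M - N) = pair V M - pair V N := by
  simp only [pair, Prod.fst_sub, Prod.snd_sub, Pi.sub_apply, mul_sub, Finset.sum_sub_distrib]
  ring

theorem pair_zero (V : Vec r m) : pair V 0 = 0 := by simp [pair]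

theorem pair_neg (V M : Vec r m) : pair V (-M) = -pair V M := by
  have := pair_sub V 0 M
  rw [zero_sub, pair_zero, zero_sub] at this
  exact this

theorem pair_zsmul (V M : Vec r m) (n : ℤ) : pair V (n • M) = n * pair V M := by
  simp only [pair, Prod.smul_fst, Prod.smul_snd, Pi.smul_apply, smul_eq_mul, mul_add,
    Finset.mul_sum]
  congr 1 <;> exact Finset.sum_congr rfl fun _ _ => by ring

theorem pair_nsmul (V M : Vec r m) (n : ℕ) : pair V (n • M) = n * pair V M := by
  rw [← natCast_zsmul, pair_zsmul]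

theorem pair_sum {ι : Type*} (V : Vec r m) (s : Finset ι) (F : ι → Vec r m) :
    pair V (∑ i ∈ s, F i) = ∑ i ∈ s, pair V (F i) := by
  induction s using Finset.induction_on with
  | empty => simp [pair_zero]
  | insert a s ha ih => rw [Finset.sum_insert ha, Finset.sum_insert ha, pair_add, ih]

theorem add_pair (V W M : Vec r m) : pair (V + W) M = pair V M + pair W M := by
  simp only [pair, Prod.fst_add, Prod.snd_add, Pi.add_apply, add_mul, Finset.sum_add_distrib]
  ring

theorem sub_pair (V W M : Vec r m) : pair (V - W) M = pair V M - pair W M := by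
  simp only [pair, Prod.fst_sub, Prod.snd_sub, Pi.sub_apply, sub_mul, Finset.sum_sub_distrib]
  ring

theorem zero_pair (M : Vec r m) : pair 0 M = 0 := by simp [pair]

theorem zsmul_pair (n : ℤ) (V M : Vec r m) : pair (n • V) M = n * pair V M := by
  simp only [pair, Prod.smul_fst, Prod.smul_snd, Pi.smul_apply, smul_eq_mul, mul_add,
    Finset.mul_sum]
  congr 1 <;> exact Finset.sum_congr rfl fun _ _ => by ring

theorem sum_pair {ι : Type*} (M : Vec r m) (s : Finset ι) (F : ι → Vec r m) :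
    pair (∑ i ∈ s, F i) M = ∑ i ∈ s, pair (F i) M := by
  induction s using Finset.induction_on with
  | empty => simp [zero_pair]
  | insert a s ha ih => rw [Finset.sum_insert ha, Finset.sum_insert ha, add_pair, ih]

theorem pair_ee (V : Vec r m) (Q : Fin r) : pair V (ee Q) = V.1 Q := by
  simp only [pair, ee, Pi.zero_apply, mul_zero, Finset.sum_const_zero, add_zero]
  rw [Finset.sum_eq_single Q]
  · rw [Pi.single_eq_same, mul_one]
  · intro Q' _ h
    rw [Pi.single_eq_of_ne h, mul_zero]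
  · intro h
    exact absurd (Finset.mem_univ Q) h

theorem disc_add (c : ℕ) (o : Fin r) (V W : Vec r m) :
    disc c o (V + W) = disc c o V + disc c o W := by
  simp only [disc, Prod.fst_add, Prod.snd_add, Pi.add_apply, Finset.sum_add_distrib]
  ring

theorem disc_sub (c : ℕ) (o : Fin r) (V W : Vec r m) :
    disc c o (V - W) = disc c o V - disc c o W := by
  simp only [disc, Prod.fst_sub, Prod.snd_sub, Pi.sub_apply, Finset.sum_sub_distrib]
  ring

theorem disc_zero (c : ℕ) (o : Fin r) : disc c o (0 : Vec r m) = 0 := by simp [disc]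

theorem disc_zsmul (c : ℕ) (o : Fin r) (n : ℤ) (V : Vec r m) :
    disc c o (n • V) = n * disc c o V := by
  simp only [disc, Prod.smul_fst, Prod.smul_snd, Pi.smul_apply, smul_eq_mul]
  rw [← Finset.mul_sum, ← Finset.mul_sum]
  ring

theorem pairR_add (γ : Vec r m →₀ ℝ) (V W : Vec r m) :
    pairR (V + W) γ = pairR V γ + pairR W γ := by
  unfold pairR Finsupp.sum
  rw [← Finset.sum_add_distrib]
  refine Finset.sum_congr rfl fun M _ => ?_
  simp only [add_pair]
  push_cast
  ring

theorem pairR_zsmul (γ : Vec r m →₀ ℝ) (n : ℤ) (V : Vec r m) :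
    pairR (n • V) γ = n * pairR V γ := by
  unfold pairR Finsupp.sum
  rw [Finset.mul_sum]
  refine Finset.sum_congr rfl fun M _ => ?_
  simp only [zsmul_pair]
  push_cast
  ring

theorem ld_add (c : ℕ) (o : Fin r) (γ : Vec r m →₀ ℝ) (V W : Vec r m) :
    ld c o γ (V + W) = ld c o γ V + ld c o γ W := by
  unfold ld
  rw [disc_add, pairR_add]
  push_cast
  ring

theorem ld_zsmul (c : ℕ) (o : Fin r) (γ : Vec r m →₀ ℝ) (n : ℤ) (V : Vec r m) :
    ld c o γ (n • V) = n * ld c o γ V := by
  unfold ld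
  rw [disc_zsmul, pairR_zsmul]
  push_cast
  ring

theorem ld_zero (c : ℕ) (o : Fin r) (γ : Vec r m →₀ ℝ) : ld c o γ (0 : Vec r m) = 0 := by
  have := ld_zsmul c o γ 0 (0 : Vec r m)
  simpa using this

theorem ld_sub (c : ℕ) (o : Fin r) (γ : Vec r m →₀ ℝ) (V W : Vec r m) :
    ld c o γ (V - W) = ld c o γ V - ld c o γ W := by
  have h := ld_add c o γ (V - W) W
  rw [sub_add_cancel] at h
  linarith

theorem ld_sum {ι : Type*} (c : ℕ) (o : Fin r) (γ : Vec r m →₀ ℝ) (s : Finset ι)
    (F : ι → Vec r m) : ld c o γ (∑ i ∈ s, F i) = ∑ i ∈ s, ld c o γ (F i) := by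
  induction s using Finset.induction_on with
  | empty => simp [ld_zero]
  | insert a s ha ih => rw [Finset.sum_insert ha, Finset.sum_insert ha, ld_add, ih]

/-- constant heights `(1, …, 1)`: they vanish on the monomials of degree zero -/
def one1 : Vec r m := (fun _ => 1, 0)

theorem pair_one1 (M : Vec r m) : pair one1 M = deg M := by simp [pair, one1, deg]

theorem ld_one1 (c : ℕ) (o : Fin r) (γ : Vec r m →₀ ℝ) (hγ : ∀ M ∈ γ.support, deg M = 0) :
    ld c o γ (one1 : Vec r m) = (r : ℝ) - c - 1 := by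
  have h1 : pairR (one1 : Vec r m) γ = 0 := by
    unfold pairR Finsupp.sum
    refine Finset.sum_eq_zero fun M hM => ?_
    simp only [pair_one1, hγ M hM]
    simp
  have h2 : disc c o (one1 : Vec r m) = r - c - 1 := by
    simp [disc, one1]
    ring
  rw [ld, h1, h2]
  push_cast
  ring

theorem mem_supp (V : Vec r m) (Q : Fin r) : Q ∈ supp V ↔ V.1 Q ≠ 0 := by simp [supp]

theorem exists_zero {V : Vec r m} (hV : Trop c V) (hc : c < r) : ∃ Q, V.1 Q = 0 := by
  by_contra h
  push Not at h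
  have h1 : supp V = Finset.univ := by
    ext Q
    simp [mem_supp, h Q]
  have h2 := hV.card
  rw [h1, Finset.card_univ, Fintype.card_fin] at h2
  omega

theorem Trop.pos {V : Vec r m} (hV : Trop c V) {Q : Fin r} (hQ : Q ∈ supp V) : 0 < V.1 Q :=
  lt_of_le_of_ne (hV.nonneg Q) (Ne.symm ((mem_supp V Q).1 hQ))

theorem Trop.ext0 {V : Vec r m} (hV : Trop 1 V) {Q Q' : Fin r} (hQ : V.1 Q ≠ 0) (h : Q' ≠ Q) :
    V.1 Q' = 0 := by
  by_contra h'
  have h1 := Finset.card_le_one.1 hV.card Q ((mem_supp V Q).2 hQ) Q' ((mem_supp V Q').2 h')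
  exact h h1.symm

theorem pair_eq_of_ext0 {V : Vec r m} {Q : Fin r} (h : ∀ Q' ≠ Q, V.1 Q' = 0) (M : Vec r m) :
    pair V M = V.1 Q * M.1 Q + ∑ i, V.2 i * M.2 i := by
  unfold pair
  rw [Finset.sum_eq_single Q]
  · intro Q' _ hQ'
    rw [h Q' hQ', zero_mul]
  · intro h'
    exact absurd (Finset.mem_univ Q) h'

theorem MA_add {E : Finset (Vec r m)} {M N : Vec r m} (hM : M ∈ MA E) (hN : N ∈ MA E) :
    M + N ∈ MA E := by
  refine ⟨by rw [deg_add, hM.1, hN.1, add_zero], fun V hV => ?_⟩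
  rw [pair_add]
  exact add_nonneg (hM.2 V hV) (hN.2 V hV)

theorem MA_zero (E : Finset (Vec r m)) : (0 : Vec r m) ∈ MA E :=
  ⟨deg_zero, fun V _ => by rw [pair_zero]⟩

theorem MA_nsmul {E : Finset (Vec r m)} {M : Vec r m} (hM : M ∈ MA E) (n : ℕ) :
    n • M ∈ MA E := by
  induction n with
  | zero => rw [zero_smul]; exact MA_zero E
  | succ n ih => rw [succ_nsmul]; exact MA_add ih hM

theorem MA_sum {E : Finset (Vec r m)} {ι : Type*} (s : Finset ι) (F : ι → Vec r m)
    (h : ∀ i ∈ s, F i ∈ MA E) : ∑ i ∈ s, F i ∈ MA E := by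
  induction s using Finset.induction_on with
  | empty => rw [Finset.sum_empty]; exact MA_zero E
  | insert a s ha ih =>
    rw [Finset.sum_insert ha]
    exact MA_add (h a (Finset.mem_insert_self _ _))
      (ih fun i hi => h i (Finset.mem_insert_of_mem hi))

theorem IsFace.sum {E : Finset (Vec r m)} {Z : Set (Vec r m)} (hZ : IsFace E Z) {ι : Type*}
    (s : Finset ι) (F : ι → Vec r m) (h : ∀ i ∈ s, F i ∈ Z) : ∑ i ∈ s, F i ∈ Z := by
  induction s using Finset.induction_on with
  | empty => rw [Finset.sum_empty]; exact hZ.zero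
  | insert a s ha ih =>
    rw [Finset.sum_insert ha]
    exact hZ.add _ (h a (Finset.mem_insert_self _ _)) _
      (ih fun i hi => h i (Finset.mem_insert_of_mem hi))

theorem IsFace.nsmul {E : Finset (Vec r m)} {Z : Set (Vec r m)} (hZ : IsFace E Z) {M : Vec r m}
    (hM : M ∈ Z) (n : ℕ) : n • M ∈ Z := by
  induction n with
  | zero => rw [zero_smul]; exact hZ.zero
  | succ n ih => rw [succ_nsmul]; exact hZ.add _ ih _ hM

/-- the exchange property -/
theorem exch {E : Finset (Vec r m)} (hE : ∀ V ∈ E, Trop 1 V) {M M' : Vec r m} (hM : M ∈ MA E)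
    (hM' : M' ∈ MA E) (hu : M.2 = M'.2) {Q : Fin r} (hQ : M'.1 Q < M.1 Q) (i : Fin r) :
    M + ee i - ee Q ∈ MA E := by
  refine ⟨by rw [deg_sub, deg_add, deg_ee, deg_ee, hM.1]; ring, fun V hV => ?_⟩
  rw [pair_sub, pair_add, pair_ee, pair_ee]
  have h1 := hM.2 V hV
  have h2 := (hE V hV).nonneg i
  by_cases hVQ : V.1 Q = 0
  · rw [hVQ]
    linarith
  · have h3 := hM'.2 V hV
    have h4 : ∀ Q' ≠ Q, V.1 Q' = 0 := fun Q' h => (hE V hV).ext0 hVQ h
    rw [pair_eq_of_ext0 h4] at h1 h3 ⊢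
    rw [hu]
    have h5 := (hE V hV).nonneg Q
    have h6 : M'.1 Q + 1 ≤ M.1 Q := hQ
    nlinarith

theorem zeroSet_face {E : Finset (Vec r m)} {V : Vec r m} (hV : ∀ M ∈ MA E, 0 ≤ pair V M) :
    IsFace E (zeroSet E V) where
  sub M hM := hM.1
  zero := ⟨MA_zero E, pair_zero V⟩
  add M hM M' hM' := ⟨MA_add hM.1 hM'.1, by rw [pair_add, hM.2, hM'.2, add_zero]⟩
  face M hM M' hM' h := by
    refine ⟨hM, ?_⟩
    have h1 := h.2
    rw [pair_add] at h1
    have h2 := hV M hM
    have h3 := hV M' hM'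
    omega

/-- if `M` is nonnegative at all `V ∈ E` vanishing on the face `Z` then `N + M ∈ MA E`, `N ∈ Z` -/
theorem nmon {E : Finset (Vec r m)} {Z : Set (Vec r m)} (hZ : IsFace E Z) (M : Vec r m)
    (h0 : deg M = 0) (h : ∀ V ∈ E, (∀ N ∈ Z, pair V N = 0) → 0 ≤ pair V M) :
    ∃ N ∈ Z, N + M ∈ MA E := by
  have h1 : ∀ V : Vec r m, ∃ N ∈ Z, V ∈ E → 0 ≤ pair V (N + M) := by
    intro V
    by_cases hV : V ∈ E
    · by_cases hN : ∀ N ∈ Z, pair V N = 0
      · exact ⟨0, hZ.zero, fun _ => by rw [zero_add]; exact h V hV hN⟩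
      · push Not at hN
        obtain ⟨N, hN, hne⟩ := hN
        have hpos : 0 < pair V N := lt_of_le_of_ne ((hZ.sub hN).2 V hV) (Ne.symm hne)
        refine ⟨(pair V M).natAbs • N, hZ.nsmul hN _, fun _ => ?_⟩
        rw [pair_add, pair_nsmul]
        have h2 : -((pair V M).natAbs : ℤ) ≤ pair V M := by omega
        have h3 : (0 : ℤ) ≤ (pair V M).natAbs := by positivity
        nlinarith
    · exact ⟨0, hZ.zero, fun h => absurd h hV⟩
  choose F hF hF' using h1
  refine ⟨∑ V ∈ E, F V, hZ.sum E F fun V _ => hF V, ?_, fun V hV => ?_⟩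
  · rw [deg_add, h0, add_zero, (hZ.sub (hZ.sum E F fun V _ => hF V)).1]
  · have h2 := hF' V hV
    rw [pair_add] at h2 ⊢
    rw [pair_sum, ← Finset.add_sum_erase E _ hV]
    have h3 : 0 ≤ ∑ W ∈ E.erase V, pair V (F W) :=
      Finset.sum_nonneg fun W _ => (hZ.sub (hF W)).2 V hV
    linarith

/-- two monomials of the same degree in the zero set of `V` agree at the forms in `supp V` -/
theorem agree {E : Finset (Vec r m)} (hE : ∀ V ∈ E, Trop 1 V) {V : Vec r m} (hV : Trop c V)
    (hc : c < r) (hA : ∀ M ∈ MA E, 0 ≤ pair V M) {M N : Vec r m} (hM : M ∈ zeroSet E V)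
    (hN : N ∈ zeroSet E V) (hu : M.2 = N.2) {Q : Fin r} (hQ : Q ∈ supp V) : M.1 Q = N.1 Q := by
  obtain ⟨i, hi⟩ := exists_zero hV hc
  have key : ∀ M N : Vec r m, M ∈ zeroSet E V → N ∈ zeroSet E V → M.2 = N.2 →
      ¬ N.1 Q < M.1 Q := by
    intro M N hM hN hu hlt
    have h1 := hA _ (exch hE hM.1 hN.1 hu hlt i)
    rw [pair_sub, pair_add, pair_ee, pair_ee, hM.2, hi] at h1
    have := hV.pos hQ
    omega
  have h1 := key M N hM hN hu
  have h2 := key N M hN hM hu.symm
  omega

end

end Pool.Agent.MLD.R
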