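import Pool.Agent.Lib.MP_f23696_ag.R.Jst
import Pool.Agent.Lib.MP_f23696_ag.R.Vec

/-!
Project LSC-ARR (MP_f23696_ag), module STP: the step from a tropical valuation `V` vanishing on
`S` to one which is positive at a given monomial outside `S`.
-/

namespace Pool.Agent.MLD.R

open scoped Classical
noncomputable section

universe u v w

variable {c r m : ℕ}

namespace Stp

/-- one element of `S` for finitely many exchanges -/
theorem gather (X : CD c r m) (Q : Fin r)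
    (h : ∀ W ∈ X.E, (∀ M ∈ X.S, pair W M = 0) → W.1 Q ≤ 0) (J : Finset (Fin r)) :
    ∃ N ∈ X.S, ∀ i ∈ J, N + ee i - ee Q ∈ MA X.E := by
  have h1 : ∀ i : Fin r, ∃ N ∈ X.S, N + (ee i - ee Q) ∈ MA X.E := by
    intro i
    refine nmon X.face (ee i - ee Q) (by rw [deg_sub, deg_ee, deg_ee, sub_self]) ?_
    intro W hW hWS
    rw [pair_sub, pair_ee, pair_ee]
    have h2 := h W hW hWS
    have h3 := (X.trop W hW).nonneg i
    omega
  choose F hF hF' using h1
  refine ⟨∑ i ∈ J, F i, X.face.sum J F fun i _ => hF i, fun i hi => ?_⟩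
  have h2 : ∑ i ∈ J, F i + ee i - ee Q = (F i + (ee i - ee Q)) + ∑ j ∈ J.erase i, F j := by
    rw [← Finset.add_sum_erase J F hi]
    abel
  rw [h2]
  exact MA_add (hF' i) (MA_sum _ _ fun j _ => X.face.sub (hF j))

theorem fst_sum {ι : Type*} (s : Finset ι) (F : ι → Vec r m) (Q : Fin r) :
    (∑ i ∈ s, F i).1 Q = ∑ i ∈ s, (F i).1 Q := by
  rw [Prod.fst_sum, Finset.sum_apply]

/-- combinations of `V`, the `x Q` and the constant heights -/
theorem comb (X : CD c r m) (V : Vec r m) (x : Fin r → Vec r m) (hx : ∀ Q, x Q ∈ X.E)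
    (hxS : ∀ Q, ∀ M ∈ X.S, pair (x Q) M = 0) (hxQ : ∀ Q, 0 < (x Q).1 Q)
    (hS : ∀ M ∈ X.S, pair V M = 0) (M₀ : Vec r m) (hM : M₀ ∈ MA X.E) (h0 : 0 ≤ pair V M₀)
    (Q₁ : Fin r) (hQ₁ : 0 < pair (x Q₁) M₀) (n : Fin r → ℤ) (j : ℤ) (hn : ∀ Q, 0 ≤ n Q)
    (hn1 : 0 < n Q₁) (hh : ∀ Q, 0 ≤ V.1 Q + n Q * (x Q).1 Q - j)
    (hcard : (Finset.univ.filter fun Q => V.1 Q + n Q * (x Q).1 Q - j ≠ 0).card ≤ c)
    (hld : (∑ Q, (n Q : ℝ)) - j * ((r : ℝ) - c - 1) ≤ 1) :
    ∃ V', Trop c V' ∧ (∀ M ∈ MA X.E, pair V M ≤ pair V' M) ∧ (∀ M ∈ X.S, pair V' M = 0) ∧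
      0 < pair V' M₀ ∧ ld c X.o X.γ V' ≤ ld c X.o X.γ V + 1 := by
  have hdiag : ∀ Q Q', Q' ≠ Q → (x Q).1 Q' = 0 := fun Q Q' hne =>
    (X.trop _ (hx Q)).ext0 (hxQ Q).ne' hne
  set V' : Vec r m := V + ∑ Q, n Q • x Q - j • one1 with hV'
  have h1 : ∀ Q, V'.1 Q = V.1 Q + n Q * (x Q).1 Q - j := by
    intro Q
    rw [hV', Prod.fst_sub, Pi.sub_apply, Prod.fst_add, Pi.add_apply, fst_sum,
      Finset.sum_eq_single Q]
    · simp [one1]
    · intro Q' _ hne
      rw [Prod.smul_fst, Pi.smul_apply, hdiag Q' Q hne.symm, smul_zero]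
    · intro h
      exact absurd (Finset.mem_univ Q) h
  have h2 : ∀ M : Vec r m, deg M = 0 → pair V' M = pair V M + ∑ Q, n Q * pair (x Q) M := by
    intro M hM
    rw [hV', sub_pair, add_pair, sum_pair, zsmul_pair, pair_one1, hM, mul_zero, sub_zero]
    congr 1
    exact Finset.sum_congr rfl fun Q _ => zsmul_pair _ _ _
  have h3 : ∀ M ∈ MA X.E, ∀ Q, 0 ≤ n Q * pair (x Q) M := fun M hM Q =>
    mul_nonneg (hn Q) (hM.2 _ (hx Q))
  refine ⟨V', ⟨fun Q => by rw [h1]; exact hh Q, ?_⟩, ?_, ?_, ?_, ?_⟩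
  · refine le_trans (le_of_eq ?_) hcard
    unfold supp
    simp only [h1]
  · intro M hM
    rw [h2 M hM.1]
    have := Finset.sum_nonneg fun Q (_ : Q ∈ Finset.univ) => h3 M hM Q
    linarith
  · intro M hMS
    rw [h2 M (X.face.sub hMS).1, hS M hMS, zero_add]
    exact Finset.sum_eq_zero fun Q _ => by rw [hxS Q M hMS, mul_zero]
  · rw [h2 M₀ hM.1]
    have h4 : n Q₁ * pair (x Q₁) M₀ ≤ ∑ Q, n Q * pair (x Q) M₀ :=
      Finset.single_le_sum (fun Q _ => h3 M₀ hM Q) (Finset.mem_univ Q₁)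
    have h5 : 0 < n Q₁ * pair (x Q₁) M₀ := mul_pos hn1 hQ₁
    linarith
  · have h4 : ld c X.o X.γ V' = ld c X.o X.γ V + ∑ Q, (n Q : ℝ) * ld c X.o X.γ (x Q) -
        j * ((r : ℝ) - c - 1) := by
      rw [hV', ld_sub, ld_add, ld_sum, ld_zsmul, ld_one1 c X.o X.γ X.γ0]
      congr 2
      exact Finset.sum_congr rfl fun Q _ => ld_zsmul _ _ _ _ _
    have h5 : ∑ Q, (n Q : ℝ) * ld c X.o X.γ (x Q) ≤ ∑ Q, (n Q : ℝ) := by
      refine Finset.sum_le_sum fun Q _ => ?_
      have h6 := X.ld_le (x Q) (hx Q) (hxS Q)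
      have h7 : (0 : ℝ) ≤ n Q := by exact_mod_cast hn Q
      nlinarith
    rw [h4]
    linarith

end Stp

theorem step (X : CD c r m) (V : Vec r m) (hV : Trop c V) (hA : ∀ M ∈ MA X.E, 0 ≤ pair V M)
    (hS : ∀ M ∈ X.S, pair V M = 0) (M₀ : Vec r m) (hM : M₀ ∈ MA X.E) (hMS : M₀ ∉ X.S) :
    ∃ V', Trop c V' ∧ (∀ M ∈ MA X.E, pair V M ≤ pair V' M) ∧ (∀ M ∈ X.S, pair V' M = 0) ∧
      0 < pair V' M₀ ∧ ld c X.o X.γ V' ≤ ld c X.o X.γ V + 1 := by
  have hE1 : ∃ W ∈ X.E, (∀ M ∈ X.S, pair W M = 0) ∧ 0 < pair W M₀ := by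
    by_contra hcon
    push Not at hcon
    obtain ⟨N, hN, hNM⟩ := nmon X.face (-M₀) (by rw [deg_neg, hM.1, neg_zero]) fun W hW hWS => by
      rw [pair_neg]
      have := hcon W hW hWS
      omega
    refine hMS (X.face.face M₀ hM (N + -M₀) hNM ?_)
    rw [show M₀ + (N + -M₀) = N by abel]
    exact hN
  obtain ⟨E₁, hE₁, hE₁S, hE₁M⟩ := hE1
  by_cases hc1 : (supp V ∪ supp E₁).card ≤ c
  · refine ⟨V + E₁, ⟨fun Q => ?_, ?_⟩, ?_, ?_, ?_, ?_⟩
    · rw [Prod.fst_add, Pi.add_apply]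
      exact add_nonneg (hV.nonneg Q) ((X.trop _ hE₁).nonneg Q)
    · refine le_trans (Finset.card_le_card ?_) hc1
      intro Q hQ
      rw [mem_supp, Prod.fst_add, Pi.add_apply] at hQ
      rw [Finset.mem_union, mem_supp, mem_supp]
      by_contra h
      push Not at h
      exact hQ (by rw [h.1, h.2, add_zero])
    · intro M hM
      rw [add_pair]
      have := hM.2 _ hE₁
      linarith
    · intro M hM
      rw [add_pair, hS M hM, hE₁S M hM, add_zero]
    · rw [add_pair]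
      have := hA M₀ hM
      linarith
    · rw [ld_add]
      have := X.ld_le _ hE₁ hE₁S
      linarith
  · push Not at hc1
    have h1 := Finset.card_union_le (supp V) (supp E₁)
    have h2 := hV.card
    have h3 := (X.trop _ hE₁).card
    have hVc : (supp V).card = c := by omega
    have hnot : ¬ supp E₁ ⊆ supp V := by
      intro h
      rw [Finset.union_eq_left.2 h] at hc1
      omega
    obtain ⟨Q₁, hQ₁, hQ₁V⟩ := Finset.not_subset.1 hnot
    have hQ₁V0 : V.1 Q₁ = 0 := by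
      rw [mem_supp] at hQ₁V
      exact not_not.1 hQ₁V
    have hQ₁E : E₁.1 Q₁ ≠ 0 := (mem_supp _ _).1 hQ₁
    have hQ₁p : 0 < E₁.1 Q₁ := (X.trop _ hE₁).pos hQ₁
    -- every form carries a prime divisor through the point
    have hcl : ∀ Q, ∃ W ∈ X.E, (∀ M ∈ X.S, pair W M = 0) ∧ 0 < W.1 Q := by
      intro Q
      by_contra hcon
      push Not at hcon
      have hQne : Q ≠ Q₁ := by
        rintro rfl
        have := hcon E₁ hE₁ hE₁S
        omega
      by_cases hQV : Q ∈ supp V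
      · obtain ⟨N, hN, hN'⟩ := Stp.gather X Q hcon Finset.univ
        obtain ⟨i, hi⟩ := exists_zero hV X.lt
        have h4 := hA _ (hN' i (Finset.mem_univ i))
        rw [pair_sub, pair_add, pair_ee, pair_ee, hS N hN, hi] at h4
        have := hV.pos hQV
        omega
      · obtain ⟨N, hN, hN'⟩ := Stp.gather X Q hcon (insert Q₁ (supp V))
        obtain ⟨i, hi, hiS⟩ := X.rel (insert Q₁ (supp V))
          (by rw [Finset.card_insert_of_notMem hQ₁V, hVc]) Q (by
            rw [Finset.mem_insert, not_or]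
            exact ⟨hQne, hQV⟩) N hN hN'
        have h4 := hS _ hiS
        rw [pair_sub, pair_add, pair_ee, pair_ee, hS N hN] at h4
        have h5 := hE₁S _ hiS
        rw [pair_sub, pair_add, pair_ee, pair_ee, hE₁S N hN, (X.trop _ hE₁).ext0 hQ₁E hQne] at h5
        have h6 : V.1 Q = 0 := by
          rw [mem_supp] at hQV
          exact not_not.1 hQV
        rw [h6] at h4
        have h7 : V.1 i = 0 := by omega
        rcases Finset.mem_insert.1 hi with rfl | hi'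
        · omega
        · exact (mem_supp _ _).1 hi' h7
    choose x₀ hx₀ hx₀S hx₀Q using hcl
    -- choose `E₁` at `Q₁`
    set x : Fin r → Vec r m := fun Q => if Q = Q₁ then E₁ else x₀ Q with hxd
    have hx : ∀ Q, x Q ∈ X.E := by
      intro Q
      rw [hxd]
      dsimp only
      split_ifs
      · exact hE₁
      · exact hx₀ Q
    have hxS : ∀ Q, ∀ M ∈ X.S, pair (x Q) M = 0 := by
      intro Q
      rw [hxd]
      dsimp only
      split_ifs
      · exact hE₁S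
      · exact hx₀S Q
    have hxQ : ∀ Q, 0 < (x Q).1 Q := by
      intro Q
      rw [hxd]
      dsimp only
      split_ifs with h
      · rw [h]
        exact hQ₁p
      · exact hx₀Q Q
    have hxQ₁ : x Q₁ = E₁ := by
      rw [hxd]
      dsimp only
      rw [if_pos rfl]
    have hxM : 0 < pair (x Q₁) M₀ := by
      rw [hxQ₁]
      exact hE₁M
    by_cases hs : (r : ℚ) - c - 1 < ∑ Q, 1 / (((x Q).1 Q : ℤ) : ℚ)
    · obtain ⟨j, n, hj, hn, hn1, hnj, hcard, hsum⟩ :=
        jstar r c X.lt V.1 (fun Q => (x Q).1 Q) hxQ hV.nonneg hVc hs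
      refine Stp.comb X V x hx hxS hxQ hS M₀ hM (hA M₀ hM) Q₁ hxM n j hn ?_ ?_ hcard ?_
      · have := hn1 Q₁ hQ₁V0
        omega
      · intro Q
        have := hnj Q
        linarith
      · exact_mod_cast hsum
    · push Not at hs
      set Λ : ℤ := ∏ Q, (x Q).1 Q with hΛ
      have hΛpos : 0 < Λ := Finset.prod_pos fun Q _ => hxQ Q
      set n : Fin r → ℤ := fun Q => ∏ Q' ∈ Finset.univ.erase Q, (x Q').1 Q' with hn
      have hnpos : ∀ Q, 0 < n Q := fun Q => Finset.prod_pos fun Q' _ => hxQ Q'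
      have hnΛ : ∀ Q, n Q * (x Q).1 Q = Λ := fun Q =>
        Finset.prod_erase_mul _ _ (Finset.mem_univ Q)
      refine Stp.comb X V x hx hxS hxQ hS M₀ hM (hA M₀ hM) Q₁ hxM n Λ (fun Q => (hnpos Q).le)
        (hnpos Q₁) ?_ ?_ ?_
      · intro Q
        rw [hnΛ, add_sub_cancel_right]
        exact hV.nonneg Q
      · simp only [hnΛ, add_sub_cancel_right]
        exact h2
      · have h4 : (∑ Q, (n Q : ℚ)) = Λ * ∑ Q, 1 / (((x Q).1 Q : ℤ) : ℚ) := by
          rw [Finset.mul_sum]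
          refine Finset.sum_congr rfl fun Q _ => ?_
          have h5 : (((x Q).1 Q : ℤ) : ℚ) ≠ 0 := by exact_mod_cast (hxQ Q).ne'
          rw [mul_one_div, eq_div_iff h5]
          exact_mod_cast hnΛ Q
        have h5 : (∑ Q, (n Q : ℚ)) - Λ * ((r : ℚ) - c - 1) ≤ 0 := by
          rw [h4, ← mul_sub]
          have h6 : (0 : ℚ) < Λ := by exact_mod_cast hΛpos
          nlinarith
        have h6 : (∑ Q, (n Q : ℝ)) - Λ * ((r : ℝ) - c - 1) ≤ 0 := by exact_mod_cast h5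
        linarith

end

end Pool.Agent.MLD.R
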